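import Pool.Agent.H48.CN.Stm

/-!
Class numbers of finite solvable groups, row A1: class numbers `kp` of subgroups, quotients,
abelian sections.
-/

set_option autoImplicit false

namespace H48.CN

open MulAction

universe u

/-! ### counting commuting pairs -/

section pairs

variable (p : ℕ) (G : Type u) [Group G]

/-- the elements of order prime to `p` under conjugation -/
def a1S : SubMulAction (ConjAct G) G where
  carrier := {g | (orderOf g).Coprime p}
  smul_mem' := by
    intro c g hg
    have h : orderOf (c • g) = orderOf g := by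
      have h2 : c • g = MulDistribMulAction.toMulEquiv G c g := rfl
      rw [h2]
      exact MulEquiv.orderOf_eq _ _
    show (orderOf (c • g)).Coprime p
    rw [h]; exact hg

/-- the commuting pairs -/
def A1P : Type u := {x : G × G // Commute x.1 x.2 ∧ (orderOf x.1).Coprime p}

/-- the orbits are the classes -/
noncomputable def a1Q : Quotient (orbitRel (ConjAct G) (a1S p G)) →
    {c : ConjClasses G // ∃ g : G, ConjClasses.mk g = c ∧ (orderOf g).Coprime p} :=
  Quotient.lift (fun g => ⟨ConjClasses.mk g.1, g.1, rfl, g.2⟩) (by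
    intro a b hab
    apply Subtype.ext
    show ConjClasses.mk a.1 = ConjClasses.mk b.1
    rw [ConjClasses.mk_eq_mk_iff_isConj]
    obtain ⟨c, hc⟩ := hab
    have hc' : ConjAct.ofConjAct c * b.1 * (ConjAct.ofConjAct c)⁻¹ = a.1 := by
      have := congrArg Subtype.val hc
      rw [← this]
      rfl
    exact (isConj_iff.mpr ⟨_, hc'⟩).symm)

theorem a1Q_bij : Function.Bijective (a1Q p G) := by
  constructor
  · intro a b hab
    induction a using Quotient.inductionOn with | _ a => ?_
    induction b using Quotient.inductionOn with | _ b => ?_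
    have h : ConjClasses.mk a.1 = ConjClasses.mk b.1 := congrArg Subtype.val hab
    rw [ConjClasses.mk_eq_mk_iff_isConj] at h
    obtain ⟨c, hc⟩ := isConj_iff.mp h.symm
    apply Quotient.sound
    refine ⟨ConjAct.toConjAct c, ?_⟩
    apply Subtype.ext
    exact hc
  · rintro ⟨c, g, rfl, hg⟩
    exact ⟨Quotient.mk _ ⟨g, hg⟩, rfl⟩

/-- pairs as fixed points -/
def a1E : (Σ a : ConjAct G, fixedBy (a1S p G) a) ≃ A1P p G where
  toFun x := ⟨(x.2.1.1, ConjAct.ofConjAct x.1), by
    have h : x.1 • x.2.1 = x.2.1 := x.2.2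
    have h2 : ConjAct.ofConjAct x.1 * x.2.1.1 * (ConjAct.ofConjAct x.1)⁻¹ = x.2.1.1 :=
      congrArg Subtype.val h
    refine ⟨?_, x.2.1.2⟩
    rw [mul_inv_eq_iff_eq_mul] at h2
    exact h2.symm⟩
  invFun x := ⟨ConjAct.toConjAct x.1.2, ⟨⟨x.1.1, x.2.2⟩, by
    apply Subtype.ext
    show x.1.2 * x.1.1 * (x.1.2)⁻¹ = x.1.1
    rw [mul_inv_eq_iff_eq_mul]
    exact x.2.1.symm⟩⟩
  left_inv x := rfl
  right_inv x := rfl

theorem a1_card : Nat.card (A1P p G) = kp p G * Nat.card G := by
  rw [← Nat.card_congr (a1E p G),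
    Nat.card_congr (sigmaFixedByEquivOrbitsProdGroup (ConjAct G) (a1S p G)), Nat.card_prod,
    Nat.card_congr (Equiv.ofBijective _ (a1Q_bij p G))]
  rfl

end pairs

theorem a1a : SA1a.{u} := by
  intro p G' G _ _ _ f hf
  rw [← a1_card, ← a1_card]
  haveI : Finite (A1P p G) := by unfold A1P; infer_instance
  refine Nat.card_le_card_of_injective
    (fun x : A1P p G' => (⟨(f x.1.1, f x.1.2), x.2.1.map f, by
      have := x.2.2
      rwa [← orderOf_injective f hf] at this⟩ : A1P p G)) ?_
  intro x y hxy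
  have h := congrArg Subtype.val hxy
  apply Subtype.ext
  apply Prod.ext
  · exact hf (congrArg Prod.fst h)
  · exact hf (congrArg Prod.snd h)

/-- lifting elements of order prime to `p` -/
theorem a1_lift (p : ℕ) [hp : Fact p.Prime] {G G' : Type u} [Group G] [Group G'] [Finite G]
    (f : G →* G') (hf : Function.Surjective f) (y : G') (hy : (orderOf y).Coprime p) :
    ∃ x : G, f x = y ∧ (orderOf x).Coprime p := by
  obtain ⟨x, rfl⟩ := hf y
  have hn : orderOf x ≠ 0 := (orderOf_pos x).ne'
  obtain ⟨a, m, hm, hx⟩ := Nat.exists_eq_pow_mul_and_not_dvd hn p hp.out.ne_one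
  have hcop : (p ^ a).Coprime m :=
    Nat.Coprime.pow_left a ((Nat.Prime.coprime_iff_not_dvd hp.out).mpr hm)
  obtain ⟨e, he1, he2⟩ := Nat.chineseRemainder hcop 0 1
  refine ⟨x ^ e, ?_, ?_⟩
  · rw [map_pow]
    have hd : orderOf (f x) ∣ m := by
      have h1 : orderOf (f x) ∣ p ^ a * m := hx ▸ orderOf_map_dvd f x
      exact (Nat.Coprime.pow_right a hy).dvd_of_dvd_mul_left h1
    have h2 : e ≡ 1 [MOD orderOf (f x)] := he2.of_dvd hd
    calc f x ^ e = f x ^ 1 := pow_eq_pow_iff_modEq.mpr h2
      _ = f x := pow_one _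
  · have hd : orderOf (x ^ e) ∣ m := by
      apply orderOf_dvd_of_pow_eq_one
      rw [← pow_mul]
      apply orderOf_dvd_iff_pow_eq_one.mp
      rw [hx]
      exact Nat.mul_dvd_mul_right ((Nat.modEq_zero_iff_dvd).mp he1) m
    exact Nat.Coprime.coprime_dvd_left hd
      ((Nat.Prime.coprime_iff_not_dvd hp.out).mpr hm).symm

theorem a1b : SA1b.{u} := by
  intro p _ G G' _ _ _ f hf
  haveI : Finite (ConjClasses G) := Quotient.finite _
  constructor
  · refine Nat.card_le_card_of_surjective
      (fun c : {c : ConjClasses G // ∃ g : G, ConjClasses.mk g = c ∧ (orderOf g).Coprime p} =>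
        (⟨ConjClasses.map f c.1, by
          obtain ⟨c, g, rfl, hg⟩ := c
          exact ⟨f g, rfl, Nat.Coprime.coprime_dvd_left (orderOf_map_dvd f g) hg⟩⟩ :
        {c : ConjClasses G' // ∃ g : G', ConjClasses.mk g = c ∧ (orderOf g).Coprime p})) ?_
    rintro ⟨c, y, rfl, hy⟩
    obtain ⟨x, hx, hx2⟩ := a1_lift p f hf y hy
    refine ⟨⟨ConjClasses.mk x, x, rfl, hx2⟩, ?_⟩
    apply Subtype.ext
    show ConjClasses.mk (f x) = ConjClasses.mk y
    rw [hx]
  · exact Nat.card_le_card_of_injective _ Subtype.val_injective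

theorem a1c (h : SA1b.{u}) : SA1c.{u} := by
  intro p L _ G _ _ N A Z _ hNA hcop hZ hcom
  classical
  refine le_trans ?_ (Nat.mul_le_mul_left L
    (h p G (G ⧸ N) (QuotientGroup.mk' N) (QuotientGroup.mk'_surjective N)).1)
  have hcard : N.relIndex A = Nat.card (A.map (QuotientGroup.mk' N)) := by
    have h1 := Subgroup.relIndex_ker (QuotientGroup.mk' N) (K := A)
    rwa [QuotientGroup.ker_mk'] at h1
  rw [hcard] at hcop ⊢
  have hord : ∀ y ∈ A.map (QuotientGroup.mk' N), (orderOf y).Coprime p := by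
    intro y hy
    exact Nat.Coprime.coprime_dvd_left (Subgroup.orderOf_dvd_natCard _ hy) hcop
  -- the length of a class
  have hlen : ∀ y ∈ A.map (QuotientGroup.mk' N), {z : G ⧸ N | IsConj y z}.ncard ≤ L := by
    rintro y ⟨a, ha, rfl⟩
    refine le_trans ?_ hZ
    have hw : ∀ g g' : G, (QuotientGroup.leftRel Z) g g' →
        (QuotientGroup.mk' N) (g * a * g⁻¹) = (QuotientGroup.mk' N) (g' * a * g'⁻¹) := by
      intro g g' hgg
      rw [QuotientGroup.leftRel_apply] at hgg
      have h1 := hcom _ hgg a ha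
      have h2 : (QuotientGroup.mk' N) (g⁻¹ * g' * a * (g⁻¹ * g')⁻¹ * a⁻¹) = 1 := by
        rw [← MonoidHom.mem_ker, QuotientGroup.ker_mk']; exact h1
      have h3 : (QuotientGroup.mk' N) (g' * a * g'⁻¹) =
          (QuotientGroup.mk' N) g * (QuotientGroup.mk' N) (g⁻¹ * g' * a * (g⁻¹ * g')⁻¹ * a⁻¹) *
            (QuotientGroup.mk' N) (a * g⁻¹) := by
        simp only [← map_mul]
        congr 1
        group
      rw [h3, h2, mul_one, ← map_mul]
      congr 1
      group
    have hsub : {z : G ⧸ N | IsConj ((QuotientGroup.mk' N) a) z} ⊆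
        Set.range (Quotient.lift (fun g : G => (QuotientGroup.mk' N) (g * a * g⁻¹)) hw) := by
      intro z hz
      obtain ⟨c, hc⟩ := isConj_iff.mp hz
      obtain ⟨g, rfl⟩ := QuotientGroup.mk'_surjective N c
      refine ⟨Quotient.mk _ g, ?_⟩
      rw [← hc]
      show (QuotientGroup.mk' N) (g * a * g⁻¹) = _
      rw [map_mul, map_mul, map_inv]
    calc {z : G ⧸ N | IsConj ((QuotientGroup.mk' N) a) z}.ncard
        ≤ (Set.range (Quotient.lift (fun g : G => (QuotientGroup.mk' N) (g * a * g⁻¹)) hw)).ncard :=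
          Set.ncard_le_ncard hsub (Set.toFinite _)
      _ ≤ Nat.card (G ⧸ Z) := by
          rw [← Set.image_univ]
          refine (Set.ncard_image_le (Set.toFinite _)).trans ?_
          rw [Set.ncard_univ]
          exact le_refl _
      _ = Z.index := rfl
  haveI : Finite (ConjClasses (G ⧸ N)) := Quotient.finite _
  haveI := Fintype.ofFinite (ConjClasses (G ⧸ N))
  haveI := Fintype.ofFinite (G ⧸ N)
  haveI := Fintype.ofFinite (A.map (QuotientGroup.mk' N))
  set T : Finset (ConjClasses (G ⧸ N)) :=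
    Finset.univ.filter (fun c => ∃ g : G ⧸ N, ConjClasses.mk g = c ∧ (orderOf g).Coprime p)
    with hT
  have hTc : kp p (G ⧸ N) = T.card := by
    unfold kp
    rw [Nat.card_eq_fintype_card, Fintype.card_subtype]
  rw [hTc, Nat.card_eq_fintype_card, ← Finset.card_univ]
  refine Finset.card_le_mul_card_image_of_maps_to
    (f := fun y : A.map (QuotientGroup.mk' N) => ConjClasses.mk y.1) ?_ L ?_
  · intro y _
    rw [hT, Finset.mem_filter]
    exact ⟨Finset.mem_univ _, y.1, rfl, hord _ y.2⟩
  · intro c _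
    by_cases hex : ∃ y : A.map (QuotientGroup.mk' N), ConjClasses.mk y.1 = c
    · obtain ⟨y, rfl⟩ := hex
      refine le_trans ?_ (hlen y.1 y.2)
      rw [← Set.ncard_coe_finset]
      refine Set.ncard_le_ncard_of_injOn Subtype.val ?_ Subtype.val_injective.injOn
        (Set.toFinite _)
      intro z hz
      rw [Finset.mem_coe, Finset.mem_filter] at hz
      exact (ConjClasses.mk_eq_mk_iff_isConj.mp hz.2).symm
    · rw [Finset.filter_eq_empty_iff.mpr (fun y _ hy => hex ⟨y, hy⟩)]
      exact Nat.zero_le _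

end H48.CN
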