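import Pool.Agent.H48.CN.Stm

/-!
Class numbers of finite solvable groups: row A2.
-/

namespace H48.CN

open H60.KG MulAction

universe u

private theorem a2_exp {n p : ℕ} (hp : p.Prime) (hn : n ≠ 0) :
    ∃ a m' e e' : ℕ, n = p ^ a * m' ∧ Nat.Coprime p m' ∧ n ∣ e * e' ∧
      e ≡ 1 [MOD m'] ∧ e' ≡ 1 [MOD p ^ a] := by
  obtain ⟨a, m', hm, hnm⟩ := Nat.exists_eq_pow_mul_and_not_dvd hn p hp.ne_one
  have hco : Nat.Coprime p m' := (Nat.Prime.coprime_iff_not_dvd hp).mpr hm
  have hco' : Nat.Coprime (p ^ a) m' := hco.pow_left a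
  obtain ⟨e, h1, h2⟩ := Nat.chineseRemainder hco' 0 1
  obtain ⟨e', h3, h4⟩ := Nat.chineseRemainder hco' 1 0
  refine ⟨a, m', e, e', hnm, hco, ?_, h2, h3⟩
  rw [hnm]
  exact mul_dvd_mul ((Nat.modEq_zero_iff_dvd).mp h1) ((Nat.modEq_zero_iff_dvd).mp h4)

private theorem a2_pow_eq {G : Type*} [Group G] {g : G} {k e : ℕ} (h : orderOf g ∣ k)
    (he : e ≡ 1 [MOD k]) : g ^ e = g := by
  have h1 : e ≡ 1 [MOD orderOf g] := he.of_dvd h
  have h2 := pow_eq_pow_iff_modEq.mpr h1
  rwa [pow_one] at h2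

theorem a2 : SA2.{u} := by
  intro p m hpF G H _ _ _ π Q V _ _ φ hsurj hker hpg hanti hfac
  classical
  have hp : p.Prime := hpF.out
  have hn0 : Nat.card G ≠ 0 := Nat.card_pos.ne'
  obtain ⟨a, m', e, e', hnm, hco, hee, he, he'⟩ := a2_exp hp hn0
  have hQ0 : ∀ i, ∀ z ∈ Q i, π z = 1 := by
    intro i z hz
    have h1 : z ∈ Q 0 := hanti (Nat.zero_le i) hz
    rw [← hker] at h1
    exact h1
  -- the elements
  have hex : ∀ (i : ℕ), i < m → ∀ x : PairS p H (V i), ∃ g : G, g ^ e' ∈ Q i ∧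
      φ i (g ^ e') = x.1.1 ∧ π (g ^ e) = x.1.2 := by
    rintro i hi ⟨⟨v, h⟩, hv0, hord, hhv⟩
    have hF := hfac i hi
    obtain ⟨g1, hg1⟩ := hsurj h
    obtain ⟨z, hz, hzv⟩ := hF.surj v
    have hNn : (Q (i + 1)).Normal := hF.nN
    have hh : h ^ e = h := by
      apply a2_pow_eq (k := m') _ he
      have h1 : orderOf h ∣ Nat.card G := by
        rw [← hg1]
        exact (orderOf_map_dvd π g1).trans (orderOf_dvd_natCard g1)
      rw [hnm] at h1
      exact (Nat.Coprime.pow_right a hord).dvd_of_dvd_mul_left h1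
    have hz' : z ^ e' = z := by
      apply a2_pow_eq (k := p ^ a) _ he'
      have h1 : orderOf z ∣ Nat.card G := orderOf_dvd_natCard z
      rw [hnm] at h1
      obtain ⟨k, hk⟩ := hpg ⟨z, hanti (Nat.zero_le i) hz⟩
      have hk' : z ^ p ^ k = 1 := by
        have := congrArg Subtype.val hk
        simpa using this
      have h2 : orderOf z ∣ p ^ k := orderOf_dvd_of_pow_eq_one hk'
      have h3 : Nat.Coprime (orderOf z) m' := Nat.Coprime.coprime_dvd_left h2 (hco.pow_left k)
      exact h3.dvd_of_dvd_mul_right h1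
    have hge : (g1 ^ e) ^ e' = 1 := by
      rw [← pow_mul]
      obtain ⟨c, hc⟩ := hee
      rw [hc, pow_mul, pow_card_eq_one', one_pow]
    have hπe : π (g1 ^ e) = h := by
      rw [map_pow, hg1, hh]
    -- commutation modulo `Q (i + 1)`
    have hcm : g1 ^ e * z * (g1 ^ e)⁻¹ * z⁻¹ ∈ Q (i + 1) := by
      rw [← hF.eq_iff (hF.nM.conj_mem z hz _) hz, hF.equi _ z hz, hπe, hzv]
      exact hhv
    have hcomm : Commute (QuotientGroup.mk (s := Q (i + 1)) (g1 ^ e))
        (QuotientGroup.mk (s := Q (i + 1)) z) := by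
      have h1 : QuotientGroup.mk (s := Q (i + 1)) (g1 ^ e * z * (g1 ^ e)⁻¹ * z⁻¹) = 1 :=
        (QuotientGroup.eq_one_iff _).mpr hcm
      rw [QuotientGroup.mk_mul, QuotientGroup.mk_mul, QuotientGroup.mk_mul, QuotientGroup.mk_inv,
        QuotientGroup.mk_inv, mul_inv_eq_one, mul_inv_eq_iff_eq_mul] at h1
      exact h1
    have hq : QuotientGroup.mk (s := Q (i + 1)) ((g1 ^ e * z) ^ e') =
        QuotientGroup.mk (s := Q (i + 1)) z := by
      rw [QuotientGroup.mk_pow, QuotientGroup.mk_mul, hcomm.mul_pow, ← QuotientGroup.mk_pow,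
        ← QuotientGroup.mk_pow, hge, hz', QuotientGroup.mk_one, one_mul]
    have hq' : (g1 ^ e * z) ^ e' * z⁻¹ ∈ Q (i + 1) := by
      rw [← QuotientGroup.eq_one_iff, QuotientGroup.mk_mul, QuotientGroup.mk_inv, hq,
        mul_inv_cancel]
    have hmem : (g1 ^ e * z) ^ e' ∈ Q i := by
      have h1 := (Q i).mul_mem (hF.le hq') hz
      rwa [inv_mul_cancel_right] at h1
    refine ⟨g1 ^ e * z, hmem, ?_, ?_⟩
    · rw [(hF.eq_iff hmem hz).mpr hq', hzv]
    · rw [map_pow, map_mul, hπe, hQ0 i z hz, mul_one, hh]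
  -- finiteness
  have hHf : Finite H := Finite.of_surjective π hsurj
  have hVf : ∀ i : Fin m, Finite (V i) := by
    intro i
    refine Finite.of_surjective (fun x : G => φ i x) ?_
    intro v
    obtain ⟨x, -, hx⟩ := (hfac i i.2).surj v
    exact ⟨x, hx⟩
  choose! g hgQ hgφ hgπ using hex
  let R : ∀ i : ℕ, PairS p H (V i) → PairS p H (V i) → Prop := fun i x y =>
    ∃ g : H, g • x.1.1 = y.1.1 ∧ g * x.1.2 * g⁻¹ = y.1.2
  have hPf : ∀ i : Fin m, Finite (PairS p H (V i)) := by
    intro i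
    have := hVf i
    unfold PairS
    infer_instance
  have hRf : ∀ i : Fin m, Finite (Quot (R i)) := by
    intro i
    have := hPf i
    exact Finite.of_surjective (Quot.mk (R i)) Quot.mk_surjective
  let Φ : Option (Σ i : Fin m, Quot (R i)) → ConjClasses G := fun o =>
    match o with
    | none => ConjClasses.mk 1
    | some s => ConjClasses.mk (g s.1 s.2.out)
  have hne : ∀ (i : Fin m) (x : PairS p H (V i)), (g i x) ^ e' ∉ Q (i + 1) := by
    intro i x hx
    have h1 := ((hfac i i.2).ker _ (hgQ i i.2 x)).mpr hx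
    rw [hgφ i i.2 x] at h1
    exact x.2.1 h1
  have hne1 : ∀ (i : Fin m) (x : PairS p H (V i)), g i x ≠ 1 := by
    intro i x h
    apply hne i x
    rw [h, one_pow]
    exact one_mem _
  have hcl : ∀ (i j : Fin m) (x : PairS p H (V i)) (y : PairS p H (V j)),
      IsConj (g i x) (g j y) → ¬ (i < j) := by
    intro i j x y hc hij
    obtain ⟨c, hc⟩ := isConj_iff.mp hc
    have h1 : c * (g i x) ^ e' * c⁻¹ = (g j y) ^ e' := by
      rw [← hc, conj_pow]
    have h2 : (g j y) ^ e' ∈ Q (i + 1) := by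
      refine hanti ?_ (hgQ j j.2 y)
      exact hij
    rw [← h1] at h2
    have h3 := (hfac i i.2).nN.conj_mem _ h2 c⁻¹
    apply hne i x
    have h4 : c⁻¹ * (c * (g i x) ^ e' * c⁻¹) * c⁻¹⁻¹ = (g i x) ^ e' := by group
    rwa [h4] at h3
  have hinj : Function.Injective Φ := by
    intro o o' hoo
    rcases o with _ | ⟨i, q⟩ <;> rcases o' with _ | ⟨j, q'⟩
    · rfl
    · exfalso
      have h1 : ConjClasses.mk (1 : G) = ConjClasses.mk (g j q'.out) := hoo
      rw [ConjClasses.mk_eq_mk_iff_isConj, isConj_one_right] at h1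
      exact hne1 j q'.out h1
    · exfalso
      have h1 : ConjClasses.mk (g i q.out) = ConjClasses.mk (1 : G) := hoo
      rw [ConjClasses.mk_eq_mk_iff_isConj, isConj_comm, isConj_one_right] at h1
      exact hne1 i q.out h1
    · have h1 : ConjClasses.mk (g i q.out) = ConjClasses.mk (g j q'.out) := hoo
      rw [ConjClasses.mk_eq_mk_iff_isConj] at h1
      have hij : i = j := by
        rcases lt_trichotomy i j with h | h | h
        · exact absurd h (hcl i j _ _ h1)
        · exact h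
        · exact absurd h (hcl j i _ _ h1.symm)
      subst hij
      obtain ⟨c, hc⟩ := isConj_iff.mp h1
      have hF := hfac i i.2
      have h2 : R i q.out q'.out := by
        refine ⟨π c, ?_, ?_⟩
        · rw [← hgφ i i.2 q.out, ← hgφ i i.2 q'.out, ← hF.equi c _ (hgQ i i.2 _), ← hc, conj_pow]
        · rw [← hgπ i i.2 q.out, ← hgπ i i.2 q'.out, ← hc, conj_pow, map_mul, map_mul, map_inv]
      have h3 := Quot.sound h2
      rw [Quot.out_eq, Quot.out_eq] at h3
      rw [h3]
  have hcard := Nat.card_le_card_of_injective Φ hinj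
  have h1 : Nat.card (Option (Σ i : Fin m, Quot (R i))) =
      ∑ i : Fin m, Nat.card (Quot (R i)) + 1 := by
    rw [Finite.card_option, Nat.card_sigma]
  rw [h1] at hcard
  refine le_trans (le_of_eq ?_) hcard
  congr 1
  rw [← Fin.sum_univ_eq_sum_range (fun i => kappa p H (V i)) m]
  rfl

end H48.CN
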