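import Pool.Agent.H48.CN.Stm

/-!
Row A2b: `kappa` bounds the number of nonzero orbits and the class numbers of the stabilisers.
-/

namespace H48.CN

open H60.KG MulAction

universe u

theorem a2b_equiv (p : ℕ) (H V : Type u) [Group H] [AddCommGroup V] [DistribMulAction H V] :
    Equivalence (fun x y : PairS p H V =>
      ∃ g : H, g • x.1.1 = y.1.1 ∧ g * x.1.2 * g⁻¹ = y.1.2) := by
  refine ⟨fun x => ⟨1, by rw [one_smul], by group⟩, ?_, ?_⟩
  · rintro x y ⟨g, h1, h2⟩
    refine ⟨g⁻¹, ?_, ?_⟩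
    · rw [← h1, inv_smul_smul]
    · rw [← h2]
      group
  · rintro x y z ⟨g, h1, h2⟩ ⟨k, h3, h4⟩
    refine ⟨k * g, ?_, ?_⟩
    · rw [mul_smul, h1, h3]
    · rw [← h4, ← h2]
      group

theorem a2b_finite (p : ℕ) (H V : Type u) [Group H] [Finite H] [AddCommGroup V] [Finite V]
    [DistribMulAction H V] : Finite (PairS p H V) := by
  unfold PairS
  infer_instance

theorem a2b_orb (p : ℕ) (H V : Type u) [Group H] [Finite H] [AddCommGroup V] [Finite V]
    [DistribMulAction H V] : orb H V - 1 ≤ kappa p H V := by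
  classical
  have := a2b_finite p H V
  let Q := MulAction.orbitRel.Quotient H V
  let q0 : Q := Quotient.mk _ (0 : V)
  let T := {q : Q // q ≠ q0}
  have hT : Nat.card T = orb H V - 1 := by
    have : Fintype Q := Fintype.ofFinite Q
    change Nat.card {q : Q // q ≠ q0} = Nat.card Q - 1
    rw [Nat.card_eq_fintype_card, Nat.card_eq_fintype_card, Fintype.card_subtype_compl,
      Fintype.card_subtype_eq]
  rw [← hT]
  have hne : ∀ v : V, (Quotient.mk _ v : Q) = q0 ↔ v = 0 := by
    intro v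
    constructor
    · intro h
      have h1 : (MulAction.orbitRel H V).r v 0 := Quotient.exact h
      obtain ⟨g, hg⟩ := (MulAction.orbitRel_apply.1 h1)
      simp only [smul_zero] at hg
      exact hg.symm
    · rintro rfl
      rfl
  let f : Quot (fun x y : PairS p H V =>
      ∃ g : H, g • x.1.1 = y.1.1 ∧ g * x.1.2 * g⁻¹ = y.1.2) → T :=
    Quot.lift (fun x => (⟨Quotient.mk _ x.1.1, fun h => x.2.1 ((hne _).1 h)⟩ : T)) (by
      rintro x y ⟨g, h1, _⟩
      apply Subtype.ext
      refine Quotient.sound ?_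
      change (MulAction.orbitRel H V).r x.1.1 y.1.1
      refine MulAction.orbitRel_apply.2 ⟨g⁻¹, ?_⟩
      change g⁻¹ • y.1.1 = x.1.1
      rw [← h1, inv_smul_smul])
  refine Nat.card_le_card_of_surjective f ?_
  rintro ⟨q, hq⟩
  obtain ⟨v, rfl⟩ := Quotient.exists_rep q
  refine ⟨Quot.mk _ ⟨(v, 1), ?_, ?_, ?_⟩, rfl⟩
  · intro hv
    exact hq ((hne v).2 hv)
  · simp
  · simp

theorem a2b_stab (p : ℕ) (H V : Type u) [Group H] [Finite H] [AddCommGroup V] [Finite V]
    [DistribMulAction H V] (v : V) (hv : v ≠ 0) :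
    kp p (MulAction.stabilizer H v) ≤ kappa p H V := by
  classical
  have := a2b_finite p H V
  let f : {c : ConjClasses (MulAction.stabilizer H v) // ∃ g : MulAction.stabilizer H v,
      ConjClasses.mk g = c ∧ (orderOf g).Coprime p} →
      Quot (fun x y : PairS p H V =>
        ∃ g : H, g • x.1.1 = y.1.1 ∧ g * x.1.2 * g⁻¹ = y.1.2) := fun c =>
    Quot.mk _ ⟨(v, (c.2.choose : H)), hv, by
      rw [Subgroup.orderOf_coe]
      exact c.2.choose_spec.2, c.2.choose.2⟩
  refine Nat.card_le_card_of_injective f ?_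
  intro c d h
  have h1 := (a2b_equiv p H V).eqvGen_iff.1 (Quot.eqvGen_exact h)
  obtain ⟨g, h2, h3⟩ := h1
  apply Subtype.ext
  rw [← c.2.choose_spec.1, ← d.2.choose_spec.1, ConjClasses.mk_eq_mk_iff_isConj, isConj_iff]
  refine ⟨⟨g, h2⟩, ?_⟩
  apply Subtype.ext
  exact h3

theorem a2b : SA2b.{u} := by
  intro p H V _ _ _ _ _
  exact ⟨a2b_orb p H V, fun v hv => a2b_stab p H V v hv⟩

end H48.CN
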