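import Pool.Agent.H48.CN.Stm

/-!
The key inequality for an abelian section.
-/

namespace H48.CN

open H60.KG MulAction

universe u

/-- elements of `L` act trivially -/
private theorem a3_triv {G A : Type u} [Group G] [AddCommGroup A] [DistribMulAction G A]
    {M L : Subgroup G} {φ : G → A} (h : IsFac (MonoidHom.id G) M L φ) {x : G} (hx : x ∈ L) :
    MulAction.toPermHom G A x = 1 := by
  ext v
  obtain ⟨y, hy, rfl⟩ := h.surj v
  have h1 := h.equi x y hy
  rw [h.add _ (L.mul_mem hx hy) _ (L.inv_mem hx), h.add _ hx _ hy, h.map_inv hx] at h1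
  simp only [MonoidHom.id_apply] at h1
  show x • φ y = φ y
  rw [← h1]
  abel

/-- the bound for one element -/
private theorem a3_one {G A : Type u} [Group G] [Finite G] [AddCommGroup A]
    [DistribMulAction G A] {M L : Subgroup G} {φ : G → A} (h : IsFac (MonoidHom.id G) M L φ)
    (g : G) : Nat.card {a : A // g • a = a} * ordA A g ≤ Nat.card {x : G // Commute g x} := by
  classical
  have hM : M.Normal := h.nN
  choose s hsL hs using h.surj
  have hMpos : 0 < Nat.card M := Nat.card_pos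
  -- the commutator condition
  set f : {a : A // g • a = a} × Fin (ordA A g) × M → G := fun t =>
    s t.1.1 * g ^ (t.2.1 : ℕ) * t.2.2 with hf
  have hfi : Function.Injective f := by
    rintro ⟨⟨a, ha⟩, i, ⟨m, hm⟩⟩ ⟨⟨a', ha'⟩, j, ⟨m', hm'⟩⟩ he
    simp only [hf] at he
    have h1 : (MulAction.toPermHom G A g) ^ (i : ℕ) = (MulAction.toPermHom G A g) ^ (j : ℕ) := by
      have h2 := congrArg (MulAction.toPermHom G A) he
      rw [map_mul, map_mul, map_mul, map_mul, a3_triv h (hsL a), a3_triv h (hsL a'),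
        a3_triv h (h.le hm), a3_triv h (h.le hm'), map_pow, map_pow] at h2
      simpa using h2
    have h3 : (i : ℕ) = j := pow_injOn_Iio_orderOf i.2 j.2 h1
    have h4 : i = j := Fin.ext h3
    subst h4
    have h5 : s a * (s a')⁻¹ ∈ M := by
      have h6 : s a * (s a')⁻¹ = (s a' * g ^ (i : ℕ)) * (m' * m⁻¹) * (s a' * g ^ (i : ℕ))⁻¹ := by
        have h7 : s a = s a' * g ^ (i : ℕ) * m' * m⁻¹ * (g ^ (i : ℕ))⁻¹ := by
          rw [← he]
          group
        rw [h7]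
        group
      rw [h6]
      exact hM.conj_mem _ (M.mul_mem hm' (M.inv_mem hm)) _
    have h8 : a = a' := by
      rw [← hs a, ← hs a']
      exact (h.eq_iff (hsL a) (hsL a')).2 h5
    subst h8
    have h9 : m = m' := mul_left_cancel he
    subst h9
    rfl
  have hfM : ∀ t, f t * g * (f t)⁻¹ * g⁻¹ ∈ M := by
    rintro ⟨⟨a, ha⟩, i, ⟨m, hm⟩⟩
    simp only [hf]
    have h1 : s a * g * (s a)⁻¹ * g⁻¹ ∈ M := by
      have h2 : g * s a * g⁻¹ * (s a)⁻¹ ∈ M := by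
        rw [← h.eq_iff (h.nM.conj_mem _ (hsL a) g) (hsL a), h.equi g _ (hsL a), hs a]
        exact ha
      have h3 := M.inv_mem h2
      have h4 : (g * s a * g⁻¹ * (s a)⁻¹)⁻¹ = s a * g * (s a)⁻¹ * g⁻¹ := by group
      rwa [h4] at h3
    have h5 : m * g * m⁻¹ * g⁻¹ ∈ M := by
      have h6 : m * g * m⁻¹ * g⁻¹ = m * (g * m⁻¹ * g⁻¹) := by group
      rw [h6]
      exact M.mul_mem hm (hM.conj_mem _ (M.inv_mem hm) g)
    have h7 : s a * g ^ (i : ℕ) * m * g * (s a * g ^ (i : ℕ) * m)⁻¹ * g⁻¹ =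
        (s a * g ^ (i : ℕ)) * (m * g * m⁻¹ * g⁻¹) * (s a * g ^ (i : ℕ))⁻¹ *
          (s a * g * (s a)⁻¹ * g⁻¹) := by
      have h8 : g ^ (i : ℕ) * g * (g ^ (i : ℕ))⁻¹ = g := by
        rw [← pow_succ, pow_succ']
        group
      have h9 : (s a * g ^ (i : ℕ)) * (m * g * m⁻¹ * g⁻¹) * (s a * g ^ (i : ℕ))⁻¹ *
          (s a * g * (s a)⁻¹ * g⁻¹) = s a * g ^ (i : ℕ) * m * g * m⁻¹ * g⁻¹ *
          (g ^ (i : ℕ))⁻¹ * g * (s a)⁻¹ * g⁻¹ := by group
      rw [h9]
      have h10 : g⁻¹ * (g ^ (i : ℕ))⁻¹ * g = (g ^ (i : ℕ))⁻¹ := by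
        rw [← mul_inv_rev, ← pow_succ, pow_succ', mul_inv_rev]
        group
      calc s a * g ^ (i : ℕ) * m * g * (s a * g ^ (i : ℕ) * m)⁻¹ * g⁻¹ =
          s a * g ^ (i : ℕ) * m * g * m⁻¹ * (g ^ (i : ℕ))⁻¹ * (s a)⁻¹ * g⁻¹ := by group
        _ = s a * g ^ (i : ℕ) * m * g * m⁻¹ * (g⁻¹ * (g ^ (i : ℕ))⁻¹ * g) * (s a)⁻¹ * g⁻¹ := by
            rw [h10]
        _ = _ := by group
    rw [h7]
    exact M.mul_mem (hM.conj_mem _ h5 _) h1
  -- injection into `M × C(g)`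
  set r : G → G := fun c => if hc : ∃ t, f t * g * (f t)⁻¹ * g⁻¹ = c then f hc.choose else 1
    with hr
  have hrs : ∀ t, r (f t * g * (f t)⁻¹ * g⁻¹) * g * (r (f t * g * (f t)⁻¹ * g⁻¹))⁻¹ * g⁻¹ =
      f t * g * (f t)⁻¹ * g⁻¹ := by
    intro t
    have hc : ∃ t', f t' * g * (f t')⁻¹ * g⁻¹ = f t * g * (f t)⁻¹ * g⁻¹ := ⟨t, rfl⟩
    have h1 : r (f t * g * (f t)⁻¹ * g⁻¹) = f hc.choose := by
      rw [hr]
      simp only
      rw [dif_pos hc]
    rw [h1]
    exact hc.choose_spec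
  have hcomm : ∀ t, Commute g ((r (f t * g * (f t)⁻¹ * g⁻¹))⁻¹ * f t) := by
    intro t
    have h1 := mul_right_cancel (hrs t)
    set y := r (f t * g * (f t)⁻¹ * g⁻¹)
    have h2 : g * y⁻¹ = y⁻¹ * (f t * g * (f t)⁻¹) := by
      rw [← h1]
      group
    show g * (y⁻¹ * f t) = y⁻¹ * f t * g
    rw [← mul_assoc, h2]
    group
  let F : {a : A // g • a = a} × Fin (ordA A g) × M → M × {x : G // Commute g x} := fun t =>
    (⟨f t * g * (f t)⁻¹ * g⁻¹, hfM t⟩, ⟨(r (f t * g * (f t)⁻¹ * g⁻¹))⁻¹ * f t, hcomm t⟩)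
  have hF : Function.Injective F := by
    intro t t' he
    have h1 : f t * g * (f t)⁻¹ * g⁻¹ = f t' * g * (f t')⁻¹ * g⁻¹ :=
      congrArg (fun z => ((z.1 : M) : G)) he
    have h2 : (r (f t * g * (f t)⁻¹ * g⁻¹))⁻¹ * f t = (r (f t' * g * (f t')⁻¹ * g⁻¹))⁻¹ * f t' :=
      congrArg (fun z => (z.2 : G)) he
    rw [← h1] at h2
    exact hfi (mul_left_cancel h2)
  have h1 := Nat.card_le_card_of_injective F hF
  rw [Nat.card_prod, Nat.card_prod, Nat.card_prod, Nat.card_fin] at h1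
  refine Nat.le_of_mul_le_mul_left ?_ hMpos
  calc Nat.card M * (Nat.card {a : A // g • a = a} * ordA A g) =
      Nat.card {a : A // g • a = a} * (ordA A g * Nat.card M) := by ring
    _ ≤ _ := h1

theorem a3 : SA3.{u} := by
  intro G A _ _ _ _ M L φ h
  classical
  have := Fintype.ofFinite G
  unfold KI
  rw [finsum_eq_sum_of_fintype, ← card_comm_eq_card_conjClasses_mul_card G]
  have h1 : Nat.card {p : G × G // Commute p.1 p.2} = ∑ g : G, Nat.card {x : G // Commute g x} := by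
    rw [← Nat.card_sigma]
    exact Nat.card_congr
      { toFun := fun p => ⟨p.1.1, ⟨p.1.2, p.2⟩⟩
        invFun := fun q => ⟨(q.1, q.2.1), q.2.2⟩
        left_inv := fun _ => rfl
        right_inv := fun _ => rfl }
  rw [h1]
  exact Finset.sum_le_sum fun g _ => a3_one h g

end H48.CN
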