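import Pool.Agent.H48.CN.Stm

/-!
# Project CN, row A4: abelian factors as modules
-/

namespace H48.CN

open H60.KG MulAction

universe u

/-- conjugation on a factor -/
noncomputable def a4cj {G : Type*} [Group G] (N M : Subgroup G) [N.Normal] [M.Normal] (g : G) :
    M ⧸ N.subgroupOf M →* M ⧸ N.subgroupOf M :=
  QuotientGroup.map _ _ (MulAut.conjNormal g : M ≃* M).toMonoidHom (by
    intro x hx
    rw [Subgroup.mem_comap, Subgroup.mem_subgroupOf]
    rw [Subgroup.mem_subgroupOf] at hx
    exact Subgroup.Normal.conj_mem inferInstance _ hx g)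

theorem a4cj_mk {G : Type*} [Group G] (N M : Subgroup G) [N.Normal] [M.Normal] (g : G) (x : M) :
    a4cj N M g (QuotientGroup.mk x) = QuotientGroup.mk (MulAut.conjNormal g x) := rfl

theorem a4cj_one {G : Type*} [Group G] (N M : Subgroup G) [N.Normal] [M.Normal]
    (v : M ⧸ N.subgroupOf M) : a4cj N M 1 v = v := by
  induction v using QuotientGroup.induction_on with
  | H x => rw [a4cj_mk, map_one]; rfl

theorem a4cj_mul {G : Type*} [Group G] (N M : Subgroup G) [N.Normal] [M.Normal] (g g' : G)
    (v : M ⧸ N.subgroupOf M) : a4cj N M (g * g') v = a4cj N M g (a4cj N M g' v) := by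
  induction v using QuotientGroup.induction_on with
  | H x => rw [a4cj_mk, a4cj_mk, a4cj_mk, map_mul]; rfl

theorem a4cj_eq {G : Type*} [Group G] (N M : Subgroup G) [hN : N.Normal] [M.Normal] (g g' : G)
    (h : ∀ x ∈ M, (g'⁻¹ * g) * x * (g'⁻¹ * g)⁻¹ * x⁻¹ ∈ N)
    (v : M ⧸ N.subgroupOf M) : a4cj N M g v = a4cj N M g' v := by
  induction v using QuotientGroup.induction_on with
  | H x =>
    rw [a4cj_mk, a4cj_mk, eq_comm, QuotientGroup.eq, Subgroup.mem_subgroupOf]
    have h1 := hN.conj_mem _ (h x x.2) (x : G)⁻¹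
    have h2 := hN.conj_mem _ h1 g'
    rw [Subgroup.coe_mul, Subgroup.coe_inv, MulAut.conjNormal_apply, MulAut.conjNormal_apply]
    convert h2 using 1
    group

/-- A4. -/
theorem a4 : SA4.{u} := by
  intro G H _ _ _ π N M hπ hS hker
  classical
  have hN := hS.nM
  have hM := hS.nL
  have hcomm : ∀ a b : M ⧸ N.subgroupOf M, a * b = b * a := by
    intro a b
    induction a using QuotientGroup.induction_on with
    | H x =>
      induction b using QuotientGroup.induction_on with
      | H y =>
        rw [← QuotientGroup.mk_mul, ← QuotientGroup.mk_mul, eq_comm, QuotientGroup.eq,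
          Subgroup.mem_subgroupOf]
        have h1 := hS.ab (x : G)⁻¹ (M.inv_mem x.2) (y : G)⁻¹ (M.inv_mem y.2)
        have h2 := hS.ab (x : G) x.2 (y : G) y.2
        have h3 := hN.conj_mem _ h2 ((y : G) * x)⁻¹
        push_cast
        convert h3 using 1
        group
  letI cg : CommGroup (M ⧸ N.subgroupOf M) :=
    { (inferInstance : Group (M ⧸ N.subgroupOf M)) with mul_comm := hcomm }
  letI c2 : AddCommGroup (Additive (M ⧸ N.subgroupOf M)) := Additive.addCommGroup
  let s : H → G := Function.surjInv hπ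
  have hs : ∀ h, π (s h) = h := Function.surjInv_eq hπ
  have hcj : ∀ g g' : G, π g = π g' → ∀ v, a4cj N M g v = a4cj N M g' v := by
    intro g g' hgg v
    apply a4cj_eq
    intro x hx
    apply hker _ _ x hx
    rw [map_mul, map_inv, hgg, inv_mul_cancel]
  letI c3 : DistribMulAction H (Additive (M ⧸ N.subgroupOf M)) :=
    { smul := fun h v => Additive.ofMul (a4cj N M (s h) v.toMul)
      one_smul := by
        intro v
        change Additive.ofMul (a4cj N M (s 1) v.toMul) = v
        rw [hcj (s 1) 1 (by rw [hs, map_one]), a4cj_one]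
        rfl
      mul_smul := by
        intro h h' v
        change Additive.ofMul (a4cj N M (s (h * h')) v.toMul) =
          Additive.ofMul (a4cj N M (s h) (a4cj N M (s h') v.toMul))
        rw [hcj (s (h * h')) (s h * s h') (by rw [hs, map_mul, hs, hs]), a4cj_mul]
      smul_add := by
        intro h v w
        change Additive.ofMul (a4cj N M (s h) (v.toMul * w.toMul)) = _
        rw [map_mul]
        rfl
      smul_zero := by
        intro h
        change Additive.ofMul (a4cj N M (s h) 1) = _
        rw [map_one]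
        rfl }
  obtain ⟨φ, hφ⟩ : ∃ φ : G → Additive (M ⧸ N.subgroupOf M), ∀ (x : G) (hx : x ∈ M),
      φ x = Additive.ofMul (QuotientGroup.mk (⟨x, hx⟩ : M)) :=
    ⟨fun x => if hx : x ∈ M then Additive.ofMul (QuotientGroup.mk ⟨x, hx⟩) else 0,
      fun x hx => dif_pos hx⟩
  refine ⟨Additive (M ⧸ N.subgroupOf M), c2, inferInstanceAs (Finite (M ⧸ N.subgroupOf M)), c3,
    φ, ?_⟩
  refine ⟨hN, hM, hS.le, ?_, ?_, ?_, ?_⟩
  · intro v
    obtain ⟨x, hx⟩ := QuotientGroup.mk_surjective v.toMul
    refine ⟨x, x.2, ?_⟩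
    rw [hφ _ x.2]
    exact congrArg Additive.ofMul hx
  · intro x hx y hy
    rw [hφ _ hx, hφ _ hy, hφ _ (M.mul_mem hx hy)]
    rfl
  · intro x hx
    rw [hφ _ hx]
    have h1 : (Additive.ofMul (QuotientGroup.mk (⟨x, hx⟩ : M)) :
        Additive (M ⧸ N.subgroupOf M)) = 0 ↔
        (QuotientGroup.mk (⟨x, hx⟩ : M) : M ⧸ N.subgroupOf M) = 1 := Iff.rfl
    rw [h1, QuotientGroup.eq_one_iff, Subgroup.mem_subgroupOf]
  · intro g x hx
    rw [hφ _ hx, hφ _ (hM.conj_mem x hx g)]
    change _ = Additive.ofMul (a4cj N M (s (π g)) (QuotientGroup.mk (⟨x, hx⟩ : M)))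
    rw [hcj (s (π g)) g (hs _), a4cj_mk]
    congr 1

/-- A4b. -/
theorem a4b : SA4b.{u} := by
  intro G H V _ _ _ _ _ _ π N M φ hπ h
  classical
  have hN := h.nN
  have hM := h.nM
  refine ⟨?_, ?_, ?_⟩
  · let ψ : M →* Multiplicative V := MonoidHom.mk' (fun x => Multiplicative.ofAdd (φ (x : G)))
      (fun x y => by
        rw [Subgroup.coe_mul, h.add _ x.2 _ y.2]
        rfl)
    have h1 : ψ.ker = N.subgroupOf M := by
      ext x
      rw [MonoidHom.mem_ker, Subgroup.mem_subgroupOf, ← h.ker _ x.2]
      exact Iff.rfl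
    have h2 : Function.Surjective ψ := by
      intro v
      obtain ⟨x, hx, hxv⟩ := h.surj v.toAdd
      exact ⟨⟨x, hx⟩, congrArg Multiplicative.ofAdd hxv⟩
    have h3 := Subgroup.index_ker ψ
    rw [h1, MonoidHom.range_eq_top.2 h2, Subgroup.card_top] at h3
    exact h3.symm
  · have : Finite (ConjClasses G) := Quotient.finite _
    let F : ConjClasses G → MulAction.orbitRel.Quotient H V := fun c =>
      if hc : ∃ x ∈ M, ConjClasses.mk x = c then Quotient.mk'' (φ hc.choose) else
        Quotient.mk'' 0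
    have hF : Function.Surjective F := by
      intro o
      induction o using Quotient.inductionOn' with
      | _ v =>
        obtain ⟨x, hx, rfl⟩ := h.surj v
        refine ⟨ConjClasses.mk x, ?_⟩
        have hc : ∃ y ∈ M, ConjClasses.mk y = ConjClasses.mk x := ⟨x, hx, rfl⟩
        change (if hc : ∃ y ∈ M, ConjClasses.mk y = ConjClasses.mk x then
          (Quotient.mk'' (φ hc.choose) : MulAction.orbitRel.Quotient H V) else
          Quotient.mk'' 0) = _
        rw [dif_pos hc]
        have h1 := hc.choose_spec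
        have h2 := h1.2
        rw [ConjClasses.mk_eq_mk_iff_isConj, isConj_iff] at h2
        obtain ⟨g, hg⟩ := h2
        apply Quotient.eq''.2
        rw [MulAction.orbitRel_apply]
        refine ⟨(π g)⁻¹, ?_⟩
        have h3 := h.equi g _ h1.1
        rw [hg] at h3
        change (π g)⁻¹ • φ x = _
        rw [h3, inv_smul_smul]
    exact Nat.card_le_card_of_surjective F hF
  · intro hC
    refine ⟨?_, ?_⟩
    · obtain ⟨x, hx, hxN⟩ := Set.exists_of_ssubset hC.lt
      exact ⟨φ x, 0, fun h0 => hxN ((h.ker x hx).1 h0)⟩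
    · intro W hW
      have hn : (h.pre W).Normal := by
        constructor
        rintro x ⟨hx, hx'⟩ g
        exact ⟨h.nM.conj_mem x hx g, by rw [h.equi g x hx]; exact hW _ _ hx'⟩
      have h1 : N ≤ h.pre W := fun x hx => ⟨h.le hx, by
        rw [(h.ker x (h.le hx)).2 hx]; exact W.zero_mem⟩
      rcases hC.min (h.pre W) hn h1 (fun x hx => hx.1) with h2 | h2
      · left
        rw [eq_bot_iff]
        intro v hv
        obtain ⟨x, hx, rfl⟩ := h.surj v
        have h3 : x ∈ h.pre W := ⟨hx, hv⟩
        rw [h2] at h3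
        exact (h.ker x hx).2 h3
      · right
        rw [eq_top_iff]
        intro v _
        obtain ⟨x, hx, rfl⟩ := h.surj v
        have h3 : x ∈ h.pre W := by rw [h2]; exact hx
        exact h3.2

end H48.CN
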