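import Pool.Agent.H48.CN.A4

/-!
# Project CN, row A5: lower central series of a normal `p`-subgroup
-/

namespace H48.CN

open H60.KG MulAction

universe u

theorem a5_lcs {G : Type*} [Group G] (Q : Subgroup G) (n : ℕ) :
    lcs Q n = Q.lowerCentralSeries n := by
  induction n with
  | zero => rfl
  | succ n ih =>
    rw [Subgroup.lowerCentralSeries_succ, ← ih]
    rfl

theorem a5_succ {G : Type*} [Group G] (Q : Subgroup G) (n : ℕ) :
    lcs Q (n + 1) = ⁅lcs Q n, Q⁆ := rfl

theorem a5_normal {G : Type*} [Group G] (Q : Subgroup G) [Q.Normal] (n : ℕ) :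
    (lcs Q n).Normal := by
  induction n with
  | zero => exact inferInstanceAs Q.Normal
  | succ n ih =>
    haveI := ih
    rw [a5_succ]
    infer_instance

theorem a5_anti {G : Type*} [Group G] (Q : Subgroup G) [Q.Normal] : Antitone (lcs Q) := by
  apply antitone_nat_of_succ_le
  intro n
  haveI := a5_normal Q n
  rw [a5_succ]
  exact Subgroup.commutator_le_left _ _

/-- three subgroups -/
theorem a5_three {G : Type*} [Group G] (H₁ H₂ H₃ W : Subgroup G) [W.Normal]
    (h1 : ⁅⁅H₂, H₃⁆, H₁⁆ ≤ W) (h2 : ⁅⁅H₃, H₁⁆, H₂⁆ ≤ W) : ⁅⁅H₁, H₂⁆, H₃⁆ ≤ W := by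
  have key : ∀ A : Subgroup G, A ≤ W ↔ A.map (QuotientGroup.mk' W) = ⊥ := by
    intro A
    rw [Subgroup.map_eq_bot_iff, QuotientGroup.ker_mk']
  rw [key, Subgroup.map_commutator, Subgroup.map_commutator] at h1 h2 ⊢
  exact Subgroup.commutator_commutator_eq_bot_of_rotate h1 h2

theorem a5_comm {G : Type*} [Group G] (Q : Subgroup G) [Q.Normal] (t : ℕ) :
    ∀ s, ⁅lcs Q s, lcs Q t⁆ ≤ lcs Q (s + t + 1) := by
  induction t with
  | zero => intro s; exact le_rfl
  | succ t ih =>
    intro s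
    haveI := a5_normal Q (s + (t + 1) + 1)
    rw [a5_succ Q t, Subgroup.commutator_comm]
    apply a5_three
    · rw [Subgroup.commutator_comm Q (lcs Q s), ← a5_succ]
      refine (ih (s + 1)).trans (le_of_eq ?_)
      congr 1
      omega
    · refine (Subgroup.commutator_mono (ih s) le_rfl).trans (le_of_eq ?_)
      rw [← a5_succ]
      congr 1

theorem a5_card_orb (H V : Type*) [Group H] [Finite H] [Finite V] [MulAction H V] :
    Nat.card V ≤ orb H V * Nat.card H := by
  haveI : Finite (MulAction.orbitRel.Quotient H V) := Quotient.finite _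
  unfold orb
  rw [← Nat.card_prod]
  apply Nat.card_le_card_of_surjective
    (fun x : MulAction.orbitRel.Quotient H V × H => x.2 • Quotient.out x.1)
  intro v
  have h1 : (Quotient.mk'' (Quotient.out (Quotient.mk'' v : MulAction.orbitRel.Quotient H V)) :
      MulAction.orbitRel.Quotient H V) = Quotient.mk'' v := Quotient.out_eq' _
  have h2 := Quotient.eq''.1 h1.symm
  rw [MulAction.orbitRel_apply] at h2
  obtain ⟨h, hh⟩ := h2
  exact ⟨(Quotient.mk'' v, h), hh⟩

/-- A5. -/
theorem a5 : SA5.{u} := by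
  intro p _ G _ _ Q hQn hQ
  have hnil : ∃ c, lcs Q c = ⊥ := by
    have h1 : Group.IsNilpotent Q := hQ.isNilpotent
    obtain ⟨c, hc⟩ := (Subgroup.isNilpotent_iff_lowerCentralSeries Q).1 h1
    exact ⟨c, by rw [a5_lcs, hc]⟩
  refine ⟨a5_normal Q, a5_anti Q, hnil, ?_, fun s t => a5_comm Q t s, ?_⟩
  · intro n hn
    refine lt_of_le_of_ne (a5_anti Q (Nat.le_succ n)) ?_
    intro h
    apply hn
    obtain ⟨c, hc⟩ := hnil
    have h1 : ∀ k, lcs Q (n + k) = lcs Q n := by
      intro k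
      induction k with
      | zero => rfl
      | succ k ih =>
        rw [← Nat.add_assoc, a5_succ, ih, ← a5_succ, h]
    have h2 : lcs Q (n + c) ≤ lcs Q c := a5_anti Q (Nat.le_add_left c n)
    rw [h1 c, hc] at h2
    exact le_bot_iff.1 h2
  · intro n
    haveI := a5_normal Q n
    haveI := a5_normal Q (n + 1)
    have hle : lcs Q n ≤ Q := a5_anti Q (Nat.zero_le n)
    have hcm : ∀ g ∈ Q, ∀ x ∈ lcs Q n, g * x * g⁻¹ * x⁻¹ ∈ lcs Q (n + 1) := by
      intro g hg x hx
      rw [a5_succ, Subgroup.commutator_comm]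
      exact Subgroup.commutator_mem_commutator hg hx
    have hS : AbSec (lcs Q (n + 1)) (lcs Q n) :=
      ⟨inferInstance, inferInstance, a5_anti Q (Nat.le_succ n),
        fun x hx y hy => hcm x (hle hx) y hy⟩
    obtain ⟨V, c1, c2, c3, φ, h⟩ := a4 G (G ⧸ Q) (QuotientGroup.mk' Q) (lcs Q (n + 1)) (lcs Q n)
      (QuotientGroup.mk'_surjective Q) hS
      (fun g hg x hx => hcm g ((QuotientGroup.eq_one_iff g).1 hg) x hx)
    obtain ⟨h1, h2, -⟩ := a4b G (G ⧸ Q) V (QuotientGroup.mk' Q) (lcs Q (n + 1)) (lcs Q n) φ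
      (QuotientGroup.mk'_surjective Q) h
    rw [← h1]
    refine (a5_card_orb (G ⧸ Q) V).trans ?_
    rw [Subgroup.index]
    exact Nat.mul_le_mul_right _ h2

end H48.CN
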