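import Pool.Agent.H48.CN.Stm

/-!
Class numbers of finite solvable groups: existence and first properties of a base series
(`SA6a`, `SA6b`).
-/

namespace H48.CN

universe u

/-! ### Existence -/

lemma a6a_aux (G : Type u) [Group G] [Finite G] (Q : Subgroup G) : Q.Normal →
    ∃ (S : ℕ → Subgroup G) (len : ℕ), S 0 = Q ∧ (∀ i, (S i).Normal) ∧ (∀ i, S (i + 1) ≤ S i) ∧
      (∀ i < len, S (i + 1) < S i) ∧ S len = ⊥ ∧
      ∀ i < len, ∀ X : Subgroup G, X.Normal → S (i + 1) ≤ X → X ≤ S i → X = S (i + 1) ∨ X = S i := by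
  induction Q using WellFoundedLT.induction with
  | _ Q ih =>
    intro hQ
    by_cases hb : Q = ⊥
    · subst hb
      exact ⟨fun _ => ⊥, 0, rfl, fun _ => inferInstance, fun _ => le_rfl,
        fun i hi => absurd hi (Nat.not_lt_zero i), rfl, fun i hi => absurd hi (Nat.not_lt_zero i)⟩
    · obtain ⟨M, hM⟩ := Set.Finite.exists_maximal
        (Set.toFinite {X : Subgroup G | X.Normal ∧ X < Q})
        ⟨⊥, inferInstance, bot_lt_iff_ne_bot.mpr hb⟩
      obtain ⟨S, len, h0, hn, ha, hlt, hbot, hch⟩ := ih M hM.prop.2 hM.prop.1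
      refine ⟨fun i => Nat.casesOn i Q S, len + 1, rfl, ?_, ?_, ?_, hbot, ?_⟩
      · intro i
        cases i with
        | zero => exact hQ
        | succ i => exact hn i
      · intro i
        cases i with
        | zero =>
          show S 0 ≤ Q
          rw [h0]
          exact hM.prop.2.le
        | succ i => exact ha i
      · intro i hi
        cases i with
        | zero =>
          show S 0 < Q
          rw [h0]
          exact hM.prop.2
        | succ i => exact hlt i (by omega)
      · intro i hi X hX h1 h2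
        cases i with
        | zero =>
          show X = S 0 ∨ X = Q
          have h1' : S 0 ≤ X := h1
          have h2' : X ≤ Q := h2
          rw [h0] at h1' ⊢
          rcases eq_or_lt_of_le h2' with h | h
          · exact Or.inr h
          · exact Or.inl (le_antisymm (hM.le_of_ge ⟨hX, h⟩ h1') h1')
        | succ i => exact hch i (by omega) X hX h1 h2

theorem a6a : SA6a.{u} := by
  intro p _ G _ _ Q hQ hp
  obtain ⟨S, len, h0, hn, ha, hlt, hbot, hch⟩ := a6a_aux G Q hQ
  refine ⟨⟨S, len, hn, antitone_nat_of_succ_le ha, hlt, hbot, ?_, hch⟩, h0⟩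
  rw [h0]
  exact hp

/-! ### First properties -/

/-- the `p`-group at the start of the series acts trivially on a chief factor -/
lemma a6b_triv (p : ℕ) [Fact p.Prime] (G : Type u) [Group G] [Finite G] (P V N : Subgroup G)
    [P.Normal] [V.Normal] [N.Normal] (hp : IsPGroup p P) (hVP : V ≤ P) (hNV : N < V)
    (hch : ∀ X : Subgroup G, X.Normal → N ≤ X → X ≤ V → X = N ∨ X = V) :
    ⁅V, P⁆ ≤ N := by
  have hX : (⁅V, P⁆ ⊔ N).Normal := inferInstance
  rcases hch (⁅V, P⁆ ⊔ N) hX le_sup_right
    (sup_le (Subgroup.commutator_le_left V P) hNV.le) with h | h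
  · rw [← h]
    exact le_sup_left
  · exfalso
    set π := QuotientGroup.mk' N with hπ
    have h1 : V.map π = ⁅V.map π, P.map π⁆ := by
      have h2 : (⁅V, P⁆ ⊔ N).map π = V.map π := by rw [h]
      rw [Subgroup.map_sup, Subgroup.map_commutator, QuotientGroup.map_mk'_self, sup_bot_eq] at h2
      exact h2.symm
    have h3 : ∀ n, V.map π ≤ (P.map π).lowerCentralSeries n := by
      intro n
      induction n with
      | zero =>
        rw [Subgroup.lowerCentralSeries_zero]
        exact Subgroup.map_mono hVP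
      | succ n ihn =>
        rw [Subgroup.lowerCentralSeries_succ, h1]
        exact Subgroup.commutator_mono ihn le_rfl
    have h4 : Group.IsNilpotent (P.map π) := (hp.map π).isNilpotent
    obtain ⟨n, hn⟩ := (Subgroup.isNilpotent_iff_lowerCentralSeries _).mp h4
    have h5 := h3 n
    rw [hn, le_bot_iff, Subgroup.map_eq_bot_iff, QuotientGroup.ker_mk'] at h5
    exact absurd h5 (not_le_of_gt hNV)

/-- `p`-th powers in a chief factor -/
lemma a6b_pow (p : ℕ) [Fact p.Prime] (G : Type u) [Group G] [Finite G] (V N : Subgroup G)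
    [V.Normal] [N.Normal] (hp : IsPGroup p V) (hNV : N < V)
    (hab : ∀ x ∈ V, ∀ y ∈ V, x * y * x⁻¹ * y⁻¹ ∈ N)
    (hch : ∀ X : Subgroup G, X.Normal → N ≤ X → X ≤ V → X = N ∨ X = V) :
    ∀ x ∈ V, x ^ p ∈ N := by
  let X : Subgroup G :=
    { carrier := {x | x ∈ V ∧ x ^ p ∈ N}
      mul_mem' := by
        rintro x y ⟨hx, hx'⟩ ⟨hy, hy'⟩
        refine ⟨V.mul_mem hx hy, ?_⟩
        have hc : Commute (x : G ⧸ N) (y : G ⧸ N) := by
          have h1 := hab x hx y hy
          rw [← QuotientGroup.eq_one_iff] at h1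
          have h2 : (x : G ⧸ N) * y * (x : G ⧸ N)⁻¹ * (y : G ⧸ N)⁻¹ = 1 := by
            simpa using h1
          rw [mul_inv_eq_one, mul_inv_eq_iff_eq_mul] at h2
          exact h2
        rw [← QuotientGroup.eq_one_iff] at hx' hy' ⊢
        rw [QuotientGroup.mk_pow] at hx' hy' ⊢
        rw [QuotientGroup.mk_mul, hc.mul_pow, hx', hy', one_mul]
      one_mem' := ⟨V.one_mem, by rw [one_pow]; exact N.one_mem⟩
      inv_mem' := by
        rintro x ⟨hx, hx'⟩
        exact ⟨V.inv_mem hx, by rw [inv_pow]; exact N.inv_mem hx'⟩ }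
  have hXn : X.Normal := by
    constructor
    rintro x ⟨hx, hx'⟩ g
    refine ⟨Subgroup.Normal.conj_mem inferInstance x hx g, ?_⟩
    rw [conj_pow]
    exact Subgroup.Normal.conj_mem inferInstance _ hx' g
  have hNX : N ≤ X := fun x hx => ⟨hNV.le hx, N.pow_mem hx p⟩
  have hXV : X ≤ V := fun x hx => hx.1
  rcases hch X hXn hNX hXV with h | h
  · exfalso
    obtain ⟨x, hx, hxN⟩ := Set.exists_of_ssubset hNV
    obtain ⟨k, hk⟩ := hp ⟨x, hx⟩
    have hk' : x ^ p ^ k ∈ N := by
      have h1 := congrArg Subtype.val hk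
      have h2 : x ^ p ^ k = 1 := by simpa using h1
      rw [h2]
      exact N.one_mem
    have hex : ∃ k, x ^ p ^ k ∈ N := ⟨k, hk'⟩
    classical
    have hf := Nat.find_spec hex
    have hm := fun m hm => Nat.find_min hex (m := m) hm
    generalize Nat.find hex = k0 at hf hm
    cases k0 with
    | zero =>
      rw [pow_zero, pow_one] at hf
      exact hxN hf
    | succ k0 =>
      have h1 : x ^ p ^ k0 ∈ X := by
        refine ⟨V.pow_mem hx _, ?_⟩
        rw [← pow_mul, ← pow_succ]
        exact hf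
      rw [h] at h1
      exact hm k0 (Nat.lt_succ_self k0) h1
  · intro x hx
    rw [← h] at hx
    exact hx.2

lemma a6b_len (p : ℕ) (G : Type u) [Group G] [Finite G] (b : Base G p) : b.len + 1 ≤ kc G := by
  have hx : ∀ i : ℕ, ∃ x : G, x ∈ b.Q i ∧ (i < b.len → x ∉ b.Q (i + 1)) := by
    intro i
    by_cases hi : i < b.len
    · obtain ⟨x, hx, hx'⟩ := Set.exists_of_ssubset (b.lt i hi)
      exact ⟨x, hx, fun _ => hx'⟩
    · exact ⟨1, (b.Q i).one_mem, fun h => absurd h hi⟩
  choose x hx hx' using hx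
  have hinj : Function.Injective (fun i : Fin (b.len + 1) => ConjClasses.mk (x i)) := by
    have key : ∀ i j : ℕ, i < j → j ≤ b.len → ConjClasses.mk (x i) ≠ ConjClasses.mk (x j) := by
      intro i j hij hj he
      rw [ConjClasses.mk_eq_mk_iff_isConj, isConj_comm, isConj_iff] at he
      obtain ⟨c, hc⟩ := he
      have h1 : x j ∈ b.Q (i + 1) := b.anti hij (hx j)
      have h2 := (b.normal (i + 1)).conj_mem _ h1 c
      rw [hc] at h2
      exact hx' i (by omega) h2
    intro i j hij
    rcases lt_trichotomy (i : ℕ) (j : ℕ) with h | h | h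
    · exact absurd hij (key i j h (by omega))
    · exact Fin.ext h
    · exact absurd hij.symm (key j i h (by omega))
  have h := Nat.card_le_card_of_injective _ hinj
  rwa [Nat.card_eq_fintype_card, Fintype.card_fin] at h

theorem a6b : SA6b.{u} := by
  intro p _ G _ _ b
  refine ⟨a6b_len p G b, ?_⟩
  intro i hi
  have := b.normal 0
  have := b.normal i
  have := b.normal (i + 1)
  have hle : b.Q i ≤ b.Q 0 := b.anti (Nat.zero_le i)
  have htr := a6b_triv p G (b.Q 0) (b.Q i) (b.Q (i + 1)) b.pg hle (b.lt i hi) (b.chief i hi)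
  have htr' : ∀ g ∈ b.Q 0, ∀ x ∈ b.Q i, g * x * g⁻¹ * x⁻¹ ∈ b.Q (i + 1) := by
    intro g hg x hx
    apply htr
    rw [Subgroup.commutator_comm]
    exact Subgroup.commutator_mem_commutator hg hx
  have hab : ∀ x ∈ b.Q i, ∀ y ∈ b.Q i, x * y * x⁻¹ * y⁻¹ ∈ b.Q (i + 1) :=
    fun x hx y hy => htr' x (hle hx) y hy
  exact ⟨⟨⟨b.normal (i + 1), b.normal i, (b.lt i hi).le, hab⟩,
    a6b_pow p G (b.Q i) (b.Q (i + 1)) (b.pg.to_le hle) (b.lt i hi) hab (b.chief i hi)⟩,
    ⟨b.normal (i + 1), b.normal i, b.lt i hi, b.chief i hi⟩, htr'⟩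

end H48.CN
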