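import Pool.Agent.H48.CN.Stm

/-!
Images of the base series in an abelian section below the base.
-/

namespace H48.CN

universe u

section aux

variable {G A : Type u} [Group G] [AddCommGroup A] [DistribMulAction G A]
  {M L : Subgroup G} {φ : G → A}

theorem A6c_relIndex_im_le [Finite G] (h : IsFac (MonoidHom.id G) M L φ) (X Y : Subgroup G) :
    (h.im Y).relIndex (h.im X) ≤ Y.relIndex X := by
  have hc : ∀ q : (h.im X) ⧸ (h.im Y).addSubgroupOf (h.im X), ∃ x : X, x.1 ∈ L ∧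
      ∃ hv : φ x.1 ∈ h.im X, (QuotientAddGroup.mk (⟨φ x.1, hv⟩ : h.im X) :
        (h.im X) ⧸ (h.im Y).addSubgroupOf (h.im X)) = q := by
    intro q
    induction q using QuotientAddGroup.induction_on with
    | H v =>
      obtain ⟨v, hv⟩ := v
      obtain ⟨x, hxL, hxX, rfl⟩ := hv
      exact ⟨⟨x, hxX⟩, hxL, ⟨x, hxL, hxX, rfl⟩, rfl⟩
  choose f hfL hfv hfq using hc
  refine Nat.card_le_card_of_injective
    (fun q => (QuotientGroup.mk (f q) : X ⧸ Y.subgroupOf X)) ?_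
  intro q1 q2 h12
  have h12' : (QuotientGroup.mk (f q1) : X ⧸ Y.subgroupOf X) = QuotientGroup.mk (f q2) := h12
  rw [QuotientGroup.eq, Subgroup.mem_subgroupOf] at h12'
  rw [← hfq q1, ← hfq q2, QuotientAddGroup.eq, AddSubgroup.mem_addSubgroupOf]
  refine ⟨(f q1).1⁻¹ * (f q2).1, L.mul_mem (L.inv_mem (hfL q1)) (hfL q2), h12', ?_⟩
  rw [h.add _ (L.inv_mem (hfL q1)) _ (hfL q2), h.map_inv (hfL q1)]
  rfl

theorem A6c_im_mono (h : IsFac (MonoidHom.id G) M L φ) {X Y : Subgroup G} (hXY : X ≤ Y) :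
    h.im X ≤ h.im Y := by
  rintro v ⟨x, hxL, hxX, rfl⟩
  exact ⟨x, hxL, hXY hxX, rfl⟩

theorem A6c_chain (h : IsFac (MonoidHom.id G) M L φ) {Q : ℕ → Subgroup G}
    (hn : ∀ i, (Q i).Normal) (ha : Antitone Q) {n : ℕ} (hb : Q n = ⊥) (hL : L ≤ Q 0) :
    Chain G (fun i => h.im (Q i)) n where
  anti := fun i j hij => A6c_im_mono h (ha hij)
  top := by
    rw [eq_top_iff]
    intro v _
    obtain ⟨x, hx, hv⟩ := h.surj v
    exact ⟨x, hx, hL hx, hv⟩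
  bot := by
    rw [eq_bot_iff]
    rintro v ⟨x, hxL, hxX, rfl⟩
    rw [hb, Subgroup.mem_bot] at hxX
    rw [hxX, h.map_one]
    exact AddSubgroup.zero_mem _
  stab := by
    rintro i g v ⟨x, hxL, hxX, rfl⟩
    exact ⟨g * x * g⁻¹, h.nM.conj_mem x hxL g, (hn i).conj_mem x hxX g, h.equi g x hxL⟩

theorem A6c_lt (h : IsFac (MonoidHom.id G) M L φ) {X Y : Subgroup G} (hYX : Y ≤ X)
    (hM : M ⊓ X ≤ Y) (hL : ¬ L ⊓ X ≤ Y) : h.im Y < h.im X := by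
  refine lt_of_le_of_ne (A6c_im_mono h hYX) ?_
  intro he
  apply hL
  intro x hx
  have h1 : φ x ∈ h.im Y := by
    rw [he]
    exact ⟨x, hx.1, hx.2, rfl⟩
  obtain ⟨y, hyL, hyY, hyx⟩ := h1
  have h2 : x * y⁻¹ ∈ M := (h.eq_iff hx.1 hyL).mp hyx.symm
  have h3 : x * y⁻¹ ∈ Y := hM ⟨h2, X.mul_mem hx.2 (X.inv_mem (hYX hyY))⟩
  have h4 := Y.mul_mem h3 hyY
  rwa [inv_mul_cancel_right] at h4

theorem A6c_fix (h : IsFac (MonoidHom.id G) M L φ) {X Y : Subgroup G} (hnX : X.Normal)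
    (hnY : Y.Normal) (hYX : Y ≤ X)
    (hM : M ⊓ X ≤ Y) (hL : (L ⊓ X) ⊔ Y = X) (g : G) :
    fixA g (h.im X) (h.im Y) ↔ fixLev Y X g := by
  constructor
  · rintro ⟨v, ⟨x, hxL, hxX, rfl⟩, hvY, hgv⟩
    refine ⟨x, hxX, fun hxY => hvY ⟨x, hxL, hxY, rfl⟩, ?_⟩
    obtain ⟨y, hyL, hyY, hy⟩ := hgv
    have hgx : g * x * g⁻¹ ∈ L := h.nM.conj_mem x hxL g
    have hgX : g * x * g⁻¹ ∈ X := hnX.conj_mem x hxX g
    have hcL : g * x * g⁻¹ * x⁻¹ ∈ L := L.mul_mem hgx (L.inv_mem hxL)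
    have hcX : g * x * g⁻¹ * x⁻¹ ∈ X := X.mul_mem hgX (X.inv_mem hxX)
    have h1 : φ (g * x * g⁻¹ * x⁻¹) = φ y := by
      rw [h.add _ hgx _ (L.inv_mem hxL), h.map_inv hxL, h.equi g x hxL, hy, sub_eq_add_neg]
      rfl
    have h2 : (g * x * g⁻¹ * x⁻¹) * y⁻¹ ∈ M := (h.eq_iff hcL hyL).mp h1
    have h3 : (g * x * g⁻¹ * x⁻¹) * y⁻¹ ∈ Y :=
      hM ⟨h2, X.mul_mem hcX (X.inv_mem (hYX hyY))⟩
    have h4 := Y.mul_mem h3 hyY
    rwa [inv_mul_cancel_right] at h4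
  · rintro ⟨x, hxX, hxY, hgx⟩
    have hx : x ∈ (L ⊓ X) ⊔ Y := by rw [hL]; exact hxX
    obtain ⟨y, hy, z, hz, rfl⟩ := Subgroup.mem_sup_of_normal_right.mp hx
    have hyY : y ∉ Y := fun hyY => hxY (Y.mul_mem hyY hz)
    refine ⟨φ y, ⟨y, hy.1, hy.2, rfl⟩, ?_, ?_⟩
    · rintro ⟨w, hwL, hwY, hw⟩
      have h2 : y * w⁻¹ ∈ M := (h.eq_iff hy.1 hwL).mp hw.symm
      have h3 : y * w⁻¹ ∈ Y := hM ⟨h2, X.mul_mem hy.2 (X.inv_mem (hYX hwY))⟩
      have h4 := Y.mul_mem h3 hwY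
      rw [inv_mul_cancel_right] at h4
      exact hyY h4
    · refine ⟨g * y * g⁻¹ * y⁻¹, L.mul_mem (h.nM.conj_mem y hy.1 g) (L.inv_mem hy.1), ?_, ?_⟩
      · have e : g * y * g⁻¹ * y⁻¹ = (g * (y * z) * g⁻¹ * (y * z)⁻¹) *
            ((y * z) * (g * z⁻¹ * g⁻¹) * (y * z)⁻¹) * (y * z * y⁻¹) := by group
        rw [e]
        refine Y.mul_mem (Y.mul_mem hgx ?_) (hnY.conj_mem z hz y)
        exact hnY.conj_mem _ (hnY.conj_mem _ (Y.inv_mem hz) g) _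
      · rw [h.add _ (h.nM.conj_mem y hy.1 g) _ (L.inv_mem hy.1), h.map_inv hy.1,
          h.equi g y hy.1, sub_eq_add_neg]
        rfl

end aux

/-- A6c -/
theorem a6c : SA6c.{u} := by
  intro p _ G A _ _ _ _ b M L φ h hL0
  classical
  have hI : b.I M ⊆ b.I L := by
    intro i hi
    unfold Base.I at hi ⊢
    rw [Finset.mem_filter] at hi ⊢
    refine ⟨hi.1, fun he => hi.2 ?_⟩
    apply le_antisymm
    · intro x hx
      have h1 : x ∈ L ⊓ b.Q (i + 1) := by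
        rw [← he]
        exact ⟨h.le hx.1, hx.2⟩
      exact ⟨hx.1, h1.2⟩
    · exact inf_le_inf_left M (b.anti (Nat.le_succ i))
  refine ⟨hI, A6c_chain h b.normal b.anti b.bot hL0,
    fun i => A6c_relIndex_im_le h (b.Q i) (b.Q (i + 1)), ?_⟩
  intro i hi
  rw [Finset.mem_sdiff] at hi
  obtain ⟨hiL, hiM⟩ := hi
  unfold Base.I at hiL hiM
  rw [Finset.mem_filter] at hiL hiM
  obtain ⟨hir, hiL⟩ := hiL
  have hiM' : M ⊓ b.Q i = M ⊓ b.Q (i + 1) := by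
    by_contra hne
    exact hiM ⟨hir, hne⟩
  have hlen : i < b.len := Finset.mem_range.mp hir
  have hle : b.Q (i + 1) ≤ b.Q i := b.anti (Nat.le_succ i)
  have hM : M ⊓ b.Q i ≤ b.Q (i + 1) := by
    rw [hiM']
    exact inf_le_right
  have hL : ¬ L ⊓ b.Q i ≤ b.Q (i + 1) := by
    intro hle'
    apply hiL
    apply le_antisymm
    · exact le_inf inf_le_left hle'
    · exact inf_le_inf_left L hle
  have hsup : (L ⊓ b.Q i) ⊔ b.Q (i + 1) = b.Q i := by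
    have := h.nM
    have := b.normal i
    have := b.normal (i + 1)
    rcases b.chief i hlen ((L ⊓ b.Q i) ⊔ b.Q (i + 1)) inferInstance le_sup_right
      (sup_le inf_le_right hle) with h1 | h1
    · exfalso
      apply hL
      calc L ⊓ b.Q i ≤ (L ⊓ b.Q i) ⊔ b.Q (i + 1) := le_sup_left
        _ = b.Q (i + 1) := h1
    · exact h1
  exact ⟨A6c_lt h hle hM hL, fun g => A6c_fix h (b.normal i) (b.normal (i + 1)) hle hM hsup g⟩

end H48.CN
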