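import Pool.Agent.H48.CN.Stm

/-!
Class numbers of finite solvable groups: row A6d, counting levels by orbits and by order
(`SA6d`, `SA6e`).
-/

namespace H48.CN

universe u

theorem a6d_mem {G : Type u} [Group G] {p : ℕ} (b : Base G p) (X : Subgroup G) (i : ℕ) :
    i ∈ b.I X ↔ i < b.len ∧ ∃ x ∈ X, x ∈ b.Q i ∧ x ∉ b.Q (i + 1) := by
  classical
  unfold Base.I
  rw [Finset.mem_filter, Finset.mem_range]
  refine and_congr_right fun _ => ?_
  constructor
  · intro h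
    by_contra hc
    push Not at hc
    apply h
    refine le_antisymm ?_ ?_
    · intro x hx
      exact ⟨hx.1, hc x hx.1 hx.2⟩
    · intro x hx
      exact ⟨hx.1, b.anti (Nat.le_succ i) hx.2⟩
  · rintro ⟨x, hx, hx1, hx2⟩ h
    have h1 : x ∈ X ⊓ b.Q i := ⟨hx, hx1⟩
    rw [h] at h1
    exact hx2 h1.2

theorem a6d_not {G : Type u} [Group G] {p : ℕ} (b : Base G p) (Y : Subgroup G) {i : ℕ}
    (hi : i < b.len) (h : i ∉ b.I Y) {y : G} (hy : y ∈ Y) (hy1 : y ∈ b.Q i) :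
    y ∈ b.Q (i + 1) := by
  by_contra hc
  exact h ((a6d_mem b Y i).2 ⟨hi, y, hy, hy1, hc⟩)

/-- the key step -/
theorem a6d_key {G : Type u} [Group G] {p : ℕ} (b : Base G p) (Y : Subgroup G) {i : ℕ}
    (hi : i < b.len) (h : i ∉ b.I Y) {x q y : G} (hx : x ∈ b.Q i) (hx' : x ∉ b.Q (i + 1))
    (hq : q ∈ b.Q (i + 1)) (hy : y ∈ Y) (he : x = q * y) : False := by
  have h1 : y = q⁻¹ * x := by rw [he]; group
  have h2 : y ∈ b.Q i := by
    rw [h1]
    exact (b.Q i).mul_mem ((b.Q i).inv_mem (b.anti (Nat.le_succ i) hq)) hx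
  have h3 := a6d_not b Y hi h hy h2
  exact hx' (by rw [he]; exact (b.Q (i + 1)).mul_mem hq h3)

theorem a6d_stab {G : Type u} {A : Type u} [Group G] [AddCommGroup A]
    [DistribMulAction G A] {M L : Subgroup G} {φ : G → A} (h : IsFac (MonoidHom.id G) M L φ)
    (X : Subgroup G) (hX : X.Normal) (g : G) {a : A} (ha : a ∈ h.im X) : g • a ∈ h.im X := by
  obtain ⟨x, hx, hx', rfl⟩ := ha
  exact ⟨g * x * g⁻¹, h.nM.conj_mem x hx g, hX.conj_mem x hx' g, h.equi g x hx⟩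

theorem a6d : SA6d.{u} := by
  intro p _ G A _ _ _ _ b M L X Y φ h hL hX hY hMY hYX hXL
  classical
  have _ := hL
  haveI : Finite A := Finite.of_surjective φ fun v => by
    obtain ⟨x, _, hx⟩ := h.surj v
    exact ⟨x, hx⟩
  -- the invariant subgroups
  let W : ℕ → AddSubgroup A := fun i => h.im (b.Q i) ⊔ h.im Y
  have hWst : ∀ i (g : G) (a : A), a ∈ W i → g • a ∈ W i := by
    intro i g a ha
    obtain ⟨c, hc, d, hd, rfl⟩ := AddSubgroup.mem_sup.1 ha
    rw [smul_add]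
    exact AddSubgroup.add_mem_sup (a6d_stab h _ (b.normal i) g hc) (a6d_stab h _ hY g hd)
  have hWinv : ∀ i (g : G) (a c : A), g • a - c ∈ h.im Y → (a ∈ W i ↔ c ∈ W i) := by
    intro i g a c hac
    have hac' : g • a - c ∈ W i := (le_sup_right : h.im Y ≤ W i) hac
    constructor
    · intro ha
      have h1 := (W i).sub_mem (hWst i g a ha) hac'
      rwa [sub_sub_cancel] at h1
    · intro hc
      have h1 := (W i).add_mem hac' hc
      rw [sub_add_cancel] at h1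
      have h2 := hWst i g⁻¹ _ h1
      rwa [inv_smul_smul] at h2
  -- the elements
  have hex : ∀ i : {i // i ∈ b.I X \ b.I Y}, ∃ x ∈ X, x ∈ b.Q i ∧ x ∉ b.Q (i + 1) := by
    intro i
    exact ((a6d_mem b X i).1 (Finset.mem_sdiff.1 i.2).1).2
  choose x hxX hxQ hxQ' using hex
  have hlen : ∀ i : {i // i ∈ b.I X \ b.I Y}, (i : ℕ) < b.len := fun i =>
    ((a6d_mem b X i).1 (Finset.mem_sdiff.1 i.2).1).1
  have hnot : ∀ i : {i // i ∈ b.I X \ b.I Y}, φ (x i) ∉ W (i + 1) := by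
    intro i hi
    obtain ⟨c, ⟨q, hqL, hq, rfl⟩, d, ⟨y, hyL, hy, rfl⟩, hcd⟩ := AddSubgroup.mem_sup.1 hi
    rw [← h.add q hqL y hyL] at hcd
    have h1 : x i * (q * y)⁻¹ ∈ M :=
      (h.eq_iff (hXL (hxX i)) (L.mul_mem hqL hyL)).1 hcd.symm
    have h2 : q⁻¹ * (x i * (q * y)⁻¹) * q * y ∈ Y := by
      refine Y.mul_mem ?_ hy
      have := hY.conj_mem _ (hMY h1) q⁻¹
      rwa [inv_inv] at this
    refine a6d_key b Y (hlen i) (Finset.mem_sdiff.1 i.2).2 (hxQ i) (hxQ' i) hq h2 ?_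
    group
  have hmemX : ∀ i, φ (x i) ∈ h.im X := fun i => ⟨x i, hXL (hxX i), hxX i, rfl⟩
  have hnotY : ∀ i, φ (x i) ∉ h.im Y := fun i hi => hnot i ((le_sup_right : h.im Y ≤ _) hi)
  have hin : ∀ i j : {i // i ∈ b.I X \ b.I Y}, (i : ℕ) < j → φ (x j) ∈ W (i + 1) := by
    intro i j hij
    refine (le_sup_left : h.im (b.Q (i + 1)) ≤ W (i + 1)) ⟨x j, hXL (hxX j), ?_, rfl⟩
    exact b.anti hij (hxQ j)
  -- the injection
  unfold rorb
  have hcard : (b.I X \ b.I Y).card = Nat.card {i // i ∈ b.I X \ b.I Y} := by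
    rw [Nat.card_eq_fintype_card, Fintype.card_coe]
  rw [hcard]
  refine Nat.card_le_card_of_injective (fun i => Quot.mk _ ⟨φ (x i), hmemX i, hnotY i⟩) ?_
  have key : ∀ i j : {i // i ∈ b.I X \ b.I Y}, (i : ℕ) < j →
      (Quot.mk (fun a c : {a : A // a ∈ h.im X ∧ a ∉ h.im Y} => ∃ g : G, g • a.1 - c.1 ∈ h.im Y)
        ⟨φ (x i), hmemX i, hnotY i⟩) ≠ Quot.mk _ ⟨φ (x j), hmemX j, hnotY j⟩ := by
    intro i j hij he
    have h1 := congrArg (Quot.lift (fun a : {a : A // a ∈ h.im X ∧ a ∉ h.im Y} =>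
      (a.1 ∈ W (i + 1) : Prop)) (by
        rintro a c ⟨g, hg⟩
        exact propext (hWinv (i + 1) g a.1 c.1 hg))) he
    have h2 : (φ (x i) ∈ W (i + 1)) = (φ (x j) ∈ W (i + 1)) := h1
    exact hnot i (by rw [h2]; exact hin i j hij)
  intro i j hij
  rcases lt_trichotomy (i : ℕ) (j : ℕ) with h1 | h1 | h1
  · exact absurd hij (key i j h1)
  · exact Subtype.ext h1
  · exact absurd hij.symm (key j i h1)

theorem a6e_chain {G : Type u} [Group G] [Finite G] {p : ℕ} (b : Base G p) (X Y : Subgroup G)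
    (hY : Y.Normal) (hYX : Y ≤ X) (hX0 : X ≤ b.Q 0) (n : ℕ) (hn : n ≤ b.len) :
    2 ^ ((b.I X \ b.I Y) ∩ Finset.range n).card ≤ ((X ⊓ b.Q n) ⊔ Y).relIndex X := by
  classical
  induction n with
  | zero =>
    have h1 : X ⊓ b.Q 0 ⊔ Y = X := by rw [inf_eq_left.2 hX0, sup_eq_left.2 hYX]
    rw [h1, Subgroup.relIndex_self]
    simp
  | succ n ih =>
    have ih := ih (by omega)
    have h1 : (X ⊓ b.Q (n + 1)) ⊔ Y ≤ (X ⊓ b.Q n) ⊔ Y :=
      sup_le_sup_right (inf_le_inf_left _ (b.anti (Nat.le_succ n))) _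
    have h2 : (X ⊓ b.Q n) ⊔ Y ≤ X := sup_le inf_le_left hYX
    have h3 := Subgroup.relIndex_mul_relIndex _ _ _ h1 h2
    rw [← h3]
    have hpos : 1 ≤ ((X ⊓ b.Q (n + 1)) ⊔ Y).relIndex ((X ⊓ b.Q n) ⊔ Y) :=
      Nat.one_le_iff_ne_zero.2 (Subgroup.index_ne_zero_of_finite (H := Subgroup.subgroupOf _ _))
    by_cases hmem : n ∈ b.I X \ b.I Y
    · have hc : ((b.I X \ b.I Y) ∩ Finset.range (n + 1)).card ≤
          ((b.I X \ b.I Y) ∩ Finset.range n).card + 1 := by
        have hsub : (b.I X \ b.I Y) ∩ Finset.range (n + 1) ⊆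
            insert n ((b.I X \ b.I Y) ∩ Finset.range n) := by
          intro k hk
          rw [Finset.mem_inter, Finset.mem_range] at hk
          rw [Finset.mem_insert, Finset.mem_inter, Finset.mem_range]
          rcases Nat.lt_succ_iff_lt_or_eq.1 hk.2 with h | h
          · exact Or.inr ⟨hk.1, h⟩
          · exact Or.inl h
        exact (Finset.card_le_card hsub).trans (Finset.card_insert_le _ _)
      have hne : ((X ⊓ b.Q (n + 1)) ⊔ Y).relIndex ((X ⊓ b.Q n) ⊔ Y) ≠ 1 := by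
        intro h
        rw [Subgroup.relIndex_eq_one] at h
        obtain ⟨hlt, x, hxX, hx, hx'⟩ := (a6d_mem b X n).1 (Finset.mem_sdiff.1 hmem).1
        have hx1 : x ∈ (X ⊓ b.Q (n + 1)) ⊔ Y := h ((le_sup_left : X ⊓ b.Q n ≤ _) ⟨hxX, hx⟩)
        obtain ⟨q, hq, y, hy, hqy⟩ := (Subgroup.mem_sup_of_normal_right (ht := hY)).1 hx1
        exact a6d_key b Y hlt (Finset.mem_sdiff.1 hmem).2 hx hx' hq.2 hy hqy.symm
      have h4 : 2 ≤ ((X ⊓ b.Q (n + 1)) ⊔ Y).relIndex ((X ⊓ b.Q n) ⊔ Y) := by omega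
      calc 2 ^ ((b.I X \ b.I Y) ∩ Finset.range (n + 1)).card
          ≤ 2 ^ (((b.I X \ b.I Y) ∩ Finset.range n).card + 1) :=
            Nat.pow_le_pow_right (by norm_num) hc
        _ = 2 * 2 ^ ((b.I X \ b.I Y) ∩ Finset.range n).card := by rw [pow_succ]; ring
        _ ≤ _ := Nat.mul_le_mul h4 ih
    · have hc : (b.I X \ b.I Y) ∩ Finset.range (n + 1) = (b.I X \ b.I Y) ∩ Finset.range n := by
        ext k
        rw [Finset.mem_inter, Finset.mem_inter, Finset.mem_range, Finset.mem_range]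
        constructor
        · rintro ⟨h5, h6⟩
          rcases Nat.lt_succ_iff_lt_or_eq.1 h6 with h | h
          · exact ⟨h5, h⟩
          · rw [h] at h5
            exact absurd h5 hmem
        · rintro ⟨h5, h6⟩
          exact ⟨h5, by omega⟩
      rw [hc]
      calc 2 ^ ((b.I X \ b.I Y) ∩ Finset.range n).card
          = 1 * 2 ^ ((b.I X \ b.I Y) ∩ Finset.range n).card := (one_mul _).symm
        _ ≤ _ := Nat.mul_le_mul hpos ih

theorem a6e_le {G : Type u} [Group G] {p : ℕ} (b : Base G p) (X Y : Subgroup G)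
    (hY : Y.Normal) (hYX : Y ≤ X) (hI : b.I X ⊆ b.I Y) (k : ℕ) (hk : k ≤ b.len) :
    X ⊓ b.Q (b.len - k) ≤ Y := by
  induction k with
  | zero =>
    rw [Nat.sub_zero, b.bot]
    exact inf_le_right.trans bot_le
  | succ k ih =>
    have ih := ih (by omega)
    set i := b.len - (k + 1) with hi
    have hi1 : b.len - k = i + 1 := by omega
    have hilt : i < b.len := by omega
    rw [hi1] at ih
    intro x hx
    by_cases hIY : i ∈ b.I Y
    · obtain ⟨_, y, hyY, hy, hy'⟩ := (a6d_mem b Y i).1 hIY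
      haveI := hY
      haveI := b.normal i
      haveI := b.normal (i + 1)
      have hch := b.chief i hilt ((Y ⊓ b.Q i) ⊔ b.Q (i + 1)) inferInstance le_sup_right
        (sup_le inf_le_right (b.anti (Nat.le_succ i)))
      rcases hch with hch | hch
      · exfalso
        apply hy'
        rw [← hch]
        exact (le_sup_left : Y ⊓ b.Q i ≤ _) ⟨hyY, hy⟩
      · have hx1 : x ∈ (Y ⊓ b.Q i) ⊔ b.Q (i + 1) := by rw [hch]; exact hx.2
        obtain ⟨y1, hy1, q, hq, hyq⟩ :=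
          (Subgroup.mem_sup_of_normal_right (ht := b.normal (i + 1))).1 hx1
        have hq1 : q = y1⁻¹ * x := by rw [← hyq]; group
        have hqX : q ∈ X := by
          rw [hq1]
          exact X.mul_mem (X.inv_mem (hYX hy1.1)) hx.1
        rw [← hyq]
        exact Y.mul_mem hy1.1 (ih ⟨hqX, hq⟩)
    · have hIX : i ∉ b.I X := fun h => hIY (hI h)
      exact ih ⟨hx.1, a6d_not b X hilt hIX hx.1 hx.2⟩

theorem a6e : SA6e.{u} := by
  intro p _ G _ _ b X Y hX hY hYX hX0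
  classical
  refine ⟨?_, ?_, ?_, ?_, ?_⟩
  · intro i hi
    obtain ⟨h1, y, hy, hy1, hy2⟩ := (a6d_mem b Y i).1 hi
    exact (a6d_mem b X i).2 ⟨h1, y, hYX hy, hy1, hy2⟩
  · have h1 := a6e_chain b X Y hY hYX hX0 b.len le_rfl
    have h2 : (b.I X \ b.I Y) ∩ Finset.range b.len = b.I X \ b.I Y := by
      rw [Finset.inter_eq_left]
      intro i hi
      exact Finset.mem_range.2 ((a6d_mem b X i).1 (Finset.mem_sdiff.1 hi).1).1
    rw [h2, b.bot, inf_bot_eq, bot_sup_eq] at h1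
    exact h1
  · intro hlt
    by_contra hc
    rw [Finset.not_nonempty_iff_eq_empty, Finset.sdiff_eq_empty_iff_subset] at hc
    have h1 := a6e_le b X Y hY hYX hc b.len le_rfl
    rw [Nat.sub_self, inf_eq_left.2 hX0] at h1
    exact not_le_of_gt hlt h1
  · ext i
    rw [a6d_mem, Finset.mem_range]
    constructor
    · exact fun h => h.1
    · intro h
      obtain ⟨x, hx, hx'⟩ := SetLike.exists_of_lt (b.lt i h)
      exact ⟨h, x, b.anti (Nat.zero_le i) hx, hx, hx'⟩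
  · rw [Finset.eq_empty_iff_forall_notMem]
    intro i hi
    obtain ⟨_, x, hx, _, hx2⟩ := (a6d_mem b ⊥ i).1 hi
    rw [Subgroup.mem_bot] at hx
    rw [hx] at hx2
    exact hx2 (b.Q (i + 1)).one_mem

end H48.CN
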