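import Pool.Agent.H48.CN.Stm

/-!
Class numbers of finite solvable groups: primitive modules (helper63).
-/

namespace H48.CN

open H60.KG MulAction
open scoped Pointwise

universe u

/-! ### numbers -/

private theorem b1_num (L l : ℕ) (hL : 16384 ≤ L) (hl : 2 ^ l ≤ L ^ 2) :
    (L * (((L ^ 2) ^ Nat.log 2 (L ^ 2)) * (L ^ 2 * (l * 1) ^ l))) ^ 4 ≤ 2 ^ L := by
  set e := Nat.log 2 L with he
  have hL0 : L ≠ 0 := by omega
  have h1 : L < 2 ^ (e + 1) := Nat.lt_pow_succ_log_self (by norm_num) L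
  have h2 : 2 ^ e ≤ L := Nat.pow_log_le_self 2 hL0
  have he14 : 14 ≤ e := by
    by_contra hcon
    have h1' : 2 ^ (e + 1) ≤ 2 ^ 14 := Nat.pow_le_pow_right (by norm_num) (by omega)
    have h2' : (2 : ℕ) ^ 14 = 16384 := by norm_num
    omega
  have h3 : L ^ 2 < 2 ^ (2 * e + 2) := by
    calc L ^ 2 < (2 ^ (e + 1)) ^ 2 := Nat.pow_lt_pow_left h1 (by norm_num)
      _ = 2 ^ (2 * e + 2) := by rw [← pow_mul]; ring_nf
  have h4 : Nat.log 2 (L ^ 2) ≤ 2 * e + 1 := by
    have := Nat.log_lt_of_lt_pow (by positivity) h3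
    omega
  have h5 : l ≤ 2 * e + 1 := by
    have h6 : 2 ^ l < 2 ^ (2 * e + 2) := lt_of_le_of_lt hl h3
    have := (Nat.pow_lt_pow_iff_right (by norm_num : 1 < 2)).mp h6
    omega
  have h8 : (l * 1) ^ l ≤ 2 ^ ((2 * e + 1) * (2 * e + 1)) := by
    calc (l * 1) ^ l ≤ (2 ^ l) ^ l := by
          rw [mul_one]
          exact Nat.pow_le_pow_left (Nat.lt_two_pow_self).le _
      _ = 2 ^ (l * l) := by rw [← pow_mul]
      _ ≤ 2 ^ ((2 * e + 1) * (2 * e + 1)) :=
          Nat.pow_le_pow_right (by norm_num) (Nat.mul_le_mul h5 h5)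
  have h9 : (L ^ 2) ^ Nat.log 2 (L ^ 2) ≤ 2 ^ ((2 * e + 2) * (2 * e + 1)) := by
    calc (L ^ 2) ^ Nat.log 2 (L ^ 2) ≤ (2 ^ (2 * e + 2)) ^ Nat.log 2 (L ^ 2) :=
          Nat.pow_le_pow_left h3.le _
      _ ≤ (2 ^ (2 * e + 2)) ^ (2 * e + 1) := Nat.pow_le_pow_right (by positivity) h4
      _ = _ := by rw [← pow_mul]
  set E := (e + 1) + ((2 * e + 2) * (2 * e + 1) + ((2 * e + 2) + (2 * e + 1) * (2 * e + 1)))
    with hE
  have h12 : L * (((L ^ 2) ^ Nat.log 2 (L ^ 2)) * (L ^ 2 * (l * 1) ^ l)) ≤ 2 ^ E := by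
    rw [hE, pow_add, pow_add _ ((2 * e + 2) * (2 * e + 1)), pow_add _ (2 * e + 2)]
    exact Nat.mul_le_mul h1.le (Nat.mul_le_mul h9 (Nat.mul_le_mul h3.le h8))
  have h13 : 4 * E ≤ 52 * (e + 1) ^ 2 := by
    rw [hE]
    nlinarith [Nat.zero_le e]
  calc _ ≤ (2 ^ E) ^ 4 := Nat.pow_le_pow_left h12 4
    _ = 2 ^ (4 * E) := by rw [← pow_mul, mul_comm]
    _ ≤ 2 ^ L := Nat.pow_le_pow_right (by norm_num) ((h13.trans (sq_aux e he14)).trans h2)

/-! ### fixed fields -/

private theorem b1_fix {K : Type u} [Field K] [Finite K] (s : RingAut K) (hs : s ≠ 1) :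
    (Nat.card {c : K // s c = c}) ^ 2 ≤ Nat.card K := by
  classical
  let E : Subfield K := RingHom.eqLocusField (s : K →+* K) (RingHom.id K)
  have hmem : ∀ c : K, c ∈ E ↔ s c = c := fun c => Iff.rfl
  have e1 : Nat.card {c : K // s c = c} = Nat.card E := rfl
  haveI : Module.Finite E K := Module.Finite.of_finite
  have h1 : Nat.card K = Nat.card E ^ Module.finrank E K := Module.natCard_eq_pow_finrank
  have h2 : 2 ≤ Module.finrank E K := by
    by_contra hcon
    have h3 : 0 < Module.finrank E K := Module.finrank_pos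
    have h4 : Module.finrank E K = 1 := by omega
    rw [h4, pow_one] at h1
    apply hs
    apply RingEquiv.ext
    intro c
    have h5 : Function.Surjective (Subtype.val : E → K) :=
      ((Nat.bijective_iff_injective_and_card _).2 ⟨Subtype.val_injective, h1.symm⟩).2
    obtain ⟨y, rfl⟩ := h5 c
    exact (hmem y).1 y.2
  rw [e1, h1]
  exact Nat.pow_le_pow_right Nat.card_pos h2

/-! ### the one-dimensional case -/

section

variable {H V : Type u} [Group H] [Finite H] [AddCommGroup V] [Finite V] [DistribMulAction H V]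
  [Nontrivial V] {K : Type u} [Field K] [Finite K] [Module K V]

omit [Finite H] [Finite V] in
/-- linear elements act by scalars -/
private theorem b1_scal (hd : Module.finrank K V = 1) (z : H)
    (hz : ∀ (c : K) (v : V), z • (c • v) = c • (z • v)) : ∃ c : K, ∀ v : V, z • v = c • v := by
  obtain ⟨v0, hv0⟩ := exists_ne (0 : V)
  have h1 : ∀ w : V, ∃ c : K, c • v0 = w := (finrank_eq_one_iff_of_nonzero' v0 hv0).1 hd
  obtain ⟨c, hc⟩ := h1 (z • v0)
  refine ⟨c, fun v => ?_⟩
  obtain ⟨d, rfl⟩ := h1 v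
  rw [hz, ← hc, smul_smul, smul_smul, mul_comm]

omit [Finite H] [Finite V] in
private theorem b1_scal_inj {c d : K} {v : V} (hv : v ≠ 0) (h : c • v = d • v) : c = d := by
  rw [← sub_eq_zero, ← sub_smul] at h
  rcases smul_eq_zero.1 h with h1 | h1
  · exact sub_eq_zero.1 h1
  · exact absurd h1 hv

end

/-- the conclusion from a one-dimensional field action of the image -/
private theorem b1_one (H V : Type u) [Group H] [Finite H] [AddCommGroup V] [Finite V]
    [DistribMulAction H V] [Nontrivial V] (K : Type u) [Field K] [Finite K] [Module K V]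
    (hd : Module.finrank K V = 1) (σ : img H V →* RingAut K)
    (hσ : ∀ (h : img H V) (x : K) (v : V), h • (x • v) = (σ h x) • (h • v)) :
    ∃ Z : Subgroup H, OneDim H V Z := by
  classical
  haveI : Finite (img H V) := inferInstance
  haveI : Module.Finite K V := Module.Finite.of_finite
  have hVK : Nat.card V = Nat.card K := by
    rw [Module.natCard_eq_pow_finrank (K := K) (V := V), hd, pow_one]
  obtain ⟨v0, hv0⟩ := exists_ne (0 : V)
  set π : H →* img H V := (toU H V).rangeRestrict with hπ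
  have hsur : Function.Surjective π := (toU H V).rangeRestrict_surjective
  have hact : ∀ (h : H) (v : V), π h • v = h • v := fun h v => rfl
  have hker : ∀ h : H, π h = 1 ↔ h ∈ aker H V := by
    intro h
    constructor
    · intro h1 v
      rw [← hact, h1, one_smul]
    · intro h1
      apply FaithfulSMul.eq_of_smul_eq_smul (α := V)
      intro v
      rw [hact, one_smul]
      exact h1 v
  set Z : Subgroup H := σ.ker.comap π with hZ
  have hZm : ∀ z : H, z ∈ Z ↔ σ (π z) = 1 := fun z => Iff.rfl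
  have hsc : ∀ g : img H V, ∃ c : K, g ∈ σ.ker → ∀ v : V, g • v = c • v := by
    intro g
    by_cases hg : g ∈ σ.ker
    · obtain ⟨c, hc⟩ := b1_scal (K := K) (V := V) hd g (fun c v => by
        rw [hσ, (MonoidHom.mem_ker.1 hg)]
        rfl)
      exact ⟨c, fun _ => hc⟩
    · exact ⟨0, fun h => absurd h hg⟩
  choose φ hφ using hsc
  have hφZ : ∀ z ∈ Z, ∀ v : V, z • v = φ (π z) • v := fun z hz v => by
    rw [← hact]
    exact hφ (π z) hz v
  have hφ1 : ∀ z ∈ Z, φ (π z) = 1 → z ∈ aker H V := by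
    intro z hz h1 v
    rw [hφZ z hz, h1, one_smul]
  refine ⟨Z, ?_, ?_, ?_, ?_, ?_, ?_, ?_⟩
  · exact Subgroup.Normal.comap inferInstance π
  · intro h hh
    rw [hZm, (hker h).2 hh, map_one]
  · intro z hz v hv hzv
    apply hφ1 z hz
    apply b1_scal_inj (v := v) hv
    rw [← hφZ z hz, hzv, one_smul]
  · intro x hx y hy v
    have h1 : ∀ w : V, (x * y) • w = (y * x) • w := by
      intro w
      rw [mul_smul, mul_smul, hφZ x hx (y • w), hφZ y hy w, hφZ y hy (x • w), hφZ x hx w,
        smul_smul, smul_smul, mul_comm]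
    have h2 : x * y * x⁻¹ * y⁻¹ = (x * y) * (y * x)⁻¹ := by group
    rw [h2, mul_smul, h1, smul_inv_smul]
  · -- cyclic
    let ψ : σ.ker →* K := {
      toFun := fun g => φ g
      map_one' := by
        apply b1_scal_inj (v := v0) hv0
        have h := hφ ((1 : σ.ker) : img H V) (1 : σ.ker).2 v0
        rw [← h, OneMemClass.coe_one, one_smul, one_smul]
      map_mul' := fun g g' => by
        apply b1_scal_inj (v := v0) hv0
        have h1 := hφ (g * g' : σ.ker) (g * g').2 v0
        rw [← h1, ← smul_smul, ← hφ g' g'.2, ← hφ g g.2, ← mul_smul]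
        rfl }
    have hinj : Function.Injective ψ := by
      intro g g' hgg
      apply Subtype.ext
      apply FaithfulSMul.eq_of_smul_eq_smul (α := V)
      intro v
      rw [hφ g g.2, hφ g' g'.2]
      have h1 : φ g = φ g' := hgg
      rw [h1]
    have hcyc : IsCyclic σ.ker := isCyclic_of_subgroup_isDomain ψ hinj
    obtain ⟨g0, hg0⟩ := IsCyclic.exists_monoid_generator (α := σ.ker)
    obtain ⟨z0, hz0⟩ := hsur g0
    refine ⟨z0, ?_, ?_⟩
    · rw [hZm, hz0]
      exact g0.2
    · intro z hz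
      obtain ⟨n, hn⟩ := hg0 ⟨π z, hz⟩
      refine ⟨n, ?_⟩
      rw [← hker, map_mul, map_pow, map_inv, hz0, mul_inv_eq_one]
      exact congrArg Subtype.val hn
  · -- index
    haveI : Finite (RingAut K) :=
      Finite.of_injective (fun f : RingAut K => (f : K → K)) DFunLike.coe_injective
    rw [hZ, Subgroup.index_comap_of_surjective _ hsur, Subgroup.index_ker, hVK]
    refine le_trans ?_ card_ringAut_le
    exact Nat.card_le_card_of_injective _ Subtype.val_injective
  · -- centralisers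
    intro x hx
    have hx1 : σ (π x) ≠ 1 := hx
    have hE := b1_fix (σ (π x)) hx1
    set E := {c : K // σ (π x) c = c} with hEdef
    have hfix : ∀ z : H, z ∈ Z → x * z * x⁻¹ * z⁻¹ ∈ aker H V → σ (π x) (φ (π z)) = φ (π z) := by
      intro z hz hc
      have hxv : x • v0 ≠ 0 := fun h => hv0 ((smul_eq_zero_iff_eq x).1 h)
      apply b1_scal_inj (v := x • v0) hxv
      have h1 : x • (z • v0) = z • (x • v0) := by
        have h2 := hc (z • (x • v0))
        rw [mul_smul, inv_smul_smul, mul_smul, inv_smul_smul, mul_smul] at h2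
        exact h2
      rw [← hφZ z hz, ← h1, hφZ z hz, ← hact x, ← hact x, hσ]
    let rep : K → H := fun c => if h : ∃ z ∈ Z, φ (π z) = c then h.choose else 1
    have hrep : ∀ z ∈ Z, rep (φ (π z)) ∈ Z ∧ φ (π (rep (φ (π z)))) = φ (π z) := by
      intro z hz
      have h : ∃ y ∈ Z, φ (π y) = φ (π z) := ⟨z, hz, rfl⟩
      simp only [rep, dif_pos h]
      exact h.choose_spec
    have hcard : Nat.card {z : H // z ∈ Z ∧ x * z * x⁻¹ * z⁻¹ ∈ aker H V} ≤
        Nat.card (E × aker H V) := by
      apply Nat.card_le_card_of_injective (fun z : {z : H // z ∈ Z ∧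
        x * z * x⁻¹ * z⁻¹ ∈ aker H V} => ((⟨φ (π z.1), hfix z.1 z.2.1 z.2.2⟩ : E),
          (⟨(rep (φ (π z.1)))⁻¹ * z.1, by
            intro v
            rw [mul_smul, inv_smul_eq_iff, hφZ z.1 z.2.1, hφZ _ (hrep z.1 z.2.1).1,
              (hrep z.1 z.2.1).2]⟩ : aker H V)))
      intro z z' hzz
      rw [Prod.mk.injEq] at hzz
      have h1 : φ (π z.1) = φ (π z'.1) := congrArg Subtype.val hzz.1
      have h2 : (rep (φ (π z.1)))⁻¹ * z.1 = (rep (φ (π z'.1)))⁻¹ * z'.1 :=
        congrArg Subtype.val hzz.2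
      rw [h1] at h2
      exact Subtype.ext (mul_left_cancel h2)
    rw [Nat.card_prod] at hcard
    calc _ ≤ (Nat.card E * Nat.card (aker H V)) ^ 2 := Nat.pow_le_pow_left hcard 2
      _ = Nat.card E ^ 2 * Nat.card (aker H V) ^ 2 := by ring
      _ ≤ Nat.card V * Nat.card (aker H V) ^ 2 := by
          rw [hVK]
          exact Nat.mul_le_mul_right _ hE

theorem b1 : SB1.{u} := by
  classical
  refine ⟨2 ^ 16384, ?_⟩
  intro H V _ _ _ _ _ _ hsol hP hC0
  haveI := hsol
  haveI : Finite (img H V) := inferInstance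
  have hsur : Function.Surjective (toU H V).rangeRestrict := (toU H V).rangeRestrict_surjective
  have hP' : Prim (img H V) V := prim_img hP
  have hsf' : SecAut 0 (img H V) := (SecAut.of_isSolvable (G := H)).of_surjective _ hsur
  obtain ⟨A, P, hAn, hPn, hA, hAP, hPC, hPP, hZ, hnab⟩ := exists_AP (img H V)
  obtain ⟨h1, h2⟩ := struct_bound hP' A P hA hAP hPC hPP hZ
  set D := Subgroup.centralizer (P : Set (img H V)) with hD
  haveI : D.Normal := inferInstance
  have hAD : A ≤ D := by
    intro a ha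
    rw [hD, Subgroup.mem_centralizer_iff]
    intro p hp
    exact ((Subgroup.mem_centralizer_iff.mp (hPC hp)) a ha).symm
  have hDC : D ≤ Subgroup.centralizer (A : Set (img H V)) := by
    apply Subgroup.centralizer_le
    exact hAP
  obtain ⟨l, hl, hDl⟩ := card_D_le hP' A D hA hAD hDC hnab (a := 1) (by
    intro T hT0 hTs hTc
    exact (hsf'.of_surjective _ (QuotientGroup.mk'_surjective A)).card_simp_le T hT0 hTs hTc)
  set L := Nat.log 2 (Nat.card V) with hL
  have hV0 : Nat.card V ≠ 0 := Nat.card_pos.ne'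
  have hLL0 : 16384 ≤ L := Nat.le_log_of_pow_le (by norm_num) hC0
  have hLV : 2 ^ L ≤ Nat.card V := Nat.pow_log_le_self 2 hV0
  obtain ⟨K, _, _, _, χ, σ, k1, k2, k3⟩ := exists_field (V := V) hP' A hA
  haveI : Module.Finite K V := Module.Finite.of_finite
  have hVK : Nat.card V = Nat.card K ^ Module.finrank K V := Module.natCard_eq_pow_finrank
  have hb1 : 1 ≤ Module.finrank K V := Module.finrank_pos
  have hK2 : 2 ≤ Nat.card K := Finite.one_lt_card_iff_nontrivial.mpr inferInstance
  by_cases hb2 : Module.finrank K V = 1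
  · right
    exact b1_one H V K hb2 σ k2
  · left
    have hinj : Function.Injective χ := by
      intro a a' haa
      apply Subtype.ext
      apply FaithfulSMul.eq_of_smul_eq_smul (α := V)
      intro v
      rw [← k1, ← k1, haa]
    have e1 : Nat.card A ≤ Nat.card K := Nat.card_le_card_of_injective χ hinj
    have hA2 : (Nat.card A) ^ 2 ≤ Nat.card V := by
      calc (Nat.card A) ^ 2 ≤ (Nat.card K) ^ 2 := Nat.pow_le_pow_left e1 2
        _ ≤ Nat.card K ^ Module.finrank K V := Nat.pow_le_pow_right (by omega) (by omega)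
        _ = Nat.card V := hVK.symm
    have hkey := b1_num L l hLL0 hl
    set T := L * (((L ^ 2) ^ Nat.log 2 (L ^ 2)) * (L ^ 2 * (l * 1) ^ l)) with hT
    have h3 : Nat.card (img H V) ≤ T * Nat.card A := by
      calc Nat.card (img H V) ≤
            L * (((L ^ 2) ^ Nat.log 2 (L ^ 2)) * (L ^ 2 * Nat.card D)) := h1
        _ ≤ L * (((L ^ 2) ^ Nat.log 2 (L ^ 2)) * (L ^ 2 * (Nat.card A * (l * 1) ^ l))) := by
            gcongr
        _ = _ := by rw [hT]; ring
    have h4 : (Nat.card V) ^ 3 * Nat.card V ≤ (Nat.card V) ^ 3 * (orb H V) ^ 4 := by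
      calc (Nat.card V) ^ 3 * Nat.card V = (Nat.card V) ^ 4 := by ring
        _ ≤ (orb H V * Nat.card (img H V)) ^ 4 := Nat.pow_le_pow_left (card_le_orb_mul H V) 4
        _ ≤ (orb H V * (T * Nat.card A)) ^ 4 := by gcongr
        _ = T ^ 4 * ((Nat.card A) ^ 2) ^ 2 * (orb H V) ^ 4 := by ring
        _ ≤ 2 ^ L * (Nat.card V) ^ 2 * (orb H V) ^ 4 := by gcongr
        _ ≤ Nat.card V * (Nat.card V) ^ 2 * (orb H V) ^ 4 := by gcongr
        _ = _ := by ring
    exact Nat.le_of_mul_le_mul_left h4 (pow_pos Nat.card_pos 3)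

end H48.CN
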