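import Pool.Agent.H48.CN.Stm

/-!
Class numbers of finite solvable groups, row B2: consequences of one-dimensionality (helper28).
-/

namespace H48.CN

open H60.KG MulAction

universe u

/-- the number of vectors as a sum over the orbits -/
private theorem b2_sum (G V : Type u) [Group G] [AddCommGroup V] [Finite V]
    [DistribMulAction G V] [Fintype (orbitRel.Quotient G V)]
    [DecidableEq (orbitRel.Quotient G V)] :
    Nat.card V = 1 + ∑ ω ∈ Finset.univ.erase (Quotient.mk'' (0 : V) : orbitRel.Quotient G V),
      Nat.card (orbitRel.Quotient.orbit ω) := by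
  have h0 : Nat.card (orbitRel.Quotient.orbit
      (Quotient.mk'' (0 : V) : orbitRel.Quotient G V)) = 1 := by
    rw [orbitRel.Quotient.orbit_mk]
    have h1 : MulAction.orbit G (0 : V) = {0} := by
      ext v
      rw [Set.mem_singleton_iff, MulAction.mem_orbit_iff]
      constructor
      · rintro ⟨g, rfl⟩
        exact smul_zero g
      · rintro rfl
        exact ⟨1, smul_zero _⟩
    rw [h1]
    simp
  rw [Nat.card_congr (MulAction.selfEquivSigmaOrbits' G V), Nat.card_sigma,
    ← Finset.add_sum_erase Finset.univ _ (Finset.mem_univ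
      (Quotient.mk'' (0 : V) : orbitRel.Quotient G V)), h0]

private theorem b2_mk {G V : Type u} [Group G] [AddCommGroup V] [Finite V]
    [DistribMulAction G V] (ω : orbitRel.Quotient G V)
    (hω : ω ≠ Quotient.mk'' (0 : V)) :
    ∃ v : V, v ≠ 0 ∧ Nat.card (orbitRel.Quotient.orbit ω) = (MulAction.stabilizer G v).index := by
  induction ω using Quotient.inductionOn' with
  | h v =>
    refine ⟨v, ?_, ?_⟩
    · rintro rfl
      exact hω rfl
    · rw [orbitRel.Quotient.orbit_mk, MulAction.index_stabilizer]
      rfl

/-- an abelian subgroup has few elements -/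
private theorem b2_ab {Q : Type u} [Group Q] [Finite Q] (A : Subgroup Q)
    (hA : ∀ x ∈ A, ∀ y ∈ A, x * y = y * x) :
    Nat.card A ≤ Nat.card (ConjClasses Q) * A.index := by
  classical
  have : Finite (ConjClasses Q) := Quotient.finite _
  have := Fintype.ofFinite Q
  have := Fintype.ofFinite (ConjClasses Q)
  have := Fintype.ofFinite (Q ⧸ A)
  have h1 : (Finset.univ.filter (fun x => x ∈ A)).card ≤ A.index *
      ((Finset.univ.filter (fun x => x ∈ A)).image (ConjClasses.mk : Q → ConjClasses Q)).card := by
    apply Finset.card_le_mul_card_image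
    intro c hc
    obtain ⟨z, hz, rfl⟩ := Finset.mem_image.1 hc
    rw [Finset.mem_filter] at hz
    have hz' := hz.2
    have h2 : (Finset.univ.filter (fun x => x ∈ A)).filter
        (fun x => ConjClasses.mk x = ConjClasses.mk z) ⊆
        Finset.univ.image (fun t : Q ⧸ A => t.out * z * t.out⁻¹) := by
      intro x hx
      rw [Finset.mem_filter, ConjClasses.mk_eq_mk_iff_isConj] at hx
      obtain ⟨q, hq⟩ := isConj_iff.1 hx.2.symm
      refine Finset.mem_image.2 ⟨(q : Q ⧸ A), Finset.mem_univ _, ?_⟩
      obtain ⟨a, ha⟩ := QuotientGroup.mk_out_eq_mul A q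
      show (q : Q ⧸ A).out * z * (q : Q ⧸ A).out⁻¹ = x
      rw [ha, ← hq]
      have h3 := hA a.1 a.2 z hz'
      calc q * (a : Q) * z * (q * (a : Q))⁻¹ = q * ((a : Q) * z) * (q * (a : Q))⁻¹ := by group
        _ = q * (z * (a : Q)) * (q * (a : Q))⁻¹ := by rw [h3]
        _ = q * z * q⁻¹ := by group
    calc _ ≤ (Finset.univ.image (fun t : Q ⧸ A => t.out * z * t.out⁻¹)).card :=
          Finset.card_le_card h2
      _ ≤ Fintype.card (Q ⧸ A) := Finset.card_image_le
      _ = A.index := by
          rw [Subgroup.index, Nat.card_eq_fintype_card]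
  have h4 : Nat.card A = (Finset.univ.filter (fun x => x ∈ A)).card := by
    rw [Nat.card_eq_fintype_card, Fintype.card_subtype]
  rw [h4, Nat.card_eq_fintype_card, mul_comm]
  exact h1.trans (Nat.mul_le_mul_left _ (Finset.card_le_univ _))

/-- **B2** -/
theorem b2 : SB2.{u} := by
  classical
  intro H V _ _ _ _ _ _ Z hZ
  have hker := hZ.ker
  have hN : (aker H V).Normal := by
    constructor
    intro n hn g v
    show (g * n * g⁻¹) • v = v
    rw [mul_smul, mul_smul, hn (g⁻¹ • v), smul_inv_smul]
  have := hN
  have := hZ.nZ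
  have hd : ∀ v : V, v ≠ 0 → MulAction.stabilizer H v ⊓ Z = aker H V := by
    intro v hv
    apply le_antisymm
    · rintro z ⟨h1, h2⟩
      exact hZ.semi z h2 v hv h1
    · intro z hz
      exact ⟨hz v, hker hz⟩
  have : Finite (orbitRel.Quotient H V) := Quotient.finite _
  have : Finite (orbitRel.Quotient Z V) := Quotient.finite _
  have := Fintype.ofFinite (orbitRel.Quotient H V)
  have := Fintype.ofFinite (orbitRel.Quotient Z V)
  refine ⟨?_, ?_, ?_, hd⟩
  · have h1 := b2_sum H V
    have h2 : ∑ ω ∈ Finset.univ.erase (Quotient.mk'' (0 : V) : orbitRel.Quotient H V),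
        Nat.card (orbitRel.Quotient.orbit ω) ≤ (Finset.univ.erase
          (Quotient.mk'' (0 : V) : orbitRel.Quotient H V)).card *
            (Nat.log 2 (Nat.card V) * (aker H V).relIndex Z) := by
      rw [← smul_eq_mul]
      apply Finset.sum_le_card_nsmul
      intro ω hω
      obtain ⟨v, _, h3⟩ := b2_mk ω (Finset.ne_of_mem_erase hω)
      rw [h3]
      have h4 : aker H V ≤ MulAction.stabilizer H v := fun z hz => hz v
      calc (MulAction.stabilizer H v).index ≤ (aker H V).index :=
            Nat.le_of_dvd (Nat.pos_of_ne_zero Subgroup.index_ne_zero_of_finite)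
              (Subgroup.index_dvd_of_le h4)
        _ = Z.index * (aker H V).relIndex Z := by
            rw [mul_comm, Subgroup.relIndex_mul_index hker]
        _ ≤ Nat.log 2 (Nat.card V) * (aker H V).relIndex Z :=
            Nat.mul_le_mul_right _ hZ.idx
    have h5 : (Finset.univ.erase (Quotient.mk'' (0 : V) : orbitRel.Quotient H V)).card =
        orb H V - 1 := by
      rw [Finset.card_erase_of_mem (Finset.mem_univ _), Finset.card_univ, orb,
        Nat.card_eq_fintype_card]
    rw [h5] at h2
    omega
  · have h1 := b2_ab (Z.map (QuotientGroup.mk' (aker H V))) (by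
      rintro _ ⟨x, hx, rfl⟩ _ ⟨y, hy, rfl⟩
      rw [← map_mul, ← map_mul]
      have h2 := hZ.comm x hx y hy
      have h3 : (QuotientGroup.mk' (aker H V)) (x * y * x⁻¹ * y⁻¹) = 1 :=
        (QuotientGroup.eq_one_iff _).2 h2
      have h4 : x * y = (x * y * x⁻¹ * y⁻¹) * (y * x) := by group
      rw [h4, map_mul, h3, one_mul])
    have h2 : Nat.card (Z.map (QuotientGroup.mk' (aker H V))) = (aker H V).relIndex Z := by
      have e1 : Nat.card (Z.map (QuotientGroup.mk' (aker H V))) =
          ((QuotientGroup.mk' (aker H V)).ker).relIndex Z := (Subgroup.relIndex_ker _ _).symm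
      rw [e1, QuotientGroup.ker_mk']
    have h3 : (Z.map (QuotientGroup.mk' (aker H V))).index = Z.index := by
      apply Subgroup.index_map_eq _ (QuotientGroup.mk'_surjective _)
      rw [QuotientGroup.ker_mk']
      exact hker
    rw [h2, h3] at h1
    calc (aker H V).relIndex Z ≤ Nat.card (ConjClasses (H ⧸ aker H V)) * Z.index := h1
      _ ≤ kc H * Nat.log 2 (Nat.card V) :=
          Nat.mul_le_mul (card_conj_le_of_surjective (QuotientGroup.mk' (aker H V))
            (QuotientGroup.mk'_surjective _)) hZ.idx
  · have h1 := b2_sum Z V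
    have h2 : (aker H V).relIndex Z ∣
        ∑ ω ∈ Finset.univ.erase (Quotient.mk'' (0 : V) : orbitRel.Quotient Z V),
          Nat.card (orbitRel.Quotient.orbit ω) := by
      apply Finset.dvd_sum
      intro ω hω
      obtain ⟨v, hv, h3⟩ := b2_mk ω (Finset.ne_of_mem_erase hω)
      rw [h3]
      have h4 : MulAction.stabilizer Z v = (MulAction.stabilizer H v).subgroupOf Z := by
        ext z
        rw [Subgroup.mem_subgroupOf]
        rfl
      have h5 : (MulAction.stabilizer Z v).index = (aker H V).relIndex Z := by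
        rw [h4, ← hd v hv, Subgroup.inf_relIndex_right]
        rfl
      rw [h5]
    rw [h1, Nat.add_sub_cancel_left]
    exact h2

end H48.CN
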