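import Pool.Agent.H48.CN.Stm

/-!
Class numbers of finite solvable groups, row B3: the order of a solvable primitive permutation
group.
-/

namespace H48.CN

open H60.KG MulAction
open scoped commutatorElement

universe u

/-- a nontrivial solvable group has a nontrivial abelian normal subgroup -/
theorem b3_exists {P : Type u} [Group P] [Nontrivial P] (h : Group.IsSolvable P) :
    ∃ A : Subgroup P, A.Normal ∧ A ≠ ⊥ ∧ ∀ x ∈ A, ∀ y ∈ A, x * y = y * x := by
  classical
  have hs : ∃ n : ℕ, derivedSeries P n = ⊥ := h.solvable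
  have h0 : Nat.find hs ≠ 0 := by
    intro h1
    have h2 := Nat.find_spec hs
    rw [h1, derivedSeries_zero] at h2
    exact top_ne_bot h2
  obtain ⟨m, hm⟩ := Nat.exists_eq_succ_of_ne_zero h0
  refine ⟨derivedSeries P m, derivedSeries_normal P m, fun h1 => ?_, fun x hx y hy => ?_⟩
  · have h2 := Nat.find_min' hs h1
    omega
  · have h2 := Nat.find_spec hs
    rw [hm, derivedSeries_succ] at h2
    have h3 : ⁅x, y⁆ ∈ (⊥ : Subgroup P) := by
      rw [← h2]
      exact Subgroup.commutator_mem_commutator hx hy
    rw [Subgroup.mem_bot] at h3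
    exact commutatorElement_eq_one_iff_mul_comm.1 h3

theorem b3_main {P ι : Type u} [Group P] [Finite P] [Finite ι] [Nonempty ι] [MulAction P ι]
    [FaithfulSMul P ι] [IsPreprimitive P ι] (h : Group.IsSolvable P) :
    Nat.card P ≤ (Nat.card ι) ^ (1 + Nat.log 2 (Nat.card ι)) := by
  have hs : 1 ≤ Nat.card ι := Nat.card_pos
  rcases subsingleton_or_nontrivial P with hP | hP
  · have h1 : Nat.card P ≤ 1 := Finite.card_le_one_iff_subsingleton.2 hP
    exact h1.trans (Nat.one_le_pow _ _ hs)
  obtain ⟨A, hA, hA0, hAc⟩ := b3_exists h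
  have hfix : fixedPoints A ι ≠ Set.univ := by
    intro h1
    apply hA0
    rw [Subgroup.eq_bot_iff_forall]
    intro a ha
    refine FaithfulSMul.eq_of_smul_eq_smul (α := ι) fun x => ?_
    rw [one_smul]
    have h2 : x ∈ fixedPoints A ι := by
      rw [h1]
      exact Set.mem_univ x
    exact h2 ⟨a, ha⟩
  have htr : IsPretransitive A ι := IsQuasiPreprimitive.isPretransitive_of_normal hfix
  obtain ⟨x0⟩ := ‹Nonempty ι›
  have hC : Nat.card (Subgroup.centralizer (A : Set P)) ≤ Nat.card ι := by
    refine Nat.card_le_card_of_injective (fun c => (c : P) • x0) ?_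
    intro c c' hcc
    have hcc' : (c : P) • x0 = (c' : P) • x0 := hcc
    apply Subtype.ext
    refine FaithfulSMul.eq_of_smul_eq_smul (α := ι) fun x => ?_
    obtain ⟨a, rfl⟩ := htr.exists_smul_eq x0 x
    have h1 : (a : P) * (c : P) = (c : P) * (a : P) :=
      Subgroup.mem_centralizer_iff.1 c.2 a a.2
    have h2 : (a : P) * (c' : P) = (c' : P) * (a : P) :=
      Subgroup.mem_centralizer_iff.1 c'.2 a a.2
    show (c : P) • (a : P) • x0 = (c' : P) • (a : P) • x0
    rw [← mul_smul, ← mul_smul, ← h1, ← h2, mul_smul, mul_smul, hcc']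
  have hAC : Nat.card A ≤ Nat.card (Subgroup.centralizer (A : Set P)) := by
    refine Nat.card_le_card_of_injective (fun a => (⟨a, Subgroup.mem_centralizer_iff.2
      fun b hb => hAc b hb a a.2⟩ : Subgroup.centralizer (A : Set P))) ?_
    intro a b hab
    exact Subtype.ext (congrArg (fun c : Subgroup.centralizer (A : Set P) => (c : P)) hab)
  have h1 := card_le_centralizer A (⊤ : Subgroup P)
  rw [top_inf_eq, Subgroup.card_top] at h1
  refine h1.trans ?_
  rw [pow_add, pow_one]
  have hA1 : Nat.card A ≤ Nat.card ι := hAC.trans hC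
  refine Nat.mul_le_mul hC ?_
  exact (Nat.pow_le_pow_left hA1 _).trans (Nat.pow_le_pow_right hs (Nat.log_mono_right hA1))

theorem b3 : SB3.{u} := by
  intro S ι _ _ _ _ _ hsol hprim
  have hsol2 : Group.IsSolvable (toPermHom S ι).range :=
    Group.isSolvable_of_surjective (f := (toPermHom S ι).rangeRestrict)
      (toPermHom S ι).rangeRestrict_surjective
  let f : ι →ₑ[(toPermHom S ι).rangeRestrict] ι :=
    { toFun := id
      map_smul' := fun _ _ => rfl }
  have hp : IsPreprimitive (toPermHom S ι).range ι :=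
    IsPreprimitive.of_surjective (f := f) Function.surjective_id
  exact b3_main hsol2

end H48.CN
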