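import Pool.Agent.H48.CN.Stm

/-!
Part B4a: a maximal block gives a primitive action on the blocks.
-/

namespace H48.CN

open H60.KG MulAction
open scoped Pointwise

universe u

section

variable {H V ι : Type*} [Group H] [AddCommGroup V] [DistribMulAction H V]
    [MulAction H ι] [Fintype ι] {U : ι → AddSubgroup V}

/-- the sum of the blocks in `B` -/
noncomputable def bsum (BS : BlockSys H V ι U) (B : Set ι) : AddSubgroup V where
  carrier := {v | ∀ i, i ∉ B → BS.comp v i = 0}
  add_mem' := by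
    intro a b ha hb i hi
    rw [BS.comp_add, ha i hi, hb i hi, add_zero]
  zero_mem' := fun i _ => BS.comp_zero i
  neg_mem' := by
    intro a ha i hi
    rw [BS.comp_neg, ha i hi, neg_zero]

theorem mem_bsum (BS : BlockSys H V ι U) (B : Set ι) (v : V) :
    v ∈ bsum BS B ↔ ∀ i, i ∉ B → BS.comp v i = 0 := Iff.rfl

theorem smul_bsum (BS : BlockSys H V ι U) (B : Set ι) (h : H) :
    h • bsum BS B = bsum BS (h • B) := by
  ext v
  rw [AddSubgroup.mem_smul_pointwise_iff_exists, mem_bsum]
  constructor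
  · rintro ⟨w, hw, rfl⟩ i hi
    have h1 := BS.comp_smul h w (h⁻¹ • i)
    rw [smul_inv_smul] at h1
    rw [h1, hw (h⁻¹ • i) (fun h2 => hi (Set.mem_smul_set_iff_inv_smul_mem.mpr h2)), smul_zero]
  · intro hv
    refine ⟨h⁻¹ • v, ?_, smul_inv_smul h v⟩
    intro i hi
    have h1 := BS.comp_smul h⁻¹ v (h • i)
    rw [inv_smul_smul] at h1
    rw [h1, hv (h • i) (fun h2 => hi (Set.smul_mem_smul_set_iff.mp h2)), smul_zero]

theorem block_le_bsum (BS : BlockSys H V ι U) (B : Set ι) (i : ι) (hi : i ∈ B) :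
    U i ≤ bsum BS B := by
  classical
  intro v hv j hj
  rw [BS.comp_of_mem hv, if_neg]
  rintro rfl
  exact hj hi

theorem mem_of_bsum (BS : BlockSys H V ι U) (B : Set ι) (i : ι) (v : V) (hv : v ∈ U i)
    (hv0 : v ≠ 0) (h : v ∈ bsum BS B) : i ∈ B := by
  classical
  by_contra hi
  have h1 := h i hi
  rw [BS.comp_of_mem hv, if_pos rfl] at h1
  exact hv0 h1

/-- blocks of a block system are independent -/
theorem bsum_indep [Finite V] (BS : BlockSys H V ι U) (hne : ∀ i, ∃ v ∈ U i, v ≠ 0)
    (B : Set ι) (hB : IsBlock H B) : IndepOrbit H (bsum BS B) := by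
  classical
  intro f hf h0
  haveI : Fintype (MulAction.orbit H (bsum BS B)) := Fintype.ofFinite _
  rw [finsum_eq_sum_of_fintype] at h0
  -- the set of blocks of a translate
  have hset : ∀ j : MulAction.orbit H (bsum BS B), ∃ h : H, (j : AddSubgroup V) = bsum BS (h • B) := by
    rintro ⟨W, h, rfl⟩
    exact ⟨h, smul_bsum BS B h⟩
  choose g hg using hset
  have hdis : ∀ j j' : MulAction.orbit H (bsum BS B), j ≠ j' →
      ∀ i, i ∈ g j • B → i ∉ g j' • B := by
    intro j j' hjj i hi hi'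
    apply hjj
    have h1 : g j • B = g j' • B := by
      rcases isBlock_iff_smul_eq_smul_or_disjoint.mp hB (g j) (g j') with h2 | h2
      · exact h2
      · exact absurd hi' (Set.disjoint_left.mp h2 hi)
    apply Subtype.ext
    rw [hg j, hg j', h1]
  intro j
  have hcomp : ∀ i, BS.comp (f j) i = 0 := by
    intro i
    by_cases hi : i ∈ g j • B
    · have h1 : BS.comp (∑ k, f k) i = ∑ k, BS.comp (f k) i := by
        have h2 : ∀ s : Finset (MulAction.orbit H (bsum BS B)),
            BS.comp (∑ k ∈ s, f k) i = ∑ k ∈ s, BS.comp (f k) i := by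
          intro s
          induction s using Finset.induction_on with
          | empty => rw [Finset.sum_empty, Finset.sum_empty, BS.comp_zero]
          | insert a s ha ih => rw [Finset.sum_insert ha, Finset.sum_insert ha, BS.comp_add, ih]
        exact h2 _
      rw [h0, BS.comp_zero, Finset.sum_eq_single j] at h1
      · exact h1.symm
      · intro k _ hk
        have h3 : f k ∈ bsum BS (g k • B) := by
          rw [← hg k]; exact hf k
        exact h3 i (hdis j k (Ne.symm hk) i hi)
      · intro h; exact absurd (Finset.mem_univ _) h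
    · have h3 : f j ∈ bsum BS (g j • B) := by
        rw [← hg j]; exact hf j
      exact h3 i hi
  rw [← BS.comp_sum (f j)]
  exact Finset.sum_eq_zero (fun i _ => hcomp i)

end

theorem b4a : SB4a.{u} := by
  intro H V _ _ _ _ _ hI hP
  classical
  have hP' : ∃ U : AddSubgroup V, U ≠ ⊥ ∧ IndepOrbit H U ∧ U ≠ ⊤ := by
    by_contra hcon
    push Not at hcon
    exact hP (fun U h1 h2 => hcon U h1 h2)
  obtain ⟨U0, hU0⟩ := hP'
  -- maximal size
  obtain ⟨U, ⟨hU1, hU2, hU3⟩, hmax⟩ := WellFounded.has_min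
    (measure (fun W : AddSubgroup V => Nat.card V - Nat.card W)).wf
    {W : AddSubgroup V | W ≠ ⊥ ∧ IndepOrbit H W ∧ W ≠ ⊤} ⟨U0, hU0⟩
  refine ⟨U, hU1, hU3, hU2, ?_⟩
  haveI : Fintype (MulAction.orbit H U) := Fintype.ofFinite _
  have BS := blockSys_of_indep hI U hU1 hU2
  have hne : ∀ i : MulAction.orbit H U, ∃ v ∈ (i : AddSubgroup V), v ≠ 0 := by
    intro i
    obtain ⟨h, hh⟩ := i.2
    have h1 : (i : AddSubgroup V) = h • U := hh.symm
    obtain ⟨x, hx⟩ := AddSubgroup.ne_bot_iff_exists_ne_zero.mp hU1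
    have hu : (x : V) ∈ U := x.2
    have hu0 : (x : V) ≠ 0 := fun h0 => hx (Subtype.ext h0)
    set u : V := (x : V)
    refine ⟨h • u, ?_, fun h0 => hu0 ((smul_eq_zero_iff_eq h).mp h0)⟩
    rw [h1]
    exact AddSubgroup.smul_mem_pointwise_smul _ _ _ hu
  refine { exists_smul_eq := fun i j => MulAction.exists_smul_eq H i j, isTrivialBlock_of_isBlock := ?_ }
  intro B hB
  by_contra hcon
  unfold IsTrivialBlock at hcon
  push Not at hcon
  obtain ⟨hns, hnu⟩ := hcon
  obtain ⟨i1, hi1, i2, hi2, h12⟩ := hns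
  have hind : IndepOrbit H (bsum BS B) := bsum_indep BS hne B hB
  obtain ⟨i3, hi3⟩ := (Set.ne_univ_iff_exists_notMem B).mp hnu
  have hnt : bsum BS B ≠ ⊤ := by
    intro h
    obtain ⟨v, hv, hv0⟩ := hne i3
    exact hi3 (mem_of_bsum BS B i3 v hv hv0 (by rw [h]; trivial))
  have hnb : bsum BS B ≠ ⊥ := by
    intro h
    obtain ⟨v, hv, hv0⟩ := hne i1
    have h1 := block_le_bsum BS B i1 hi1 hv
    rw [h] at h1
    exact hv0 h1
  apply hmax (bsum BS B) ⟨hnb, hind, hnt⟩
  change Nat.card V - Nat.card (bsum BS B) < Nat.card V - Nat.card U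
  have h1 : Nat.card (i1 : AddSubgroup V) = Nat.card U :=
    BS.card_block i1 ⟨U, MulAction.mem_orbit_self U⟩
  have h2 : Nat.card (i1 : AddSubgroup V) < Nat.card (bsum BS B) := by
    have h3 : ((i1 : AddSubgroup V) : Set V) ⊂ (bsum BS B : Set V) := by
      refine ⟨block_le_bsum BS B i1 hi1, ?_⟩
      intro h4
      obtain ⟨v, hv, hv0⟩ := hne i2
      have h5 := h4 (block_le_bsum BS B i2 hi2 hv)
      exact h12 (BS.eq_of_mem h5 hv hv0)
    exact Set.ncard_lt_ncard h3 (Set.toFinite _)
  have h4 : Nat.card (bsum BS B) ≤ Nat.card V := Nat.card_le_card_of_injective _ Subtype.val_injective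
  have h5 : Nat.card (bsum BS B) < Nat.card V + 1 := by omega
  omega

end H48.CN
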