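import Pool.Agent.H48.CN.Stm

/-!
Part B4b: orbits on a direct sum of blocks.
-/

namespace H48.CN

open H60.KG MulAction

universe u

section

variable {H V ι : Type u} [Group H] [Finite H] [AddCommGroup V] [Finite V]
  [DistribMulAction H V] [MulAction H ι] [Fintype ι] {U : ι → AddSubgroup V}

/-- the component of `v` at `i`, transported to the block `i0` -/
noncomputable def tcomp (B : BlockSys H V ι U) (i0 : ι) (t : ι → H) (ht : ∀ i, t i • i0 = i)
    (v : V) (i : ι) : U i0 :=
  ⟨(t i)⁻¹ • B.comp v i, by
    have h1 := B.equiv (t i)⁻¹ i _ (B.comp_mem v i)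
    have h2 : (t i)⁻¹ • i = i0 := by rw [inv_smul_eq_iff, ht i]
    rwa [h2] at h1⟩

/-- the type of `v` at `i` -/
noncomputable def typ (B : BlockSys H V ι U) (i0 : ι) (t : ι → H) (ht : ∀ i, t i • i0 = i)
    (v : V) (i : ι) :
    letI := blockAct B i0
    MulAction.orbitRel.Quotient (MulAction.stabilizer H i0) (U i0) :=
  letI := blockAct B i0
  Quotient.mk'' (tcomp B i0 t ht v i)

theorem typ_smul (B : BlockSys H V ι U) (i0 : ι) (t : ι → H) (ht : ∀ i, t i • i0 = i)
    (h : H) (v : V) (i : ι) :
    typ B i0 t ht (h • v) (h • i) = typ B i0 t ht v i := by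
  letI := blockAct B i0
  unfold typ
  apply Quotient.sound
  change (MulAction.orbitRel (MulAction.stabilizer H i0) (U i0)).r _ _
  have hmem : (t (h • i))⁻¹ * h * t i ∈ MulAction.stabilizer H i0 := by
    rw [MulAction.mem_stabilizer_iff, mul_smul, mul_smul, ht i, inv_smul_eq_iff, ht]
  refine ⟨⟨_, hmem⟩, ?_⟩
  apply Subtype.ext
  change ((t (h • i))⁻¹ * h * t i) • ((t i)⁻¹ • B.comp v i) = (t (h • i))⁻¹ • B.comp (h • v) (h • i)
  rw [B.comp_smul, mul_smul, mul_smul, smul_inv_smul]

/-- the vector with prescribed components -/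
noncomputable def vec (t : ι → H) (i0 : ι) (U : ι → AddSubgroup V) (f : ι → U i0) : V :=
  ∑ i, t i • (f i : V)

theorem comp_vec (B : BlockSys H V ι U) (i0 : ι) (t : ι → H) (ht : ∀ i, t i • i0 = i)
    (f : ι → U i0) (i : ι) : B.comp (vec t i0 U f) i = t i • (f i : V) := by
  have h1 : B.comp (∑ i, t i • (f i : V)) = fun i => t i • (f i : V) := by
    apply B.comp_eq
    intro j
    have h2 := B.equiv (t j) i0 _ (f j).2
    rwa [ht j] at h2
  exact congrFun h1 i

theorem typ_vec (B : BlockSys H V ι U) (i0 : ι) (t : ι → H) (ht : ∀ i, t i • i0 = i)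
    (f : ι → U i0) (i : ι) :
    letI := blockAct B i0
    typ B i0 t ht (vec t i0 U f) i = Quotient.mk'' (f i) := by
  letI := blockAct B i0
  unfold typ
  have h1 : tcomp B i0 t ht (vec t i0 U f) i = f i := by
    apply Subtype.ext
    change (t i)⁻¹ • B.comp (vec t i0 U f) i = (f i : V)
    rw [comp_vec B i0 t ht, inv_smul_smul]
  rw [h1]

end

theorem b4b : SB4b.{u} := by
  intro H V ι _ _ _ _ _ _ _ U B i0
  classical
  letI := blockAct B i0
  choose t ht using fun j => B.trans i0 j
  let S := MulAction.stabilizer H i0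
  let Q1 := MulAction.orbitRel.Quotient S (U i0)
  let Q := MulAction.orbitRel.Quotient H V
  haveI : Finite Q1 := Quotient.finite _
  haveI : Finite Q := Quotient.finite _
  let ty : V → ι → Q1 := typ B i0 t ht
  have hty : ∀ (h : H) (v : V) (i : ι), ty (h • v) (h • i) = ty v i := typ_smul B i0 t ht
  have htv : ∀ (f : ι → U i0) (i : ι), ty (vec t i0 U f) i = Quotient.mk'' (f i) :=
    typ_vec B i0 t ht
  -- an element of the orbit
  have hout : ∀ v : V, ∃ h : H, h • v = Quotient.out (Quotient.mk'' v : Q) := by
    intro v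
    have h1 : (Quotient.mk'' (Quotient.out (Quotient.mk'' v : Q)) : Q) = Quotient.mk'' v :=
      Quotient.out_eq _
    have h2 := Quotient.eq''.mp h1
    rw [MulAction.orbitRel_apply] at h2
    exact h2
  constructor
  · -- the surjection
    let Φ : Q × (MulAction.toPermHom H ι).range → (ι → Q1) := fun x i =>
      ty (Quotient.out x.1) ((x.2 : Equiv.Perm ι) i)
    have hΦ : Function.Surjective Φ := by
      intro φ
      let f : ι → U i0 := fun i => Quotient.out (φ i)
      obtain ⟨h, hh⟩ := hout (vec t i0 U f)
      refine ⟨(Quotient.mk'' (vec t i0 U f), ⟨MulAction.toPermHom H ι h, ⟨h, rfl⟩⟩), ?_⟩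
      funext i
      change ty (Quotient.out (Quotient.mk'' (vec t i0 U f) : Q)) (h • i) = φ i
      rw [← hh, hty, htv]
      exact Quotient.out_eq _
    have h1 := Nat.card_le_card_of_surjective Φ hΦ
    rw [Nat.card_prod, Nat.card_pi, Finset.prod_const, Finset.card_univ] at h1
    exact h1
  · intro h2
    obtain ⟨j0, hj0⟩ : ∃ j0 : ι, j0 ≠ i0 := by
      haveI : Nontrivial ι := Fintype.one_lt_card_iff_nontrivial.mp (by omega)
      exact exists_ne i0
    let z : Q1 := Quotient.mk'' (0 : U i0)
    -- the multiset of types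
    let mt : V → Multiset Q1 := fun v => Finset.univ.val.map (ty v)
    have hmt : ∀ (h : H) (v : V), mt (h • v) = mt v := by
      intro h v
      change Finset.univ.val.map (ty (h • v)) = Finset.univ.val.map (ty v)
      have e1 : ty v = fun i => ty (h • v) (MulAction.toPerm h i) := by
        funext i
        exact (hty h v i).symm
      rw [e1]
      have e2 : (Finset.univ : Finset ι).val.map
          (fun i => ty (h • v) ((MulAction.toPerm h : Equiv.Perm ι) i)) =
          ((Finset.univ : Finset ι).val.map (MulAction.toPerm h : Equiv.Perm ι)).map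
            (ty (h • v)) := by
        rw [Multiset.map_map]; rfl
      rw [e2]
      congr 1
      have e3 := congrArg Finset.val (Finset.map_univ_equiv (MulAction.toPerm h : Equiv.Perm ι))
      rw [Finset.map_val] at e3
      exact e3.symm
    -- the vector of a pair
    let fp : Q1 × Q1 → ι → U i0 := fun x i =>
      if i = i0 then Quotient.out x.1 else if i = j0 then Quotient.out x.2 else 0
    have hfp : ∀ x : Q1 × Q1, mt (vec t i0 U (fp x)) =
        x.1 ::ₘ x.2 ::ₘ (((Finset.univ.erase i0).erase j0).val.map (fun _ => z)) := by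
      intro x
      change Finset.univ.val.map (ty (vec t i0 U (fp x))) = _
      have e1 : ty (vec t i0 U (fp x)) = fun i => Quotient.mk'' (fp x i) := by
        funext i; exact htv _ i
      rw [e1]
      have e2 : (Finset.univ : Finset ι).val =
          i0 ::ₘ j0 ::ₘ ((Finset.univ.erase i0).erase j0).val := by
        rw [← Finset.insert_val_of_notMem (Finset.notMem_erase j0 _),
          Finset.insert_erase (Finset.mem_erase.mpr ⟨hj0, Finset.mem_univ _⟩),
          ← Finset.insert_val_of_notMem (Finset.notMem_erase i0 _),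
          Finset.insert_erase (Finset.mem_univ _)]
      rw [e2, Multiset.map_cons, Multiset.map_cons]
      have e3 : (Quotient.mk'' (fp x i0) : Q1) = x.1 := by
        simp only [fp, if_true]
        exact Quotient.out_eq _
      have e4 : (Quotient.mk'' (fp x j0) : Q1) = x.2 := by
        simp only [fp, if_neg hj0, if_true]
        exact Quotient.out_eq _
      rw [e3, e4]
      congr 2
      apply Multiset.map_congr rfl
      intro i hi
      have hi' : i ∈ (Finset.univ.erase i0).erase j0 := hi
      rw [Finset.mem_erase, Finset.mem_erase] at hi'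
      simp only [fp, if_neg hi'.2.1, if_neg hi'.1, z]
    let Ψ : Sym2 Q1 → Q := fun p => Quotient.mk'' (vec t i0 U (fp (Quot.out p)))
    have hΨ : Function.Injective Ψ := by
      intro p p' hpp
      have h3 := Quotient.eq''.mp (show (Quotient.mk'' (vec t i0 U (fp (Quot.out p))) : Q) =
        Quotient.mk'' (vec t i0 U (fp (Quot.out p'))) from hpp)
      rw [MulAction.orbitRel_apply] at h3
      obtain ⟨x, hx⟩ := h3
      have h4 : mt (vec t i0 U (fp (Quot.out p))) = mt (vec t i0 U (fp (Quot.out p'))) := by
        rw [← hx]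
        exact hmt x _
      rw [hfp, hfp] at h4
      have h5 : ((Quot.out p).1 ::ₘ (Quot.out p).2 ::ₘ (0 : Multiset Q1)) =
          (Quot.out p').1 ::ₘ (Quot.out p').2 ::ₘ 0 := by
        have h6 : ∀ (a b : Q1) (s : Multiset Q1), a ::ₘ b ::ₘ s = (a ::ₘ b ::ₘ 0) + s := by
          intro a b s
          simp
        rw [h6 _ _ (Multiset.map _ _), h6 (Quot.out p').1 _ (Multiset.map _ _)] at h4
        exact add_right_cancel h4
      have h7 : ∀ q : Sym2 Q1, q = s((Quot.out q).1, (Quot.out q).2) := fun q =>
        (Quot.out_eq q).symm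
      rw [h7 p, h7 p']
      rw [Sym2.eq_iff]
      rw [Multiset.cons_eq_cons] at h5
      rcases h5 with ⟨h8, h9⟩ | ⟨h8, cs, h9, h10⟩
      · left
        refine ⟨h8, ?_⟩
        have h11 := Multiset.singleton_inj.mp (show ({(Quot.out p).2} : Multiset Q1) =
          {(Quot.out p').2} from h9)
        exact h11
      · right
        have h11 : cs = 0 := by
          have h12 := congrArg Multiset.card h9
          rw [Multiset.card_cons, Multiset.card_cons, Multiset.card_zero] at h12
          exact Multiset.card_eq_zero.mp (by omega)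
        rw [h11] at h9 h10
        have h12 := Multiset.singleton_inj.mp (show ({(Quot.out p).2} : Multiset Q1) =
          {(Quot.out p').1} from h9)
        have h13 := Multiset.singleton_inj.mp (show ({(Quot.out p').2} : Multiset Q1) =
          {(Quot.out p).1} from h10)
        exact ⟨h13.symm, h12⟩
    have h14 := Nat.card_le_card_of_injective Ψ hΨ
    haveI : Fintype Q1 := Fintype.ofFinite _
    have h15 : Nat.card (Sym2 Q1) = Nat.choose (Nat.card Q1 + 1) 2 := by
      rw [Nat.card_eq_fintype_card, Nat.card_eq_fintype_card, Sym2.card]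
    rw [h15, Nat.choose_two_right] at h14
    have h16 : Even ((Nat.card Q1 + 1) * (Nat.card Q1 + 1 - 1)) := Nat.even_mul_pred_self _
    have h17 := Nat.div_mul_cancel h16.two_dvd
    have h18 : Nat.card Q1 * (Nat.card Q1 + 1) ≤ 2 * Nat.card Q := by
      have h19 : Nat.card Q1 * (Nat.card Q1 + 1) =
          (Nat.card Q1 + 1) * (Nat.card Q1 + 1 - 1) := by
        rw [Nat.add_sub_cancel, mul_comm]
      rw [h19, ← h17]
      omega
    exact h18

end H48.CN
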