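import Pool.Agent.H48.CN.Stm

/-!
Size of irreducible modules of solvable groups.
-/

namespace H48.CN

open H60.KG MulAction
open scoped Pointwise

universe u

/-- growth of the number of orbits along a chain of blocks -/
def gB5 : ℕ → ℕ
  | 0 => 2
  | d + 1 => gB5 d * (gB5 d + 1) / 2

theorem gB5_large (d : ℕ) : 2 * 2 ^ (2 ^ d) ≤ gB5 (d + 2) := by
  induction d with
  | zero => decide
  | succ d ih =>
    have h1 : gB5 (d + 1 + 2) = gB5 (d + 2) * (gB5 (d + 2) + 1) / 2 := rfl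
    rw [h1, Nat.le_div_iff_mul_le (by norm_num)]
    have h2 : 2 ^ (2 ^ (d + 1)) = 2 ^ (2 ^ d) * 2 ^ (2 ^ d) := by
      rw [← pow_add, pow_succ]; ring_nf
    rw [h2]
    calc 2 * (2 ^ 2 ^ d * 2 ^ 2 ^ d) * 2 = (2 * 2 ^ 2 ^ d) * (2 * 2 ^ 2 ^ d) := by ring
      _ ≤ gB5 (d + 2) * (gB5 (d + 2) + 1) := Nat.mul_le_mul ih (by omega)

theorem gB5_bound {d l u : ℕ} (h : gB5 d ≤ 2 ^ l) (hl : l < 2 ^ u) : d ≤ u + 1 := by
  by_contra hcon
  rw [not_le] at hcon
  obtain ⟨e, rfl⟩ : ∃ e, d = e + 2 := ⟨d - 2, by omega⟩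
  have h1 := (gB5_large e).trans h
  have h2 : (2 : ℕ) ^ (2 ^ e) ≤ 2 ^ l := le_trans (by omega) h1
  have h3 : 2 ^ e ≤ l := (Nat.pow_le_pow_iff_right (by norm_num)).mp h2
  have h4 : (2 : ℕ) ^ e < 2 ^ u := by omega
  have h5 : e < u := (Nat.pow_lt_pow_iff_right (by norm_num)).mp h4
  omega

theorem sqB5 (t : ℕ) (ht : 7 ≤ t) : 2 * (t + 1) ^ 2 ≤ 2 ^ t := by
  induction t, ht using Nat.le_induction with
  | base => norm_num
  | succ n hn ih =>
    have h1 : 2 * (n + 1 + 1) ^ 2 ≤ 2 * (2 * (n + 1) ^ 2) := by nlinarith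
    calc 2 * (n + 1 + 1) ^ 2 ≤ 2 * (2 * (n + 1) ^ 2) := h1
      _ ≤ 2 * 2 ^ n := Nat.mul_le_mul_left _ ih
      _ = 2 ^ (n + 1) := by ring

theorem blocksB5 {s l : ℕ} (hs : s ≠ 0) (h : 2 ^ s ≤ 2 ^ l * s ^ (1 + Nat.log 2 s)) :
    s ≤ 128 * (l + 1) := by
  set t := Nat.log 2 s with ht
  have h1 : s < 2 ^ (t + 1) := Nat.lt_pow_succ_log_self (by norm_num) s
  have h2 : 2 ^ t ≤ s := Nat.pow_log_le_self 2 hs
  have h3 : s ^ (1 + t) ≤ 2 ^ ((t + 1) ^ 2) := by
    calc s ^ (1 + t) ≤ (2 ^ (t + 1)) ^ (1 + t) := Nat.pow_le_pow_left h1.le _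
      _ = 2 ^ ((t + 1) ^ 2) := by rw [← pow_mul]; ring_nf
  have h4 : (2 : ℕ) ^ s ≤ 2 ^ (l + (t + 1) ^ 2) := by
    rw [pow_add]
    exact h.trans (Nat.mul_le_mul_left _ h3)
  have h5 : s ≤ l + (t + 1) ^ 2 := (Nat.pow_le_pow_iff_right (by norm_num)).mp h4
  by_cases h7 : 7 ≤ t
  · have h6 := sqB5 t h7
    omega
  · have h8 : (2 : ℕ) ^ (t + 1) ≤ 2 ^ 7 := Nat.pow_le_pow_right (by norm_num) (by omega)
    have h9 : (2 : ℕ) ^ 7 = 128 := by norm_num
    omega

theorem oneB5 {n l : ℕ} (hn : n ≠ 0) (h : n ≤ 2 ^ l * Nat.log 2 n ^ 2) :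
    n ≤ 2 ^ (16 * (l + 1)) := by
  set L := Nat.log 2 n with hL
  have h1 : n < 2 ^ (L + 1) := Nat.lt_pow_succ_log_self (by norm_num) n
  have h2 : 2 ^ L ≤ n := Nat.pow_log_le_self 2 hn
  have h3 : L + 1 ≤ 16 * (l + 1) := by
    by_cases h16 : 16 ≤ L
    · have h4 := four_le L h16
      have h5 : (2 ^ L) * (2 ^ L) ≤ 2 ^ (2 * l) * 2 ^ L := by
        calc (2 ^ L) * (2 ^ L) ≤ (2 ^ l * L ^ 2) * (2 ^ l * L ^ 2) :=
              Nat.mul_le_mul (h2.trans h) (h2.trans h)
          _ = 2 ^ (2 * l) * L ^ 4 := by rw [two_mul, pow_add]; ring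
          _ ≤ 2 ^ (2 * l) * 2 ^ L := Nat.mul_le_mul_left _ h4
      have h6 : 2 ^ L ≤ 2 ^ (2 * l) := Nat.le_of_mul_le_mul_right h5 (by positivity)
      have h7 : L ≤ 2 * l := (Nat.pow_le_pow_iff_right (by norm_num)).mp h6
      omega
    · omega
  exact h1.le.trans (Nat.pow_le_pow_right (by norm_num) h3)

theorem indB5 (h2 : SB2.{u}) (h3 : SB3.{u}) (h4a : SB4a.{u}) (h4b : SB4b.{u}) (C0 : ℕ)
    (h1 : ∀ (H V : Type u) [Group H] [Finite H] [AddCommGroup V] [Finite V]
      [DistribMulAction H V] [Nontrivial V], Group.IsSolvable H → Prim H V → C0 ≤ Nat.card V →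
      Nat.card V ≤ (orb H V) ^ 4 ∨ ∃ Z : Subgroup H, OneDim H V Z) (l n : ℕ) :
    ∀ (H V : Type u) [Group H] [Finite H] [AddCommGroup V] [Finite V] [DistribMulAction H V],
      Nat.card V = n → Group.IsSolvable H → Irred H V → kc H * (orb H V - 1) < 2 ^ l →
      ∃ d : ℕ, Nat.card V ≤ 2 ^ (((C0 + 128) * (l + 1)) ^ (d + 1)) ∧ gB5 d ≤ orb H V := by
  classical
  set E := (C0 + 128) * (l + 1) with hE
  have hE1 : 128 * (l + 1) ≤ E := Nat.mul_le_mul_right _ (by omega)
  have hE2 : C0 ≤ E := by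
    calc C0 = C0 * 1 := (mul_one _).symm
      _ ≤ (C0 + 128) * (l + 1) := Nat.mul_le_mul (by omega) (by omega)
  induction n using Nat.strong_induction_on with
  | _ n ih =>
    intro H V _ _ _ _ _ hn hsol hI hK
    haveI := hI.1
    have ho2 := two_le_orb H V
    have hkc : 1 ≤ kc H := one_le_class H
    have horbl : orb H V ≤ 2 ^ l := by
      have e1 : 1 * (orb H V - 1) ≤ kc H * (orb H V - 1) := Nat.mul_le_mul_right _ hkc
      omega
    by_cases hP : Prim H V
    · refine ⟨0, ?_, ho2⟩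
      rw [zero_add, pow_one]
      by_cases hC : C0 ≤ Nat.card V
      · rcases h1 H V hsol hP hC with h5 | ⟨Z, hZ⟩
        · calc Nat.card V ≤ (orb H V) ^ 4 := h5
            _ ≤ (2 ^ l) ^ 4 := Nat.pow_le_pow_left horbl 4
            _ = 2 ^ (l * 4) := by rw [pow_mul]
            _ ≤ 2 ^ E := Nat.pow_le_pow_right (by norm_num) (by omega)
        · obtain ⟨e1, e2, -, -⟩ := h2 H V Z hZ
          set L := Nat.log 2 (Nat.card V) with hL
          have e3 : Nat.card V - 1 ≤ (kc H * (orb H V - 1)) * L ^ 2 := by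
            calc Nat.card V - 1 ≤ (orb H V - 1) * (L * (aker H V).relIndex Z) := e1
              _ ≤ (orb H V - 1) * (L * (kc H * L)) := by gcongr
              _ = _ := by ring
          have hV2 : 1 < Nat.card V := Finite.one_lt_card_iff_nontrivial.mpr hI.1
          have hL1 : 1 ≤ L := Nat.le_log_of_pow_le (by norm_num) (by omega)
          have e4 : Nat.card V ≤ 2 ^ l * L ^ 2 := by
            have e5 : (kc H * (orb H V - 1)) * L ^ 2 < 2 ^ l * L ^ 2 :=
              Nat.mul_lt_mul_of_pos_right hK (by positivity)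
            omega
          exact (oneB5 (by omega) e4).trans (Nat.pow_le_pow_right (by norm_num) (by omega))
      · rw [not_le] at hC
        calc Nat.card V ≤ C0 := hC.le
          _ ≤ 2 ^ C0 := Nat.lt_two_pow_self.le
          _ ≤ 2 ^ E := Nat.pow_le_pow_right (by norm_num) hE2
    · obtain ⟨U, hU0, hUt, hind, hprim⟩ := h4a H V hI hP
      haveI : Finite (MulAction.orbit H U) := inferInstance
      haveI : Fintype (MulAction.orbit H U) := Fintype.ofFinite _
      have BS := blockSys_of_indep hI U hU0 hind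
      let i0 : MulAction.orbit H U := ⟨U, MulAction.mem_orbit_self U⟩
      haveI : Nonempty (MulAction.orbit H U) := ⟨i0⟩
      have hcard := BS.card_eq i0
      obtain ⟨hb1, hb2⟩ := h4b H V (MulAction.orbit H U) _ BS i0
      letI := blockAct BS i0
      have hirr := BS.irred hI i0
      have horb := BS.orb_le i0
      have hlt : Nat.card ((i0 : AddSubgroup V)) < n := by
        rw [← hn]
        have h5 : Nat.card (i0 : AddSubgroup V) ≤ Nat.card V :=
          Nat.card_le_card_of_injective _ Subtype.val_injective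
        rcases h5.lt_or_eq with h6 | h6
        · exact h6
        · exfalso
          exact hUt (AddSubgroup.eq_top_of_card_eq _ h6)
      have hV0 : 0 < Nat.card V := Nat.card_pos
      set s := Fintype.card (MulAction.orbit H U) with hs
      have hs1 : 1 ≤ s := Fintype.card_pos_iff.mpr ⟨i0⟩
      have hs2 : 2 ≤ s := by
        by_contra hcon
        have hs3 : s = 1 := by omega
        rw [hs3, pow_one] at hcard
        omega
      have hpr := h3 H (MulAction.orbit H U) hsol hprim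
      rw [Nat.card_eq_fintype_card, Nat.card_eq_fintype_card (α := MulAction.orbit H U),
        ← hs] at hpr
      haveI := hirr.1
      have hoU2 := two_le_orb (MulAction.stabilizer H i0) (i0 : AddSubgroup V)
      set oU := orb (MulAction.stabilizer H i0) (i0 : AddSubgroup V) with hoU
      have hsE : s ≤ E := by
        refine le_trans (blocksB5 (l := l) (by omega) ?_) hE1
        calc 2 ^ s ≤ oU ^ s := Nat.pow_le_pow_left hoU2 _
          _ ≤ orb H V * Nat.card (MulAction.toPermHom H (MulAction.orbit H U)).range := hb1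
          _ ≤ 2 ^ l * s ^ (1 + Nat.log 2 s) := by
            apply Nat.mul_le_mul horbl
            rw [Nat.card_eq_fintype_card]
            exact hpr
      have hKU : kc (MulAction.stabilizer H i0) * (oU - 1) < 2 ^ l := by
        refine lt_of_le_of_lt ?_ hK
        have e1 := card_conj_mul_le (MulAction.stabilizer H i0)
        have e2 := Subgroup.card_mul_index (MulAction.stabilizer H i0)
        rw [MulAction.index_stabilizer_of_transitive, Nat.card_eq_fintype_card
          (α := MulAction.orbit H U)] at e2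
        have e3 : Nat.card (ConjClasses (MulAction.stabilizer H i0)) ≤
            Nat.card (ConjClasses H) * Fintype.card (MulAction.orbit H U) := by
          rw [← e2, mul_comm (Nat.card (MulAction.stabilizer H i0)), ← mul_assoc] at e1
          exact Nat.le_of_mul_le_mul_right e1 Nat.card_pos
        calc kc (MulAction.stabilizer H i0) * (oU - 1)
            ≤ (kc H * s) * (oU - 1) := Nat.mul_le_mul_right _ e3
          _ = kc H * (s * (oU - 1)) := by ring
          _ ≤ kc H * (orb H V - 1) := Nat.mul_le_mul_left _ (by omega)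
      have hsolU : Group.IsSolvable (MulAction.stabilizer H i0) := by
        haveI := hsol
        infer_instance
      obtain ⟨d, hd1, hd2⟩ := ih _ hlt (MulAction.stabilizer H i0) (i0 : AddSubgroup V) rfl
        hsolU hirr hKU
      refine ⟨d + 1, ?_, ?_⟩
      · rw [hcard]
        calc (Nat.card (i0 : AddSubgroup V)) ^ s ≤ (2 ^ (E ^ (d + 1))) ^ s :=
              Nat.pow_le_pow_left hd1 _
          _ = 2 ^ (E ^ (d + 1) * s) := by rw [← pow_mul]
          _ ≤ 2 ^ (E ^ (d + 1 + 1)) := by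
            apply Nat.pow_le_pow_right (by norm_num)
            rw [pow_succ E (d + 1)]
            exact Nat.mul_le_mul_left _ hsE
      · have h6 := hb2 hs2
        change gB5 d * (gB5 d + 1) / 2 ≤ orb H V
        have h7 : gB5 d * (gB5 d + 1) ≤ oU * (oU + 1) := Nat.mul_le_mul hd2 (by omega)
        omega

theorem b5 (h1 : SB1.{u}) (h2 : SB2.{u}) (h3 : SB3.{u}) (h4a : SB4a.{u}) (h4b : SB4b.{u}) :
    SB5.{u} := by
  obtain ⟨C0, hC0⟩ := h1
  refine ⟨2 * (C0 + 129), ?_⟩
  intro l u H V _ _ _ _ _ hsol hI hK hl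
  obtain ⟨d, hd1, hd2⟩ := indB5 h2 h3 h4a h4b C0 hC0 l _ H V rfl hsol hI hK
  have hkc : 1 ≤ kc H := one_le_class H
  have horbl : orb H V ≤ 2 ^ l := by
    have e1 : 1 * (orb H V - 1) ≤ kc H * (orb H V - 1) := Nat.mul_le_mul_right _ hkc
    omega
  have hdu := gB5_bound (hd2.trans horbl) hl
  refine hd1.trans (Nat.pow_le_pow_right (by norm_num) ?_)
  have hA : C0 + 128 ≤ 2 ^ (C0 + 128) := Nat.lt_two_pow_self.le
  have hE : (C0 + 128) * (l + 1) ≤ 2 ^ (C0 + 128 + u) := by
    rw [pow_add]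
    exact Nat.mul_le_mul hA hl
  have hE1 : 1 ≤ (C0 + 128) * (l + 1) := Nat.mul_pos (by omega) (by omega)
  calc ((C0 + 128) * (l + 1)) ^ (d + 1) ≤ ((C0 + 128) * (l + 1)) ^ (u + 2) :=
        Nat.pow_le_pow_right hE1 (by omega)
    _ ≤ (2 ^ (C0 + 128 + u)) ^ (u + 2) := Nat.pow_le_pow_left hE _
    _ = 2 ^ ((C0 + 128 + u) * (u + 2)) := by rw [← pow_mul]
    _ ≤ 2 ^ (2 * (C0 + 129) * (u + 1) ^ 2) := by
      apply Nat.pow_le_pow_right (by norm_num)
      nlinarith [Nat.zero_le C0, Nat.zero_le u, Nat.zero_le (C0 * u), Nat.zero_le (C0 * u * u),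
        Nat.zero_le (u * u)]

end H48.CN
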