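import Pool.Agent.H48.CN.Stm

/-!
Class numbers of finite solvable groups: chief factors are small.
-/

namespace H48.CN

open H60.KG

universe u

private theorem b5b_ab {G : Type u} [Group G] (hG : Group.IsSolvable G) {N M : Subgroup G}
    (h : Chief N M) : AbSec N M := by
  have := h.nN
  have := h.nM
  have := hG
  refine ⟨h.nN, h.nM, h.lt.le, ?_⟩
  have : (⁅M, M⁆ ⊔ N).Normal := inferInstance
  have h1 : ⁅M, M⁆ ≤ M := Subgroup.commutator_le_left M M
  rcases h.min (⁅M, M⁆ ⊔ N) inferInstance le_sup_right (sup_le h1 h.lt.le) with h2 | h2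
  · intro x hx y hy
    rw [← h2]
    exact Subgroup.mem_sup_left (Subgroup.commutator_mem_commutator hx hy)
  · exfalso
    have h3 : M.map (QuotientGroup.mk' N) ≠ ⊥ := by
      intro h4
      rw [Subgroup.map_eq_bot_iff, QuotientGroup.ker_mk'] at h4
      exact absurd h4 (not_le_of_gt h.lt)
    have h5 := Group.IsSolvable.commutator_lt_of_ne_bot h3
    rw [← Subgroup.map_commutator] at h5
    apply h5.ne
    have h6 := congrArg (Subgroup.map (QuotientGroup.mk' N)) h2
    rw [Subgroup.map_sup] at h6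
    have h7 : N.map (QuotientGroup.mk' N) = ⊥ := by
      rw [Subgroup.map_eq_bot_iff, QuotientGroup.ker_mk']
    rw [h7, sup_bot_eq] at h6
    exact h6

theorem b5b (h : SB5.{u}) (h4 : SA4.{u}) (h4b : SA4b.{u}) : SB5b.{u} := by
  obtain ⟨c, hc⟩ := h
  refine ⟨4 * c, ?_⟩
  intro l u G _ _ hG hk hl N M hNM
  have hN := hNM.nN
  have hab := b5b_ab hG hNM
  obtain ⟨V, i1, i2, i3, φ, hφ⟩ := h4 G G (MonoidHom.id G) N M Function.surjective_id hab (by
    intro g hg x _
    have hg' : g = 1 := hg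
    rw [hg', one_mul, inv_one, mul_one, mul_inv_cancel]
    exact N.one_mem)
  obtain ⟨e1, e2, e3⟩ := h4b G G V (MonoidHom.id G) N M φ Function.surjective_id hφ
  have hI := e3 hNM
  rw [← e1]
  have hK : kc G * (orb G V - 1) < 2 ^ (2 * l) := by
    have h1 : kc G * (orb G V - 1) ≤ kc G * kc G := Nat.mul_le_mul_left _ (by omega)
    have h2 : kc G * kc G < 2 ^ l * 2 ^ l := Nat.mul_lt_mul'' hk hk
    calc kc G * (orb G V - 1) ≤ kc G * kc G := h1
      _ < 2 ^ l * 2 ^ l := h2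
      _ = 2 ^ (2 * l) := by rw [← pow_add, two_mul]
  have hl' : 2 * l < 2 ^ (u + 1) := by
    rw [pow_succ]
    omega
  refine (hc (2 * l) (u + 1) G V hG hI hK hl').trans ?_
  apply Nat.pow_le_pow_right (by norm_num)
  apply Nat.pow_le_pow_right (by norm_num)
  have h5 : (u + 1 + 1) ^ 2 ≤ 4 * (u + 1) ^ 2 := by
    have : u + 1 + 1 ≤ 2 * (u + 1) := by omega
    calc (u + 1 + 1) ^ 2 ≤ (2 * (u + 1)) ^ 2 := Nat.pow_le_pow_left this 2
      _ = 4 * (u + 1) ^ 2 := by ring
  calc c * (u + 1 + 1) ^ 2 ≤ c * (4 * (u + 1) ^ 2) := Nat.mul_le_mul_left _ h5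
    _ = 4 * c * (u + 1) ^ 2 := by ring

end H48.CN
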