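import Pool.Agent.H48.CN.Stm

/-!
Part B6: a minimal block is primitive for its stabiliser.
-/

namespace H48.CN

open H60.KG MulAction
open scoped Pointwise

universe u

section

variable {H V ι : Type*} [Group H] [AddCommGroup V] [DistribMulAction H V]
    [MulAction H ι] [Fintype ι] {U : ι → AddSubgroup V}

/-- the image in `V` of a translate by the stabiliser -/
theorem b6_map_smul (B : BlockSys H V ι U) (i0 : ι) (s : MulAction.stabilizer H i0)
    (U' : AddSubgroup (U i0)) :
    letI := blockAct B i0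
    (s • U').map (U i0).subtype = (s : H) • (U'.map (U i0).subtype) := by
  letI := blockAct B i0
  ext v
  rw [AddSubgroup.mem_smul_pointwise_iff_exists, AddSubgroup.mem_map]
  constructor
  · rintro ⟨w, hw, rfl⟩
    rw [AddSubgroup.mem_smul_pointwise_iff_exists] at hw
    obtain ⟨x, hx, rfl⟩ := hw
    exact ⟨(x : V), ⟨x, hx, rfl⟩, rfl⟩
  · rintro ⟨w, ⟨x, hx, rfl⟩, rfl⟩
    exact ⟨s • x, AddSubgroup.smul_mem_pointwise_smul _ _ _ hx, rfl⟩

/-- a block of a block is a block -/
theorem b6_indep [Finite V] (B : BlockSys H V ι U) (i0 : ι) (U' : AddSubgroup (U i0)) :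
    letI := blockAct B i0
    IndepOrbit (MulAction.stabilizer H i0) U' → IndepOrbit H (U'.map (U i0).subtype) := by
  classical
  letI := blockAct B i0
  intro hind
  obtain ⟨U2, hU2⟩ : ∃ U2 : AddSubgroup V, U2 = U'.map (U i0).subtype := ⟨_, rfl⟩
  rw [← hU2]
  intro f hf h0
  haveI : Fintype (MulAction.orbit H U2) := Fintype.ofFinite _
  haveI : Fintype (MulAction.orbit (MulAction.stabilizer H i0) U') := Fintype.ofFinite _
  rw [finsum_eq_sum_of_fintype] at h0
  have hU2le : U2 ≤ U i0 := by
    rw [hU2]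
    rintro v ⟨x, hx, rfl⟩
    exact x.2
  intro k
  obtain ⟨g, hg⟩ := k.2
  have hg' : g • U2 = (k : AddSubgroup V) := hg
  -- the members of the orbit inside of the block `g • i0`
  have hmem : ∀ W' : MulAction.orbit (MulAction.stabilizer H i0) U',
      g • ((W' : AddSubgroup (U i0)).map (U i0).subtype) ∈ MulAction.orbit H U2 := by
    rintro ⟨W', s, rfl⟩
    refine ⟨g * (s : H), ?_⟩
    change (g * (s : H)) • U2 = g • ((s • U').map (U i0).subtype)
    rw [b6_map_smul B i0 s U', mul_smul, hU2]
  let J : MulAction.orbit (MulAction.stabilizer H i0) U' → MulAction.orbit H U2 :=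
    fun W' => ⟨g • ((W' : AddSubgroup (U i0)).map (U i0).subtype), hmem W'⟩
  have hJinj : Function.Injective J := by
    intro a b hab
    have h1 : g • ((a : AddSubgroup (U i0)).map (U i0).subtype) =
        g • ((b : AddSubgroup (U i0)).map (U i0).subtype) := congrArg Subtype.val hab
    have h2 := smul_left_cancel g h1
    exact Subtype.ext (AddSubgroup.map_injective (U i0).subtype_injective h2)
  have hcomp : ∀ s : Finset (MulAction.orbit H U2),
      B.comp (∑ j ∈ s, f j) (g • i0) = ∑ j ∈ s, B.comp (f j) (g • i0) := by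
    intro s
    induction s using Finset.induction_on with
    | empty => rw [Finset.sum_empty, Finset.sum_empty, B.comp_zero]
    | insert a s ha ih => rw [Finset.sum_insert ha, Finset.sum_insert ha, B.comp_add, ih]
  have h1 := hcomp Finset.univ
  rw [h0, B.comp_zero] at h1
  have hJU : ∀ W', f (J W') ∈ U (g • i0) := by
    intro W'
    have h2 : f (J W') ∈ g • ((W' : AddSubgroup (U i0)).map (U i0).subtype) := hf (J W')
    rw [AddSubgroup.mem_smul_pointwise_iff_exists] at h2
    obtain ⟨w, ⟨x, hx, rfl⟩, hw⟩ := h2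
    rw [← hw]
    exact B.equiv g i0 _ x.2
  have h2 : ∑ W', f (J W') = ∑ j, B.comp (f j) (g • i0) := by
    apply Fintype.sum_of_injective J hJinj
    · intro j hj
      obtain ⟨x, hx⟩ := j.2
      have hx' : x • U2 = (j : AddSubgroup V) := hx
      have h3 : f j ∈ U (x • i0) := by
        have h4 := hf j
        rw [← hx', AddSubgroup.mem_smul_pointwise_iff_exists] at h4
        obtain ⟨w, hw, hw'⟩ := h4
        rw [← hw']
        exact B.equiv x i0 _ (hU2le hw)
      rw [B.comp_of_mem h3, if_neg]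
      intro h5
      apply hj
      have h6 : g⁻¹ * x ∈ MulAction.stabilizer H i0 := by
        rw [MulAction.mem_stabilizer_iff, mul_smul, ← h5, inv_smul_smul]
      refine ⟨⟨(⟨g⁻¹ * x, h6⟩ : MulAction.stabilizer H i0) • U', MulAction.mem_orbit _ _⟩, ?_⟩
      apply Subtype.ext
      change g • (((⟨g⁻¹ * x, h6⟩ : MulAction.stabilizer H i0) • U').map (U i0).subtype) =
        (j : AddSubgroup V)
      rw [b6_map_smul B i0 _ U', ← hx', ← hU2]
      change g • ((g⁻¹ * x) • U2) = x • U2
      rw [← mul_smul, mul_inv_cancel_left]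
    · intro W'
      rw [B.comp_of_mem (hJU W'), if_pos rfl]
  rw [← h1] at h2
  -- the relation inside of the block
  have hFU : ∀ W', g⁻¹ • f (J W') ∈ U i0 := by
    intro W'
    have h3 := B.equiv g⁻¹ _ _ (hJU W')
    rwa [inv_smul_smul] at h3
  have h4 := hind (fun W' => ⟨g⁻¹ • f (J W'), hFU W'⟩) (by
    intro W'
    have h3 : f (J W') ∈ g • ((W' : AddSubgroup (U i0)).map (U i0).subtype) := hf (J W')
    rw [AddSubgroup.mem_smul_pointwise_iff_exists] at h3
    obtain ⟨w, ⟨x, hx, rfl⟩, hw⟩ := h3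
    have h5 : (⟨g⁻¹ • f (J W'), hFU W'⟩ : U i0) = x := by
      apply Subtype.ext
      change g⁻¹ • f (J W') = (x : V)
      rw [← hw, inv_smul_smul]
      rfl
    rw [h5]
    exact hx) (by
    rw [finsum_eq_sum_of_fintype]
    apply Subtype.ext
    rw [AddSubgroup.val_finsetSum]
    change ∑ W', g⁻¹ • f (J W') = 0
    rw [← Finset.smul_sum, h2, smul_zero]) ⟨U', MulAction.mem_orbit_self U'⟩
  have h5 : g⁻¹ • f (J ⟨U', MulAction.mem_orbit_self U'⟩) = 0 := congrArg Subtype.val h4
  have h6 : J ⟨U', MulAction.mem_orbit_self U'⟩ = k := by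
    apply Subtype.ext
    refine Eq.trans ?_ hg'
    exact congrArg (fun T : AddSubgroup V => g • T) hU2.symm
  rw [h6] at h5
  exact (smul_eq_zero_iff_eq _).mp h5

end

theorem b6_top (H V : Type*) [Group H] [AddCommGroup V] [Finite V] [DistribMulAction H V] :
    IndepOrbit H (⊤ : AddSubgroup V) := by
  classical
  intro f hf h0 i
  haveI : Fintype (MulAction.orbit H (⊤ : AddSubgroup V)) := Fintype.ofFinite _
  rw [finsum_eq_sum_of_fintype] at h0
  have hall : ∀ j : MulAction.orbit H (⊤ : AddSubgroup V), j = i := by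
    have key : ∀ j : MulAction.orbit H (⊤ : AddSubgroup V), (j : AddSubgroup V) = ⊤ := by
      rintro ⟨j, h, rfl⟩
      change h • (⊤ : AddSubgroup V) = ⊤
      rw [eq_top_iff]
      intro v _
      rw [AddSubgroup.mem_smul_pointwise_iff_exists]
      exact ⟨h⁻¹ • v, trivial, smul_inv_smul h v⟩
    intro j
    exact Subtype.ext ((key j).trans (key i).symm)
  rw [Finset.sum_eq_single i (fun j _ hj => absurd (hall j) hj)
    (fun h => absurd (Finset.mem_univ _) h)] at h0
  exact h0

theorem b6 : SB6.{u} := by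
  intro H V _ _ _ _ _ hI
  classical
  haveI := hI.1
  obtain ⟨W, ⟨hW1, hW2⟩, hmin⟩ := WellFounded.has_min
    (measure (fun W : AddSubgroup V => Nat.card W)).wf
    {W : AddSubgroup V | W ≠ ⊥ ∧ IndepOrbit H W} ⟨⊤, top_ne_bot, b6_top H V⟩
  haveI : Finite (MulAction.orbit H W) := inferInstance
  let hF : Fintype (MulAction.orbit H W) := Fintype.ofFinite _
  have B := blockSys_of_indep hI W hW1 hW2
  refine ⟨W, hF, B, hW1, ?_⟩
  letI := blockAct B ⟨W, MulAction.mem_orbit_self W⟩
  intro U' hU1 hU2
  have h1 := b6_indep B ⟨W, MulAction.mem_orbit_self W⟩ U' hU2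
  have h2 : U'.map (((⟨W, MulAction.mem_orbit_self W⟩ : MulAction.orbit H W) :
      AddSubgroup V).subtype) ≠ ⊥ := by
    intro h
    apply hU1
    rwa [AddSubgroup.map_eq_bot_iff_of_injective _ (AddSubgroup.subtype_injective _)] at h
  have h3 := hmin _ ⟨h2, h1⟩
  have h4 : Nat.card (U'.map (((⟨W, MulAction.mem_orbit_self W⟩ : MulAction.orbit H W) :
      AddSubgroup V).subtype)) = Nat.card U' :=
    (Nat.card_congr (AddSubgroup.equivMapOfInjective U' _
      (AddSubgroup.subtype_injective _)).toEquiv).symm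
  apply AddSubgroup.eq_top_of_le_card
  change ¬ (Nat.card (U'.map (((⟨W, MulAction.mem_orbit_self W⟩ : MulAction.orbit H W) :
      AddSubgroup V).subtype)) < Nat.card W) at h3
  rw [h4, not_lt] at h3
  exact h3

end H48.CN
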