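import Pool.Agent.H48.CN.Stm

/-!
Row CN-B7: two one-dimensional blocks give many classes of elements of order prime to `p` in the
stabiliser of a vector.
-/

namespace H48.CN

open H60.KG MulAction

universe u

instance b7_aker_normal (H V : Type*) [Group H] [AddCommGroup V] [DistribMulAction H V] :
    (aker H V).Normal where
  conj_mem := by
    intro n hn g v
    change (g * n * g⁻¹) • v = v
    rw [mul_smul, mul_smul]
    have : n • g⁻¹ • v = g⁻¹ • v := hn (g⁻¹ • v)
    rw [this, smul_inv_smul]

/-- an orbit of a group is at most as long as the index of a subgroup fixing the point -/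
theorem b7_ncard_orbit_le_index {X E : Type*} [Group X] [Finite X] [MulAction X E] (N : Subgroup X)
    (w : E) (hN : N ≤ stabilizer X w) : (orbit X w).ncard ≤ N.index := by
  rw [← MulAction.index_stabilizer X w]
  exact Nat.le_of_dvd (Nat.pos_of_ne_zero Subgroup.index_ne_zero_of_finite)
    (Subgroup.index_dvd_of_le hN)

section

variable {H V ι : Type u} [Group H] [Finite H] [AddCommGroup V] [Finite V] [DistribMulAction H V]
    [MulAction H ι] [Fintype ι] {U : ι → AddSubgroup V}

/-- two vectors in two blocks: components -/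
theorem b7_comp_two (B : BlockSys H V ι U) {i0 i1 : ι} (h01 : i1 ≠ i0) {v w v' w' : V}
    (hv : v ∈ U i1) (hw : w ∈ U i0) (hv' : v' ∈ U i1) (hw' : w' ∈ U i0) (h : v + w = v' + w') :
    v = v' ∧ w = w' := by
  classical
  have key : ∀ a b : V, a ∈ U i1 → b ∈ U i0 →
      B.comp (a + b) = fun k => (if k = i1 then a else 0) + (if k = i0 then b else 0) := by
    intro a b ha hb
    apply B.uniq (B.comp_mem _)
    · intro k
      refine (U k).add_mem ?_ ?_
      · split_ifs with hk
        · subst hk; exact ha
        · exact (U k).zero_mem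
      · split_ifs with hk
        · subst hk; exact hb
        · exact (U k).zero_mem
    · rw [B.comp_sum, Finset.sum_add_distrib]; simp
  have h1 := key v w hv hw
  have h2 := key v' w' hv' hw'
  rw [h] at h1
  have h3 := h1.symm.trans h2
  constructor
  · have := congrFun h3 i1
    simpa [h01] using this
  · have := congrFun h3 i0
    simpa [h01.symm] using this

/-- the two cases for an element moving `v + w` to `v + w'` -/
theorem b7_two_cases (B : BlockSys H V ι U) {i0 i1 : ι} (h01 : i1 ≠ i0) {v w w' : V}
    (hv : v ∈ U i1) (hv0 : v ≠ 0) (hw : w ∈ U i0) (hw0 : w ≠ 0) (hw' : w' ∈ U i0) (hw0' : w' ≠ 0)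
    (c : H) (hc : c • (v + w) = v + w') :
    (c • v = v ∧ c • w = w') ∨ (c • v = w' ∧ c • w = v) := by
  classical
  have hcv : c • v ∈ U (c • i1) := B.equiv c i1 v hv
  have hcw : c • w ∈ U (c • i0) := B.equiv c i0 w hw
  have hcv0 : c • v ≠ 0 := fun h0 => hv0 ((smul_eq_zero_iff_eq c).mp h0)
  have hcw0 : c • w ≠ 0 := fun h0 => hw0 ((smul_eq_zero_iff_eq c).mp h0)
  have hne : c • i1 ≠ c • i0 := fun h0 => h01 (smul_left_cancel c h0)
  have key : ∀ (j1 j0 : ι) (a b : V), a ∈ U j1 → b ∈ U j0 →
      B.comp (a + b) = fun k => (if k = j1 then a else 0) + (if k = j0 then b else 0) := by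
    intro j1 j0 a b ha hb
    apply B.uniq (B.comp_mem _)
    · intro k
      refine (U k).add_mem ?_ ?_
      · split_ifs with hk
        · subst hk; exact ha
        · exact (U k).zero_mem
      · split_ifs with hk
        · subst hk; exact hb
        · exact (U k).zero_mem
    · rw [B.comp_sum, Finset.sum_add_distrib]; simp
  have e1 := key (c • i1) (c • i0) _ _ hcv hcw
  have e2 := key i1 i0 _ _ hv hw'
  rw [smul_add] at hc
  rw [hc] at e1
  have e3 := e1.symm.trans e2
  -- evaluate at `c • i1`
  have f1 := congrFun e3 (c • i1)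
  simp only [if_true, if_neg hne, add_zero] at f1
  by_cases h1 : c • i1 = i1
  · have h2 : c • i0 ≠ i1 := fun h0 => hne (h1.trans h0.symm)
    rw [if_pos h1, if_neg (by rw [h1]; exact h01), add_zero] at f1
    left
    refine ⟨f1, ?_⟩
    have := hc
    rw [f1] at this
    exact add_left_cancel this
  · rw [if_neg h1, zero_add] at f1
    by_cases h3 : c • i1 = i0
    · rw [if_pos h3] at f1
      right
      refine ⟨f1, ?_⟩
      have := hc
      rw [f1, add_comm v w'] at this
      exact add_left_cancel this
    · rw [if_neg h3] at f1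
      exact absurd f1 hcv0

end

theorem b7 (h1 : SA1a.{u}) (h1c : SA1c.{u}) (h2 : SB2.{u}) : SB7.{u} := by
  classical
  intro p _ H V ι _ _ _ _ _ _ _ U B i0 Z
  letI := blockAct B i0
  intro hp hι hZ hq
  obtain ⟨i1, h01⟩ : ∃ i1 : ι, i1 ≠ i0 := by
    haveI : Nontrivial ι := Fintype.one_lt_card_iff_nontrivial.mp (by omega)
    exact exists_ne i0
  haveI : Nontrivial (U i0) := (Finite.one_lt_card_iff_nontrivial).mp (by omega)
  obtain ⟨v, hvU, hv0⟩ : ∃ v ∈ U i1, v ≠ 0 := by
    have h3 : 1 < Nat.card (U i1) := by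
      rw [B.card_block i1 i0]; omega
    haveI : Nontrivial (U i1) := (Finite.one_lt_card_iff_nontrivial).mp h3
    obtain ⟨x, hx⟩ := exists_ne (0 : U i1)
    exact ⟨x, x.2, fun h0 => hx (Subtype.ext h0)⟩
  refine ⟨v, hv0, ?_⟩
  obtain ⟨-, -, hdvd, -⟩ := h2 (stabilizer H i0) (U i0) Z hZ
  have hZn : Z.Normal := hZ.nZ
  let X1 : Subgroup H := stabilizer H v ⊓ stabilizer H i0
  let f : X1 →* stabilizer H i0 := Subgroup.inclusion inf_le_right
  let N' : Subgroup X1 := (aker (stabilizer H i0) (U i0)).comap f
  let Z' : Subgroup X1 := Z.comap f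
  let L : ℕ := Nat.log 2 (Nat.card (U i0))
  have hNZ : N' ≤ Z' := Subgroup.comap_mono hZ.ker
  -- index of `Z'`
  have hZi : Z'.index ≤ L := by
    refine le_trans ?_ hZ.idx
    rw [Subgroup.index_comap]
    exact Nat.le_of_dvd (Nat.pos_of_ne_zero Subgroup.index_ne_zero_of_finite)
      (Subgroup.relIndex_dvd_index_of_normal Z f.range)
  -- coprimality
  have hcop : (N'.relIndex Z').Coprime p := by
    have hd : N'.relIndex Z' ∣ Nat.card (U i0) - 1 := by
      refine dvd_trans ?_ hdvd
      have hle : Z'.map f ≤ Z := Subgroup.map_le_iff_le_comap.mpr le_rfl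
      rw [show N'.relIndex Z' = (aker (stabilizer H i0) (U i0)).relIndex (Z'.map f) from
        Subgroup.relIndex_comap _ _ _]
      rw [← Subgroup.relIndex_subgroupOf hle]
      have hn : ((aker (stabilizer H i0) (U i0)).subgroupOf Z).Normal := inferInstance
      exact Subgroup.relIndex_dvd_index_of_normal ((aker (stabilizer H i0) (U i0)).subgroupOf Z)
        ((Z'.map f).subgroupOf Z)
    have hpq : p ∣ Nat.card (U i0) := by
      obtain ⟨x, hx⟩ := exists_ne (0 : U i0)
      have ho : addOrderOf x = p := by
        apply addOrderOf_eq_prime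
        · apply Subtype.ext
          rw [AddSubgroup.coe_nsmul]
          exact hp _
        · exact hx
      rw [← ho]
      exact addOrderOf_dvd_natCard x
    rw [Nat.Coprime]
    refine Nat.Coprime.symm ((Nat.Prime.coprime_iff_not_dvd Fact.out).mpr ?_)
    intro hd2
    have h4 : p ∣ Nat.card (U i0) - 1 := dvd_trans hd2 hd
    have h5 : p ∣ 1 := by
      have := (Nat.dvd_sub hpq h4)
      have e : Nat.card (U i0) - (Nat.card (U i0) - 1) = 1 := by omega
      rwa [e] at this
    exact (Nat.Prime.one_lt (Fact.out : p.Prime)).ne' (Nat.dvd_one.mp h5)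
  -- SA1c
  have hrel : N'.relIndex Z' ≤ L * kp p X1 := by
    have : N'.Normal := (b7_aker_normal (stabilizer H i0) (U i0)).comap f
    refine h1c p L X1 N' Z' Z' hNZ hcop hZi ?_
    intro z hz a ha
    exact hZ.comm (f z) hz (f a) ha
  -- SA1a
  have hkp : kp p X1 ≤ Fintype.card ι * kp p (stabilizer H v) := by
    have h3 := h1 p X1 (stabilizer H v) (Subgroup.inclusion inf_le_left) (Subgroup.inclusion_injective _)
    have h4 : Nat.card (stabilizer H v) ≤ Fintype.card ι * Nat.card X1 := by
      have e1 : X1.relIndex (stabilizer H v) = (stabilizer H i0).relIndex (stabilizer H v) := by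
        change (stabilizer H v ⊓ (stabilizer H i0)).relIndex (stabilizer H v) = _
        rw [inf_comm, Subgroup.inf_relIndex_right]
      have e2 : Nat.card X1 * X1.relIndex (stabilizer H v) = Nat.card (stabilizer H v) := by
        have := Subgroup.relIndex_mul_relIndex (⊥ : Subgroup H) X1 (stabilizer H v) bot_le
          inf_le_left
        rwa [Subgroup.relIndex_bot_left, Subgroup.relIndex_bot_left] at this
      have e3 : (stabilizer H i0).relIndex (stabilizer H v) ≤ (stabilizer H i0).index := by
        rw [← Subgroup.relIndex_top_right]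
        exact Subgroup.relIndex_le_of_le_right le_top (by
          rw [Subgroup.relIndex_top_right]; exact Subgroup.index_ne_zero_of_finite)
      have e4 : (stabilizer H i0).index ≤ Fintype.card ι := by
        rw [MulAction.index_stabilizer, ← Nat.card_eq_fintype_card, ← Set.ncard_univ]
        exact Set.ncard_le_ncard (Set.subset_univ _)
      rw [← e2, e1, mul_comm]
      exact Nat.mul_le_mul_right _ (e3.trans e4)
    have h5 : kp p X1 * Nat.card X1 ≤ Fintype.card ι * kp p (stabilizer H v) * Nat.card X1 :=
      h3.trans ((Nat.mul_le_mul_left _ h4).trans (le_of_eq (by ring)))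
    exact Nat.le_of_mul_le_mul_right h5 Nat.card_pos
  -- the index of `N'`
  have hNi : N'.index ≤ L ^ 2 * (Fintype.card ι * kp p (stabilizer H v)) := by
    rw [← Subgroup.relIndex_mul_index hNZ]
    calc N'.relIndex Z' * Z'.index ≤ (L * kp p X1) * L := Nat.mul_le_mul hrel hZi
      _ ≤ (L * (Fintype.card ι * kp p (stabilizer H v))) * L :=
          Nat.mul_le_mul_right _ (Nat.mul_le_mul_left _ hkp)
      _ = _ := by ring
  -- counting
  have hcount : Nat.card (U i0) - 1 ≤ (orb H V - 1) * (2 * N'.index) := by
    let act : MulAction X1 (U i0) := MulAction.compHom (U i0) f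
    let Q := MulAction.orbitRel.Quotient H V
    let z : Q := Quotient.mk'' (0 : V)
    haveI : Finite Q := Quotient.finite _
    let E := {w : U i0 // w ≠ 0}
    let T := {c : Q // c ≠ z}
    have hT : Nat.card T = orb H V - 1 := by
      have h2 := Set.ncard_compl ({z} : Set Q)
      rwa [Set.ncard_singleton] at h2
    have hE : Nat.card E = Nat.card (U i0) - 1 := by
      have h2 := Set.ncard_compl ({0} : Set (U i0))
      rwa [Set.ncard_singleton] at h2
    have hnz : ∀ w : E, (Quotient.mk'' (v + ((w.1 : U i0) : V)) : Q) ≠ z := by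
      intro w h
      have h1 := Quotient.eq''.mp h
      rw [MulAction.orbitRel_apply] at h1
      obtain ⟨x, hx⟩ := h1
      simp only [smul_zero] at hx
      have := (b7_comp_two B h01 (U i1).zero_mem (U i0).zero_mem hvU w.1.2
        (by rw [add_zero]; exact hx)).1
      exact hv0 this.symm
    let F : E → T := fun w => ⟨Quotient.mk'' (v + ((w.1 : U i0) : V)), hnz w⟩
    have hfib : ∀ t : T, Nat.card {w : E // F w = t} ≤ 2 * N'.index := by
      intro t
      by_cases hne : ∃ w : E, F w = t
      swap
      · have : IsEmpty {w : E // F w = t} := ⟨fun w => hne ⟨w.1, w.2⟩⟩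
        simp
      obtain ⟨w0, hw0⟩ := hne
      -- orbits
      have horb : ∀ w : U i0, (orbit X1 w).ncard ≤ N'.index := by
        intro w
        apply b7_ncard_orbit_le_index
        intro c hc
        exact hc w
      -- second point
      obtain ⟨w1, hw1⟩ : ∃ w1 : U i0, ∀ w : E, F w = t →
          w.1 ∈ orbit X1 w0.1 ∨ w.1 ∈ orbit X1 w1 := by
        have hrel2 : ∀ w : E, F w = t → ∃ c : H, c • (v + (w0.1 : V)) = v + (w.1 : V) := by
          intro w hw
          have h3 : (Quotient.mk'' (v + ((w.1 : U i0) : V)) : Q) =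
              Quotient.mk'' (v + ((w0.1 : U i0) : V)) :=
            congrArg Subtype.val (hw.trans hw0.symm)
          have h4 := Quotient.eq''.mp h3
          rw [MulAction.orbitRel_apply] at h4
          obtain ⟨x, hx⟩ := h4
          exact ⟨x, hx⟩
        have hfirst : ∀ (w w' : U i0), w' ≠ 0 → ∀ c : H, c • v = v → c • (w : V) = (w' : V) →
            w' ∈ orbit X1 w := by
          intro w w' hw' c hcv hcw
          have hci : c • i0 = i0 := by
            have h5 := B.equiv c i0 w.1 w.2
            rw [hcw] at h5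
            exact B.eq_of_mem h5 w'.2 (fun h0 => hw' (Subtype.ext h0))
          exact ⟨⟨c, ⟨hcv, hci⟩⟩, Subtype.ext hcw⟩
        by_cases hsec : ∃ w : E, F w = t ∧ ∃ c : H, c • v = (w.1 : V) ∧ c • (w0.1 : V) = v
        · obtain ⟨w1, -, c1, hc1v, hc1w⟩ := hsec
          refine ⟨w1.1, ?_⟩
          intro w hw
          obtain ⟨c, hc⟩ := hrel2 w hw
          rcases b7_two_cases B h01 hvU hv0 w0.1.2 (fun h0 => w0.2 (Subtype.ext h0)) w.1.2
            (fun h0 => w.2 (Subtype.ext h0)) c hc with h6 | h6
          · left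
            exact hfirst w0.1 w.1 w.2 c h6.1 h6.2
          · right
            refine hfirst w1.1 w.1 w.2 (c * c1⁻¹) ?_ ?_
            · rw [mul_smul, ← hc1w, inv_smul_smul, h6.2, hc1w]
            · rw [mul_smul, ← hc1v, inv_smul_smul, h6.1]
        · refine ⟨0, ?_⟩
          intro w hw
          obtain ⟨c, hc⟩ := hrel2 w hw
          rcases b7_two_cases B h01 hvU hv0 w0.1.2 (fun h0 => w0.2 (Subtype.ext h0)) w.1.2
            (fun h0 => w.2 (Subtype.ext h0)) c hc with h6 | h6
          · left
            exact hfirst w0.1 w.1 w.2 c h6.1 h6.2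
          · exact absurd ⟨w, hw, c, h6.1, h6.2⟩ hsec
      have hsub : Nat.card {w : E // F w = t} ≤ (orbit X1 w0.1 ∪ orbit X1 w1).ncard := by
        rw [← Nat.card_coe_set_eq]
        refine Nat.card_le_card_of_injective
          (fun w : {w : E // F w = t} => (⟨w.1.1, hw1 w.1 w.2⟩ :
            (orbit X1 w0.1 ∪ orbit X1 w1 : Set (U i0)))) ?_
        intro a b hab
        apply Subtype.ext
        apply Subtype.ext
        exact congrArg (fun x : (orbit X1 w0.1 ∪ orbit X1 w1 : Set (U i0)) => (x : U i0)) hab
      calc Nat.card {w : E // F w = t} ≤ (orbit X1 w0.1 ∪ orbit X1 w1).ncard := hsub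
        _ ≤ (orbit X1 w0.1).ncard + (orbit X1 w1).ncard := Set.ncard_union_le _ _
        _ ≤ N'.index + N'.index := Nat.add_le_add (horb _) (horb _)
        _ = 2 * N'.index := by ring
    haveI : Fintype T := Fintype.ofFinite T
    haveI : Finite E := inferInstance
    have hsum : Nat.card E = ∑ t : T, Nat.card {w : E // F w = t} := by
      rw [Nat.card_congr (Equiv.sigmaFiberEquiv F).symm, Nat.card_sigma]
    rw [← hE, hsum, ← hT]
    calc ∑ t : T, Nat.card {w : E // F w = t} ≤ ∑ _t : T, 2 * N'.index :=
          Finset.sum_le_sum fun t _ => hfib t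
      _ = Nat.card T * (2 * N'.index) := by
          rw [Finset.sum_const, Finset.card_univ, smul_eq_mul, Nat.card_eq_fintype_card]
  calc Nat.card (U i0) - 1 ≤ (orb H V - 1) * (2 * N'.index) := hcount
    _ ≤ (orb H V - 1) * (2 * (L ^ 2 * (Fintype.card ι * kp p (stabilizer H v)))) :=
        Nat.mul_le_mul_left _ (Nat.mul_le_mul_left _ hNi)
    _ = 2 * (orb H V - 1) * (L ^ 2 * (Fintype.card ι * kp p (stabilizer H v))) := by ring

end H48.CN
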