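import Pool.Agent.H48.CN.Stm

/-!
Class numbers of finite solvable groups: typical levels.
-/

namespace H48.CN

open H60.KG MulAction
open scoped Pointwise

universe u

namespace B8

/-- primitivity is transported along isomorphisms -/
theorem prim_transfer {G H A V : Type*} [Group G] [Group H] [AddCommGroup A] [Finite A]
    [AddCommGroup V] [Finite V] [DistribMulAction G A] [DistribMulAction H V]
    (φ : G →* H) (hφ : Function.Surjective φ) (f : A →+ V) (hf : Function.Bijective f)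
    (he : ∀ (g : G) (a : A), f (g • a) = φ g • f a) (hP : Prim G A) : Prim H V := by
  intro U hU hind
  have hcm : ∀ X : AddSubgroup V, (X.comap f).map f = X := fun X =>
    AddSubgroup.map_comap_eq_self_of_surjective hf.2 X
  have hmc : ∀ X : AddSubgroup A, (X.map f).comap f = X := fun X =>
    AddSubgroup.comap_map_eq_self_of_injective hf.1 X
  have hsm : ∀ (g : G) (X : AddSubgroup A), (g • X).map f = φ g • X.map f := by
    intro g X
    ext v
    simp only [AddSubgroup.mem_map, AddSubgroup.mem_smul_pointwise_iff_exists]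
    constructor
    · rintro ⟨_, ⟨s, hs, rfl⟩, rfl⟩
      exact ⟨f s, ⟨s, hs, rfl⟩, (he g s).symm⟩
    · rintro ⟨_, ⟨s, hs, rfl⟩, rfl⟩
      exact ⟨g • s, ⟨s, hs, rfl⟩, he g s⟩
  have hU' : U.comap f ≠ ⊥ := by
    intro h
    apply hU
    rw [← hcm U, h, AddSubgroup.map_bot]
  have hind' : IndepOrbit G (U.comap f) := by
    intro F hF h0
    let e : MulAction.orbit G (U.comap f) ≃ MulAction.orbit H U :=
      { toFun := fun i => ⟨(i : AddSubgroup A).map f, by
          obtain ⟨_, g, rfl⟩ := i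
          refine ⟨φ g, ?_⟩
          change φ g • U = (g • U.comap f).map f
          rw [hsm, hcm]⟩
        invFun := fun j => ⟨(j : AddSubgroup V).comap f, by
          obtain ⟨_, h, rfl⟩ := j
          obtain ⟨g, rfl⟩ := hφ h
          refine ⟨g, ?_⟩
          change g • U.comap f = (φ g • U).comap f
          rw [← hmc (g • U.comap f), hsm, hcm]⟩
        left_inv := fun i => Subtype.ext (hmc _)
        right_inv := fun j => Subtype.ext (hcm _) }
    have h1 := hind (fun j => f (F (e.symm j))) (fun j => hF (e.symm j)) (by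
      rw [finsum_comp_equiv e.symm (f := fun i => f (F i)), ← map_finsum f (Set.toFinite _), h0,
        map_zero])
    intro i
    have h2 := h1 (e i)
    simp only [Equiv.symm_apply_apply] at h2
    exact hf.1 (by rw [h2, map_zero])
  have h3 := hP _ hU' hind'
  rw [← hcm U, h3, ← AddMonoidHom.range_eq_map]
  exact AddMonoidHom.range_eq_top.mpr hf.2

/-- the primitive case -/
theorem one_of_prim {C1 : ℕ} (h1 : ∀ (H V : Type u) [Group H] [Finite H] [AddCommGroup V]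
    [Finite V] [DistribMulAction H V] [Nontrivial V], Group.IsSolvable H → Prim H V →
    C1 ≤ Nat.card V → Nat.card V ≤ (orb H V) ^ 4 ∨ ∃ Z : Subgroup H, OneDim H V Z)
    {D : ℕ} (hD : C1 ≤ D) (hD4 : 4 ≤ D) (H V : Type u) [Group H] [Finite H] [AddCommGroup V]
    [Finite V] [DistribMulAction H V] [Nontrivial V] (hs : Group.IsSolvable H) (hP : Prim H V)
    (hlt : 2 ^ (D * (orb H V - 1)) < Nat.card V) : ∃ Z : Subgroup H, OneDim H V Z := by
  have h2 := two_le_orb H V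
  obtain ⟨n, hn⟩ : ∃ n, orb H V = n + 1 := ⟨orb H V - 1, by omega⟩
  have hn1 : 1 ≤ n := by omega
  rw [hn, Nat.add_sub_cancel] at hlt
  have h3 : C1 ≤ Nat.card V := by
    calc C1 ≤ D := hD
      _ ≤ 2 ^ D := Nat.lt_two_pow_self.le
      _ ≤ 2 ^ (D * n) := Nat.pow_le_pow_right (by omega) (Nat.le_mul_of_pos_right _ hn1)
      _ ≤ _ := hlt.le
  rcases h1 H V hs hP h3 with h4 | h4
  · exfalso
    rw [hn] at h4
    have h5 : (n + 1) ^ 4 ≤ 2 ^ (D * n) := by
      calc (n + 1) ^ 4 ≤ (2 ^ n) ^ 4 := Nat.pow_le_pow_left Nat.lt_two_pow_self 4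
        _ = 2 ^ (4 * n) := by rw [← pow_mul, mul_comm]
        _ ≤ 2 ^ (D * n) := Nat.pow_le_pow_right (by omega) (Nat.mul_le_mul_right _ hD4)
    omega
  · exact h4

/-- numbers for the imprimitive case -/
theorem num1 {n s lw K l Y D w : ℕ} (hY : 1 ≤ Y) (hl : 1 ≤ l) (hn : n ≤ Y) (hs : s ≤ Y)
    (hlw : lw ≤ Y) (hK : K ≤ l * n) (hw : w - 1 ≤ 2 * n * (lw ^ 2 * (s * K)))
    (hq : (Y * l + 2) ^ 20 ≤ 2 ^ D) (hDw : 2 ^ D < w) : False := by
  have hYq : Y ≤ Y * l + 2 := (Nat.le_mul_of_pos_right _ hl).trans (Nat.le_add_right _ _)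
  have hlq : l ≤ Y * l + 2 := (Nat.le_mul_of_pos_left _ hY).trans (Nat.le_add_right _ _)
  have h2q : 2 ≤ Y * l + 2 := Nat.le_add_left _ _
  set q := Y * l + 2 with hqdef
  have h1 : 2 * n * (lw ^ 2 * (s * K)) ≤ q ^ 7 := by
    calc 2 * n * (lw ^ 2 * (s * K)) ≤ q * q * (q ^ 2 * (q * (q * q))) := by
          have e1 : 2 * n ≤ q * q := Nat.mul_le_mul h2q (hn.trans hYq)
          have e2 : lw ^ 2 ≤ q ^ 2 := Nat.pow_le_pow_left (hlw.trans hYq) 2
          have e3 : K ≤ q * q := hK.trans (Nat.mul_le_mul hlq (hn.trans hYq))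
          have e4 : s * K ≤ q * (q * q) := Nat.mul_le_mul (hs.trans hYq) e3
          exact Nat.mul_le_mul e1 (Nat.mul_le_mul e2 e4)
      _ = q ^ 7 := by ring
  have h2 : q ^ 7 < q ^ 20 := Nat.pow_lt_pow_right (by omega) (by norm_num)
  omega

/-- existence of a one-dimensional structure -/
theorem exists_one {C1 : ℕ} (h1 : ∀ (H V : Type u) [Group H] [Finite H] [AddCommGroup V]
    [Finite V] [DistribMulAction H V] [Nontrivial V], Group.IsSolvable H → Prim H V →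
    C1 ≤ Nat.card V → Nat.card V ≤ (orb H V) ^ 4 ∨ ∃ Z : Subgroup H, OneDim H V Z)
    (h6 : SB6.{u}) (h7 : SB7.{u}) (h2b : SA2b.{u})
    (p l Y D : ℕ) [Fact p.Prime] (H V : Type u) [Group H] [Finite H]
    [AddCommGroup V] [Finite V] [DistribMulAction H V] (hs : Group.IsSolvable H)
    (hI : Irred H V) (hp : ∀ v : V, p • v = 0) (hl : 1 ≤ l) (hY : Nat.card V ≤ 2 ^ Y)
    (hq : (Y * l + 2) ^ 20 ≤ 2 ^ D) (hD : C1 ≤ D) (hD4 : 4 ≤ D)
    (hlt : 2 ^ (D * (orb H V - 1)) < Nat.card V) (hk : kappa p H V ≤ l * (orb H V - 1)) :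
    ∃ Z : Subgroup H, OneDim H V Z := by
  classical
  haveI := hI.1
  by_cases hP : Prim H V
  · exact one_of_prim h1 hD hD4 H V hs hP hlt
  exfalso
  obtain ⟨W, hft, B, hW0, hPW⟩ := h6 H V hI
  set i0 : MulAction.orbit H W := ⟨W, MulAction.mem_orbit_self W⟩ with hi0
  letI act := blockAct B i0
  have hcard := B.card_eq i0
  have horb := B.orb_le i0
  set s := Fintype.card (MulAction.orbit H W) with hsdef
  have hs1 : 1 ≤ s := Fintype.card_pos_iff.mpr ⟨i0⟩
  haveI hWn : Nontrivial ((i0 : AddSubgroup V)) := by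
    rw [AddSubgroup.nontrivial_iff_ne_bot]
    exact hW0
  have hw2 : 2 ≤ Nat.card (i0 : AddSubgroup V) := Finite.one_lt_card_iff_nontrivial.mpr hWn
  have horbW := two_le_orb (MulAction.stabilizer H i0) (i0 : AddSubgroup V)
  -- there are at least two blocks
  have hs2 : 2 ≤ s := by
    by_contra hcon
    have hs0 : s = 1 := by omega
    apply hP
    have hstab : ∀ h : H, h ∈ MulAction.stabilizer H i0 := by
      intro h
      rw [MulAction.mem_stabilizer_iff]
      exact Fintype.card_le_one_iff.mp (by rw [← hsdef, hs0]) _ _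
    have htop : (i0 : AddSubgroup V) = ⊤ := by
      apply AddSubgroup.eq_top_of_card_eq
      rw [hcard, hs0, pow_one]
    refine prim_transfer (MulAction.stabilizer H i0).subtype (fun h => ⟨⟨h, hstab h⟩, rfl⟩)
      (AddSubgroup.subtype (i0 : AddSubgroup V)) ⟨Subtype.val_injective, fun v => ⟨⟨v, ?_⟩, rfl⟩⟩
      (fun g a => rfl) hPW
    rw [htop]
    trivial
  -- numbers
  set w := Nat.card (i0 : AddSubgroup V) with hwdef
  obtain ⟨n, hn⟩ : ∃ n, orb H V = n + 1 := ⟨orb H V - 1, by have := two_le_orb H V; omega⟩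
  obtain ⟨m, hm⟩ : ∃ m, orb (MulAction.stabilizer H i0) (i0 : AddSubgroup V) = m + 1 :=
    ⟨orb (MulAction.stabilizer H i0) (i0 : AddSubgroup V) - 1, by omega⟩
  rw [hm, hn, Nat.add_sub_cancel] at horb
  rw [hn, Nat.add_sub_cancel] at hlt hk
  have hm1 : 1 ≤ m := by omega
  have hsm : s * m ≤ n := by omega
  have hlw : 2 ^ (D * m) < w := by
    have h8 : (2 ^ (D * m)) ^ s < w ^ s := by
      rw [← hcard]
      refine lt_of_le_of_lt ?_ hlt
      rw [← pow_mul]
      apply Nat.pow_le_pow_right (by norm_num)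
      calc D * m * s = D * (s * m) := by ring
        _ ≤ D * n := Nat.mul_le_mul_left _ hsm
    exact lt_of_pow_lt_pow_left' s h8
  have hDw : 2 ^ D < w := lt_of_le_of_lt
    (Nat.pow_le_pow_right (by norm_num) (Nat.le_mul_of_pos_right _ hm1)) hlw
  haveI := hs
  obtain ⟨Z, hZ⟩ := one_of_prim h1 hD hD4 (MulAction.stabilizer H i0) (i0 : AddSubgroup V)
    inferInstance hPW (by rw [hm, Nat.add_sub_cancel]; exact hlw)
  obtain ⟨v, hv0, hv⟩ := h7 p H V (MulAction.orbit H W) (fun i => (i : AddSubgroup V)) B i0 Z hp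
    hs2 hZ hw2
  rw [hn, Nat.add_sub_cancel] at hv
  have hD1 : 1 ≤ D := by omega
  have hn1 : 1 ≤ n := le_trans (Nat.mul_pos hs1 hm1) hsm
  have hnY : n ≤ Y := by
    have h9 : 2 ^ (D * n) < 2 ^ Y := lt_of_lt_of_le hlt hY
    have h10 := (Nat.pow_lt_pow_iff_right (by norm_num : 1 < 2)).mp h9
    have h11 : n ≤ D * n := Nat.le_mul_of_pos_left _ hD1
    omega
  have hsY : s ≤ Y := by
    have h9 : 2 ^ s ≤ 2 ^ Y := (Nat.pow_le_pow_left hw2 s).trans (by rw [← hcard]; exact hY)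
    exact (Nat.pow_le_pow_iff_right (by norm_num : 1 < 2)).mp h9
  have hwY : Nat.log 2 w ≤ Y := by
    have h9 : w ≤ 2 ^ Y := by
      refine le_trans ?_ hY
      rw [hcard]
      exact Nat.le_self_pow (by omega) _
    calc Nat.log 2 w ≤ Nat.log 2 (2 ^ Y) := Nat.log_mono_right h9
      _ = Y := Nat.log_pow (by norm_num) _
  exact num1 (by omega) hl hnY hsY hwY (((h2b p H V).2 v hv0).trans hk) hv hq hDw

/-- numbers for the order -/
theorem num2 {v n lg r k l Y D : ℕ} (hv : 2 ≤ v) (hY : 1 ≤ Y) (hl : 1 ≤ l) (hn : n ≤ Y)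
    (hlg : lg ≤ Y) (h1 : v - 1 ≤ n * (lg * r)) (h2 : r ≤ k * lg) (hk : k < 2 ^ l)
    (hq : (Y * l + 2) ^ 20 ≤ 2 ^ D) (hDv : 2 ^ D < v) : v ≤ 2 ^ (2 * l) := by
  have hYq : Y ≤ Y * l + 2 := (Nat.le_mul_of_pos_right _ hl).trans (Nat.le_add_right _ _)
  have h2q : 2 ≤ Y * l + 2 := Nat.le_add_left _ _
  set q := Y * l + 2 with hqdef
  by_contra hcon
  rw [not_le] at hcon
  have e1 : v - 1 ≤ q ^ 3 * 2 ^ l := by
    calc v - 1 ≤ n * (lg * r) := h1
      _ ≤ Y * (Y * (2 ^ l * Y)) := Nat.mul_le_mul hn (Nat.mul_le_mul hlg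
          (h2.trans (Nat.mul_le_mul hk.le hlg)))
      _ = Y ^ 3 * 2 ^ l := by ring
      _ ≤ q ^ 3 * 2 ^ l := Nat.mul_le_mul_right _ (Nat.pow_le_pow_left hYq 3)
  have e2 : v ≤ q ^ 4 * 2 ^ l := by
    have e3 : 1 ≤ q ^ 3 * 2 ^ l := Nat.mul_pos (by positivity) (by positivity)
    calc v ≤ 2 * (q ^ 3 * 2 ^ l) := by omega
      _ ≤ q * (q ^ 3 * 2 ^ l) := Nat.mul_le_mul_right _ h2q
      _ = q ^ 4 * 2 ^ l := by ring
  have e4 : (q ^ 4 * 2 ^ l) ^ 2 < v * v := by
    calc (q ^ 4 * 2 ^ l) ^ 2 = q ^ 8 * 2 ^ (2 * l) := by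
          rw [mul_pow, ← pow_mul, ← pow_mul, mul_comm l 2]
      _ ≤ q ^ 20 * 2 ^ (2 * l) := Nat.mul_le_mul_right _
          (Nat.pow_le_pow_right (by omega) (by norm_num))
      _ ≤ v * 2 ^ (2 * l) := Nat.mul_le_mul_right _ (hq.trans hDv.le)
      _ < v * v := Nat.mul_lt_mul_of_pos_left hcon (by omega)
  have e5 : v * v ≤ (q ^ 4 * 2 ^ l) ^ 2 := by
    rw [pow_two]
    exact Nat.mul_le_mul e2 e2
  omega

/-- numbers for the commutators -/
theorem num3 {v n lg r l Y D c N : ℕ} (hv : 2 ≤ v) (hY : 1 ≤ Y) (hl : 1 ≤ l) (hn : n ≤ Y)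
    (hlg : lg ≤ Y) (h1 : v - 1 ≤ n * (lg * r)) (hc : c ^ 2 ≤ v * N ^ 2)
    (hq : (Y * l + 2) ^ 20 ≤ 2 ^ D) (hDv : 2 ^ D < v) : (Y * l + 2) ^ 4 * c ≤ N * r := by
  have hYq : Y ≤ Y * l + 2 := (Nat.le_mul_of_pos_right _ hl).trans (Nat.le_add_right _ _)
  have h2q : 2 ≤ Y * l + 2 := Nat.le_add_left _ _
  set q := Y * l + 2 with hqdef
  have e1 : v ≤ q ^ 3 * r := by
    have e0 : v - 1 ≤ q ^ 2 * r := by
      calc v - 1 ≤ n * (lg * r) := h1
        _ ≤ q * (q * r) := Nat.mul_le_mul (hn.trans hYq) (Nat.mul_le_mul_right _ (hlg.trans hYq))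
        _ = q ^ 2 * r := by ring
    calc v ≤ 2 * (q ^ 2 * r) := by omega
      _ ≤ q * (q ^ 2 * r) := Nat.mul_le_mul_right _ h2q
      _ = q ^ 3 * r := by ring
  -- `q ^ 8 * v ≤ r ^ 2`
  have hv14 : q ^ 14 ≤ v := by
    calc q ^ 14 ≤ q ^ 20 := Nat.pow_le_pow_right (by omega) (by norm_num)
      _ ≤ v := hq.trans hDv.le
  have e2 : q ^ 6 * (q ^ 8 * v) ≤ q ^ 6 * r ^ 2 := by
    calc q ^ 6 * (q ^ 8 * v) = q ^ 14 * v := by ring
      _ ≤ v * v := Nat.mul_le_mul_right _ hv14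
      _ ≤ (q ^ 3 * r) * (q ^ 3 * r) := Nat.mul_le_mul e1 e1
      _ = q ^ 6 * r ^ 2 := by ring
  have e3 : q ^ 8 * v ≤ r ^ 2 := Nat.le_of_mul_le_mul_left e2 (by positivity)
  have e4 : (q ^ 4 * c) ^ 2 ≤ (N * r) ^ 2 := by
    calc (q ^ 4 * c) ^ 2 = q ^ 8 * c ^ 2 := by ring
      _ ≤ q ^ 8 * (v * N ^ 2) := Nat.mul_le_mul_left _ hc
      _ = N ^ 2 * (q ^ 8 * v) := by ring
      _ ≤ N ^ 2 * r ^ 2 := Nat.mul_le_mul_left _ e3
      _ = (N * r) ^ 2 := by ring
  exact (Nat.pow_le_pow_iff_left (by norm_num)).mp e4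

end B8

theorem b8 (h1 : SB1.{u}) (h2 : SB2.{u}) (h6 : SB6.{u}) (h7 : SB7.{u}) (h2b : SA2b.{u}) :
    SB8.{u} := by
  classical
  obtain ⟨C1, h1⟩ := h1
  refine ⟨max C1 100, ?_⟩
  intro p l Y D _ H V _ _ _ _ _ hs hI hp hkc hY hq hD hlt hk
  haveI := hI.1
  have hD1 : C1 ≤ D := le_trans (le_max_left _ _) hD
  have hD100 : 100 ≤ D := le_trans (le_max_right _ _) hD
  have hl : 1 ≤ l := by
    rcases Nat.eq_zero_or_pos l with h | h
    · exfalso
      rw [h, pow_zero] at hkc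
      have : 0 < kc H := Nat.card_pos
      omega
    · exact h
  obtain ⟨Z, hZ⟩ := B8.exists_one h1 h6 h7 h2b p l Y D H V hs hI hp hl hY hq hD1 (by omega) hlt hk
  obtain ⟨g1, g2, g3, g4⟩ := h2 H V Z hZ
  obtain ⟨n, hn⟩ : ∃ n, orb H V = n + 1 := ⟨orb H V - 1, by have := two_le_orb H V; omega⟩
  have hn1 : 1 ≤ n := by have := two_le_orb H V; omega
  rw [hn, Nat.add_sub_cancel] at g1 hlt hk
  have hv2 : 2 ≤ Nat.card V := Finite.one_lt_card_iff_nontrivial.mpr hI.1
  have hDn : D * n ≤ Nat.log 2 (Nat.card V) := by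
    have := Nat.log_mono_right (b := 2) hlt.le
    rwa [Nat.log_pow (by norm_num)] at this
  have hlgY : Nat.log 2 (Nat.card V) ≤ Y := by
    calc Nat.log 2 (Nat.card V) ≤ Nat.log 2 (2 ^ Y) := Nat.log_mono_right hY
      _ = Y := Nat.log_pow (by norm_num) _
  have hnDn : n ≤ D * n := Nat.le_mul_of_pos_left _ (by omega)
  have hnY : n ≤ Y := by omega
  have hY1 : 1 ≤ Y := by omega
  have hDv : 2 ^ D < Nat.card V := lt_of_le_of_lt
    (Nat.pow_le_pow_right (by norm_num) (Nat.le_mul_of_pos_right _ hn1)) hlt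
  have hvl : Nat.card V ≤ 2 ^ (2 * l) :=
    B8.num2 hv2 hY1 hl hnY hlgY g1 g2 hkc hq hDv
  have hlg2 : Nat.log 2 (Nat.card V) ≤ 2 * l := by
    calc Nat.log 2 (Nat.card V) ≤ Nat.log 2 (2 ^ (2 * l)) := Nat.log_mono_right hvl
      _ = 2 * l := Nat.log_pow (by norm_num) _
  refine ⟨hvl, Z, ?_⟩
  exact
    { nN := by
        refine ⟨fun x hx g v => ?_⟩
        rw [mul_smul, mul_smul, hx (g⁻¹ • v), smul_inv_smul]
      nZ := hZ.nZ
      le := hZ.ker
      cyc := hZ.cyc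
      cop := by
        rw [Nat.coprime_comm, Nat.Prime.coprime_iff_not_dvd Fact.out]
        intro hpr
        have h3 : p ∣ Nat.card V - 1 := hpr.trans g3
        obtain ⟨v, hv⟩ := exists_ne (0 : V)
        have h4 : p ∣ Nat.card V := by
          have h5 := addOrderOf_dvd_natCard v
          rwa [addOrderOf_eq_prime (hp v) hv] at h5
        have h6 : p ∣ 1 := by
          have h7 := Nat.dvd_sub h4 h3
          rwa [Nat.sub_sub_self (by omega)] at h7
        exact (Fact.out : p.Prime).one_lt.ne' (Nat.dvd_one.mp h6)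
      idx := hZ.idx.trans hlg2
      big := by
        intro x hx
        have h3 : Nat.card Z = Nat.card (aker H V) * (aker H V).relIndex Z := by
          have h5 := Subgroup.relIndex_mul_relIndex ⊥ (aker H V) Z bot_le hZ.ker
          rw [Subgroup.relIndex_bot_left, Subgroup.relIndex_bot_left] at h5
          exact h5.symm
        rw [h3]
        exact B8.num3 hv2 hY1 hl hnY hlgY g1 (hZ.small x hx) hq hDv
      ne := by
        obtain ⟨v, hv⟩ := exists_ne (0 : V)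
        exact ⟨_, v, hv, rfl⟩
      stN := by
        rintro _ ⟨v, hv, rfl⟩ x hx
        exact hx v
      stZ := by
        rintro _ ⟨v, hv, rfl⟩
        exact (g4 v hv).le
      stB := by
        rintro _ ⟨v, hv, rfl⟩
        calc kp p (MulAction.stabilizer H v) ≤ kappa p H V := (h2b p H V).2 v hv
          _ ≤ l * n := hk
          _ ≤ l * (2 * l) := Nat.mul_le_mul_left _ (by omega)
          _ = 2 * l ^ 2 := by ring }

end H48.CN
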