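import Pool.Agent.H48.CN.Stm

/-!
Class numbers of finite solvable groups: Lemma R for two kernels.
-/

namespace H48.CN

open H60.KG MulAction

universe u

theorem LevData.comm {p L M B : ℕ} {H : Type*} [Group H] {N Z : Subgroup H}
    {S : Set (Subgroup H)} (h : LevData p L M B N Z S) {x y : H} (hx : x ∈ Z) (hy : y ∈ Z) :
    x * y * x⁻¹ * y⁻¹ ∈ N := by
  haveI := h.nN
  obtain ⟨z0, _, hz⟩ := h.cyc
  obtain ⟨n, hn⟩ := hz x hx
  obtain ⟨m, hm⟩ := hz y hy
  have e1 : (QuotientGroup.mk x : H ⧸ N) = (QuotientGroup.mk z0) ^ n := by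
    have := (QuotientGroup.eq_one_iff _).2 hn
    rw [QuotientGroup.mk_mul, QuotientGroup.mk_inv, mul_inv_eq_one] at this
    rw [← this]; rfl
  have e2 : (QuotientGroup.mk y : H ⧸ N) = (QuotientGroup.mk z0) ^ m := by
    have := (QuotientGroup.eq_one_iff _).2 hm
    rw [QuotientGroup.mk_mul, QuotientGroup.mk_inv, mul_inv_eq_one] at this
    rw [← this]; rfl
  rw [← QuotientGroup.eq_one_iff]
  rw [QuotientGroup.mk_mul, QuotientGroup.mk_mul, QuotientGroup.mk_mul, QuotientGroup.mk_inv,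
    QuotientGroup.mk_inv, e1, e2, ← pow_add, add_comm, pow_add, mul_inv_cancel_right,
    mul_inv_cancel]

theorem c1_kp_pos (p : ℕ) (G : Type*) [Group G] [Finite G] : 1 ≤ kp p G := by
  unfold kp
  haveI : Nonempty {c : ConjClasses G // ∃ g : G, ConjClasses.mk g = c ∧
      (orderOf g).Coprime p} := ⟨⟨ConjClasses.mk 1, 1, rfl, by
    rw [orderOf_one]; exact Nat.coprime_one_left p⟩⟩
  exact Nat.card_pos

theorem c1_rel {H : Type*} [Group H] [Finite H] (Z X : Subgroup H) {L : ℕ} (hL : Z.index ≤ L) :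
    Z.relIndex X ≤ L := by
  refine le_trans ?_ hL
  rw [← Subgroup.relIndex_top_right]
  exact Subgroup.relIndex_le_of_le_right le_top (by
    rw [Subgroup.relIndex_top_right]; exact Subgroup.index_ne_zero_of_finite)

theorem c1_dvd {H : Type*} [Group H] [Finite H] (N : Subgroup H) [N.Normal] {K L : Subgroup H}
    (h : K ≤ L) : N.relIndex K ∣ N.relIndex L := by
  have e : (QuotientGroup.mk' N).ker = N := QuotientGroup.ker_mk' N
  have h1 := Subgroup.relIndex_ker K (QuotientGroup.mk' N)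
  have h2 := Subgroup.relIndex_ker L (QuotientGroup.mk' N)
  rw [e] at h1 h2
  rw [h1, h2]
  exact Subgroup.card_dvd_of_le (Subgroup.map_mono h)

/-- (1) -/
theorem c1_kp (h1 : SA1a.{u}) {p L M B : ℕ} {H : Type u} [Group H] [Finite H] {N Z : Subgroup H}
    {S : Set (Subgroup H)} (h : LevData p L M B N Z S) : kp p N ≤ L * B := by
  obtain ⟨X, hX⟩ := h.ne
  have hNX := h.stN X hX
  have e1 := h1 p N X (Subgroup.inclusion hNX) (Subgroup.inclusion_injective hNX)
  have e2 : N.relIndex X ≤ L := by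
    have : N ⊓ X = Z ⊓ X := by
      refine le_antisymm (inf_le_inf_right _ h.le) (le_inf ?_ inf_le_right)
      rw [inf_comm]
      exact h.stZ X hX
    rw [← Subgroup.inf_relIndex_right, this, Subgroup.inf_relIndex_right]
    exact c1_rel Z X h.idx
  have e3 : Nat.card X = Nat.card N * N.relIndex X := by
    have := Subgroup.card_mul_index (N.subgroupOf X)
    rw [← this, Nat.card_congr (Subgroup.subgroupOfEquivOfLe hNX).toEquiv]
    rfl
  have e4 := h.stB X hX
  have hpos : 0 < Nat.card N := Nat.card_pos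
  have : kp p N * Nat.card N ≤ (L * B) * Nat.card N := by
    calc kp p N * Nat.card N ≤ kp p X * Nat.card X := e1
      _ ≤ B * (Nat.card N * L) := by
          rw [e3]
          exact Nat.mul_le_mul e4 (Nat.mul_le_mul_left _ e2)
      _ = (L * B) * Nat.card N := by ring
  exact Nat.le_of_mul_le_mul_right this hpos

/-- the homomorphism `z ↦ [x, z]` modulo `N` -/
def c1_hom {p L M B : ℕ} {H : Type*} [Group H] {N Z : Subgroup H} [N.Normal]
    {S : Set (Subgroup H)} (h : LevData p L M B N Z S) (x : H) : Z →* H ⧸ N where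
  toFun := fun z => QuotientGroup.mk (x * z * x⁻¹ * (z : H)⁻¹)
  map_one' := by simp
  map_mul' := by
    intro z w
    have hx : x * w * x⁻¹ * (w : H)⁻¹ ∈ Z :=
      Z.mul_mem (h.nZ.conj_mem _ w.2 x) (Z.inv_mem w.2)
    have hc := h.comm z.2 hx
    rw [← QuotientGroup.eq_one_iff] at hc
    simp only [QuotientGroup.mk_mul, QuotientGroup.mk_inv, Subgroup.coe_mul] at hc ⊢
    generalize (QuotientGroup.mk x : H ⧸ N) = a at hc ⊢
    generalize (QuotientGroup.mk (z : H) : H ⧸ N) = b at hc ⊢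
    generalize (QuotientGroup.mk (w : H) : H ⧸ N) = c at hc ⊢
    have e1 : b * (a * c * a⁻¹ * c⁻¹) = (a * c * a⁻¹ * c⁻¹) * b := by
      rw [mul_inv_eq_one, mul_inv_eq_iff_eq_mul] at hc
      exact hc
    have e2 : b⁻¹ * (a * c * a⁻¹ * c⁻¹) = (a * c * a⁻¹ * c⁻¹) * b⁻¹ :=
      (Commute.inv_left e1 : _)
    calc a * (b * c) * a⁻¹ * (b * c)⁻¹ = a * b * a⁻¹ * ((a * c * a⁻¹ * c⁻¹) * b⁻¹) := by group
      _ = a * b * a⁻¹ * (b⁻¹ * (a * c * a⁻¹ * c⁻¹)) := by rw [e2]
      _ = _ := by group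

/-- (2) -/
theorem c1_le (h1 : SA1a.{u}) (h1c : SA1c.{u}) {p L M B : ℕ} [Fact p.Prime] {H : Type u}
    [Group H] [Finite H] {N Z N' Z' : Subgroup H} {S S' : Set (Subgroup H)}
    (h : LevData p L M B N Z S) (h' : LevData p L M B N' Z' S') (hM : L * (L * B) < M) :
    N ≤ Z' := by
  intro x hx
  by_contra hxZ
  haveI := h.nN
  haveI := h'.nN
  haveI := h'.nZ
  have hb := h'.big x hxZ
  have hcard : Nat.card {z : H // z ∈ Z' ∧ x * z * x⁻¹ * z⁻¹ ∈ N'} =
      Nat.card (c1_hom h' x).ker := by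
    refine Nat.card_congr ⟨fun z => ⟨⟨z.1, z.2.1⟩, ?_⟩, fun z => ⟨z.1.1, z.1.2, ?_⟩,
      fun z => rfl, fun z => rfl⟩
    · rw [MonoidHom.mem_ker]
      exact (QuotientGroup.eq_one_iff _).2 z.2.2
    · have := z.2
      rw [MonoidHom.mem_ker] at this
      exact (QuotientGroup.eq_one_iff _).1 this
  rw [hcard] at hb
  have e1 := Subgroup.card_mul_index (c1_hom h' x).ker
  rw [Subgroup.index_ker] at e1
  rw [← e1, mul_comm] at hb
  have hpos : 0 < Nat.card (c1_hom h' x).ker := Nat.card_pos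
  have hM2 : M ≤ Nat.card (c1_hom h' x).range := Nat.le_of_mul_le_mul_left hb hpos
  have hle : (c1_hom h' x).range ≤ (Z' ⊓ N).map (QuotientGroup.mk' N') := by
    rintro _ ⟨z, rfl⟩
    refine ⟨x * z * x⁻¹ * (z : H)⁻¹, ⟨?_, ?_⟩, rfl⟩
    · exact Z'.mul_mem (h'.nZ.conj_mem _ z.2 x) (Z'.inv_mem z.2)
    · have := N.mul_mem hx (h.nN.conj_mem _ (N.inv_mem hx) z)
      have e : x * (z * x⁻¹ * (z : H)⁻¹) = x * z * x⁻¹ * (z : H)⁻¹ := by group
      rw [← e]
      exact this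
  have hM3 : M ≤ N'.relIndex (Z' ⊓ N) := by
    have h2 := Subgroup.relIndex_ker (Z' ⊓ N) (QuotientGroup.mk' N')
    rw [QuotientGroup.ker_mk'] at h2
    rw [h2]
    exact hM2.trans (Nat.le_of_dvd Nat.card_pos (Subgroup.card_dvd_of_le hle))
  have hrel : (N'.subgroupOf N).relIndex (Z'.subgroupOf N) = N'.relIndex (Z' ⊓ N) := by
    rw [← Subgroup.inf_subgroupOf_right Z' N, Subgroup.relIndex_subgroupOf inf_le_right]
  have e5 := h1c p L N (N'.subgroupOf N) (Z'.subgroupOf N) (Z'.subgroupOf N)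
    (fun y hy => h'.le hy)
    (by
      rw [hrel]
      exact Nat.Coprime.coprime_dvd_left (c1_dvd N' inf_le_left) h'.cop)
    (c1_rel Z' N h'.idx)
    (fun z hz a ha => h'.comm hz ha)
  rw [hrel] at e5
  have e6 := c1_kp h1 h
  have : M ≤ L * (L * B) := hM3.trans (e5.trans (Nat.mul_le_mul_left _ e6))
  omega

/-- (4) -/
theorem c1_eq (h1 : SA1a.{u}) {p L M B : ℕ} {H : Type u}
    [Group H] [Finite H] {N Z Z' : Subgroup H} {S S' : Set (Subgroup H)}
    (h : LevData p L M B N Z S) (h' : LevData p L M B N Z' S') (hM : L * (L * B) < M) :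
    Z' ≤ Z := by
  intro z hz
  by_contra hzZ
  have hb := h.big z hzZ
  have hsub : Nat.card (Z' ⊓ Z : Subgroup H) ≤
      Nat.card {y : H // y ∈ Z ∧ z * y * z⁻¹ * y⁻¹ ∈ N} := by
    refine Nat.card_le_card_of_injective
      (fun y : (Z' ⊓ Z : Subgroup H) => (⟨y.1, y.2.2, h'.comm hz y.2.1⟩ :
        {y : H // y ∈ Z ∧ z * y * z⁻¹ * y⁻¹ ∈ N})) ?_
    intro y y' hy
    exact Subtype.ext (congrArg (fun t => t.1) hy)
  have e3 : Nat.card Z = Nat.card (Z' ⊓ Z : Subgroup H) * Z'.relIndex Z := by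
    have := Subgroup.card_mul_index ((Z' ⊓ Z).subgroupOf Z)
    rw [← this, Nat.card_congr (Subgroup.subgroupOfEquivOfLe inf_le_right).toEquiv,
      Subgroup.inf_subgroupOf_right]
    rfl
  have hrel := c1_rel Z' Z h'.idx
  have hpos : 0 < Nat.card (Z' ⊓ Z : Subgroup H) := Nat.card_pos
  have e4 : M * Nat.card (Z' ⊓ Z : Subgroup H) ≤ L * Nat.card (Z' ⊓ Z : Subgroup H) := by
    calc M * Nat.card (Z' ⊓ Z : Subgroup H) ≤
        M * Nat.card {y : H // y ∈ Z ∧ z * y * z⁻¹ * y⁻¹ ∈ N} := Nat.mul_le_mul_left _ hsub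
      _ ≤ Nat.card Z := hb
      _ ≤ L * Nat.card (Z' ⊓ Z : Subgroup H) := by
          rw [e3, mul_comm]
          exact Nat.mul_le_mul_right _ hrel
  have e5 : M ≤ L := Nat.le_of_mul_le_mul_right e4 hpos
  have e6 := c1_kp h1 h
  have e7 := c1_kp_pos p N
  have e8 : L * 1 ≤ L * (L * B) := Nat.mul_le_mul_left _ (e7.trans e6)
  omega

theorem c1 (h1 : SA1a.{u}) (h1c : SA1c.{u}) (h1b : SA1b.{u}) : SC1.{u} := by
  intro p L M B _ H _ _ N Z N' Z' S S' h h' hM
  haveI := h.nN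
  haveI := h'.nN
  have hle := c1_le h1 h1c h h' hM
  refine ⟨c1_kp h1 h, hle, ?_, ?_⟩
  · rw [Subgroup.inf_relIndex_left]
    have e := h1c p 1 N (N'.subgroupOf N) ⊤ ⊤ le_top
      (by
        rw [Subgroup.relIndex_top_right]
        exact Nat.Coprime.coprime_dvd_left (c1_dvd N' hle) h'.cop)
      (by rw [Subgroup.index_top])
      (fun z _ a _ => h'.comm (hle z.2) (hle a.2))
    rw [Subgroup.relIndex_top_right, one_mul] at e
    exact e.trans (c1_kp h1 h)
  · rintro rfl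
    exact le_antisymm (c1_eq h1 h' h hM) (c1_eq h1 h h' hM)

end H48.CN
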