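import Pool.Agent.H48.CN.C1

/-!
Class numbers of finite solvable groups: the number of kernels.
-/

namespace H48.CN

open H60.KG MulAction

universe u

theorem c2_mono {n m : ℕ} (h : n ≤ m) : n ^ (Nat.log 2 n + 1) ≤ m ^ (Nat.log 2 m + 1) := by
  rcases Nat.eq_zero_or_pos n with rfl | hn
  · rw [zero_pow (Nat.succ_ne_zero _)]
    exact Nat.zero_le _
  · calc n ^ (Nat.log 2 n + 1) ≤ m ^ (Nat.log 2 n + 1) := Nat.pow_le_pow_left h _
      _ ≤ m ^ (Nat.log 2 m + 1) :=
        Nat.pow_le_pow_right (lt_of_lt_of_le hn h) (Nat.succ_le_succ (Nat.log_mono_right h))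

/-- an abelian group of order prime to `p` -/
theorem c2_kp (p : ℕ) (K : Type*) [Group K] [Finite K] (hc : ∀ x y : K, x * y = y * x)
    (hp : (Nat.card K).Coprime p) : Nat.card K ≤ kp p K := by
  unfold kp
  refine Nat.card_le_card_of_injective (fun x : K => (⟨ConjClasses.mk x, x, rfl,
    Nat.Coprime.coprime_dvd_left (orderOf_dvd_natCard x) hp⟩ :
    {c : ConjClasses K // ∃ g : K, ConjClasses.mk g = c ∧ (orderOf g).Coprime p})) ?_
  intro x y hxy
  have h1 : ConjClasses.mk x = ConjClasses.mk y := congrArg Subtype.val hxy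
  rw [ConjClasses.mk_eq_mk_iff_isConj, isConj_iff] at h1
  obtain ⟨c, hcx⟩ := h1
  rw [hc c x, mul_inv_cancel_right] at hcx
  exact hcx

theorem c2_index (h1b : SA1b.{u}) {p C : ℕ} [Fact p.Prime] {H : Type u} [Group H] [Finite H]
    (N0 D : Subgroup H) [D.Normal] (hD : D ≤ N0) (hcomm : ∀ x ∈ N0, ∀ y ∈ N0, x * y * x⁻¹ * y⁻¹ ∈ D)
    (hcop : ∀ x ∈ N0, x ^ p ∈ D → x ∈ D) (hk : kp p N0 ≤ C) : D.relIndex N0 ≤ C := by
  have e1 : Nat.card (N0 ⧸ D.subgroupOf N0) ≤ kp p (N0 ⧸ D.subgroupOf N0) := by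
    refine c2_kp p _ ?_ ?_
    · intro x y
      obtain ⟨x, rfl⟩ := QuotientGroup.mk_surjective x
      obtain ⟨y, rfl⟩ := QuotientGroup.mk_surjective y
      rw [← QuotientGroup.mk_mul, ← QuotientGroup.mk_mul, QuotientGroup.eq]
      have := hcomm _ (N0.inv_mem y.2) _ (N0.inv_mem x.2)
      rw [inv_inv, inv_inv] at this
      change ((x * y)⁻¹ * (y * x) : N0).1 ∈ D
      have e : ((x * y)⁻¹ * (y * x) : N0).1 = (y : H)⁻¹ * (x : H)⁻¹ * y * x := by
        simp [mul_assoc]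
      rw [e]
      exact this
    · rw [Nat.coprime_comm, Nat.Prime.coprime_iff_not_dvd (Fact.out : p.Prime)]
      intro hdvd
      obtain ⟨x, hx⟩ := exists_prime_orderOf_dvd_card' p hdvd
      obtain ⟨x, rfl⟩ := QuotientGroup.mk_surjective x
      have e2 : x ^ p ∈ D.subgroupOf N0 := by
        rw [← QuotientGroup.eq_one_iff, QuotientGroup.mk_pow, ← hx]
        exact pow_orderOf_eq_one _
      have e3 : (x : H) ∈ D := hcop x x.2 (by
        have : ((x ^ p : N0) : H) ∈ D := e2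
        rwa [Subgroup.coe_pow] at this)
      have e4 : (QuotientGroup.mk x : N0 ⧸ D.subgroupOf N0) = 1 :=
        (QuotientGroup.eq_one_iff _).2 e3
      rw [e4, orderOf_one] at hx
      exact (Fact.out : p.Prime).one_lt.ne hx
  exact (e1.trans (h1b p N0 (N0 ⧸ D.subgroupOf N0) (QuotientGroup.mk' _)
    (QuotientGroup.mk'_surjective _)).1).trans hk

/-- subgroups between `N` and `Z` with `Z / N` cyclic are determined by their index -/
theorem c2_unique {H : Type*} [Group H] [Finite H] (N Z : Subgroup H) [N.Normal]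
    (hcyc : ∃ z0 ∈ Z, ∀ z ∈ Z, ∃ n : ℕ, z0 ^ n * z⁻¹ ∈ N) {E E' : Subgroup H} (h1 : N ≤ E)
    (h2 : E ≤ Z) (h1' : N ≤ E') (h2' : E' ≤ Z) (he : N.relIndex E = N.relIndex E') : E = E' := by
  classical
  haveI : IsCyclic (Z.map (QuotientGroup.mk' N)) := by
    obtain ⟨z0, hz0, hz⟩ := hcyc
    refine ⟨⟨⟨(z0 : H ⧸ N), z0, hz0, rfl⟩, ?_⟩⟩
    rintro ⟨_, z, hzZ, rfl⟩
    obtain ⟨n, hn⟩ := hz z hzZ
    refine ⟨n, Subtype.ext ?_⟩
    have := (QuotientGroup.eq_one_iff _).2 hn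
    rw [QuotientGroup.mk_mul, QuotientGroup.mk_inv, mul_inv_eq_one, QuotientGroup.mk_pow] at this
    rw [SubgroupClass.coe_zpow, zpow_natCast]
    exact this
  haveI : Fintype (Z.map (QuotientGroup.mk' N)) := Fintype.ofFinite _
  have key : ∀ F : Subgroup H, N ≤ F → F ≤ Z → ∀ q : (Z.map (QuotientGroup.mk' N)),
      q.1 ∈ F.map (QuotientGroup.mk' N) ↔ q ^ (N.relIndex F) = 1 := by
    intro F hNF hFZ
    set o := N.relIndex F with ho
    have hc : Nat.card (F.map (QuotientGroup.mk' N)) = o := by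
      rw [ho]
      have := Subgroup.relIndex_ker F (QuotientGroup.mk' N)
      rw [QuotientGroup.ker_mk'] at this
      exact this.symm
    have ho0 : 0 < o := by rw [← hc]; exact Nat.card_pos
    have hle : F.map (QuotientGroup.mk' N) ≤ Z.map (QuotientGroup.mk' N) := Subgroup.map_mono hFZ
    set A : Finset (Z.map (QuotientGroup.mk' N)) :=
      Finset.univ.filter (fun q => q.1 ∈ F.map (QuotientGroup.mk' N)) with hA
    set B : Finset (Z.map (QuotientGroup.mk' N)) :=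
      Finset.univ.filter (fun q => q ^ o = 1) with hB
    have hAB : A ⊆ B := by
      intro q hq
      rw [hA, Finset.mem_filter] at hq
      rw [hB, Finset.mem_filter]
      refine ⟨Finset.mem_univ _, Subtype.ext ?_⟩
      have h3 : (⟨q.1, hq.2⟩ : F.map (QuotientGroup.mk' N)) ^ o = 1 := by
        rw [← hc]; exact pow_card_eq_one'
      have h4 : ((⟨q.1, hq.2⟩ : F.map (QuotientGroup.mk' N)) ^ o).1 = 1 := by rw [h3]; rfl
      exact h4
    have hAc : A.card = o := by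
      rw [← hc, Nat.card_congr (Subgroup.subgroupOfEquivOfLe hle).toEquiv.symm,
        Nat.card_eq_fintype_card, Fintype.card_subtype]
      rfl
    have hBc : B.card ≤ o := IsCyclic.card_pow_eq_one_le ho0
    have hAB' : A = B := Finset.eq_of_subset_of_card_le hAB (by omega)
    intro q
    have h4 : q ∈ A ↔ q ∈ B := by rw [hAB']
    rw [hA, hB, Finset.mem_filter, Finset.mem_filter] at h4
    simpa using h4
  have h5 : E.map (QuotientGroup.mk' N) = E'.map (QuotientGroup.mk' N) := by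
    ext q
    constructor
    · intro hq
      have hqZ := Subgroup.map_mono (f := QuotientGroup.mk' N) h2 hq
      have := (key E h1 h2 ⟨q, hqZ⟩).1 hq
      rw [he] at this
      exact (key E' h1' h2' ⟨q, hqZ⟩).2 this
    · intro hq
      have hqZ := Subgroup.map_mono (f := QuotientGroup.mk' N) h2' hq
      have := (key E' h1' h2' ⟨q, hqZ⟩).1 hq
      rw [← he] at this
      exact (key E h1 h2 ⟨q, hqZ⟩).2 this
  have h6 := congrArg (Subgroup.comap (QuotientGroup.mk' N)) h5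
  rw [QuotientGroup.comap_map_mk', QuotientGroup.comap_map_mk', sup_eq_right.2 h1,
    sup_eq_right.2 h1'] at h6
  exact h6

theorem c2 (h1 : SC1.{u}) (h2a : SC2a.{u}) (h1b : SA1b.{u}) : SC2.{u} := by
  intro p L M B _ H _ _ κ N Z S hd hM
  classical
  rcases isEmpty_or_nonempty κ with hκ | ⟨⟨t0⟩⟩
  · rw [Set.range_eq_empty, Set.ncard_empty]
    exact Nat.zero_le _
  set C := L * B with hC
  haveI hn : ∀ t, (N t).Normal := fun t => (hd t).nN
  have hle0 : ∀ t, N t ≤ Z t0 := fun t => (h1 p L M B H _ _ _ _ _ _ (hd t) (hd t0) hM).2.1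
  have hle1 : ∀ t, N t0 ≤ Z t := fun t => (h1 p L M B H _ _ _ _ _ _ (hd t0) (hd t) hM).2.1
  have hi0 : ∀ t, (N t0 ⊓ N t).relIndex (N t0) ≤ C := fun t =>
    (h1 p L M B H _ _ _ _ _ _ (hd t0) (hd t) hM).2.2.1
  have hi1 : ∀ t, (N t0).relIndex (N t) ≤ C := fun t => by
    have := (h1 p L M B H _ _ _ _ _ _ (hd t) (hd t0) hM).2.2.1
    rwa [Subgroup.inf_relIndex_left] at this
  have hkp : kp p (N t0) ≤ C := (h1 p L M B H _ _ _ _ _ _ (hd t0) (hd t0) hM).1
  -- the intersection of all kernels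
  set D0 : Subgroup H := ⨅ t, (N t0 ⊓ N t) with hD0
  haveI : D0.Normal := Subgroup.normal_iInf_normal (fun t => Subgroup.normal_inf_normal _ _)
  have hD0le : ∀ t, D0 ≤ N t0 ⊓ N t := fun t => iInf_le _ t
  have hrel : D0.relIndex (N t0) ≤ C := by
    refine c2_index h1b (N t0) D0 ((hD0le t0).trans inf_le_left) ?_ ?_ hkp
    · intro x hx y hy
      rw [hD0, Subgroup.mem_iInf]
      intro t
      exact ⟨(N t0).mul_mem ((N t0).mul_mem ((N t0).mul_mem hx hy) ((N t0).inv_mem hx))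
        ((N t0).inv_mem hy), (hd t).comm (hle1 t hx) (hle1 t hy)⟩
    · intro x hx hxp
      rw [hD0, Subgroup.mem_iInf]
      intro t
      refine ⟨hx, ?_⟩
      have h3 : x ^ p ∈ N t := (hD0le t hxp).2
      by_contra hxN
      have h4 : orderOf (QuotientGroup.mk x : H ⧸ N t) = p := by
        refine orderOf_eq_prime ?_ ?_
        · rw [← QuotientGroup.mk_pow]; exact (QuotientGroup.eq_one_iff _).2 h3
        · intro h5; exact hxN ((QuotientGroup.eq_one_iff _).1 h5)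
      have h6 : p ∣ (N t).relIndex (Z t) := by
        have h7 := Subgroup.relIndex_ker (Z t) (QuotientGroup.mk' (N t))
        rw [QuotientGroup.ker_mk'] at h7
        rw [h7, ← h4]
        have h8 : (QuotientGroup.mk x : H ⧸ N t) ∈ (Z t).map (QuotientGroup.mk' (N t)) :=
          ⟨x, hle1 t hx, rfl⟩
        have := orderOf_dvd_natCard (⟨_, h8⟩ : (Z t).map (QuotientGroup.mk' (N t)))
        rwa [Subgroup.orderOf_mk] at this
      have h9 := (hd t).cop
      rw [Nat.coprime_comm, Nat.Prime.coprime_iff_not_dvd (Fact.out : p.Prime)] at h9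
      exact h9 h6
  -- the possible intersections
  set DD : Set (Subgroup H) := Set.range (fun t => N t0 ⊓ N t) with hDD
  have hDDc : DD.ncard ≤ C ^ (Nat.log 2 C + 1) := by
    have h3 : DD ⊆ {X | D0 ≤ X ∧ X ≤ N t0} := by
      rintro _ ⟨t, rfl⟩
      exact ⟨hD0le t, inf_le_left⟩
    exact ((Set.ncard_le_ncard h3 (Set.toFinite _)).trans
      (h2a H D0 (N t0) ((hD0le t0).trans inf_le_left))).trans (c2_mono hrel)
  -- the joins
  have hE : ∀ o : ℕ, ∃ E : Subgroup H, N t0 ≤ E ∧ (N t0).relIndex E ≤ C ∧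
      ∀ t, (N t0).relIndex (N t) = o → N t ≤ E := by
    intro o
    by_cases ht : ∃ t, (N t0).relIndex (N t) = o
    · obtain ⟨t, ht⟩ := ht
      refine ⟨N t ⊔ N t0, le_sup_right, ?_, fun t' ht' => ?_⟩
      · rw [sup_comm, Subgroup.relIndex_sup_left]
        exact hi1 t
      · have : N t ⊔ N t0 = N t' ⊔ N t0 :=
          c2_unique (N t0) (Z t0) (hd t0).cyc le_sup_right (sup_le (hle0 t) (hd t0).le)
            le_sup_right (sup_le (hle0 t') (hd t0).le) (by
              rw [sup_comm, Subgroup.relIndex_sup_left, sup_comm, Subgroup.relIndex_sup_left, ht,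
                ht'])
        rw [this]
        exact le_sup_left
    · refine ⟨N t0, le_refl _, ?_, fun t' ht' => absurd ⟨t', ht'⟩ ht⟩
      rw [Subgroup.relIndex_self]
      exact (c1_kp_pos p (N t0)).trans hkp
  choose E hE1 hE2 hE3 using hE
  have hDDf : DD.Finite := Set.toFinite _
  set P : Finset (Subgroup H × ℕ) := hDDf.toFinset ×ˢ Finset.Icc 1 C with hP
  have hsub : Set.range N ⊆ ⋃ x ∈ P, {X : Subgroup H | x.1 ≤ X ∧ X ≤ E x.2} := by
    rintro _ ⟨t, rfl⟩
    rw [Set.mem_iUnion₂]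
    refine ⟨(N t0 ⊓ N t, (N t0).relIndex (N t)), ?_, inf_le_right, hE3 _ t rfl⟩
    rw [hP, Finset.mem_product]
    refine ⟨(Set.Finite.mem_toFinset _).2 ⟨t, rfl⟩, Finset.mem_Icc.2 ⟨?_, hi1 t⟩⟩
    exact Nat.one_le_iff_ne_zero.2
      (Subgroup.index_ne_zero_of_finite : ((N t0).subgroupOf (N t)).index ≠ 0)
  have hone : ∀ x ∈ P, Set.ncard {X : Subgroup H | x.1 ≤ X ∧ X ≤ E x.2} ≤
      (C ^ 2) ^ (Nat.log 2 (C ^ 2) + 1) := by
    rintro ⟨D, o⟩ hx
    rw [hP, Finset.mem_product] at hx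
    obtain ⟨t, rfl⟩ := (Set.Finite.mem_toFinset _).1 hx.1
    haveI : (N t0 ⊓ N t).Normal := Subgroup.normal_inf_normal _ _
    have h3 := h2a H (N t0 ⊓ N t) (E o) (inf_le_left.trans (hE1 o))
    refine h3.trans (c2_mono ?_)
    rw [← Subgroup.relIndex_mul_relIndex (N t0 ⊓ N t) (N t0) (E o) inf_le_left (hE1 o), sq]
    exact Nat.mul_le_mul (hi0 t) (hE2 o)
  calc Set.ncard (Set.range N) ≤ Set.ncard (⋃ x ∈ P, {X : Subgroup H | x.1 ≤ X ∧ X ≤ E x.2}) :=
        Set.ncard_le_ncard hsub (Set.toFinite _)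
    _ ≤ ∑ x ∈ P, Set.ncard {X : Subgroup H | x.1 ≤ X ∧ X ≤ E x.2} :=
        Finset.set_ncard_biUnion_le _ _
    _ ≤ ∑ x ∈ P, (C ^ 2) ^ (Nat.log 2 (C ^ 2) + 1) := Finset.sum_le_sum hone
    _ = (DD.ncard * C) * (C ^ 2) ^ (Nat.log 2 (C ^ 2) + 1) := by
        rw [Finset.sum_const, smul_eq_mul, hP, Finset.card_product, Nat.card_Icc,
          Set.ncard_eq_toFinset_card _ hDDf]
        rfl
    _ ≤ (C ^ (Nat.log 2 C + 1) * C) * (C ^ 2) ^ (Nat.log 2 (C ^ 2) + 1) :=
        Nat.mul_le_mul_right _ (Nat.mul_le_mul_right _ hDDc)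
    _ = C ^ (Nat.log 2 C + 1) * (C * (C ^ 2) ^ (Nat.log 2 (C ^ 2) + 1)) := by ring

end H48.CN
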