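import Pool.Agent.H48.CN.Stm
import Pool.Agent.H60.KG.Cnt

/-!
Class numbers of finite solvable groups: the number of intermediate subgroups.
-/

namespace H48.CN

open H60.KG

universe u

/-- the number of subgroups of a finite group -/
theorem c2a_card (N : Type u) [Group N] [Finite N] :
    Nat.card (Subgroup N) ≤ Nat.card N ^ Nat.log 2 (Nat.card N) := by
  classical
  have hsurj : Function.Surjective (fun f : Fin (Nat.log 2 (Nat.card N)) → N =>
      Subgroup.closure (Set.range f)) := by
    intro X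
    obtain ⟨S, hS, hc⟩ := exists_gen (N := X)
    have hSc : S.card ≤ Nat.log 2 (Nat.card N) := by
      apply Nat.le_log_of_pow_le (by norm_num)
      exact hc.trans (Subgroup.card_le_card_group X)
    refine ⟨fun i => if h : (i : ℕ) < S.card then ((S.equivFin.symm ⟨i, h⟩ : X) : N) else 1, ?_⟩
    apply le_antisymm
    · rw [Subgroup.closure_le]
      rintro _ ⟨i, rfl⟩
      show (if h : (i : ℕ) < S.card then ((S.equivFin.symm ⟨i, h⟩ : X) : N) else 1) ∈ X
      split_ifs with h
      · exact ((S.equivFin.symm ⟨i, h⟩ : X)).2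
      · exact X.one_mem
    · have h1 : (⊤ : Subgroup X).map X.subtype = X := by
        rw [← MonoidHom.range_eq_map, Subgroup.range_subtype]
      refine h1.symm.le.trans ?_
      rw [← hS, MonoidHom.map_closure, Subgroup.closure_le]
      rintro _ ⟨s, hs, rfl⟩
      apply Subgroup.subset_closure
      refine ⟨⟨(S.equivFin ⟨s, hs⟩ : ℕ), lt_of_lt_of_le (S.equivFin ⟨s, hs⟩).2 hSc⟩, ?_⟩
      show (if h : ((S.equivFin ⟨s, hs⟩ : Fin S.card) : ℕ) < S.card then
        ((S.equivFin.symm ⟨(S.equivFin ⟨s, hs⟩ : ℕ), h⟩ : X) : N) else 1) = s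
      rw [dif_pos (S.equivFin ⟨s, hs⟩).2]
      simp
  have h2 := Nat.card_le_card_of_surjective _ hsurj
  rwa [Nat.card_fun, Nat.card_eq_fintype_card (α := Fin _), Fintype.card_fin] at h2

/-- C2a -/
theorem c2a : SC2a.{u} := by
  intro H _ _ D E _ hDE
  classical
  have hn : Nat.card (E ⧸ D.subgroupOf E) = D.relIndex E := rfl
  have hinj : Set.InjOn (fun X : Subgroup H =>
      (X.subgroupOf E).map (QuotientGroup.mk' (D.subgroupOf E)))
      {X : Subgroup H | D ≤ X ∧ X ≤ E} := by
    rintro X ⟨hX1, hX2⟩ Y ⟨hY1, hY2⟩ hXY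
    have key : ∀ Z : Subgroup H, D ≤ Z → Z ≤ E →
        (((Z.subgroupOf E).map (QuotientGroup.mk' (D.subgroupOf E))).comap
          (QuotientGroup.mk' (D.subgroupOf E))).map E.subtype = Z := by
      intro Z h1 h2
      rw [Subgroup.comap_map_eq, QuotientGroup.ker_mk',
        sup_of_le_left (show D.subgroupOf E ≤ Z.subgroupOf E from Subgroup.comap_mono h1),
        Subgroup.subgroupOf_map_subtype, inf_of_le_left h2]
    have h3 : (X.subgroupOf E).map (QuotientGroup.mk' (D.subgroupOf E)) =
      (Y.subgroupOf E).map (QuotientGroup.mk' (D.subgroupOf E)) := hXY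
    rw [← key X hX1 hX2, h3, key Y hY1 hY2]
  have h1 : Set.ncard {X : Subgroup H | D ≤ X ∧ X ≤ E} ≤
      Nat.card (Subgroup (E ⧸ D.subgroupOf E)) := by
    rw [← Set.ncard_image_of_injOn hinj, ← Set.ncard_univ]
    exact Set.ncard_le_ncard (Set.subset_univ _) Set.finite_univ
  refine h1.trans ((c2a_card _).trans ?_)
  rw [hn]
  apply Nat.pow_le_pow_right _ (Nat.le_succ _)
  rw [← hn]
  exact Nat.card_pos

end H48.CN
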