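import Pool.Agent.H48.CN.C1

/-!
Class numbers of finite solvable groups: the classes for one kernel.
-/

namespace H48.CN

open H60.KG MulAction

universe u

/-- the map `z ↦ z * (q * z⁻¹ * q⁻¹)` on a commutative normal subgroup -/
def c3_kap {Q : Type*} [Group Q] (Z : Subgroup Q) [hZ : Z.Normal]
    (hc : ∀ x ∈ Z, ∀ y ∈ Z, x * y = y * x) (q : Q) : Z →* Z where
  toFun z := ⟨z * (q * (z : Q)⁻¹ * q⁻¹), Z.mul_mem z.2 (hZ.conj_mem _ (Z.inv_mem z.2) q)⟩
  map_one' := by simp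
  map_mul' z w := by
    apply Subtype.ext
    have h1 : q * (z : Q)⁻¹ * q⁻¹ ∈ Z := hZ.conj_mem _ (Z.inv_mem z.2) q
    have h2 : q * (w : Q)⁻¹ * q⁻¹ ∈ Z := hZ.conj_mem _ (Z.inv_mem w.2) q
    simp only [Subgroup.coe_mul, mul_inv_rev]
    calc (z : Q) * w * (q * ((w : Q)⁻¹ * (z : Q)⁻¹) * q⁻¹)
        = z * (w * ((q * (w : Q)⁻¹ * q⁻¹) * (q * (z : Q)⁻¹ * q⁻¹))) := by group
      _ = z * ((w * (q * (z : Q)⁻¹ * q⁻¹)) * (q * (w : Q)⁻¹ * q⁻¹)) := by
          rw [hc _ h2 _ h1, ← mul_assoc (w : Q)]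
      _ = z * (((q * (z : Q)⁻¹ * q⁻¹) * w) * (q * (w : Q)⁻¹ * q⁻¹)) := by
          rw [hc _ w.2 _ h1]
      _ = _ := by group

theorem c3_pow {Q : Type*} [Group Q] (Z : Subgroup Q) [hZ : Z.Normal]
    (hc : ∀ x ∈ Z, ∀ y ∈ Z, x * y = y * x) (q : Q) (y : Z) (k : ℕ) :
    ∃ w ∈ (c3_kap Z hc q).range, ((y : Q) * q) ^ k = ((w * y ^ k : Z) : Q) * q ^ k := by
  induction k with
  | zero => exact ⟨1, Subgroup.one_mem _, by simp⟩
  | succ k ih =>
    obtain ⟨w, hw, e⟩ := ih
    refine ⟨(c3_kap Z hc q (w * y ^ k))⁻¹ * w, Subgroup.mul_mem _ (Subgroup.inv_mem _ ⟨_, rfl⟩) hw,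
      ?_⟩
    rw [pow_succ', e]
    set v : Z := w * y ^ k with hv
    have h1 : q * (v : Q) * q⁻¹ ∈ Z := hZ.conj_mem _ v.2 q
    have e2 : (((c3_kap Z hc q v)⁻¹ * w * y ^ (k + 1) : Z) : Q) =
        (q * (v : Q) * q⁻¹) * ((v : Q)⁻¹ * v) * y := by
      have e3 : ((c3_kap Z hc q v)⁻¹ * w * y ^ (k + 1) : Z) = (c3_kap Z hc q v)⁻¹ * v * y := by
        rw [hv, pow_succ]; group
      rw [e3]
      simp only [Subgroup.coe_mul, Subgroup.coe_inv]
      change ((v : Q) * (q * (v : Q)⁻¹ * q⁻¹))⁻¹ * v * y = _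
      group
    rw [e2, inv_mul_cancel, mul_one, hc _ h1 _ y.2]
    rw [pow_succ' q k]
    group

theorem c3_cosets {Q : Type*} [Group Q] [Finite Q] (Z : Subgroup Q) [hZ : Z.Normal]
    (hcyc : IsCyclic Z) {L : ℕ} (hL : Z.index ≤ L) (R : Set Q)
    (hR : ∀ q ∈ R, ∀ n : ℕ, q ^ n ∈ Z → q ^ n = 1) :
    Set.ncard (ConjClasses.mk '' R) ≤ L * L := by
  classical
  have hc : ∀ x ∈ Z, ∀ y ∈ Z, x * y = y * x := by
    intro x hx y hy
    have := (IsCyclic.commutative (α := Z)).is_comm.comm ⟨x, hx⟩ ⟨y, hy⟩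
    exact congrArg Subtype.val this
  haveI : Fintype (Q ⧸ Z) := Fintype.ofFinite _
  have hcard : Fintype.card (Q ⧸ Z) ≤ L := by
    rw [← Nat.card_eq_fintype_card]
    exact hL
  have key : ∀ c : Q ⧸ Z, Set.ncard (ConjClasses.mk '' {q | q ∈ R ∧ (q : Q ⧸ Z) = c}) ≤ L := by
    intro c
    by_cases hne : ({q | q ∈ R ∧ (q : Q ⧸ Z) = c} : Set Q).Nonempty
    · obtain ⟨q0, hq0, hc0⟩ := hne
      set W := (c3_kap Z hc q0).range with hW
      haveI hWn : W.Normal := ⟨fun n hn g => by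
        have : g * n * g⁻¹ = n := by
          apply Subtype.ext
          simp only [Subgroup.coe_mul, Subgroup.coe_inv]
          rw [hc _ g.2 _ n.2, mul_inv_cancel_right]
        rw [this]; exact hn⟩
      haveI : IsCyclic (Z ⧸ W) :=
        isCyclic_of_surjective (QuotientGroup.mk' W) (QuotientGroup.mk'_surjective W)
      haveI : Fintype (Z ⧸ W) := Fintype.ofFinite _
      set o := orderOf (q0 : Q ⧸ Z) with ho
      have ho0 : 0 < o := orderOf_pos _
      have hoL : o ≤ L := (orderOf_le_card_univ).trans hcard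
      have hq0o : q0 ^ o ∈ Z := by
        rw [← QuotientGroup.eq_one_iff, QuotientGroup.mk_pow]
        exact pow_orderOf_eq_one _
      have hq0' := hR q0 hq0 o hq0o
      have hsub : ConjClasses.mk '' {q | q ∈ R ∧ (q : Q ⧸ Z) = c} ⊆
          (fun x : Z ⧸ W => ConjClasses.mk (((Quotient.out x : Z) : Q) * q0)) ''
            ((Finset.univ.filter (fun a : Z ⧸ W => a ^ o = 1) : Finset (Z ⧸ W)) :
              Set (Z ⧸ W)) := by
        rintro _ ⟨q, ⟨hq, hqc⟩, rfl⟩
        have hy : q * q0⁻¹ ∈ Z := by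
          rw [← QuotientGroup.eq_one_iff, QuotientGroup.mk_mul, QuotientGroup.mk_inv, hqc, ← hc0,
            mul_inv_cancel]
        set y : Z := ⟨q * q0⁻¹, hy⟩ with hyd
        have hyq : (y : Q) * q0 = q := by rw [hyd]; simp
        have hqo : q ^ o ∈ Z := by
          rw [← QuotientGroup.eq_one_iff, QuotientGroup.mk_pow, hqc, ← hc0]
          exact pow_orderOf_eq_one _
        have hq' := hR q hq o hqo
        refine ⟨(y : Z ⧸ W), ?_, ?_⟩
        · rw [Finset.mem_coe, Finset.mem_filter]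
          refine ⟨Finset.mem_univ _, ?_⟩
          obtain ⟨w, hw, e⟩ := c3_pow Z hc q0 y o
          rw [hyq, hq', hq0', mul_one] at e
          have e1 : w * y ^ o = 1 := Subtype.ext e.symm
          rw [← QuotientGroup.mk_pow, QuotientGroup.eq_one_iff]
          rw [eq_inv_of_mul_eq_one_right e1]
          exact W.inv_mem hw
        · have hout : (Quotient.out (y : Z ⧸ W) : Z)⁻¹ * y ∈ W := by
            rw [← QuotientGroup.eq]
            exact QuotientGroup.out_eq' _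
          obtain ⟨z, hz⟩ := hout
          set y' : Z := Quotient.out (y : Z ⧸ W) with hy'
          have hz2 : (z : Q) * (q0 * (z : Q)⁻¹ * q0⁻¹) = (y' : Q)⁻¹ * y := congrArg Subtype.val hz
          refine ConjClasses.mk_eq_mk_iff_isConj.2 (isConj_iff.2 ⟨z, ?_⟩)
          change (z : Q) * ((y' : Q) * q0) * (z : Q)⁻¹ = q
          rw [← hyq]
          calc (z : Q) * ((y' : Q) * q0) * (z : Q)⁻¹ = ((z : Q) * y') * (q0 * (z : Q)⁻¹) := by group
            _ = (y' : Q) * ((z : Q) * (q0 * (z : Q)⁻¹ * q0⁻¹)) * q0 := by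
                rw [hc _ z.2 _ y'.2]; group
            _ = _ := by rw [hz2]; group
      have hcp : (Finset.univ.filter (fun a : Z ⧸ W => a ^ o = 1)).card ≤ o :=
        IsCyclic.card_pow_eq_one_le ho0
      calc Set.ncard (ConjClasses.mk '' {q | q ∈ R ∧ (q : Q ⧸ Z) = c}) ≤ _ :=
            Set.ncard_le_ncard hsub (Set.toFinite _)
        _ ≤ _ := Set.ncard_image_le (Set.toFinite _)
        _ = _ := Set.ncard_coe_finset _
        _ ≤ L := hcp.trans hoL
    · rw [Set.not_nonempty_iff_eq_empty] at hne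
      rw [hne, Set.image_empty, Set.ncard_empty]
      exact Nat.zero_le _
  have hU : ConjClasses.mk '' R ⊆ ⋃ c ∈ (Finset.univ : Finset (Q ⧸ Z)),
      ConjClasses.mk '' {q | q ∈ R ∧ (q : Q ⧸ Z) = c} := by
    rintro _ ⟨q, hq, rfl⟩
    rw [Set.mem_iUnion₂]
    exact ⟨(q : Q ⧸ Z), Finset.mem_univ _, q, ⟨hq, rfl⟩, rfl⟩
  calc Set.ncard (ConjClasses.mk '' R) ≤ Set.ncard (⋃ c ∈ (Finset.univ : Finset (Q ⧸ Z)),
      ConjClasses.mk '' {q | q ∈ R ∧ (q : Q ⧸ Z) = c}) :=
        Set.ncard_le_ncard hU (Set.toFinite _)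
    _ ≤ ∑ c ∈ (Finset.univ : Finset (Q ⧸ Z)),
      Set.ncard (ConjClasses.mk '' {q | q ∈ R ∧ (q : Q ⧸ Z) = c}) :=
        Finset.set_ncard_biUnion_le _ _
    _ ≤ ∑ c ∈ (Finset.univ : Finset (Q ⧸ Z)), L := Finset.sum_le_sum (fun c _ => key c)
    _ = Fintype.card (Q ⧸ Z) * L := by rw [Finset.sum_const, Finset.card_univ, smul_eq_mul]
    _ ≤ L * L := Nat.mul_le_mul_right _ hcard

theorem c3 (h1 : SA1a.{u}) : SC3.{u} := by
  intro p L M B _ H _ _ N Z S h
  classical
  haveI := h.nN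
  haveI := h.nZ
  -- the relevant elements and classes
  let Rel : H → Prop := fun x => (orderOf x).Coprime p ∧ ∃ X ∈ S, x ∈ X
  let D := {d : ConjClasses H // ∃ x : H, ConjClasses.mk x = d ∧ (orderOf x).Coprime p ∧
    ∃ X ∈ S, x ∈ X}
  haveI : Fintype D := Fintype.ofFinite _
  let Zb : Subgroup (H ⧸ N) := Z.map (QuotientGroup.mk' N)
  haveI : Zb.Normal := Subgroup.Normal.map h.nZ _ (QuotientGroup.mk'_surjective N)
  let R : Set (H ⧸ N) := {q | ∃ x : H, Rel x ∧ (x : H ⧸ N) = q}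
  have hR : ∀ q ∈ R, ∀ n : ℕ, q ^ n ∈ Zb → q ^ n = 1 := by
    rintro _ ⟨x, ⟨hx, X, hX, hxX⟩, rfl⟩ n ⟨z, hz, hzx⟩
    have e1 : (QuotientGroup.mk z : H ⧸ N) = QuotientGroup.mk (x ^ n) := hzx
    rw [QuotientGroup.eq] at e1
    have e2 : x ^ n ∈ Z := by
      have := Z.mul_mem hz (h.le e1)
      rwa [mul_inv_cancel_left] at this
    rw [← QuotientGroup.mk_pow, QuotientGroup.eq_one_iff]
    exact h.stZ X hX ⟨X.pow_mem hxX n, e2⟩
  have hcyc : IsCyclic Zb := by
    obtain ⟨z0, hz0, hz⟩ := h.cyc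
    refine ⟨⟨⟨(z0 : H ⧸ N), z0, hz0, rfl⟩, ?_⟩⟩
    rintro ⟨_, z, hzZ, rfl⟩
    obtain ⟨n, hn⟩ := hz z hzZ
    refine ⟨n, Subtype.ext ?_⟩
    have := (QuotientGroup.eq_one_iff _).2 hn
    rw [QuotientGroup.mk_mul, QuotientGroup.mk_inv, mul_inv_eq_one, QuotientGroup.mk_pow] at this
    rw [SubgroupClass.coe_zpow, zpow_natCast]
    exact this
  have hidx : Zb.index ≤ L := by
    have : Zb.index = Z.index :=
      Subgroup.index_map_eq Z (QuotientGroup.mk'_surjective N) (by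
        rw [QuotientGroup.ker_mk']; exact h.le)
    rw [this]
    exact h.idx
  have hQ := c3_cosets Zb hcyc hidx R hR
  -- the map to the classes of the quotient
  let F : D → ConjClasses (H ⧸ N) := fun d => ConjClasses.map (QuotientGroup.mk' N) d.1
  have hfib : ∀ c ∈ (Finset.univ : Finset D).image F,
      ((Finset.univ : Finset D).filter (fun d => F d = c)).card ≤ B := by
    intro c hc
    obtain ⟨⟨d0, x0, hx0, hco0, X, hX, hxX⟩, _, rfl⟩ := Finset.mem_image.1 hc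
    subst hx0
    let E := {e : ConjClasses X // ∃ g : X, ConjClasses.mk g = e ∧ (orderOf g).Coprime p}
    haveI : Fintype E := Fintype.ofFinite _
    have hE : Fintype.card E ≤ B := by
      rw [← Nat.card_eq_fintype_card]
      exact h.stB X hX
    have hchoice : ∀ d ∈ (Finset.univ : Finset D).filter (fun d => F d = F ⟨ConjClasses.mk x0, x0,
        rfl, hco0, X, hX, hxX⟩), ∃ e : E, ConjClasses.map X.subtype e.1 = d.1 := by
      rintro ⟨d, x, hx, hco, X', hX', hxX'⟩ hd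
      subst hx
      rw [Finset.mem_filter] at hd
      have e1 : ConjClasses.mk (x : H ⧸ N) = ConjClasses.mk (x0 : H ⧸ N) := hd.2
      rw [ConjClasses.mk_eq_mk_iff_isConj, isConj_iff] at e1
      obtain ⟨u', hu⟩ := e1
      obtain ⟨u, rfl⟩ := QuotientGroup.mk_surjective u'
      rw [← QuotientGroup.mk_inv, ← QuotientGroup.mk_mul, ← QuotientGroup.mk_mul,
        QuotientGroup.eq] at hu
      have hmem : u * x * u⁻¹ ∈ X := by
        have h3 := X.mul_mem hxX (X.inv_mem (h.stN X hX hu))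
        have e3 : x0 * ((u * x * u⁻¹)⁻¹ * x0)⁻¹ = u * x * u⁻¹ := by group
        rwa [e3] at h3
      refine ⟨⟨ConjClasses.mk ⟨u * x * u⁻¹, hmem⟩, ⟨u * x * u⁻¹, hmem⟩, rfl, ?_⟩, ?_⟩
      · rw [← Subgroup.orderOf_coe]
        change (orderOf (u * x * u⁻¹)).Coprime p
        have : orderOf (u * x * u⁻¹) = orderOf x := by
          have := orderOf_injective (MulAut.conj u).toMonoidHom (MulAut.conj u).injective x
          exact this
        rw [this]
        exact hco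
      · change ConjClasses.mk (u * x * u⁻¹) = ConjClasses.mk x
        rw [ConjClasses.mk_eq_mk_iff_isConj]
        exact (isConj_iff.2 ⟨u, rfl⟩).symm
    choose g hg using hchoice
    refine le_trans ?_ hE
    rw [← Finset.card_attach, ← Finset.card_univ (α := E)]
    refine Finset.card_le_card_of_injOn (fun d => g d.1 d.2) (fun _ _ => Finset.mem_univ _) ?_
    intro a _ b _ hab
    apply Subtype.ext
    apply Subtype.ext
    rw [← hg a.1 a.2, ← hg b.1 b.2]
    exact congrArg (fun e : E => ConjClasses.map X.subtype e.1) hab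
  have himg : ((Finset.univ : Finset D).image F).card ≤ L * L := by
    refine le_trans ?_ hQ
    rw [← Set.ncard_coe_finset]
    refine Set.ncard_le_ncard ?_ (Set.toFinite _)
    intro c hc
    obtain ⟨⟨d0, x0, hx0, hr⟩, _, rfl⟩ := Finset.mem_image.1 (Finset.mem_coe.1 hc)
    subst hx0
    exact ⟨(x0 : H ⧸ N), ⟨x0, hr, rfl⟩, rfl⟩
  have hfin := Finset.card_le_mul_card_image (Finset.univ : Finset D) B hfib
  have e0 : Nat.card D = (Finset.univ : Finset D).card := by
    rw [Nat.card_eq_fintype_card, Finset.card_univ]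
  change Nat.card D ≤ _
  rw [e0]
  calc (Finset.univ : Finset D).card ≤ B * ((Finset.univ : Finset D).image F).card := hfin
    _ ≤ B * (L * L) := Nat.mul_le_mul_left _ himg
    _ = L * (L * B) := by ring
    _ ≤ L * B + L * (L * B) := Nat.le_add_left _ _

end H48.CN
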