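import Pool.Agent.H48.CN.Stm

/-!
Class numbers of finite solvable groups, row C4: Lemma R.
-/

namespace H48.CN

open H60.KG MulAction

universe u

theorem c4_pow {x k n : ℕ} (h : x < 2 ^ k) : x ^ n ≤ 2 ^ (k * n) := by
  rw [pow_mul]
  exact Nat.pow_le_pow_left h.le n

theorem c4_log {x k : ℕ} (h : x < 2 ^ k) : Nat.log 2 x ≤ k := by
  rcases Nat.eq_zero_or_pos x with h0 | h0
  · rw [h0, Nat.log_zero_right]
    exact Nat.zero_le _
  · exact (Nat.log_lt_of_lt_pow h0.ne' h).le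

theorem c4_self {x k : ℕ} (h : x < 2 ^ k) : x ^ (Nat.log 2 x + 1) ≤ 2 ^ (k * (k + 1)) := by
  rcases Nat.eq_zero_or_pos x with h0 | h0
  · rw [h0, zero_pow (by omega)]
    exact Nat.zero_le _
  · calc x ^ (Nat.log 2 x + 1) ≤ x ^ (k + 1) :=
          Nat.pow_le_pow_right h0 (by have := c4_log h; omega)
      _ ≤ _ := c4_pow h

theorem c4_num {L B w : ℕ} (hw : 1 ≤ w) (hL : L < 2 ^ w) (hB : B < 2 ^ w) :
    (L * B) ^ (Nat.log 2 (L * B) + 1) * ((L * B) *
    ((L * B) ^ 2) ^ (Nat.log 2 ((L * B) ^ 2) + 1)) * (L * B + L * (L * B)) ≤ 2 ^ (32 * w ^ 2) := by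
  have h2w : (2 : ℕ) ^ w * 2 ^ w = 2 ^ (2 * w) := by
    rw [← pow_add]
    congr 1
    omega
  have hLB : L * B < 2 ^ (2 * w) := by
    rw [← h2w]
    exact Nat.mul_lt_mul'' hL hB
  have hLB2 : (L * B) ^ 2 < 2 ^ (4 * w) := by
    have e : (2 : ℕ) ^ (4 * w) = (2 ^ (2 * w)) ^ 2 := by
      rw [← pow_mul]
      congr 1
      omega
    rw [e]
    exact Nat.pow_lt_pow_left hLB (by norm_num)
  have a1 := c4_self hLB
  have a2 := c4_self hLB2
  have a3 : L * B + L * (L * B) ≤ 2 ^ (3 * w + 1) := by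
    have b1 : L * (L * B) ≤ 2 ^ w * 2 ^ (2 * w) := Nat.mul_le_mul hL.le hLB.le
    have b2 : (2 : ℕ) ^ w * 2 ^ (2 * w) = 2 ^ (3 * w) := by
      rw [← pow_add]
      congr 1
      omega
    have b3 : L * B ≤ 2 ^ (3 * w) := hLB.le.trans (Nat.pow_le_pow_right (by norm_num) (by omega))
    have b4 : (2 : ℕ) ^ (3 * w + 1) = 2 ^ (3 * w) + 2 ^ (3 * w) := by
      rw [pow_succ]
      omega
    rw [b4]
    rw [b2] at b1
    omega
  calc _ ≤ 2 ^ (2 * w * (2 * w + 1)) * (2 ^ (2 * w) * 2 ^ (4 * w * (4 * w + 1))) *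
        2 ^ (3 * w + 1) :=
        Nat.mul_le_mul (Nat.mul_le_mul a1 (Nat.mul_le_mul hLB.le a2)) a3
    _ = 2 ^ (2 * w * (2 * w + 1) + (2 * w + 4 * w * (4 * w + 1)) + (3 * w + 1)) := by
        rw [← pow_add, ← pow_add, ← pow_add]
    _ ≤ 2 ^ (32 * w ^ 2) := by
        apply Nat.pow_le_pow_right (by norm_num)
        nlinarith

theorem c4 (h1 : SC1.{u}) (h2 : SC2.{u}) (h3 : SC3.{u}) : SC.{u} := by
  classical
  refine ⟨32, ?_⟩
  intro p L M B w _ H _ _ κ N Z S hS hM hL hB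
  rcases isEmpty_or_nonempty κ with hκ | hκ
  · have h0 : Nat.card {d : ConjClasses H // ∃ h : H, ConjClasses.mk h = d ∧
        (orderOf h).Coprime p ∧ ∃ t, ∃ X ∈ S t, h ∈ X} = 0 := by
      rw [Nat.card_eq_zero]
      left
      constructor
      rintro ⟨d, h, _, _, t, _⟩
      exact hκ.elim t
    rw [h0]
    exact Nat.zero_le _
  obtain ⟨t0⟩ := hκ
  have hw : 1 ≤ w := by
    by_contra hw
    have hw0 : w = 0 := by omega
    rw [hw0, pow_zero] at hL
    have h4 := (hS t0).idx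
    have h5 : (Z t0).index ≠ 0 := Subgroup.index_ne_zero_of_finite
    omega
  have hfin : (Set.range N).Finite := Set.toFinite _
  set F : Finset (Subgroup H) := hfin.toFinset with hF
  -- the classes of one kernel
  set D : Subgroup H → Set (ConjClasses H) := fun N0 => {d | ∃ h : H, ConjClasses.mk h = d ∧
    (orderOf h).Coprime p ∧ ∃ X ∈ ⋃ t ∈ {t | N t = N0}, S t, h ∈ X} with hD
  have hDfin : ∀ N0, (D N0).Finite := fun N0 => Set.toFinite _
  have hDc : ∀ N0 ∈ F, (hDfin N0).toFinset.card ≤ L * B + L * (L * B) := by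
    intro N0 hN0
    rw [hF, Set.Finite.mem_toFinset] at hN0
    obtain ⟨t, rfl⟩ := hN0
    have hlev : LevData p L M B (N t) (Z t) (⋃ t' ∈ {t' | N t' = N t}, S t') := by
      have ht := hS t
      refine ⟨ht.nN, ht.nZ, ht.le, ht.cyc, ht.cop, ht.idx, ht.big, ?_, ?_, ?_, ?_⟩
      · obtain ⟨X, hX⟩ := ht.ne
        exact ⟨X, by
          simp only [Set.mem_iUnion]
          exact ⟨t, rfl, hX⟩⟩
      · intro X hX
        simp only [Set.mem_iUnion] at hX
        obtain ⟨t', ht', hX⟩ := hX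
        have e : N t' = N t := ht'
        rw [← e]
        exact (hS t').stN X hX
      · intro X hX
        simp only [Set.mem_iUnion] at hX
        obtain ⟨t', ht', hX⟩ := hX
        have e : N t' = N t := ht'
        have e2 : Z t' = Z t := (h1 p L M B H (N t') (Z t') (N t) (Z t) (S t') (S t) (hS t') ht
          hM).2.2.2 e
        rw [← e, ← e2]
        exact (hS t').stZ X hX
      · intro X hX
        simp only [Set.mem_iUnion] at hX
        obtain ⟨t', ht', hX⟩ := hX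
        exact (hS t').stB X hX
    have h4 := h3 p L M B H (N t) (Z t) _ hlev
    rw [← Set.ncard_eq_toFinset_card _ (hDfin (N t))]
    exact h4
  have hsub : {d : ConjClasses H | ∃ h : H, ConjClasses.mk h = d ∧ (orderOf h).Coprime p ∧
      ∃ t, ∃ X ∈ S t, h ∈ X} ⊆ ((F.biUnion fun N0 => (hDfin N0).toFinset : Finset _) :
        Set (ConjClasses H)) := by
    rintro d ⟨h, hd, hc, t, X, hX, hhX⟩
    simp only [Finset.coe_biUnion, Set.mem_iUnion, Finset.mem_coe, Set.Finite.mem_toFinset]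
    refine ⟨N t, ?_, h, hd, hc, X, ?_, hhX⟩
    · rw [hF, Set.Finite.mem_toFinset]
      exact ⟨t, rfl⟩
    · simp only [Set.mem_iUnion]
      exact ⟨t, rfl, hX⟩
  have hcard : Nat.card {d : ConjClasses H // ∃ h : H, ConjClasses.mk h = d ∧
      (orderOf h).Coprime p ∧ ∃ t, ∃ X ∈ S t, h ∈ X} ≤ F.card * (L * B + L * (L * B)) := by
    calc _ ≤ (F.biUnion fun N0 => (hDfin N0).toFinset).card := by
          rw [← Set.ncard_coe_finset]
          exact Set.ncard_le_ncard hsub (Set.toFinite _)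
      _ ≤ _ := Finset.card_biUnion_le_card_mul _ _ _ hDc
  have hFc : F.card ≤ (L * B) ^ (Nat.log 2 (L * B) + 1) * ((L * B) *
      ((L * B) ^ 2) ^ (Nat.log 2 ((L * B) ^ 2) + 1)) := by
    rw [hF, ← Set.ncard_eq_toFinset_card _ hfin]
    exact h2 p L M B H κ N Z S hS hM
  exact hcard.trans ((Nat.mul_le_mul_right _ hFc).trans (c4_num hw hL hB))

end H48.CN
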