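import Pool.Agent.H48.CN.Stm

/-!
Row CN-D1: Theorem H for a single element (helper81)
-/

namespace H48.CN

universe u

namespace D1

/-- the fixed points of `g` -/
def fx {G A : Type*} [Group G] [AddCommGroup A] [DistribMulAction G A] (g : G) :
    AddSubgroup A where
  carrier := {a | g • a = a}
  add_mem' := by
    intro a b ha hb
    simp only [Set.mem_setOf_eq] at *
    rw [smul_add, ha, hb]
  zero_mem' := smul_zero g
  neg_mem' := by
    intro a ha
    simp only [Set.mem_setOf_eq] at *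
    rw [smul_neg, ha]

theorem mem_fx {G A : Type*} [Group G] [AddCommGroup A] [DistribMulAction G A] {g : G} {a : A} :
    a ∈ (fx g : AddSubgroup A) ↔ g • a = a := Iff.rfl

section

variable {G A : Type*} [Group G] [AddCommGroup A] [DistribMulAction G A]

theorem pow_sub_mem {Y : AddSubgroup A} (hY : ∀ (g : G) (v : A), v ∈ Y → g • v ∈ Y) {g : G}
    {v : A} (h : g • v - v ∈ Y) (n : ℕ) : g ^ n • v - v ∈ Y := by
  induction n with
  | zero => rw [pow_zero, one_smul, sub_self]; exact Y.zero_mem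
  | succ n ih =>
    have h1 : g ^ (n + 1) • v - v = g • (g ^ n • v - v) + (g • v - v) := by
      rw [smul_sub, smul_smul, ← pow_succ']
      abel
    rw [h1]
    exact Y.add_mem (hY g _ ih) h

/-- averaging over the powers of an element of order prime to `p` -/
theorem exists_fix {p m : ℕ} (hpm : Nat.Coprime m p) (hA : ∀ a : A, p • a = 0) {h : G}
    (hm : h ^ m = 1) {X Y : AddSubgroup A} (hX : ∀ (g : G) (v : A), v ∈ X → g • v ∈ X)
    (hY : ∀ (g : G) (v : A), v ∈ Y → g • v ∈ Y) {v : A} (hv : v ∈ X) (hvY : h • v - v ∈ Y) :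
    ∃ v' ∈ X, h • v' = v' ∧ v' - v ∈ Y := by
  obtain ⟨a, b, hab⟩ := Nat.isCoprime_iff_coprime.2 hpm
  refine ⟨a • ∑ j ∈ Finset.range m, h ^ j • v, ?_, ?_, ?_⟩
  · exact X.zsmul_mem (AddSubgroup.sum_mem _ fun j _ => hX _ _ hv) _
  · rw [smul_comm h a]
    congr 1
    rw [Finset.smul_sum]
    have h1 := Finset.sum_range_succ (fun j => h ^ j • v) m
    have h2 := Finset.sum_range_succ' (fun j => h ^ j • v) m
    rw [h1, hm, pow_zero] at h2
    have h3 := add_right_cancel h2
    rw [h3]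
    refine Finset.sum_congr rfl fun j _ => ?_
    rw [smul_smul, ← pow_succ']
  · have h1 : v = a • (m • v) := by
      have h2 : (a * (m : ℤ) + b * (p : ℤ)) • v = v := by rw [hab, one_smul]
      rw [add_smul, mul_smul, mul_smul, natCast_zsmul, natCast_zsmul, hA v, smul_zero,
        add_zero] at h2
      exact h2.symm
    have h3 : a • ∑ j ∈ Finset.range m, h ^ j • v - v =
        a • ∑ j ∈ Finset.range m, (h ^ j • v - v) := by
      rw [Finset.sum_sub_distrib, Finset.sum_const, Finset.card_range, smul_sub, ← h1]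
    rw [h3]
    exact Y.zsmul_mem (AddSubgroup.sum_mem _ fun j _ => pow_sub_mem hY hvY j) _

end

/-- counting with a homomorphism -/
theorem card_fib {A : Type*} [AddCommGroup A] [Finite A] (d : A → A)
    (hd : ∀ v w, d (v - w) = d v - d w) (S Y K : Set A) (hS : ∀ v ∈ S, d v ∈ Y)
    (hK : ∀ v, d v = 0 → v ∈ K) : Nat.card S ≤ Nat.card Y * Nat.card K := by
  classical
  let c : Y → A := fun y => if h : ∃ w ∈ S, d w = y then h.choose else 0
  have hc : ∀ v (hv : v ∈ S), d (c ⟨d v, hS v hv⟩) = d v := by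
    intro v hv
    have h : ∃ w ∈ S, d w = ((⟨d v, hS v hv⟩ : Y) : A) := ⟨v, hv, rfl⟩
    simp only [c]
    rw [dif_pos h]
    exact h.choose_spec.2
  rw [← Nat.card_prod]
  refine Nat.card_le_card_of_injective
    (fun v : S => ((⟨d v.1, hS v.1 v.2⟩ : Y), (⟨v.1 - c ⟨d v.1, hS v.1 v.2⟩, hK _ (by
      rw [hd, hc v.1 v.2, sub_self])⟩ : K))) ?_
  rintro ⟨v, hv⟩ ⟨w, hw⟩ h
  simp only [Prod.mk.injEq, Subtype.mk.injEq] at h
  obtain ⟨h1, h2⟩ := h
  have h3 : (⟨d v, hS v hv⟩ : Y) = ⟨d w, hS w hw⟩ := Subtype.ext h1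
  rw [h3] at h2
  exact Subtype.ext (sub_left_injective h2)

theorem card_ker_pow {R A : Type*} [Semiring R] [AddCommGroup A] [Module R A] [Finite A]
    (d : Module.End R A) (n : ℕ) :
    Nat.card {v : A | (d ^ n) v = 0} ≤ Nat.card {v : A | d v = 0} ^ n := by
  induction n with
  | zero =>
    rw [pow_zero, pow_zero]
    have : {v : A | (1 : Module.End R A) v = 0} = {0} := by
      ext a
      rw [Set.mem_setOf_eq, Module.End.one_apply, Set.mem_singleton_iff]
    rw [this]
    exact (Nat.card_unique).le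
  | succ n ih =>
    have h1 := card_fib (fun v => d v) (fun v w => map_sub d v w) {v : A | (d ^ (n + 1)) v = 0}
      {v : A | (d ^ n) v = 0} {v : A | d v = 0} (by
        intro v hv
        rw [Set.mem_setOf_eq, pow_succ, Module.End.mul_apply] at hv
        exact hv) (fun v hv => hv)
    calc _ ≤ Nat.card {v : A | (d ^ n) v = 0} * Nat.card {v : A | d v = 0} := h1
      _ ≤ Nat.card {v : A | d v = 0} ^ n * Nat.card {v : A | d v = 0} :=
        Nat.mul_le_mul_right _ ih
      _ = Nat.card {v : A | d v = 0} ^ (n + 1) := (pow_succ _ _).symm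

section

variable {G A : Type*} [Group G] [AddCommGroup A] [Finite A] [DistribMulAction G A]

theorem cfx_le (g : G) (X Y : AddSubgroup A) :
    cfx g X Y ≤ Nat.card Y * Nat.card {a : A // g • a = a} := by
  have h1 := card_fib (fun v : A => g • v - v) (fun v w => by
    rw [smul_sub]; abel) {v : A | v ∈ X ∧ g • v - v ∈ Y} (Y : Set A) {a : A | g • a = a}
    (fun v hv => hv.2) (fun v hv => sub_eq_zero.1 hv)
  exact h1

theorem le_cfx (g : G) {X Y : AddSubgroup A} (hY : ∀ (g : G) (v : A), v ∈ Y → g • v ∈ Y)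
    (hXY : Y ≤ X) : Nat.card Y ≤ cfx g X Y := by
  unfold cfx
  refine Nat.card_le_card_of_injective
    (fun y : Y => (⟨y.1, hXY y.2, Y.sub_mem (hY g _ y.2) y.2⟩ :
      {v : A // v ∈ X ∧ g • v - v ∈ Y})) ?_
  intro x y h
  simp only [Subtype.mk.injEq] at h
  exact Subtype.ext h

theorem cfx_pow_le (g : G) (n : ℕ) {X Y : AddSubgroup A}
    (hY : ∀ (g : G) (v : A), v ∈ Y → g • v ∈ Y) : cfx g X Y ≤ cfx (g ^ n) X Y := by
  unfold cfx
  refine Nat.card_le_card_of_injective
    (fun v : {v : A // v ∈ X ∧ g • v - v ∈ Y} =>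
      (⟨v.1, v.2.1, pow_sub_mem hY v.2.2 n⟩ : {v : A // v ∈ X ∧ g ^ n • v - v ∈ Y})) ?_
  intro x y h
  simp only [Subtype.mk.injEq] at h
  exact Subtype.ext h

theorem cfx_mul_le {p m : ℕ} (hpm : Nat.Coprime m p) (hA : ∀ a : A, p • a = 0) {h : G}
    (hm : h ^ m = 1) {X Y : AddSubgroup A} (hX : ∀ (g : G) (v : A), v ∈ X → g • v ∈ X)
    (hY : ∀ (g : G) (v : A), v ∈ Y → g • v ∈ Y) (hXY : Y ≤ X) :
    cfx h X Y * Nat.card (Y ⊓ fx h : AddSubgroup A) ≤
      Nat.card (X ⊓ fx h : AddSubgroup A) * Nat.card Y := by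
  unfold cfx
  rw [← Nat.card_prod, ← Nat.card_prod]
  have hex : ∀ v : {v : A // v ∈ X ∧ h • v - v ∈ Y}, ∃ v' ∈ X, h • v' = v' ∧ v' - v.1 ∈ Y :=
    fun v => exists_fix hpm hA hm hX hY v.2.1 v.2.2
  choose c hc1 hc2 hc3 using hex
  refine Nat.card_le_card_of_injective (fun x : {v : A // v ∈ X ∧ h • v - v ∈ Y} ×
      (Y ⊓ fx h : AddSubgroup A) =>
    ((⟨c x.1 + x.2.1, AddSubgroup.add_mem _ ⟨hc1 x.1, hc2 x.1⟩ ⟨hXY x.2.2.1, x.2.2.2⟩⟩ :
      (X ⊓ fx h : AddSubgroup A)),
     (⟨(c x.1 - x.1.1) + x.2.1, Y.add_mem (hc3 x.1) x.2.2.1⟩ : Y))) ?_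
  rintro ⟨v, z⟩ ⟨w, t⟩ hh
  simp only [Prod.mk.injEq, Subtype.mk.injEq] at hh
  obtain ⟨h1, h2⟩ := hh
  have h3 : v.1 = w.1 := by
    have : v.1 = (c v + z.1) - (c v - v.1 + z.1) := by abel
    rw [this, h1, h2]
    abel
  have h4 : v = w := Subtype.ext h3
  subst h4
  have h5 : z = t := Subtype.ext (add_left_cancel h1)
  rw [h5]

end

/-- `(T - 1) ^ (p ^ s) = T ^ (p ^ s) - 1` -/
theorem sub_pow_end {A : Type*} [AddCommGroup A] (p s : ℕ) [Fact p.Prime] [Module (ZMod p) A]
    (T : Module.End (ZMod p) A) : (T - 1) ^ (p ^ s) = T ^ (p ^ s) - 1 := by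
  have h1 : ((Polynomial.X - 1 : Polynomial (ZMod p)) ^ (p ^ s)) =
      Polynomial.X ^ (p ^ s) - 1 := by
    rw [sub_pow_char_pow, one_pow]
  have h2 := congrArg (Polynomial.aeval T) h1
  simpa using h2

section

variable {G A : Type*} [Group G] [AddCommGroup A] [Finite A] [DistribMulAction G A]

theorem card_fx_aux {p : ℕ} [Fact p.Prime] [Module (ZMod p) A] {g h : G} {s : ℕ}
    (hgs : ∀ v : A, h • v = v → g ^ (p ^ s) • v = v) :
    Nat.card (fx h : AddSubgroup A) ≤ Nat.card {v : A | g • v = v} ^ (p ^ s) := by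
  let T : Module.End (ZMod p) A := AddMonoidHom.toZModLinearMap p (DistribSMul.toAddMonoidHom A g)
  have hT : ∀ (n : ℕ) (v : A), (T ^ n) v = g ^ n • v := by
    intro n
    induction n with
    | zero => intro v; rw [pow_zero, pow_zero, one_smul, Module.End.one_apply]
    | succ n ih =>
      intro v
      rw [pow_succ, Module.End.mul_apply, ih, pow_succ, mul_smul]
      rfl
  have h1 : Nat.card (fx h : AddSubgroup A) ≤ Nat.card {v : A | ((T - 1) ^ (p ^ s)) v = 0} := by
    refine Nat.card_le_card_of_injective (fun v : (fx h : AddSubgroup A) =>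
      (⟨v.1, by
        show ((T - 1) ^ (p ^ s)) v.1 = 0
        rw [sub_pow_end, LinearMap.sub_apply, hT, Module.End.one_apply,
          hgs v.1 v.2, sub_self]⟩ : {v : A | ((T - 1) ^ (p ^ s)) v = 0})) ?_
    intro v w hvw
    simp only [Subtype.mk.injEq] at hvw
    exact Subtype.ext hvw
  have h2 : {v : A | (T - 1) v = 0} = {v : A | g • v = v} := by
    ext v
    show (T - 1) v = 0 ↔ g • v = v
    rw [LinearMap.sub_apply, Module.End.one_apply, sub_eq_zero]
    rfl
  have h3 := card_ker_pow (T - 1) (p ^ s)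
  rw [h2] at h3
  exact h1.trans h3

theorem card_fx_le {p : ℕ} [Fact p.Prime] (hA : ∀ a : A, p • a = 0) {g h x : G}
    (hgh : g = x * h) (hc : Commute x h) {a : ℕ} (hx : x ^ (p ^ a) = 1) :
    Nat.card (fx h : AddSubgroup A) ≤ Nat.card {v : A // g • v = v} ^ ordA A g := by
  have hpow : ∀ v : A, h • v = v → ∀ n : ℕ, h ^ n • v = v := by
    intro v hv n
    induction n with
    | zero => rw [pow_zero, one_smul]
    | succ n ih => rw [pow_succ, mul_smul, hv, ih]
  have hgx : ∀ v : A, h • v = v → ∀ n : ℕ, g ^ n • v = x ^ n • v := by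
    intro v hv n
    rw [hgh, hc.mul_pow, mul_smul, hpow v hv n]
  have hgk : ∀ v : A, g ^ ordA A g • v = v := by
    intro v
    have h1 : (MulAction.toPermHom G A g) ^ ordA A g = 1 := pow_orderOf_eq_one _
    rw [← map_pow] at h1
    have h2 := DFunLike.congr_fun h1 v
    simpa using h2
  have hkpos : 0 < ordA A g := orderOf_pos _
  obtain ⟨s, hs1, hs2⟩ := (Nat.dvd_prime_pow (Fact.out : p.Prime)).1
    (Nat.gcd_dvd_right (ordA A g) (p ^ a))
  have hsk : p ^ s ∣ ordA A g := hs2 ▸ Nat.gcd_dvd_left _ _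
  have hgs : ∀ v : A, h • v = v → g ^ (p ^ s) • v = v := by
    intro v hv
    rw [hgx v hv, ← hs2, MulAction.pow_smul_eq_iff_minimalPeriod_dvd]
    refine Nat.dvd_gcd ?_ ?_
    · rw [← MulAction.pow_smul_eq_iff_minimalPeriod_dvd, ← hgx v hv, hgk]
    · rw [← MulAction.pow_smul_eq_iff_minimalPeriod_dvd, hx, one_smul]
  have h3 : Nat.card (fx h : AddSubgroup A) ≤ Nat.card {v : A | g • v = v} ^ (p ^ s) := by
    letI := AddCommGroup.zmodModule hA
    exact card_fx_aux hgs
  have h4 : 0 < Nat.card {v : A | g • v = v} := by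
    haveI : Nonempty {v : A | g • v = v} := ⟨⟨0, smul_zero g⟩⟩
    exact Nat.card_pos
  exact h3.trans (Nat.pow_le_pow_right h4 (Nat.le_of_dvd hkpos hsk))

end

theorem exps (G : Type*) [Group G] [Finite G] (p : ℕ) [Fact p.Prime] :
    ∃ a m e e' : ℕ, Nat.Coprime m p ∧ ∀ g : G, (g ^ e) ^ m = 1 ∧ (g ^ e') ^ (p ^ a) = 1 ∧
      g = g ^ e' * g ^ e := by
  obtain ⟨a, m, hm, hcard⟩ := Nat.exists_eq_pow_mul_and_not_dvd
    (Nat.card_pos (α := G)).ne' p (Fact.out : p.Prime).ne_one
  have hpm : Nat.Coprime p m := ((Fact.out : p.Prime).coprime_iff_not_dvd).2 hm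
  have hpam : Nat.Coprime (p ^ a) m := hpm.pow_left a
  obtain ⟨e, he1, he2⟩ := Nat.chineseRemainder hpam 0 1
  obtain ⟨e', he1', he2'⟩ := Nat.chineseRemainder hpam 1 0
  refine ⟨a, m, e, e', hpm.symm, fun g => ⟨?_, ?_, ?_⟩⟩
  · rw [← pow_mul]
    refine orderOf_dvd_iff_pow_eq_one.1 ((orderOf_dvd_natCard g).trans ?_)
    rw [hcard]
    exact Nat.mul_dvd_mul_right ((Nat.modEq_zero_iff_dvd).1 he1) m
  · rw [← pow_mul]
    refine orderOf_dvd_iff_pow_eq_one.1 ((orderOf_dvd_natCard g).trans ?_)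
    rw [hcard, mul_comm]
    exact Nat.mul_dvd_mul_right ((Nat.modEq_zero_iff_dvd).1 he2') (p ^ a)
  · rw [← pow_add]
    have h1 : e' + e ≡ 1 [MOD p ^ a * m] := by
      refine (Nat.modEq_and_modEq_iff_modEq_mul hpam).1 ⟨?_, ?_⟩
      · simpa using he1'.add he1
      · simpa using he2'.add he2
    rw [← hcard] at h1
    have h2 : e' + e ≡ 1 [MOD orderOf g] := h1.of_dvd (orderOf_dvd_natCard g)
    have h3 := pow_eq_pow_iff_modEq.2 h2
    rw [h3, pow_one]

section

variable {G A : Type*} [Group G] [AddCommGroup A] [Finite A] [DistribMulAction G A]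

theorem card_pos' (X : AddSubgroup A) : (0 : ℝ) < Nat.card X := by
  have : 0 < Nat.card X := Nat.card_pos
  exact_mod_cast this

theorem one_le_card (X : AddSubgroup A) : (1 : ℝ) ≤ Nat.card X := by
  have : 0 < Nat.card X := Nat.card_pos
  exact_mod_cast this

theorem lf_nonneg (g : G) {X Y : AddSubgroup A} (hY : ∀ (g : G) (v : A), v ∈ Y → g • v ∈ Y)
    (hXY : Y ≤ X) : 0 ≤ lf g X Y := by
  unfold lf
  refine Real.logb_nonneg one_lt_two ?_
  rw [le_div_iff₀ (card_pos' Y), one_mul]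
  exact_mod_cast le_cfx g hY hXY

theorem card_fixed_pos (g : G) : 0 < Nat.card {a : A // g • a = a} := by
  haveI : Nonempty {a : A // g • a = a} := ⟨⟨0, smul_zero g⟩⟩
  exact Nat.card_pos

theorem cfx_pos (g : G) {X Y : AddSubgroup A} (hY : ∀ (g : G) (v : A), v ∈ Y → g • v ∈ Y)
    (hXY : Y ≤ X) : (0 : ℝ) < cfx g X Y := by
  have h1 : 0 < cfx g X Y := lt_of_lt_of_le Nat.card_pos (le_cfx g hY hXY)
  exact_mod_cast h1

theorem lf_le (g : G) {X Y : AddSubgroup A} (hY : ∀ (g : G) (v : A), v ∈ Y → g • v ∈ Y)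
    (hXY : Y ≤ X) : lf g X Y ≤ Real.logb 2 (Nat.card {a : A // g • a = a}) := by
  unfold lf
  refine Real.logb_le_logb_of_le one_lt_two (div_pos (cfx_pos g hY hXY) (card_pos' Y)) ?_
  rw [div_le_iff₀ (card_pos' Y), mul_comm]
  exact_mod_cast cfx_le g X Y

theorem lf_tel {p m : ℕ} (hpm : Nat.Coprime m p) (hA : ∀ a : A, p • a = 0) {g h : G} {e : ℕ}
    (hm : h ^ m = 1) (hg : h = g ^ e) {X Y : AddSubgroup A}
    (hX : ∀ (g : G) (v : A), v ∈ X → g • v ∈ X)
    (hY : ∀ (g : G) (v : A), v ∈ Y → g • v ∈ Y) (hXY : Y ≤ X) :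
    lf g X Y ≤ Real.logb 2 (Nat.card (X ⊓ fx h : AddSubgroup A)) -
      Real.logb 2 (Nat.card (Y ⊓ fx h : AddSubgroup A)) := by
  rw [← Real.logb_div (card_pos' _).ne' (card_pos' _).ne']
  unfold lf
  refine Real.logb_le_logb_of_le one_lt_two (div_pos (cfx_pos g hY hXY) (card_pos' Y)) ?_
  rw [div_le_div_iff₀ (card_pos' Y) (card_pos' _)]
  have h1 := cfx_mul_le hpm hA hm hX hY hXY
  have h2 : cfx g X Y ≤ cfx h X Y := hg ▸ cfx_pow_le g e hY
  have h3 : cfx g X Y * Nat.card (Y ⊓ fx h : AddSubgroup A) ≤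
      Nat.card (X ⊓ fx h : AddSubgroup A) * Nat.card Y :=
    (Nat.mul_le_mul_right _ h2).trans h1
  exact_mod_cast h3

theorem two_mul_card_le {p m : ℕ} (hpm : Nat.Coprime m p) (hA : ∀ a : A, p • a = 0) {h : G}
    (hm : h ^ m = 1) {X Y : AddSubgroup A}
    (hX : ∀ (g : G) (v : A), v ∈ X → g • v ∈ X)
    (hY : ∀ (g : G) (v : A), v ∈ Y → g • v ∈ Y) (hXY : Y ≤ X) (hf : fixA h X Y) :
    2 * Nat.card (Y ⊓ fx h : AddSubgroup A) ≤ Nat.card (X ⊓ fx h : AddSubgroup A) := by
  obtain ⟨v, hvX, hvY, hv⟩ := hf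
  obtain ⟨w, hwX, hw, hwv⟩ := exists_fix hpm hA hm hX hY hvX hv
  have hwY : w ∉ Y := fun h1 => hvY (by
    have : v = w - (w - v) := by abel
    rw [this]
    exact Y.sub_mem h1 hwv)
  have hle : (Y ⊓ fx h : AddSubgroup A) ≤ X ⊓ fx h := inf_le_inf_right _ hXY
  have hne : (Y ⊓ fx h : AddSubgroup A) ≠ X ⊓ fx h := by
    intro he
    have h1 : w ∈ (Y ⊓ fx h : AddSubgroup A) := by
      rw [he]
      exact ⟨hwX, hw⟩
    exact hwY h1.1
  obtain ⟨t, ht⟩ := AddSubgroup.card_dvd_of_le hle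
  have h1 : t ≠ 1 := by
    intro h3
    rw [h3, mul_one] at ht
    exact hne (AddSubgroup.eq_of_le_of_card_ge hle ht.le)
  have h3 : t ≠ 0 := by
    intro h4
    rw [h4, mul_zero] at ht
    exact (Nat.card_pos (α := (X ⊓ fx h : AddSubgroup A))).ne' ht
  rw [ht, mul_comm 2]
  exact Nat.mul_le_mul_left _ (by omega)

theorem card_T {p m : ℕ} (hpm : Nat.Coprime m p) (hA : ∀ a : A, p • a = 0) {h : G}
    (hm : h ^ m = 1) {F : ℕ → AddSubgroup A} (hF : Antitone F)
    (hst : ∀ (i : ℕ) (g : G) (v : A), v ∈ F i → g • v ∈ F i) (h0 : F 0 = ⊤) (T : Finset ℕ)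
    (hT : ∀ i ∈ T, fixA h (F i) (F (i + 1))) (n : ℕ) :
    2 ^ (T.filter (· < n)).card * Nat.card (F n ⊓ fx h : AddSubgroup A) ≤
      Nat.card (fx h : AddSubgroup A) := by
  induction n with
  | zero =>
    have : T.filter (· < 0) = ∅ := Finset.filter_false_of_mem fun i _ => Nat.not_lt_zero i
    rw [this, Finset.card_empty, pow_zero, one_mul, h0, top_inf_eq]
  | succ n ih =>
    by_cases hn : n ∈ T
    · have h1 : T.filter (· < n + 1) = insert n (T.filter (· < n)) := by
        ext i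
        simp only [Finset.mem_filter, Finset.mem_insert]
        constructor
        · rintro ⟨h1, h2⟩
          rcases Nat.lt_succ_iff_lt_or_eq.1 h2 with h3 | h3
          · exact Or.inr ⟨h1, h3⟩
          · exact Or.inl h3
        · rintro (rfl | ⟨h1, h2⟩)
          · exact ⟨hn, Nat.lt_succ_self _⟩
          · exact ⟨h1, by omega⟩
      rw [h1, Finset.card_insert_of_notMem (by simp), pow_succ, mul_assoc]
      refine (Nat.mul_le_mul_left _ ?_).trans ih
      exact two_mul_card_le hpm hA hm (hst n) (hst (n + 1)) (hF (Nat.le_succ n)) (hT n hn)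
    · have h1 : T.filter (· < n + 1) = T.filter (· < n) := by
        ext i
        simp only [Finset.mem_filter]
        constructor
        · rintro ⟨h1, h2⟩
          refine ⟨h1, ?_⟩
          rcases Nat.lt_succ_iff_lt_or_eq.1 h2 with h3 | h3
          · exact h3
          · exact absurd (h3 ▸ h1) hn
        · rintro ⟨h1, h2⟩
          exact ⟨h1, by omega⟩
      rw [h1]
      refine (Nat.mul_le_mul_left _ ?_).trans ih
      exact Nat.card_le_card_of_injective
        (fun v : (F (n + 1) ⊓ fx h : AddSubgroup A) =>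
          (⟨v.1, ⟨hF (Nat.le_succ n) v.2.1, v.2.2⟩⟩ : (F n ⊓ fx h : AddSubgroup A)))
        (fun v w hvw => by
          simp only [Subtype.mk.injEq] at hvw
          exact Subtype.ext hvw)

end

end D1

open D1 in
/-- Theorem H for a single element -/
theorem d1 : SD1.{u} := by
  intro p m hp G A _ _ _ _ _ F g hA hch
  obtain ⟨a, m', e, e', hpm, hex⟩ := exps G p
  obtain ⟨hm, hx, hge⟩ := hex g
  have hcomm : Commute (g ^ e') (g ^ e) := (Commute.refl g).pow_pow e' e
  have hcard := card_fx_le hA hge hcomm hx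
  have hC : (0 : ℝ) < Nat.card {a : A // g • a = a} := by
    exact_mod_cast card_fixed_pos (A := A) g
  have hLh : Real.logb 2 (Nat.card (fx (g ^ e) : AddSubgroup A)) ≤
      Real.logb 2 (Nat.card {a : A // g • a = a}) * ordA A g := by
    have h1 : ((Nat.card (fx (g ^ e) : AddSubgroup A) : ℕ) : ℝ) ≤
        (Nat.card {a : A // g • a = a} : ℝ) ^ ordA A g := by exact_mod_cast hcard
    refine (Real.logb_le_logb_of_le one_lt_two (card_pos' _) h1).trans ?_
    rw [Real.logb_pow, mul_comm]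
  refine ⟨g ^ e, ?_, ?_, Real.logb 2 (Nat.card (fx (g ^ e) : AddSubgroup A)), ?_, ?_, ?_, hLh,
    ?_, ?_⟩
  · exact Nat.Coprime.coprime_dvd_left (orderOf_dvd_iff_pow_eq_one.2 hm) hpm
  · rintro i ⟨v, hv1, hv2, hv3⟩
    exact ⟨v, hv1, hv2, pow_sub_mem (hch.stab (i + 1)) hv3 e⟩
  · exact Real.logb_nonneg one_lt_two (one_le_card _)
  · intro T hT
    have hTm : T.filter (· < m) = T := by
      refine Finset.filter_true_of_mem fun i hi => ?_
      by_contra hc
      push Not at hc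
      obtain ⟨v, hv1, hv2, _⟩ := hT i hi
      have h1 : v ∈ F m := hch.anti hc hv1
      rw [hch.bot, AddSubgroup.mem_bot] at h1
      rw [h1] at hv2
      exact hv2 (F (i + 1)).zero_mem
    have h1 := card_T hpm hA hm hch.anti hch.stab hch.top T hT m
    rw [hTm] at h1
    have h2 : 2 ^ T.card ≤ Nat.card (fx (g ^ e) : AddSubgroup A) := by
      refine le_trans ?_ h1
      exact Nat.le_mul_of_pos_right _ Nat.card_pos
    have h3 : ((2 : ℝ) ^ T.card) ≤ Nat.card (fx (g ^ e) : AddSubgroup A) := by exact_mod_cast h2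
    have h4 := Real.logb_le_logb_of_le one_lt_two (by positivity) h3
    rwa [Real.logb_pow, Real.logb_self_eq_one one_lt_two, mul_one] at h4
  · intro hpos
    have h1 : 0 < Real.logb 2 (Nat.card {a : A // g • a = a}) * ordA A g :=
      lt_of_lt_of_le hpos hLh
    have h2 : Real.logb 2 (Nat.card {a : A // g • a = a}) ≠ 0 := by
      intro h3
      rw [h3, zero_mul] at h1
      exact lt_irrefl _ h1
    have h3 : Nat.card {a : A // g • a = a} ≠ 1 := by
      intro h4
      rw [h4, Nat.cast_one, Real.logb_one] at h2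
      exact h2 rfl
    have h5 : 0 < Nat.card {a : A // g • a = a} := card_fixed_pos g
    have h6 : (2 : ℝ) ≤ Nat.card {a : A // g • a = a} := by
      have : 2 ≤ Nat.card {a : A // g • a = a} := by omega
      exact_mod_cast this
    have h7 := Real.logb_le_logb_of_le one_lt_two (by norm_num) h6
    rwa [Real.logb_self_eq_one one_lt_two] at h7
  · intro i j hij
    exact ⟨lf_nonneg g (hch.stab j) (hch.anti hij), lf_le g (hch.stab j) (hch.anti hij)⟩
  · intro s n
    set f : ℕ → ℝ := fun k => Real.logb 2 (Nat.card (F (k * s) ⊓ fx (g ^ e) : AddSubgroup A))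
      with hf
    have h1 : ∀ k ∈ Finset.range n, lf g (F (k * s)) (F ((k + 1) * s)) ≤ f k - f (k + 1) := by
      intro k _
      exact lf_tel hpm hA hm rfl (hch.stab _) (hch.stab _)
        (hch.anti (Nat.mul_le_mul_right s (Nat.le_succ k)))
    refine (Finset.sum_le_sum h1).trans ?_
    rw [Finset.sum_range_sub']
    have h2 : f 0 = Real.logb 2 (Nat.card (fx (g ^ e) : AddSubgroup A)) := by
      simp only [hf]
      rw [zero_mul, hch.top, top_inf_eq]
    have h3 : 0 ≤ f n := Real.logb_nonneg one_lt_two (one_le_card _)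
    rw [h2]
    linarith

end H48.CN
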