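import Pool.Agent.H48.CN.Stm

/-!
Class numbers of finite solvable groups: the numerical inequality of Theorem H (helper63).
-/

namespace H48.CN

/-- convexity -/
private theorem d2_conv {x lam : ℝ} (hx : 0 ≤ x) (hxl : x ≤ lam) (hl : 0 < lam) :
    (2 : ℝ) ^ x - 1 ≤ x / lam * ((2 : ℝ) ^ lam - 1) := by
  have h1 : 0 ≤ 1 - x / lam := by
    rw [sub_nonneg, div_le_one hl]
    exact hxl
  have h2 : 0 ≤ x / lam := by positivity
  have h := (convexOn_rpow_left (b := 2) two_pos).2 (Set.mem_univ (0 : ℝ)) (Set.mem_univ lam)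
    h1 h2 (by ring)
  simp only [smul_eq_mul, mul_zero, zero_add, Real.rpow_zero, mul_one] at h
  rw [div_mul_cancel₀ x hl.ne'] at h
  linarith

/-- `a ≤ 3 * 2 ^ (a / 2)` -/
private theorem d2_half {a : ℝ} (ha : 0 ≤ a) : a ≤ 3 * (2 : ℝ) ^ (a / 2) := by
  have h1 : a / 2 * Real.log 2 + 1 ≤ (2 : ℝ) ^ (a / 2) := by
    rw [Real.rpow_def_of_pos two_pos]
    have := Real.add_one_le_exp (Real.log 2 * (a / 2))
    linarith
  have h2 : (0.6931471803 : ℝ) < Real.log 2 := Real.log_two_gt_d9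
  nlinarith

/-- a sum of a family over a set contained in the union of three sets -/
private theorem d2_three (s : Finset ℕ) (f : ℕ → ℝ) (hf : ∀ j ∈ s, 0 ≤ f j) (p q r : ℕ → Prop)
    [DecidablePred p] [DecidablePred q] [DecidablePred r] (h : ∀ j ∈ s, p j ∨ q j ∨ r j) :
    ∑ j ∈ s, f j ≤ ∑ j ∈ s.filter p, f j + ∑ j ∈ s.filter q, f j + ∑ j ∈ s.filter r, f j := by
  rw [Finset.sum_filter, Finset.sum_filter, Finset.sum_filter, ← Finset.sum_add_distrib,
    ← Finset.sum_add_distrib]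
  refine Finset.sum_le_sum fun j hj => ?_
  have h0 := hf j hj
  have h1 : 0 ≤ (if p j then f j else 0) := by split_ifs <;> simp [h0]
  have h2 : 0 ≤ (if q j then f j else 0) := by split_ifs <;> simp [h0]
  have h3 : 0 ≤ (if r j then f j else 0) := by split_ifs <;> simp [h0]
  rcases h j hj with h4 | h4 | h4
  · rw [if_pos h4] at h1 ⊢
    linarith
  · rw [if_pos h4] at h2 ⊢
    linarith
  · rw [if_pos h4] at h3 ⊢
    linarith

/-- the number of exponents in a bounded multiplicative window -/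
private theorem d2_count (S : Finset ℕ) (R : ℝ) (hR : 1 ≤ R)
    (h : ∀ i ∈ S, ∀ j ∈ S, (2 : ℝ) ^ i ≤ R * 2 ^ j) : (S.card : ℝ) ≤ 1 + Real.logb 2 R := by
  rcases S.eq_empty_or_nonempty with rfl | hS
  · have := Real.logb_nonneg (b := 2) (by norm_num) hR
    simp
    linarith
  · have h1 := S.min'_mem hS
    have h2 := S.max'_mem hS
    set u := S.min' hS
    set v := S.max' hS
    have huv : u ≤ v := S.min'_le v h2
    have hsub : S ⊆ Finset.Icc u v := fun i hi =>
      Finset.mem_Icc.2 ⟨S.min'_le i hi, S.le_max' i hi⟩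
    have hc := Finset.card_le_card hsub
    rw [Nat.card_Icc] at hc
    have h3 : (2 : ℝ) ^ (v - u) ≤ R := by
      have h4 := h v h2 u h1
      have h5 : (2 : ℝ) ^ v = 2 ^ (v - u) * 2 ^ u := by
        rw [← pow_add]
        congr 1
        omega
      rw [h5] at h4
      exact le_of_mul_le_mul_right h4 (by positivity)
    have h6 : ((v - u : ℕ) : ℝ) ≤ Real.logb 2 R := by
      rw [Real.le_logb_iff_rpow_le (by norm_num) (by linarith), Real.rpow_natCast]
      exact h3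
    have h7 : (S.card : ℝ) ≤ ((v - u : ℕ) : ℝ) + 1 := by
      have : S.card ≤ (v - u) + 1 := by omega
      exact_mod_cast this
    linarith

/-- geometric series -/
private theorem d2_geom (S : Finset ℕ) (y : ℝ) (hy : 0 ≤ y) (h : ∀ j ∈ S, 1 / (2 : ℝ) ^ j ≤ y) :
    ∑ j ∈ S, 1 / (2 : ℝ) ^ j ≤ 2 * y := by
  rcases S.eq_empty_or_nonempty with rfl | hS
  · simpa using hy
  · have h1 := S.min'_mem hS
    set u := S.min' hS
    have hsub : S ⊆ Finset.Ico u (S.max' hS + 1) := fun i hi =>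
      Finset.mem_Ico.2 ⟨S.min'_le i hi, Nat.lt_succ_of_le (S.le_max' i hi)⟩
    calc ∑ j ∈ S, 1 / (2 : ℝ) ^ j ≤ ∑ j ∈ Finset.Ico u (S.max' hS + 1), 1 / (2 : ℝ) ^ j :=
          Finset.sum_le_sum_of_subset_of_nonneg hsub fun _ _ _ => by positivity
      _ = ∑ j ∈ Finset.Ico u (S.max' hS + 1), ((1 : ℝ) / 2) ^ j := by
          refine Finset.sum_congr rfl fun j _ => ?_
          rw [div_pow, one_pow]
      _ ≤ ((1 : ℝ) / 2) ^ u / (1 - 1 / 2) :=
          geom_sum_Ico_le_of_lt_one (by norm_num) (by norm_num)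
      _ = 2 * (1 / (2 : ℝ) ^ u) := by
          rw [div_pow, one_pow]
          ring
      _ ≤ 2 * y := by linarith [h u h1]

theorem d2 : SD2 := by
  classical
  refine ⟨15, by norm_num, ?_⟩
  intro m a L Λ X α hm ha hΛ hX hL hmX hα hsum
  have hm0 : (0 : ℝ) < m := by exact_mod_cast hm
  have hp : (0 : ℝ) < (2 : ℝ) ^ a := by positivity
  set Φ : ℝ := (2 : ℝ) ^ a * L / a with hΦ
  have hΦ0 : 0 < Φ := by positivity
  set f : ℕ → ℝ := fun j => ∑ k ∈ Finset.range (m / 2 ^ j + 1), ((2 : ℝ) ^ (α j k) - 1) with hf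
  have hterm : ∀ j k, 0 ≤ (2 : ℝ) ^ (α j k) - 1 := by
    intro j k
    have := Real.one_le_rpow (by norm_num : (1 : ℝ) ≤ 2) (hα j k).1
    linarith
  have hf0 : ∀ j, 0 ≤ f j := fun j => Finset.sum_nonneg fun k _ => hterm j k
  -- bound by convexity
  have hconv : ∀ (j : ℕ) (lam : ℝ), 0 < lam → (∀ k, α j k ≤ lam) →
      f j ≤ L / lam * ((2 : ℝ) ^ lam - 1) := by
    intro j lam hl h
    have h1 : 0 ≤ ((2 : ℝ) ^ lam - 1) / lam := by
      have := Real.one_le_rpow (by norm_num : (1 : ℝ) ≤ 2) hl.le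
      exact div_nonneg (by linarith) hl.le
    calc f j ≤ ∑ k ∈ Finset.range (m / 2 ^ j + 1), α j k / lam * ((2 : ℝ) ^ lam - 1) :=
          Finset.sum_le_sum fun k _ => d2_conv (hα j k).1 (h k) hl
      _ = (∑ k ∈ Finset.range (m / 2 ^ j + 1), α j k) * (((2 : ℝ) ^ lam - 1) / lam) := by
          rw [Finset.sum_mul]
          refine Finset.sum_congr rfl fun k _ => ?_
          ring
      _ ≤ L * (((2 : ℝ) ^ lam - 1) / lam) := mul_le_mul_of_nonneg_right (hsum j) h1
      _ = L / lam * ((2 : ℝ) ^ lam - 1) := by ring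
  have hlog : 0 ≤ Real.logb 2 (X * Λ) :=
    Real.logb_nonneg (by norm_num) (by nlinarith)
  set s := Finset.range (Nat.log 2 m + 1) with hs
  have hjm : ∀ j ∈ s, (2 : ℝ) ^ j ≤ m := by
    intro j hj
    have h1 : j ≤ Nat.log 2 m := Nat.lt_succ_iff.1 (Finset.mem_range.1 hj)
    have h2 : 2 ^ j ≤ m := Nat.pow_le_of_le_log (by omega) h1
    exact_mod_cast h2
  have hsplit := d2_three s f (fun j _ => hf0 j) (fun j => Λ * 2 ^ j ≤ a / 2)
    (fun j => a / 2 < Λ * 2 ^ j ∧ (2 : ℝ) ^ j ≤ m * a / L) (fun j => m * a / L < (2 : ℝ) ^ j) (by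
      intro j _
      by_cases h1 : Λ * 2 ^ j ≤ a / 2
      · exact Or.inl h1
      · by_cases h2 : (2 : ℝ) ^ j ≤ m * a / L
        · exact Or.inr (Or.inl ⟨not_le.1 h1, h2⟩)
        · exact Or.inr (Or.inr (not_le.1 h2)))
  -- first range
  have r1 : ∑ j ∈ s.filter (fun j => Λ * 2 ^ j ≤ a / 2), f j ≤ 9 * Φ := by
    set S1 := s.filter (fun j => Λ * 2 ^ j ≤ a / 2) with hS1
    have h1 : ∀ j ∈ S1, f j ≤ L / (a / 2) * (2 : ℝ) ^ (a / 2) := by
      intro j hj
      have hj2 := (Finset.mem_filter.1 hj).2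
      have h2 := hconv j (a / 2) (by linarith) fun k => ((hα j k).2.2).trans hj2
      have h3 : 0 ≤ L / (a / 2) := by positivity
      nlinarith
    have h2 : (S1.card : ℝ) ≤ a / 2 + 1 := by
      have hsub : S1 ⊆ Finset.range (⌊a / 2⌋₊ + 1) := by
        intro j hj
        have hj2 := (Finset.mem_filter.1 hj).2
        rw [Finset.mem_range, Nat.lt_succ_iff]
        refine Nat.le_floor ?_
        have h3 : (j : ℝ) ≤ 2 ^ j := by exact_mod_cast (Nat.lt_two_pow_self (n := j)).le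
        have h4 : (0 : ℝ) < 2 ^ j := by positivity
        nlinarith
      have h3 := Finset.card_le_card hsub
      rw [Finset.card_range] at h3
      have h4 : (S1.card : ℝ) ≤ (⌊a / 2⌋₊ : ℝ) + 1 := by exact_mod_cast h3
      have h5 := Nat.floor_le (a := a / 2) (by linarith)
      linarith
    have h3 : ∑ j ∈ S1, f j ≤ S1.card * (L / (a / 2) * (2 : ℝ) ^ (a / 2)) := by
      rw [← nsmul_eq_mul]
      exact Finset.sum_le_card_nsmul _ _ _ h1
    have h4 : 0 ≤ L / (a / 2) * (2 : ℝ) ^ (a / 2) := by positivity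
    have h5 : (S1.card : ℝ) ≤ 3 / 2 * a := by linarith
    have h6 : ∑ j ∈ S1, f j ≤ 3 / 2 * a * (L / (a / 2) * (2 : ℝ) ^ (a / 2)) :=
      h3.trans (mul_le_mul_of_nonneg_right h5 h4)
    have h7 : 3 / 2 * a * (L / (a / 2) * (2 : ℝ) ^ (a / 2)) = 3 * L * (2 : ℝ) ^ (a / 2) := by
      field_simp
    rw [h7] at h6
    refine h6.trans ?_
    have h8 : (2 : ℝ) ^ a = (2 : ℝ) ^ (a / 2) * (2 : ℝ) ^ (a / 2) := by
      rw [← Real.rpow_add two_pos]
      congr 1
      ring
    rw [hΦ, h8]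
    rw [← mul_div_assoc, le_div_iff₀ (by linarith)]
    have h9 := d2_half (a := a) (by linarith)
    have h10 : 0 < (2 : ℝ) ^ (a / 2) := by positivity
    have h11 : 0 ≤ 3 * L * (2 : ℝ) ^ (a / 2) := by positivity
    nlinarith [mul_le_mul_of_nonneg_left h9 h11]
  -- second range
  have r2 : ∑ j ∈ s.filter (fun j => a / 2 < Λ * 2 ^ j ∧ (2 : ℝ) ^ j ≤ m * a / L), f j ≤
      (2 + Real.logb 2 (X * Λ)) * Φ := by
    set S2 := s.filter (fun j => a / 2 < Λ * 2 ^ j ∧ (2 : ℝ) ^ j ≤ m * a / L) with hS2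
    have h1 : ∀ j ∈ S2, f j ≤ Φ := by
      intro j _
      have h2 := hconv j a (by linarith) fun k => (hα j k).2.1
      have h3 : 0 ≤ L / a := by positivity
      have h4 : Φ = L / a * (2 : ℝ) ^ a := by rw [hΦ]; ring
      rw [h4]
      nlinarith
    have h2 : (S2.card : ℝ) ≤ 1 + Real.logb 2 (2 * (X * Λ)) := by
      refine d2_count S2 _ (by nlinarith) ?_
      intro i hi j hj
      have hi2 := (Finset.mem_filter.1 hi).2.2
      have hj2 := (Finset.mem_filter.1 hj).2.1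
      have h3 : (m : ℝ) * a / L ≤ X * a := by
        rw [div_le_iff₀ hL]
        nlinarith
      have h4 : X * a ≤ 2 * (X * Λ) * 2 ^ j := by nlinarith
      linarith
    have h3 : Real.logb 2 (2 * (X * Λ)) = 1 + Real.logb 2 (X * Λ) := by
      rw [Real.logb_mul (by norm_num) (by positivity), Real.logb_self_eq_one (by norm_num)]
    rw [h3] at h2
    calc ∑ j ∈ S2, f j ≤ S2.card * Φ := by
          rw [← nsmul_eq_mul]
          exact Finset.sum_le_card_nsmul _ _ _ h1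
      _ ≤ (2 + Real.logb 2 (X * Λ)) * Φ :=
          mul_le_mul_of_nonneg_right (by linarith) hΦ0.le
  -- third range
  have r3 : ∑ j ∈ s.filter (fun j => m * a / L < (2 : ℝ) ^ j), f j ≤ 4 * Φ := by
    set S3 := s.filter (fun j => m * a / L < (2 : ℝ) ^ j) with hS3
    have h1 : ∀ j ∈ S3, f j ≤ 2 * m * (2 : ℝ) ^ a * (1 / 2 ^ j) := by
      intro j hj
      have hjs := (Finset.mem_filter.1 hj).1
      have h2 : f j ≤ ((m / 2 ^ j + 1 : ℕ) : ℝ) * (2 : ℝ) ^ a := by
        have h3 : f j ≤ ∑ _k ∈ Finset.range (m / 2 ^ j + 1), (2 : ℝ) ^ a := by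
          refine Finset.sum_le_sum fun k _ => ?_
          have := Real.rpow_le_rpow_of_exponent_le (by norm_num : (1 : ℝ) ≤ 2) (hα j k).2.1
          linarith
        rwa [Finset.sum_const, Finset.card_range, nsmul_eq_mul] at h3
      have h3 : ((m / 2 ^ j + 1 : ℕ) : ℝ) ≤ 2 * m * (1 / 2 ^ j) := by
        have h4 : ((m / 2 ^ j : ℕ) : ℝ) ≤ (m : ℝ) / 2 ^ j := by
          have := Nat.cast_div_le (α := ℝ) (m := m) (n := 2 ^ j)
          simpa using this
        have h5 : (1 : ℝ) ≤ (m : ℝ) / 2 ^ j := by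
          rw [one_le_div (by positivity)]
          exact hjm j hjs
        push_cast
        have h6 : 2 * (m : ℝ) * (1 / 2 ^ j) = 2 * (m / 2 ^ j) := by ring
        rw [h6]
        linarith
      calc f j ≤ _ := h2
        _ ≤ 2 * m * (1 / 2 ^ j) * (2 : ℝ) ^ a := mul_le_mul_of_nonneg_right h3 hp.le
        _ = _ := by ring
    have h2 : ∑ j ∈ S3, 1 / (2 : ℝ) ^ j ≤ 2 * (L / (m * a)) := by
      refine d2_geom S3 _ (by positivity) fun j hj => ?_
      have hj2 := (Finset.mem_filter.1 hj).2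
      rw [div_le_div_iff₀ (by positivity) (by positivity)]
      rw [div_lt_iff₀ hL] at hj2
      linarith
    calc ∑ j ∈ S3, f j ≤ ∑ j ∈ S3, 2 * m * (2 : ℝ) ^ a * (1 / 2 ^ j) := Finset.sum_le_sum h1
      _ = 2 * m * (2 : ℝ) ^ a * ∑ j ∈ S3, 1 / (2 : ℝ) ^ j := by rw [Finset.mul_sum]
      _ ≤ 2 * m * (2 : ℝ) ^ a * (2 * (L / (m * a))) :=
          mul_le_mul_of_nonneg_left h2 (by positivity)
      _ = 4 * Φ := by
          rw [hΦ]
          field_simp
          ring
  calc _ = ∑ j ∈ s, f j := rfl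
    _ ≤ _ := hsplit
    _ ≤ 9 * Φ + (2 + Real.logb 2 (X * Λ)) * Φ + 4 * Φ := add_le_add (add_le_add r1 r2) r3
    _ ≤ 15 * (1 + Real.logb 2 (X * Λ)) * Φ := by nlinarith

end H48.CN
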