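import Pool.Agent.H48.CN.Stm

/-!
Class numbers of finite solvable groups: Theorem H.
-/

namespace H48.CN

open H60.KG MulAction

universe u

open Classical in
/-- a nonempty stable set of cosets has on average at least one fixed point -/
private theorem d3_burn {G A : Type u} [Group G] [Fintype G] [AddCommGroup A] [Fintype A]
    [DistribMulAction G A] (D : Set A) (Y : AddSubgroup A)
    (hY : ∀ (g : G) (v : A), v ∈ Y → g • v ∈ Y) (hD : ∀ (g : G) (v : A), v ∈ D → g • v ∈ D)
    (hDY : ∀ v ∈ D, ∀ y ∈ Y, v + y ∈ D) (hne : D.Nonempty) :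
    Fintype.card G * Nat.card Y ≤
      ∑ g : G, (Finset.univ.filter (fun v : A => v ∈ D ∧ g • v - v ∈ Y)).card := by
  obtain ⟨v0, hv0⟩ := hne
  have hYc : ∀ w : A, (Finset.univ.filter (fun v : A => v - w ∈ Y)).card = Nat.card Y := by
    intro w
    rw [Nat.card_eq_fintype_card, ← Fintype.card_subtype]
    refine Fintype.card_congr ⟨fun v => ⟨v.1 - w, v.2⟩, fun y => ⟨y.1 + w, ?_⟩, ?_, ?_⟩
    · rw [add_sub_cancel_right]
      exact y.2
    · intro v
      simp
    · intro y
      simp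
  have h1 : Fintype.card G * Nat.card Y =
      ∑ g : G, (Finset.univ.filter (fun v : A => v - g • v0 ∈ Y)).card := by
    rw [Finset.sum_congr rfl (fun g _ => hYc (g • v0)), Finset.sum_const, smul_eq_mul]
    rfl
  have h2 : ∑ g : G, (Finset.univ.filter (fun v : A => v - g • v0 ∈ Y)).card =
      ∑ v : A, (Finset.univ.filter (fun g : G => v - g • v0 ∈ Y)).card := by
    simp only [Finset.card_filter]
    exact Finset.sum_comm
  have h3 : ∑ g : G, (Finset.univ.filter (fun v : A => v ∈ D ∧ g • v - v ∈ Y)).card =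
      ∑ v : A, (Finset.univ.filter (fun g : G => v ∈ D ∧ g • v - v ∈ Y)).card := by
    simp only [Finset.card_filter]
    exact Finset.sum_comm
  rw [h1, h2, h3]
  refine Finset.sum_le_sum fun v _ => ?_
  rcases (Finset.univ.filter (fun g : G => v - g • v0 ∈ Y)).eq_empty_or_nonempty with h0 | ⟨g1, hg1⟩
  · rw [h0]
    simp
  have hg1' : v - g1 • v0 ∈ Y := (Finset.mem_filter.1 hg1).2
  have hv : v ∈ D := by
    have := hDY _ (hD g1 v0 hv0) _ hg1'
    rwa [add_sub_cancel] at this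
  refine Finset.card_le_card_of_injOn (fun g => g * g1⁻¹) ?_ ?_
  · intro g hg
    have hg' : v - g • v0 ∈ Y := (Finset.mem_filter.1 (Finset.mem_coe.1 hg)).2
    refine Finset.mem_coe.2 (Finset.mem_filter.2 ⟨Finset.mem_univ _, hv, ?_⟩)
    have e1 : (g * g1⁻¹) • v - v = (g * g1⁻¹) • (v - g1 • v0) - (v - g • v0) := by
      rw [smul_sub, smul_smul, mul_assoc, inv_mul_cancel, mul_one]
      abel
    change (g * g1⁻¹) • v - v ∈ Y
    rw [e1]
    exact Y.sub_mem (hY _ _ hg1') hg'
  · intro g _ g' _ hgg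
    exact mul_right_cancel hgg

open Classical in
private theorem d3_block {G A : Type u} [Group G] [AddCommGroup A] [Fintype A]
    [DistribMulAction G A] (F : ℕ → AddSubgroup A) (m : ℕ) (hF : Chain G F m) (g : G) (s k : ℕ)
    (hs : 0 < s) (T' : Finset ℕ) (hT : ∀ i ∈ T', i / s = k) :
    ∑ i ∈ T', (Finset.univ.filter (fun v : A => (v ∈ F i ∧ v ∉ F (i + 1)) ∧
      g • v - v ∈ F ((k + 1) * s))).card + Nat.card (F ((k + 1) * s)) ≤
      cfx g (F (k * s)) (F ((k + 1) * s)) := by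
  have hlo : ∀ i ∈ T', k * s ≤ i := by
    intro i hi
    rw [← hT i hi]
    exact Nat.div_mul_le_self i s
  have hhi : ∀ i ∈ T', i + 1 ≤ (k + 1) * s := by
    intro i hi
    rw [← hT i hi, mul_comm]
    exact Nat.lt_mul_div_succ i hs
  have hdis : (T' : Set ℕ).PairwiseDisjoint (fun i => Finset.univ.filter (fun v : A =>
      (v ∈ F i ∧ v ∉ F (i + 1)) ∧ g • v - v ∈ F ((k + 1) * s))) := by
    have hlt : ∀ i i' : ℕ, i < i' → Disjoint (Finset.univ.filter (fun v : A =>
        (v ∈ F i ∧ v ∉ F (i + 1)) ∧ g • v - v ∈ F ((k + 1) * s))) (Finset.univ.filter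
        (fun v : A => (v ∈ F i' ∧ v ∉ F (i' + 1)) ∧ g • v - v ∈ F ((k + 1) * s))) := by
      intro i i' hii
      rw [Finset.disjoint_left]
      intro v hv hv'
      exact (Finset.mem_filter.1 hv).2.1.2 (hF.anti (by omega : i + 1 ≤ i')
        (Finset.mem_filter.1 hv').2.1.1)
    intro i _ i' _ hne
    rcases lt_or_gt_of_ne hne with h | h
    · exact hlt i i' h
    · exact (hlt i' i h).symm
  rw [← Finset.card_biUnion (fun i hi i' hi' hne => hdis hi hi' hne)]
  have hYc : Nat.card (F ((k + 1) * s)) =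
      (Finset.univ.filter (fun v : A => v ∈ F ((k + 1) * s))).card := by
    rw [Nat.card_eq_fintype_card, ← Fintype.card_subtype]
  have hc : cfx g (F (k * s)) (F ((k + 1) * s)) = (Finset.univ.filter (fun v : A =>
      v ∈ F (k * s) ∧ g • v - v ∈ F ((k + 1) * s))).card := by
    unfold cfx
    rw [Nat.card_eq_fintype_card, ← Fintype.card_subtype]
  rw [hYc, hc, ← Finset.card_union_of_disjoint]
  · refine Finset.card_le_card ?_
    intro v hv
    rw [Finset.mem_union, Finset.mem_biUnion] at hv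
    rw [Finset.mem_filter]
    refine ⟨Finset.mem_univ _, ?_⟩
    rcases hv with ⟨i, hi, hv⟩ | hv
    · have h1 := (Finset.mem_filter.1 hv).2
      exact ⟨hF.anti (hlo i hi) h1.1.1, h1.2⟩
    · have h1 := (Finset.mem_filter.1 hv).2
      exact ⟨hF.anti (Nat.mul_le_mul_right s (Nat.le_succ k)) h1,
        (F ((k + 1) * s)).sub_mem (hF.stab _ g v h1) h1⟩
  · rw [Finset.disjoint_left]
    intro v hv hv'
    rw [Finset.mem_biUnion] at hv
    obtain ⟨i, hi, hv⟩ := hv
    exact (Finset.mem_filter.1 hv).2.1.2 (hF.anti (hhi i hi) (Finset.mem_filter.1 hv').2)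

private theorem d3_step {A : Type u} [AddCommGroup A] [Finite A] {X Y : AddSubgroup A}
    (h : Y ≤ X) : Nat.card X = Y.relIndex X * Nat.card Y := by
  have h1 := AddSubgroup.relIndex_mul_relIndex ⊥ Y X bot_le h
  rw [AddSubgroup.relIndex_bot_left, AddSubgroup.relIndex_bot_left] at h1
  rw [← h1, mul_comm]

private theorem d3_size {G A : Type u} [Group G] [AddCommGroup A] [Finite A]
    [DistribMulAction G A] (F : ℕ → AddSubgroup A) (m Λ : ℕ) (hF : Chain G F m)
    (hidx : ∀ i < m, (F (i + 1)).relIndex (F i) ≤ 2 ^ Λ) (i s : ℕ) :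
    Nat.card (F i) ≤ 2 ^ (Λ * s) * Nat.card (F (i + s)) := by
  induction s with
  | zero => simp
  | succ s ih =>
    refine ih.trans ?_
    have h1 : Nat.card (F (i + s)) ≤ 2 ^ Λ * Nat.card (F (i + s + 1)) := by
      rw [d3_step (hF.anti (Nat.le_succ (i + s)))]
      refine Nat.mul_le_mul_right _ ?_
      rcases lt_or_ge (i + s) m with h2 | h2
      · exact hidx _ h2
      · have h3 : F (i + s) = ⊥ := by
          have := hF.anti h2
          rw [hF.bot] at this
          exact le_bot_iff.1 this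
        have h4 : F (i + s + 1) = ⊥ := by
          have := hF.anti (h2.trans (Nat.le_succ (i + s)))
          rw [hF.bot] at this
          exact le_bot_iff.1 this
        rw [h3, Nat.succ_eq_add_one, h4, AddSubgroup.relIndex_self]
        exact Nat.one_le_two_pow
    calc 2 ^ (Λ * s) * Nat.card (F (i + s)) ≤
        2 ^ (Λ * s) * (2 ^ Λ * Nat.card (F (i + s + 1))) := Nat.mul_le_mul_left _ h1
      _ = 2 ^ (Λ * (s + 1)) * Nat.card (F (i + (s + 1))) := by
          rw [← mul_assoc, ← pow_add, mul_add, mul_one, add_assoc]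

private theorem d3_cfx_pos {G A : Type u} [Group G] [AddCommGroup A] [Finite A]
    [DistribMulAction G A] (g : G) (X Y : AddSubgroup A) : 0 < cfx g X Y := by
  unfold cfx
  have : Nonempty {v : A // v ∈ X ∧ g • v - v ∈ Y} :=
    ⟨⟨0, X.zero_mem, by rw [smul_zero, sub_zero]; exact Y.zero_mem⟩⟩
  exact Nat.card_pos

private theorem d3_cfx_le {G A : Type u} [Group G] [AddCommGroup A] [Finite A]
    [DistribMulAction G A] (g : G) (X Y : AddSubgroup A) : cfx g X Y ≤ Nat.card X := by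
  unfold cfx
  exact Nat.card_le_card_of_injective
    (fun v : {v : A // v ∈ X ∧ g • v - v ∈ Y} => (⟨v.1, v.2.1⟩ : X))
    (fun v w h => Subtype.ext (Subtype.mk.inj h))

private theorem d3_lf_le {G A : Type u} [Group G] [AddCommGroup A] [Finite A]
    [DistribMulAction G A] (F : ℕ → AddSubgroup A) (m Λ : ℕ) (hF : Chain G F m)
    (hidx : ∀ i < m, (F (i + 1)).relIndex (F i) ≤ 2 ^ Λ) (g : G) (k s : ℕ) :
    lf g (F (k * s)) (F ((k + 1) * s)) ≤ (Λ : ℝ) * s := by
  unfold lf
  have h1 := d3_size F m Λ hF hidx (k * s) s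
  have h2 : k * s + s = (k + 1) * s := by ring
  rw [h2] at h1
  have h3 := (d3_cfx_le g (F (k * s)) (F ((k + 1) * s))).trans h1
  have h4 : (0 : ℝ) < Nat.card (F ((k + 1) * s)) := by exact_mod_cast Nat.card_pos
  have h5 : ((cfx g (F (k * s)) (F ((k + 1) * s)) : ℕ) : ℝ) / Nat.card (F ((k + 1) * s)) ≤
      (2 : ℝ) ^ (Λ * s) := by
    rw [div_le_iff₀ h4]
    exact_mod_cast h3
  have h6 : 0 < ((cfx g (F (k * s)) (F ((k + 1) * s)) : ℕ) : ℝ) / Nat.card (F ((k + 1) * s)) :=
    div_pos (by exact_mod_cast d3_cfx_pos _ _ _) h4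
  calc Real.logb 2 (((cfx g (F (k * s)) (F ((k + 1) * s)) : ℕ) : ℝ) /
        Nat.card (F ((k + 1) * s))) ≤ Real.logb 2 ((2 : ℝ) ^ (Λ * s)) :=
        Real.logb_le_logb_of_le (by norm_num) h6 h5
    _ = (Λ : ℝ) * s := by
        rw [Real.logb_pow, Real.logb_self_eq_one (by norm_num)]
        push_cast
        ring

private theorem d3_two_lf {G A : Type u} [Group G] [AddCommGroup A] [Finite A]
    [DistribMulAction G A] (g : G) (X Y : AddSubgroup A) :
    (2 : ℝ) ^ (lf g X Y) = (cfx g X Y : ℝ) / Nat.card Y := by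
  unfold lf
  have h4 : (0 : ℝ) < Nat.card Y := by exact_mod_cast Nat.card_pos
  exact Real.rpow_logb (by norm_num) (by norm_num)
    (div_pos (by exact_mod_cast d3_cfx_pos _ _ _) h4)

/-- the sets of levels -/
private theorem d3_sets (T : Finset ℕ) (SS : Finset (Finset ℕ)) (N : ℕ) (hN : 1 ≤ N)
    (hSS : SS.card ≤ N) : ∃ T' : Finset ℕ, T' ⊆ T ∧ 3 * T.card ≤ 4 * T'.card ∧
    ∀ S ∈ SS, ∀ i ∈ T', i ∈ S → T.card ≤ 4 * N * S.card := by
  classical
  set bad := SS.filter (fun S => 4 * N * S.card < T.card) with hbad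
  refine ⟨T \ bad.biUnion id, Finset.sdiff_subset, ?_, ?_⟩
  · have h1 : (bad.biUnion id).card ≤ ∑ S ∈ bad, S.card := Finset.card_biUnion_le
    have h2 : 4 * N * ∑ S ∈ bad, S.card ≤ N * T.card := by
      rw [Finset.mul_sum]
      calc ∑ S ∈ bad, 4 * N * S.card ≤ ∑ S ∈ bad, T.card :=
            Finset.sum_le_sum fun S hS => (Finset.mem_filter.1 hS).2.le
        _ = bad.card * T.card := by rw [Finset.sum_const, smul_eq_mul]
        _ ≤ N * T.card := Nat.mul_le_mul_right _ ((Finset.card_filter_le _ _).trans hSS)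
    have h3 : 4 * (bad.biUnion id).card ≤ T.card := by
      have h4 : N * (4 * (bad.biUnion id).card) ≤ N * T.card := by
        calc N * (4 * (bad.biUnion id).card) = 4 * N * (bad.biUnion id).card := by ring
          _ ≤ 4 * N * ∑ S ∈ bad, S.card := Nat.mul_le_mul_left _ h1
          _ ≤ N * T.card := h2
      exact Nat.le_of_mul_le_mul_left h4 (by omega)
    have h5 := Finset.le_card_sdiff (bad.biUnion id) T
    omega
  · intro S hS i hi hiS
    by_contra hlt
    rw [not_le] at hlt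
    exact (Finset.mem_sdiff.1 hi).2 (Finset.mem_biUnion.2
      ⟨S, Finset.mem_filter.2 ⟨hS, hlt⟩, hiS⟩)

theorem d3 (h1 : SD1.{u}) (h2 : SD2) : SD.{u} := by
  classical
  obtain ⟨C, hC, hnum⟩ := h2
  refine ⟨4 * C, by positivity, ?_⟩
  intro p m K Λ N b _ G A _ _ _ _ _ F T hp hKI hF hΛ hN hb hidx hTm hTne hTlt hmb hcard
  have := Fintype.ofFinite G
  have := Fintype.ofFinite A
  choose h hcop hfix Lh hL0 hLT hLa hLo hlf hsum using fun g : G => h1 p m G A F g hp hF
  have hm1 : 1 ≤ m := by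
    obtain ⟨i, hi⟩ := hTne
    have := Finset.mem_range.1 (hTm hi)
    omega
  have hT1 : 1 ≤ T.card := Finset.card_pos.2 hTne
  -- the family of sets of levels
  set SS : Finset (Finset ℕ) := T.powerset.filter (fun S => S.Nonempty ∧ ∃ h : G,
    (orderOf h).Coprime p ∧ S = T.filter (fun i => fixA h (F i) (F (i + 1)))) with hSSdef
  have hSS : SS.card ≤ N := by
    refine le_trans ?_ hcard
    have e1 : SS.card = ((SS.image (fun S : Finset ℕ => (S : Set ℕ)) :
        Finset (Set ℕ)) : Set (Set ℕ)).ncard := by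
      rw [Set.ncard_coe_finset, Finset.card_image_of_injective _ Finset.coe_injective]
    rw [e1]
    refine Set.ncard_le_ncard ?_ ?_
    · intro S hS
      rw [Finset.mem_coe, Finset.mem_image] at hS
      obtain ⟨S', hS', rfl⟩ := hS
      obtain ⟨_, hne, h', hh', heq⟩ := Finset.mem_filter.1 hS'
      refine ⟨Finset.coe_nonempty.2 hne, h', hh', ?_⟩
      rw [heq]
      ext i
      simp
    · refine (T.finite_toSet.finite_subsets).subset ?_
      rintro S ⟨_, h', _, rfl⟩ i hi
      exact Finset.mem_coe.2 hi.1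
  obtain ⟨T', hT'T, hT'c, hT'g⟩ := d3_sets T SS N hN hSS
  set Tg : G → Finset ℕ := fun g => T.filter (fun i => fixA (h g) (F i) (F (i + 1))) with hTg
  set good : Finset G := Finset.univ.filter (fun g => (Tg g).Nonempty ∧
    T.card ≤ 4 * N * (Tg g).card) with hgood
  set cnt : G → ℕ → ℕ → ℕ := fun g i j => (Finset.univ.filter (fun v : A =>
    (v ∈ F i ∧ v ∉ F (i + 1)) ∧ g • v - v ∈ F ((i / 2 ^ j + 1) * 2 ^ j))).card with hcnt
  have hle : ∀ i j : ℕ, i + 1 ≤ (i / 2 ^ j + 1) * 2 ^ j := fun i j => by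
    rw [mul_comm]
    exact Nat.lt_mul_div_succ i (pow_pos two_pos j)
  have hcard0 : ∀ i : ℕ, (0 : ℝ) < Nat.card (F i) := fun i => by exact_mod_cast Nat.card_pos
  -- only good elements contribute
  have key1 : ∀ i ∈ T', ∀ (j : ℕ) (g : G), g ∉ good → cnt g i j = 0 := by
    intro i hi j g hg
    by_contra hne
    apply hg
    obtain ⟨v, hv⟩ := Finset.card_pos.1 (Nat.pos_of_ne_zero hne)
    have hv' := (Finset.mem_filter.1 hv).2
    have hf : fixA g (F i) (F (i + 1)) := ⟨v, hv'.1.1, hv'.1.2, hF.anti (hle i j) hv'.2⟩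
    have hi2 : i ∈ Tg g := Finset.mem_filter.2 ⟨hT'T hi, hfix g i hf⟩
    have hmem : Tg g ∈ SS := Finset.mem_filter.2 ⟨Finset.mem_powerset.2
      (Finset.filter_subset _ _), ⟨i, hi2⟩, h g, hcop g, rfl⟩
    exact Finset.mem_filter.2 ⟨Finset.mem_univ _, ⟨i, hi2⟩, hT'g _ hmem i hi hi2⟩
  have key2 : ∀ i ∈ T', ∀ j : ℕ, (Fintype.card G : ℝ) ≤
      ∑ g : G, (cnt g i j : ℝ) / Nat.card (F ((i / 2 ^ j + 1) * 2 ^ j)) := by
    intro i hi j
    have hb := d3_burn (G := G) ({v : A | v ∈ F i ∧ v ∉ F (i + 1)})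
      (F ((i / 2 ^ j + 1) * 2 ^ j)) (fun g v hv => hF.stab _ g v hv) ?_ ?_ ?_
    · rw [← Finset.sum_div, le_div_iff₀ (hcard0 _)]
      have hb' : Fintype.card G * Nat.card (F ((i / 2 ^ j + 1) * 2 ^ j)) ≤
          ∑ g : G, cnt g i j := by
        refine hb.trans (le_of_eq (Finset.sum_congr rfl fun g _ => ?_))
        refine congrArg Finset.card ?_
        ext v
        simp only [Finset.mem_filter, Finset.mem_univ, true_and, Set.mem_ofPred_eq]
      exact_mod_cast hb'
    · intro g v hv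
      refine ⟨hF.stab _ g v hv.1, fun hv2 => hv.2 ?_⟩
      have := hF.stab _ g⁻¹ _ hv2
      rwa [inv_smul_smul] at this
    · intro v hv y hy
      have hy1 : y ∈ F (i + 1) := hF.anti (hle i j) hy
      have hy2 : y ∈ F i := hF.anti (Nat.le_succ i) hy1
      refine ⟨(F i).add_mem hv.1 hy2, fun hv2 => hv.2 ?_⟩
      have := (F (i + 1)).sub_mem hv2 hy1
      rwa [add_sub_cancel_right] at this
    · obtain ⟨_, v, hv, hv'⟩ := SetLike.lt_iff_le_and_exists.1 (hTlt i (hT'T hi))
      exact ⟨v, hv, hv'⟩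
  have key3 : ∀ (g : G) (j : ℕ),
      ∑ i ∈ T', (cnt g i j : ℝ) / Nat.card (F ((i / 2 ^ j + 1) * 2 ^ j)) ≤
      ∑ k ∈ Finset.range (m / 2 ^ j + 1),
        ((2 : ℝ) ^ (lf g (F (k * 2 ^ j)) (F ((k + 1) * 2 ^ j))) - 1) := by
    intro g j
    have hmaps : ∀ i ∈ T', i / 2 ^ j ∈ Finset.range (m / 2 ^ j + 1) := by
      intro i hi
      have h3 := Finset.mem_range.1 (hTm (hT'T hi))
      exact Finset.mem_range.2 (Nat.lt_succ_of_le (Nat.div_le_div_right h3.le))
    rw [← Finset.sum_fiberwise_of_maps_to hmaps]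
    refine Finset.sum_le_sum fun k _ => ?_
    have hb := d3_block F m hF g (2 ^ j) k (pow_pos two_pos j)
      (T'.filter (fun i => i / 2 ^ j = k)) (fun i hi => (Finset.mem_filter.1 hi).2)
    have e1 : ∑ i ∈ T'.filter (fun i => i / 2 ^ j = k),
        (cnt g i j : ℝ) / Nat.card (F ((i / 2 ^ j + 1) * 2 ^ j)) =
        (∑ i ∈ T'.filter (fun i => i / 2 ^ j = k), ((Finset.univ.filter (fun v : A =>
          (v ∈ F i ∧ v ∉ F (i + 1)) ∧ g • v - v ∈ F ((k + 1) * 2 ^ j))).card : ℝ)) /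
          Nat.card (F ((k + 1) * 2 ^ j)) := by
      rw [Finset.sum_div]
      refine Finset.sum_congr rfl fun i hi => ?_
      have := (Finset.mem_filter.1 hi).2
      rw [← this]
    rw [e1, d3_two_lf, le_sub_iff_add_le, div_add_one (hcard0 _).ne']
    refine div_le_div_of_nonneg_right ?_ (hcard0 _).le
    exact_mod_cast hb
  -- the upper bound for a good element
  have upper : ∀ g ∈ good, ∑ j ∈ Finset.range (Nat.log 2 m + 1),
      ∑ k ∈ Finset.range (m / 2 ^ j + 1),
        ((2 : ℝ) ^ (lf g (F (k * 2 ^ j)) (F ((k + 1) * 2 ^ j))) - 1) ≤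
      C * (1 + Real.logb 2 (4 * N * b * Λ)) *
        (Nat.card {a : A // g • a = a} * ordA A g : ℕ) := by
    intro g hg
    obtain ⟨_, hgne, hgc⟩ := Finset.mem_filter.1 hg
    have hLge : ((Tg g).card : ℝ) ≤ Lh g :=
      hLT g (Tg g) (fun i hi => (Finset.mem_filter.1 hi).2)
    have hTg1 : (1 : ℝ) ≤ (Tg g).card := by exact_mod_cast Finset.card_pos.2 hgne
    have hLpos : 0 < Lh g := by linarith
    have ha1 := hLa g hLpos
    have hN1 : (1 : ℝ) ≤ N := by exact_mod_cast hN
    have hb1 : (1 : ℝ) ≤ b := by exact_mod_cast hb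
    have hΛ1 : (1 : ℝ) ≤ Λ := by exact_mod_cast hΛ
    have hX : (1 : ℝ) ≤ 4 * N * b := by nlinarith
    have hmX : (m : ℝ) ≤ 4 * N * b * Lh g := by
      have h3 : m ≤ b * (4 * N * (Tg g).card) := hmb.trans (Nat.mul_le_mul_left b hgc)
      have h4 : (m : ℝ) ≤ b * (4 * N * (Tg g).card) := by exact_mod_cast h3
      refine h4.trans ?_
      calc (b : ℝ) * (4 * N * (Tg g).card) = 4 * N * b * (Tg g).card := by ring
        _ ≤ 4 * N * b * Lh g := mul_le_mul_of_nonneg_left hLge (by positivity)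
    have hn := hnum m (Real.logb 2 (Nat.card {a : A // g • a = a})) (Lh g) Λ (4 * N * b)
      (fun j k => lf g (F (k * 2 ^ j)) (F ((k + 1) * 2 ^ j))) hm1 ha1 hΛ1 hX hLpos hmX
      (by
        intro j k
        have h3 := hlf g (k * 2 ^ j) ((k + 1) * 2 ^ j)
          (Nat.mul_le_mul_right _ (Nat.le_succ k))
        refine ⟨h3.1, h3.2, ?_⟩
        have h4 := d3_lf_le F m Λ hF hidx g k (2 ^ j)
        push_cast at h4
        exact h4)
      (fun j => hsum g (2 ^ j) (m / 2 ^ j + 1))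
    refine hn.trans ?_
    have hlog0 : 0 ≤ Real.logb 2 (4 * N * b * Λ) :=
      Real.logb_nonneg (by norm_num) (by nlinarith)
    refine mul_le_mul_of_nonneg_left ?_ (by positivity)
    have hcpos : (0 : ℝ) < Nat.card {a : A // g • a = a} := by
      have : Nonempty {a : A // g • a = a} := ⟨⟨0, smul_zero g⟩⟩
      exact_mod_cast Nat.card_pos
    have h2a : (2 : ℝ) ^ (Real.logb 2 (Nat.card {a : A // g • a = a})) =
        Nat.card {a : A // g • a = a} := Real.rpow_logb (by norm_num) (by norm_num) hcpos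
    rw [h2a, div_le_iff₀ (by linarith)]
    push_cast
    calc (Nat.card {a : A // g • a = a} : ℝ) * Lh g ≤ (Nat.card {a : A // g • a = a} : ℝ) *
          (Real.logb 2 (Nat.card {a : A // g • a = a}) * ordA A g) :=
          mul_le_mul_of_nonneg_left (hLo g) hcpos.le
      _ = _ := by ring
  -- the key inequality
  have hKI' : ∑ g : G, ((Nat.card {a : A // g • a = a} * ordA A g : ℕ) : ℝ) ≤
      (K : ℝ) * Fintype.card G := by
    have h3 := hKI
    unfold KI at h3
    rw [finsum_eq_sum_of_fintype, Nat.card_eq_fintype_card] at h3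
    exact_mod_cast h3
  have hG0 : (0 : ℝ) < Fintype.card G := by exact_mod_cast Fintype.card_pos
  have hN1 : (1 : ℝ) ≤ N := by exact_mod_cast hN
  have hb1 : (1 : ℝ) ≤ b := by exact_mod_cast hb
  have hΛ1 : (1 : ℝ) ≤ Λ := by exact_mod_cast hΛ
  have hNb : (1 : ℝ) ≤ N * b := by nlinarith
  have hNbΛ : (1 : ℝ) ≤ N * b * Λ := by nlinarith
  have hlog4 : Real.logb 2 (4 * N * b * Λ) = 2 + Real.logb 2 (N * b * Λ) := by
    rw [show (4 : ℝ) * N * b * Λ = 4 * (N * b * Λ) by ring,
      Real.logb_mul (by norm_num) (by positivity)]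
    have : Real.logb 2 (4 : ℝ) = 2 := by
      rw [show (4 : ℝ) = 2 ^ (2 : ℕ) by norm_num, Real.logb_pow,
        Real.logb_self_eq_one (by norm_num)]
      norm_num
    rw [this]
  have hlog0 : 0 ≤ Real.logb 2 (N * b * Λ) := Real.logb_nonneg (by norm_num) hNbΛ
  -- combination
  have hmain : ((Nat.log 2 m + 1 : ℕ) : ℝ) * (T'.card * Fintype.card G) ≤
      C * (1 + Real.logb 2 (4 * N * b * Λ)) * (K * Fintype.card G) := by
    have hnn : ∀ g : G, ∀ i j, (0 : ℝ) ≤
        (cnt g i j : ℝ) / Nat.card (F ((i / 2 ^ j + 1) * 2 ^ j)) := fun g i j => by positivity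
    have step1 : ((Nat.log 2 m + 1 : ℕ) : ℝ) * (T'.card * Fintype.card G) ≤
        ∑ j ∈ Finset.range (Nat.log 2 m + 1), ∑ i ∈ T', ∑ g : G,
          (cnt g i j : ℝ) / Nat.card (F ((i / 2 ^ j + 1) * 2 ^ j)) := by
      calc ((Nat.log 2 m + 1 : ℕ) : ℝ) * (T'.card * Fintype.card G) =
          ∑ j ∈ Finset.range (Nat.log 2 m + 1), ∑ i ∈ T', (Fintype.card G : ℝ) := by
            rw [Finset.sum_const, Finset.sum_const, Finset.card_range, nsmul_eq_mul,
              nsmul_eq_mul]
        _ ≤ _ := Finset.sum_le_sum fun j _ => Finset.sum_le_sum fun i hi => key2 i hi j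
    have step2 : ∑ j ∈ Finset.range (Nat.log 2 m + 1), ∑ i ∈ T', ∑ g : G,
          (cnt g i j : ℝ) / Nat.card (F ((i / 2 ^ j + 1) * 2 ^ j)) =
        ∑ g ∈ good, ∑ j ∈ Finset.range (Nat.log 2 m + 1), ∑ i ∈ T',
          (cnt g i j : ℝ) / Nat.card (F ((i / 2 ^ j + 1) * 2 ^ j)) := by
      rw [Finset.sum_comm (s := good)]
      refine Finset.sum_congr rfl fun j _ => ?_
      rw [Finset.sum_comm (s := good)]
      refine Finset.sum_congr rfl fun i hi => ?_
      refine (Finset.sum_subset (Finset.subset_univ good) fun g _ hg => ?_).symm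
      rw [key1 i hi j g hg]
      simp
    rw [step2] at step1
    refine step1.trans ?_
    calc ∑ g ∈ good, ∑ j ∈ Finset.range (Nat.log 2 m + 1), ∑ i ∈ T',
          (cnt g i j : ℝ) / Nat.card (F ((i / 2 ^ j + 1) * 2 ^ j)) ≤
        ∑ g ∈ good, C * (1 + Real.logb 2 (4 * N * b * Λ)) *
          (Nat.card {a : A // g • a = a} * ordA A g : ℕ) :=
          Finset.sum_le_sum fun g hg =>
            (Finset.sum_le_sum fun j _ => key3 g j).trans (upper g hg)
      _ ≤ ∑ g : G, C * (1 + Real.logb 2 (4 * N * b * Λ)) *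
          (Nat.card {a : A // g • a = a} * ordA A g : ℕ) := by
          refine Finset.sum_le_sum_of_subset_of_nonneg (Finset.subset_univ good) ?_
          intro g _ _
          rw [hlog4]
          positivity
      _ = C * (1 + Real.logb 2 (4 * N * b * Λ)) *
          ∑ g : G, ((Nat.card {a : A // g • a = a} * ordA A g : ℕ) : ℝ) := by
          rw [Finset.mul_sum]
      _ ≤ C * (1 + Real.logb 2 (4 * N * b * Λ)) * (K * Fintype.card G) := by
          refine mul_le_mul_of_nonneg_left hKI' ?_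
          rw [hlog4]
          positivity
  have hmain2 : ((Nat.log 2 m + 1 : ℕ) : ℝ) * T'.card ≤
      C * (1 + Real.logb 2 (4 * N * b * Λ)) * K := by
    refine le_of_mul_le_mul_right ?_ hG0
    calc ((Nat.log 2 m + 1 : ℕ) : ℝ) * T'.card * Fintype.card G =
          ((Nat.log 2 m + 1 : ℕ) : ℝ) * (T'.card * Fintype.card G) := by ring
      _ ≤ _ := hmain
      _ = _ := by ring
  have hlogm : Real.logb 2 m ≤ ((Nat.log 2 m + 1 : ℕ) : ℝ) := by
    rw [Real.logb_le_iff_le_rpow (by norm_num) (by exact_mod_cast hm1), Real.rpow_natCast]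
    exact_mod_cast (Nat.lt_pow_succ_log_self (by norm_num) m).le
  have hlogm0 : 0 ≤ Real.logb 2 (m : ℝ) :=
    Real.logb_nonneg (by norm_num) (by exact_mod_cast hm1)
  have hT'c' : 3 * (T.card : ℝ) ≤ 4 * T'.card := by exact_mod_cast hT'c
  rw [hlog4] at hmain2
  have hK0 : (0 : ℝ) ≤ K := Nat.cast_nonneg K
  calc (T.card : ℝ) * Real.logb 2 m ≤ (4 / 3 * T'.card) * ((Nat.log 2 m + 1 : ℕ) : ℝ) := by
        refine mul_le_mul (by linarith) hlogm hlogm0 (by positivity)
    _ = 4 / 3 * (((Nat.log 2 m + 1 : ℕ) : ℝ) * T'.card) := by ring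
    _ ≤ 4 / 3 * (C * (1 + (2 + Real.logb 2 (N * b * Λ))) * K) := by linarith
    _ ≤ 4 * C * (1 + Real.logb 2 ((N : ℝ) * b * Λ)) * K := by
        have h3 : 0 ≤ C * Real.logb 2 ((N : ℝ) * b * Λ) * K := by positivity
        nlinarith

end H48.CN
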