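import Pool.Agent.H60.KG.Fin
import Pool.Agent.H60.KG.Cor

/-!
Class numbers of finite solvable groups: definitions.
-/

namespace H48.CN

open H60.KG MulAction

universe u

/-- the number of conjugacy classes -/
noncomputable abbrev kc (G : Type*) [Group G] : ℕ := Nat.card (ConjClasses G)

/-- the number of conjugacy classes of elements of order prime to `p` -/
noncomputable def kp (p : ℕ) (G : Type*) [Group G] : ℕ :=
  Nat.card {c : ConjClasses G // ∃ g : G, ConjClasses.mk g = c ∧ (orderOf g).Coprime p}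

/-- the kernel of an action -/
def aker (H V : Type*) [Group H] [AddCommGroup V] [DistribMulAction H V] : Subgroup H where
  carrier := {h | ∀ v : V, h • v = v}
  mul_mem' := by
    intro a b ha hb v
    rw [mul_smul, hb v, ha v]
  one_mem' := fun v => one_smul H v
  inv_mem' := by
    intro a ha v
    rw [inv_smul_eq_iff]
    exact (ha v).symm

/-- pairs of a nonzero vector and an element of order prime to `p` fixing it -/
def PairS (p : ℕ) (H V : Type*) [Group H] [AddCommGroup V] [DistribMulAction H V] : Type _ :=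
  {x : V × H // x.1 ≠ 0 ∧ (orderOf x.2).Coprime p ∧ x.2 • x.1 = x.1}

/-- the number of orbits on such pairs -/
noncomputable def kappa (p : ℕ) (H V : Type*) [Group H] [AddCommGroup V]
    [DistribMulAction H V] : ℕ :=
  Nat.card (Quot (fun x y : PairS p H V =>
    ∃ g : H, g • x.1.1 = y.1.1 ∧ g * x.1.2 * g⁻¹ = y.1.2))

/-- order of `g` as a permutation of `A` -/
noncomputable def ordA (A : Type*) {G : Type*} [Group G] [MulAction G A] (g : G) : ℕ :=
  orderOf (MulAction.toPermHom G A g)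

/-- the key inequality -/
def KI (G A : Type*) [Group G] [AddCommGroup A] [DistribMulAction G A] (K : ℕ) : Prop :=
  ∑ᶠ g : G, Nat.card {a : A // g • a = a} * ordA A g ≤ K * Nat.card G

/-- `g` fixes a nonzero vector of `X / Y` -/
def fixA {G A : Type*} [Group G] [AddCommGroup A] [DistribMulAction G A] (g : G)
    (X Y : AddSubgroup A) : Prop := ∃ v ∈ X, v ∉ Y ∧ g • v - v ∈ Y

/-- the number of `v` in `X` fixed by `g` modulo `Y` -/
noncomputable def cfx {G A : Type*} [Group G] [AddCommGroup A] [DistribMulAction G A] (g : G)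
    (X Y : AddSubgroup A) : ℕ := Nat.card {v : A // v ∈ X ∧ g • v - v ∈ Y}

/-- the logarithm of the number of fixed points of `g` on `X / Y` (for `Y ≤ X`) -/
noncomputable def lf {G A : Type*} [Group G] [AddCommGroup A] [DistribMulAction G A] (g : G)
    (X Y : AddSubgroup A) : ℝ := Real.logb 2 ((cfx g X Y : ℝ) / Nat.card Y)

/-- the number of nonzero orbits of `G` on `X / Y` -/
noncomputable def rorb (G : Type*) {A : Type*} [Group G] [AddCommGroup A] [DistribMulAction G A]
    (X Y : AddSubgroup A) : ℕ :=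
  Nat.card (Quot (fun a b : {a : A // a ∈ X ∧ a ∉ Y} => ∃ g : G, g • a.1 - b.1 ∈ Y))

/-- the subgroup `p ^ i A` -/
def pw (A : Type*) [AddCommGroup A] (p i : ℕ) : AddSubgroup A :=
  (nsmulAddMonoidHom (p ^ i) : A →+ A).range

/-- a chain of stable subgroups -/
structure Chain (G : Type*) {A : Type*} [Group G] [AddCommGroup A] [DistribMulAction G A]
    (F : ℕ → AddSubgroup A) (m : ℕ) : Prop where
  anti : Antitone F
  top : F 0 = ⊤
  bot : F m = ⊥
  stab : ∀ (i : ℕ) (g : G) (v : A), v ∈ F i → g • v ∈ F i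

/-- `V` is the factor `M / N` of `G`, as a module of `H`, where `π : G →* H`. -/
structure IsFac {G H : Type*} [Group G] [Group H] (π : G →* H) (N M : Subgroup G)
    {V : Type*} [AddCommGroup V] [DistribMulAction H V] (φ : G → V) : Prop where
  nN : N.Normal
  nM : M.Normal
  le : N ≤ M
  surj : ∀ v : V, ∃ x ∈ M, φ x = v
  add : ∀ x ∈ M, ∀ y ∈ M, φ (x * y) = φ x + φ y
  ker : ∀ x ∈ M, (φ x = 0 ↔ x ∈ N)
  equi : ∀ g : G, ∀ x ∈ M, φ (g * x * g⁻¹) = π g • φ x

namespace IsFac

variable {G H : Type*} [Group G] [Group H] {π : G →* H} {N M : Subgroup G}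
    {V : Type*} [AddCommGroup V] [DistribMulAction H V] {φ : G → V}

theorem map_one (h : IsFac π N M φ) : φ 1 = 0 := (h.ker 1 M.one_mem).mpr N.one_mem

theorem map_inv (h : IsFac π N M φ) {x : G} (hx : x ∈ M) : φ x⁻¹ = - φ x := by
  have h1 := h.add x hx x⁻¹ (M.inv_mem hx)
  rw [mul_inv_cancel, h.map_one] at h1
  exact (neg_eq_of_add_eq_zero_right h1.symm).symm

theorem map_pow (h : IsFac π N M φ) {x : G} (hx : x ∈ M) (n : ℕ) : φ (x ^ n) = n • φ x := by
  induction n with
  | zero => rw [pow_zero, h.map_one, zero_smul]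
  | succ n ih => rw [pow_succ, h.add _ (M.pow_mem hx n) _ hx, ih, succ_nsmul]

theorem eq_iff (h : IsFac π N M φ) {x y : G} (hx : x ∈ M) (hy : y ∈ M) :
    φ x = φ y ↔ x * y⁻¹ ∈ N := by
  rw [← h.ker _ (M.mul_mem hx (M.inv_mem hy)), h.add _ hx _ (M.inv_mem hy), h.map_inv hy,
    ← sub_eq_add_neg, sub_eq_zero]

/-- the image of a subgroup `X` (more precisely of `M ⊓ X`) in the factor -/
def im (h : IsFac π N M φ) (X : Subgroup G) : AddSubgroup V where
  carrier := {v | ∃ x ∈ M, x ∈ X ∧ φ x = v}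
  add_mem' := by
    rintro a b ⟨x, hx, hx', rfl⟩ ⟨y, hy, hy', rfl⟩
    exact ⟨x * y, M.mul_mem hx hy, X.mul_mem hx' hy', h.add x hx y hy⟩
  zero_mem' := ⟨1, M.one_mem, X.one_mem, h.map_one⟩
  neg_mem' := by
    rintro a ⟨x, hx, hx', rfl⟩
    exact ⟨x⁻¹, M.inv_mem hx, X.inv_mem hx', h.map_inv hx⟩

/-- the preimage of a subgroup of the factor -/
def pre (h : IsFac π N M φ) (B : AddSubgroup V) : Subgroup G where
  carrier := {x | x ∈ M ∧ φ x ∈ B}
  mul_mem' := by
    rintro x y ⟨hx, hx'⟩ ⟨hy, hy'⟩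
    exact ⟨M.mul_mem hx hy, by rw [h.add x hx y hy]; exact B.add_mem hx' hy'⟩
  one_mem' := ⟨M.one_mem, by rw [h.map_one]; exact B.zero_mem⟩
  inv_mem' := by
    rintro x ⟨hx, hx'⟩
    exact ⟨M.inv_mem hx, by rw [h.map_inv hx]; exact B.neg_mem hx'⟩

end IsFac

/-- `h` fixes a nontrivial element of `M / N` -/
def fixLev {G : Type*} [Group G] (N M : Subgroup G) (h : G) : Prop :=
  ∃ x ∈ M, x ∉ N ∧ h * x * h⁻¹ * x⁻¹ ∈ N

/-- a series of normal subgroups of `G` ending with `⊥`, all of whose factors are chief factors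
of `G`, starting with a normal `p`-subgroup -/
structure Base (G : Type u) [Group G] (p : ℕ) where
  Q : ℕ → Subgroup G
  len : ℕ
  normal : ∀ i, (Q i).Normal
  anti : Antitone Q
  lt : ∀ i < len, Q (i + 1) < Q i
  bot : Q len = ⊥
  pg : IsPGroup p (Q 0)
  chief : ∀ i < len, ∀ X : Subgroup G, X.Normal → Q (i + 1) ≤ X → X ≤ Q i →
    X = Q (i + 1) ∨ X = Q i

open Classical in
/-- the levels of the series met by `L` -/
noncomputable def Base.I {G : Type u} [Group G] {p : ℕ} (b : Base G p) (L : Subgroup G) :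
    Finset ℕ :=
  (Finset.range b.len).filter (fun i => L ⊓ b.Q i ≠ L ⊓ b.Q (i + 1))

/-- the number of levels in `T` of the section `L / M` -/
noncomputable def Base.rho {G : Type u} [Group G] {p : ℕ} (b : Base G p) (T : Finset ℕ)
    (M L : Subgroup G) : ℕ := (T ∩ (b.I L \ b.I M)).card

/-- the number of distinct nonempty sets of levels in `T` in which an element of order prime to
`p` has nontrivial fixed points -/
noncomputable def Base.nset {G : Type u} [Group G] {p : ℕ} (b : Base G p) (T : Finset ℕ) : ℕ :=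
  Set.ncard {S : Set ℕ | S.Nonempty ∧ ∃ h : G, (orderOf h).Coprime p ∧
    S = {i | i ∈ T ∧ fixLev (b.Q (i + 1)) (b.Q i) h}}

/-- abelian section of `G` -/
structure AbSec {G : Type*} [Group G] (M L : Subgroup G) : Prop where
  nM : M.Normal
  nL : L.Normal
  le : M ≤ L
  ab : ∀ x ∈ L, ∀ y ∈ L, x * y * x⁻¹ * y⁻¹ ∈ M

/-- elementary abelian section of `G` -/
structure ElSec (p : ℕ) {G : Type*} [Group G] (M L : Subgroup G) : Prop extends AbSec M L where
  el : ∀ x ∈ L, x ^ p ∈ M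

/-- `N < M` is a chief factor -/
structure Chief {G : Type*} [Group G] (N M : Subgroup G) : Prop where
  nN : N.Normal
  nM : M.Normal
  lt : N < M
  min : ∀ X : Subgroup G, X.Normal → N ≤ X → X ≤ M → X = N ∨ X = M

/-- all chief factors have order at most `2 ^ Y` -/
def ChiefLe (G : Type*) [Group G] (Y : ℕ) : Prop :=
  ∀ N M : Subgroup G, Chief N M → N.relIndex M ≤ 2 ^ Y

/-- the action of `H` on `V` is one-dimensional semilinear, with linear part `Z` -/
structure OneDim (H V : Type*) [Group H] [AddCommGroup V] [DistribMulAction H V]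
    (Z : Subgroup H) : Prop where
  nZ : Z.Normal
  ker : aker H V ≤ Z
  semi : ∀ z ∈ Z, ∀ v : V, v ≠ 0 → z • v = v → z ∈ aker H V
  comm : ∀ x ∈ Z, ∀ y ∈ Z, x * y * x⁻¹ * y⁻¹ ∈ aker H V
  cyc : ∃ z0 ∈ Z, ∀ z ∈ Z, ∃ n : ℕ, z0 ^ n * z⁻¹ ∈ aker H V
  idx : Z.index ≤ Nat.log 2 (Nat.card V)
  small : ∀ x ∉ Z, (Nat.card {z : H // z ∈ Z ∧ x * z * x⁻¹ * z⁻¹ ∈ aker H V}) ^ 2 ≤
    Nat.card V * (Nat.card (aker H V)) ^ 2

/-- the data of Lemma R -/
structure LevData (p L M B : ℕ) {H : Type*} [Group H] (N Z : Subgroup H)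
    (S : Set (Subgroup H)) : Prop where
  nN : N.Normal
  nZ : Z.Normal
  le : N ≤ Z
  cyc : ∃ z0 ∈ Z, ∀ z ∈ Z, ∃ n : ℕ, z0 ^ n * z⁻¹ ∈ N
  cop : (N.relIndex Z).Coprime p
  idx : Z.index ≤ L
  big : ∀ x ∉ Z, M * Nat.card {z : H // z ∈ Z ∧ x * z * x⁻¹ * z⁻¹ ∈ N} ≤ Nat.card Z
  ne : S.Nonempty
  stN : ∀ X ∈ S, N ≤ X
  stZ : ∀ X ∈ S, X ⊓ Z ≤ N
  stB : ∀ X ∈ S, kp p X ≤ B

/-- the stabilisers of the nonzero vectors -/
def stabs (H V : Type*) [Group H] [AddCommGroup V] [DistribMulAction H V] :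
    Set (Subgroup H) := {X | ∃ v : V, v ≠ 0 ∧ X = MulAction.stabilizer H v}

/-- lower central series of a subgroup -/
def lcs {G : Type*} [Group G] (Q : Subgroup G) : ℕ → Subgroup G
  | 0 => Q
  | n + 1 => ⁅lcs Q n, Q⁆

end H48.CN
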