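import Pool.Agent.H48.CN.Stm

/-!
Class numbers of finite solvable groups, row E1: Lemma W.
-/

namespace H48.CN

open MulAction

universe u

section

variable {A : Type u} [AddCommGroup A]

theorem e1_mem {p i : ℕ} {a : A} : a ∈ pw A p i ↔ ∃ y : A, p ^ i • y = a := Iff.rfl

theorem e1_anti {p i j : ℕ} (h : i ≤ j) {a : A} (ha : a ∈ pw A p j) : a ∈ pw A p i := by
  obtain ⟨y, hy⟩ := e1_mem.1 ha
  obtain ⟨d, rfl⟩ := Nat.exists_eq_add_of_le h
  refine e1_mem.2 ⟨p ^ d • y, ?_⟩
  rw [smul_smul, ← pow_add, hy]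

theorem e1_smul {p i : ℕ} (t : ℕ) {a : A} (ha : a ∈ pw A p i) : p ^ t • a ∈ pw A p (i + t) := by
  obtain ⟨y, hy⟩ := e1_mem.1 ha
  refine e1_mem.2 ⟨y, ?_⟩
  rw [← hy, smul_smul, ← pow_add, add_comm]

theorem e1_unit {p n m : ℕ} (hk : ∀ a : A, p ^ n • a = 0) (hm : m.Coprime (p ^ n))
    (B : AddSubgroup A) {x : A} (h : m • x ∈ B) : x ∈ B := by
  have h1 : (1 : ℤ) = m * Nat.gcdA m (p ^ n) + ((p ^ n : ℕ) : ℤ) * Nat.gcdB m (p ^ n) := by
    have := Nat.gcd_eq_gcd_ab m (p ^ n)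
    rw [Nat.Coprime.gcd_eq_one hm] at this
    exact_mod_cast this
  have h2 : x = (Nat.gcdA m (p ^ n)) • (m • x) := by
    have h3 : ((p ^ n : ℕ) : ℤ) • x = 0 := by
      rw [natCast_zsmul]; exact hk x
    calc x = (1 : ℤ) • x := (one_zsmul x).symm
      _ = (m * Nat.gcdA m (p ^ n) + ((p ^ n : ℕ) : ℤ) * Nat.gcdB m (p ^ n)) • x := by rw [← h1]
      _ = (Nat.gcdA m (p ^ n) * (m : ℤ)) • x + (Nat.gcdB m (p ^ n) * ((p ^ n : ℕ) : ℤ)) • x := by
          rw [← add_smul]; congr 1; ring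
      _ = (Nat.gcdA m (p ^ n)) • (m • x) := by
          rw [mul_smul, mul_smul, h3, smul_zero, add_zero, natCast_zsmul]
  rw [h2]
  exact B.zsmul_mem h _

/-- the sublemma: elements of small order in `p ^ e A` are highly divisible -/
theorem e1_sub {p e w : ℕ} (H : ∀ a : A, p • a = 0 → a ∈ pw A p e → a ∈ pw A p (e + w)) :
    ∀ s : ℕ, s ≤ w → ∀ a : A, a ∈ pw A p e → p ^ (s + 1) • a = 0 → a ∈ pw A p (e + (w - s)) := by
  intro s
  induction s with
  | zero =>
    intro _ a ha h0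
    rw [zero_add, pow_one] at h0
    exact H a h0 ha
  | succ s ih =>
    intro hs a ha h0
    have h1 : p ^ (s + 1) • a ∈ pw A p (e + w) := by
      refine H _ ?_ (e1_anti (Nat.le_add_right e (s + 1)) (e1_smul (s + 1) ha))
      rw [smul_smul, ← pow_succ']
      exact h0
    obtain ⟨y, hy⟩ := e1_mem.1 h1
    set a' := a - p ^ (e + (w - (s + 1))) • y with ha'
    have h2 : p ^ (s + 1) • a' = 0 := by
      rw [ha', smul_sub, smul_smul, ← pow_add,
        show s + 1 + (e + (w - (s + 1))) = e + w by omega, hy, sub_self]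
    have h3 : p ^ (e + (w - (s + 1))) • y ∈ pw A p (e + (w - (s + 1))) := e1_mem.2 ⟨y, rfl⟩
    have h4 : a' ∈ pw A p e := (pw A p e).sub_mem ha (e1_anti (by omega) h3)
    have h5 := ih (by omega) a' h4 h2
    have h6 : a' ∈ pw A p (e + (w - (s + 1))) := e1_anti (by omega) h5
    have h7 : a = a' + p ^ (e + (w - (s + 1))) • y := by rw [ha']; abel
    rw [h7]
    exact (pw A p _).add_mem h6 h3

variable {G : Type u} [Group G] [DistribMulAction G A]

theorem e1_smul_nsmul (g : G) (m : ℕ) (a : A) : g • (m • a) = m • (g • a) :=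
  (DistribSMul.toAddMonoidHom A g).map_nsmul m a

theorem e1_stab {p i : ℕ} (g : G) {a : A} (ha : a ∈ pw A p i) : g • a ∈ pw A p i := by
  obtain ⟨y, hy⟩ := e1_mem.1 ha
  exact e1_mem.2 ⟨g • y, by rw [← e1_smul_nsmul, hy]⟩

theorem e1_ord_smul (g : G) (a : A) : g ^ (ordA A g) • a = a := by
  have h := pow_orderOf_eq_one (MulAction.toPermHom G A g)
  rw [← map_pow] at h
  exact congrArg (fun f : Equiv.Perm A => f a) h

theorem e1_norm_fix (g : G) (w : A) :
    g • (∑ j ∈ Finset.range (ordA A g), g ^ j • w) =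
      ∑ j ∈ Finset.range (ordA A g), g ^ j • w := by
  have h1 : g • (∑ j ∈ Finset.range (ordA A g), g ^ j • w) =
      ∑ j ∈ Finset.range (ordA A g), g ^ (j + 1) • w := by
    rw [Finset.smul_sum]
    refine Finset.sum_congr rfl fun j _ => ?_
    rw [smul_smul, ← pow_succ']
  have h2 := Finset.sum_range_succ (fun j => g ^ j • w) (ordA A g)
  rw [Finset.sum_range_succ', e1_ord_smul, pow_zero, one_smul] at h2
  rw [h1]
  exact add_right_cancel h2

/-- the claim for one element -/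
theorem e1_claim {p n θ i : ℕ} (hp : p.Prime) [Finite A] (hk : ∀ a : A, p ^ n • a = 0)
    (hθ : 1 ≤ θ) (hi : 2 * θ ≤ i)
    (H : ∀ a : A, p • a = 0 → a ∈ pw A p (i - 2 * θ) → a ∈ pw A p (i + θ - 2)) (g : G) :
    2 ^ θ * Nat.card {c : A // (c ∈ pw A p (i - 1) ∧ c ∉ pw A p i) ∧ g • c = c} ≤
      Nat.card {a : A // g • a = a} * ordA A g := by
  classical
  have ho : 0 < ordA A g := orderOf_pos _
  have hsub : Nat.card {c : A // (c ∈ pw A p (i - 1) ∧ c ∉ pw A p i) ∧ g • c = c} ≤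
      Nat.card {c : A // c ∈ pw A p (i - 1) ∧ g • c = c} := by
    refine Nat.card_le_card_of_injective (fun c => ⟨c.1, c.2.1.1, c.2.2⟩) ?_
    intro a b hab
    exact Subtype.ext (Subtype.mk.inj hab)
  have hsub2 : Nat.card {c : A // c ∈ pw A p (i - 1) ∧ g • c = c} ≤
      Nat.card {a : A // g • a = a} := by
    refine Nat.card_le_card_of_injective (fun c => ⟨c.1, c.2.2⟩) ?_
    intro a b hab
    exact Subtype.ext (Subtype.mk.inj hab)
  by_cases hbig : 2 ^ θ ≤ ordA A g
  · calc _ ≤ ordA A g * Nat.card {a : A // g • a = a} :=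
          Nat.mul_le_mul hbig (hsub.trans hsub2)
      _ = _ := mul_comm _ _
  rcases isEmpty_or_nonempty {c : A // (c ∈ pw A p (i - 1) ∧ c ∉ pw A p i) ∧ g • c = c} with
    hem | ⟨⟨c, ⟨hc1, hc2⟩, hgc⟩⟩
  · rw [Nat.card_of_isEmpty, mul_zero]
    exact Nat.zero_le _
  push Not at hbig
  obtain ⟨r, o', hpo, ho'⟩ := Nat.exists_eq_pow_mul_and_not_dvd ho.ne' p hp.ne_one
  have hr : r < θ := by
    have h1 : p ^ r ≤ ordA A g := by
      rw [ho']
      exact Nat.le_mul_of_pos_right _ (Nat.pos_of_ne_zero (by rintro rfl; exact hpo (dvd_zero p)))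
    have h2 : 2 ^ θ ≤ p ^ θ := Nat.pow_le_pow_left hp.two_le θ
    exact (Nat.pow_lt_pow_iff_right hp.one_lt).1 (lt_of_le_of_lt h1 (hbig.trans_le h2))
  obtain ⟨b, hb⟩ := e1_mem.1 hc1
  obtain ⟨e, he⟩ : ∃ e, i = e + 2 * θ := ⟨i - 2 * θ, by omega⟩
  set n0 := ∑ j ∈ Finset.range (ordA A g), g ^ j • (p ^ e • b) with hn0
  have hfix : g • n0 = n0 := e1_norm_fix g _
  have hgj : ∀ j : ℕ, g ^ j • c = c := by
    intro j
    induction j with
    | zero => rw [pow_zero, one_smul]
    | succ j ih => rw [pow_succ, mul_smul, hgc, ih]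
  -- the element z
  set z := n0 - ordA A g • (p ^ e • b) with hz
  have hz0 : p ^ (2 * θ - 1) • z = 0 := by
    have h1 : ∀ j : ℕ, p ^ (2 * θ - 1) • (g ^ j • (p ^ e • b)) = c := by
      intro j
      rw [← e1_smul_nsmul, smul_smul, ← pow_add, show 2 * θ - 1 + e = i - 1 by omega, hb, hgj]
    rw [hz, smul_sub, hn0, Finset.smul_sum, Finset.sum_congr rfl (fun j _ => h1 j),
      Finset.sum_const, Finset.card_range, smul_comm, smul_smul (p ^ (2 * θ - 1)), ← pow_add,
      show 2 * θ - 1 + e = i - 1 by omega, hb, sub_self]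
  have hpe : p ^ e • b ∈ pw A p e := e1_mem.2 ⟨b, rfl⟩
  have hz1 : z ∈ pw A p e := by
    rw [hz, hn0]
    refine (pw A p e).sub_mem ((pw A p e).sum_mem fun j _ => e1_stab _ hpe)
      ((pw A p e).nsmul_mem hpe _)
  have hz2 : z ∈ pw A p (e + θ) := by
    have h1 := e1_sub (p := p) (e := e) (w := 3 * θ - 2) (A := A) (by
      intro a ha0 hae
      have := H a ha0 (by rw [he]; simpa using hae)
      rw [show e + (3 * θ - 2) = i + θ - 2 by omega]
      exact this) (2 * θ - 2) (by omega) z hz1 (by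
        rw [show 2 * θ - 2 + 1 = 2 * θ - 1 by omega]; exact hz0)
    rw [show e + (3 * θ - 2 - (2 * θ - 2)) = e + θ by omega] at h1
    exact h1
  have hn1 : n0 = o' • (p ^ (r + e) • b) + z := by
    rw [hz, ho', mul_comm (p ^ r) o', mul_smul, smul_smul (p ^ r), ← pow_add]
    abel
  have hcop : ∀ m : ℕ, ¬ p ∣ m → m.Coprime (p ^ n) := fun m hm =>
    Nat.Coprime.pow_right n ((Nat.Prime.coprime_iff_not_dvd hp).2 hm).symm
  -- `p ^ t n0` is not highly divisible
  have hA : ∀ t : ℕ, t < θ → p ^ t • n0 ∉ pw A p (i - 1) := by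
    intro t ht hmem
    have h1 : p ^ t • n0 ∈ pw A p (r + e + t + 1) := e1_anti (by omega) hmem
    have h2 : p ^ t • z ∈ pw A p (r + e + t + 1) :=
      e1_anti (by omega) (e1_smul t (e1_anti (show r + e + 1 ≤ e + θ by omega) hz2) :
        p ^ t • z ∈ pw A p (r + e + 1 + t))
    have h3 : o' • (p ^ (r + e + t) • b) ∈ pw A p (r + e + t + 1) := by
      have h4 : o' • (p ^ (r + e + t) • b) = p ^ t • n0 - p ^ t • z := by
        rw [hn1, smul_add, add_sub_cancel_right, smul_comm (p ^ t) o', smul_smul (p ^ t), ← pow_add,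
          add_comm t]
      rw [h4]
      exact (pw A p _).sub_mem h1 h2
    have h5 : o' • c ∈ pw A p i := by
      have h6 := e1_smul (i - 1 - (r + e + t)) h3
      rw [show r + e + t + 1 + (i - 1 - (r + e + t)) = i by omega, smul_comm, smul_smul (p ^ _),
        ← pow_add, show i - 1 - (r + e + t) + (r + e + t) = i - 1 by omega, hb] at h6
      exact h6
    exact hc2 (e1_unit hk (hcop o' hpo) _ h5)
  have hB : ∀ k : ℕ, 0 < k → k < p ^ θ → k • n0 ∉ pw A p (i - 1) := by
    intro k hk0 hk1 hmem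
    obtain ⟨t, k', hpk, hk'⟩ := Nat.exists_eq_pow_mul_and_not_dvd hk0.ne' p hp.ne_one
    have ht : t < θ := by
      have h1 : p ^ t ≤ k := by
        rw [hk']
        exact Nat.le_mul_of_pos_right _ (Nat.pos_of_ne_zero (by rintro rfl; exact hpk (dvd_zero p)))
      exact (Nat.pow_lt_pow_iff_right hp.one_lt).1 (lt_of_le_of_lt h1 hk1)
    rw [hk', mul_comm, mul_smul] at hmem
    exact hA t ht (e1_unit hk (hcop k' hpk) _ hmem)
  -- the injection
  have hinj : p ^ θ * Nat.card {c : A // c ∈ pw A p (i - 1) ∧ g • c = c} ≤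
      Nat.card {a : A // g • a = a} := by
    have h1 : Nat.card (Fin (p ^ θ) × {c : A // c ∈ pw A p (i - 1) ∧ g • c = c}) ≤
        Nat.card {a : A // g • a = a} := by
      refine Nat.card_le_card_of_injective (fun x => ⟨x.1.1 • n0 + x.2.1, by
        rw [smul_add, e1_smul_nsmul, hfix, x.2.2.2]⟩) ?_
      rintro ⟨k, x⟩ ⟨l, y⟩ hxy
      have h2 : k.1 • n0 + x.1 = l.1 • n0 + y.1 := congrArg Subtype.val hxy
      have key : ∀ (k l : Fin (p ^ θ)) (x y : {c : A // c ∈ pw A p (i - 1) ∧ g • c = c}),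
          k.1 • n0 + x.1 = l.1 • n0 + y.1 → ¬ k.1 < l.1 := by
        intro k l x y h hlt
        have h3 : (l.1 - k.1) • n0 = x.1 - y.1 := by
          obtain ⟨d, hd⟩ := Nat.exists_eq_add_of_le hlt.le
          rw [hd, add_smul, add_assoc] at h
          have h' := add_left_cancel h
          rw [hd, Nat.add_sub_cancel_left, h', add_sub_cancel_right]
        exact hB (l.1 - k.1) (by omega) (by have := l.2; omega)
          (h3 ▸ (pw A p (i - 1)).sub_mem x.2.1 y.2.1)
      have h4 : k = l := Fin.ext (le_antisymm (not_lt.1 (key l k y x h2.symm))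
        (not_lt.1 (key k l x y h2)))
      subst h4
      have h5 : x = y := Subtype.ext (add_left_cancel h2)
      rw [h5]
    rwa [Nat.card_prod, Nat.card_eq_fintype_card (α := Fin (p ^ θ)), Fintype.card_fin] at h1
  calc 2 ^ θ * Nat.card {c : A // (c ∈ pw A p (i - 1) ∧ c ∉ pw A p i) ∧ g • c = c}
      ≤ p ^ θ * Nat.card {c : A // c ∈ pw A p (i - 1) ∧ g • c = c} :=
        Nat.mul_le_mul (Nat.pow_le_pow_left hp.two_le θ) hsub
    _ ≤ Nat.card {a : A // g • a = a} := hinj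
    _ ≤ Nat.card {a : A // g • a = a} * ordA A g := Nat.le_mul_of_pos_right _ ho

end

theorem e1 : SE1.{u} := by
  intro p K θ i n hpF G A _ _ _ _ _ hk hKI hθ hi H
  classical
  have hp : p.Prime := hpF.out
  have := Fintype.ofFinite G
  have := Fintype.ofFinite A
  let S : SubMulAction G A :=
    { carrier := {a | a ∈ pw A p (i - 1) ∧ a ∉ pw A p i}
      smul_mem' := by
        intro g a ha
        refine ⟨e1_stab g ha.1, fun h => ha.2 ?_⟩
        have h1 := e1_stab g⁻¹ h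
        rwa [inv_smul_smul] at h1 }
  have hburn := MulAction.sum_card_fixedBy_eq_card_orbits_mul_card_group G S
  have hfix : ∀ g : G, Fintype.card (MulAction.fixedBy S g) =
      Nat.card {c : A // (c ∈ pw A p (i - 1) ∧ c ∉ pw A p i) ∧ g • c = c} := by
    intro g
    rw [← Nat.card_eq_fintype_card]
    refine Nat.card_congr
      { toFun := fun x => ⟨x.1.1, x.1.2, congrArg Subtype.val x.2⟩
        invFun := fun x => ⟨⟨x.1, x.2.1⟩, Subtype.ext x.2.2⟩
        left_inv := fun x => rfl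
        right_inv := fun x => rfl }
  have h1 : 2 ^ θ * (Fintype.card (Quotient (MulAction.orbitRel G S)) * Fintype.card G) ≤
      K * Nat.card G := by
    rw [← hburn, Finset.mul_sum]
    refine le_trans ?_ hKI
    rw [finsum_eq_sum_of_fintype]
    refine Finset.sum_le_sum fun g _ => ?_
    rw [hfix g]
    exact e1_claim hp hk hθ hi H g
  rw [Nat.card_eq_fintype_card, ← mul_assoc] at h1
  have h2 := Nat.le_of_mul_le_mul_right h1 Fintype.card_pos
  refine le_trans (Nat.mul_le_mul_left _ ?_) h2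
  unfold rorb
  rw [← Nat.card_eq_fintype_card]
  refine Nat.card_le_card_of_surjective (Quot.lift (fun a : S => Quot.mk _ (⟨a.1, a.2⟩ :
    {a : A // a ∈ pw A p (i - 1) ∧ a ∉ pw A p i})) ?_) ?_
  · rintro a b ⟨g, hg⟩
    refine (Quot.sound ⟨g, ?_⟩).symm
    have h3 : g • b.1 = a.1 := congrArg Subtype.val hg
    show g • b.1 - a.1 ∈ pw A p i
    rw [h3, sub_self]
    exact (pw A p i).zero_mem
  · intro q
    obtain ⟨a, rfl⟩ := Quot.exists_rep q
    exact ⟨Quot.mk _ ⟨a.1, a.2⟩, rfl⟩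

end H48.CN
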