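import Pool.Agent.H48.CN.Stm

/-!
Part E2: an abelian group with many levels has many orbits (SE2), small facts (SE3).
-/

namespace H48.CN

open H60.KG MulAction

universe u

section basics

variable {A : Type*} [AddCommGroup A]

theorem mem_pw {p i : ℕ} {a : A} : a ∈ pw A p i ↔ ∃ b : A, p ^ i • b = a := by
  unfold pw
  rw [AddMonoidHom.mem_range]
  rfl

theorem pw_mk (p i : ℕ) (b : A) : p ^ i • b ∈ pw A p i := mem_pw.mpr ⟨b, rfl⟩

theorem pw_mk_le (p : ℕ) {i j : ℕ} (h : i ≤ j) (b : A) : p ^ j • b ∈ pw A p i := by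
  refine mem_pw.mpr ⟨p ^ (j - i) • b, ?_⟩
  rw [← mul_smul, ← pow_add]
  congr 2
  omega

theorem gsn {G : Type*} [Group G] [DistribMulAction G A] (g : G) (n : ℕ) (a : A) :
    g • (n • a) = n • (g • a) := (DistribSMul.toAddMonoidHom A g).map_nsmul n a

theorem pw_smul {G : Type*} [Group G] [DistribMulAction G A] (p i : ℕ) (g : G) {a : A}
    (h : a ∈ pw A p i) : g • a ∈ pw A p i := by
  obtain ⟨b, rfl⟩ := mem_pw.mp h
  rw [gsn]
  exact pw_mk p i _

theorem pw_nsmul (p i j : ℕ) {a : A} (h : a ∈ pw A p i) : p ^ j • a ∈ pw A p (i + j) := by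
  obtain ⟨b, rfl⟩ := mem_pw.mp h
  rw [← mul_smul, ← pow_add, add_comm j i]
  exact pw_mk p _ _

/-- equality of classes -/
theorem quot_eq {G : Type*} [Group G] [DistribMulAction G A] {X Y : AddSubgroup A}
    (hY : ∀ (g : G) (v : A), v ∈ Y → g • v ∈ Y) {a b : {a : A // a ∈ X ∧ a ∉ Y}}
    (h : Quot.mk (fun a b : {a : A // a ∈ X ∧ a ∉ Y} => ∃ g : G, g • a.1 - b.1 ∈ Y) a =
      Quot.mk (fun a b : {a : A // a ∈ X ∧ a ∉ Y} => ∃ g : G, g • a.1 - b.1 ∈ Y) b) :
    ∃ g : G, g • a.1 - b.1 ∈ Y := by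
  have h1 := Quot.eqvGen_exact h
  clear h
  induction h1 with
  | rel x y h => exact h
  | refl x => exact ⟨1, by rw [one_smul, sub_self]; exact Y.zero_mem⟩
  | symm x y _ ih =>
    obtain ⟨g, hg⟩ := ih
    refine ⟨g⁻¹, ?_⟩
    have h2 := Y.neg_mem (hY g⁻¹ _ hg)
    rw [smul_sub, inv_smul_smul, neg_sub] at h2
    exact h2
  | trans x y z _ _ ih1 ih2 =>
    obtain ⟨g, hg⟩ := ih1
    obtain ⟨k, hk⟩ := ih2
    refine ⟨k * g, ?_⟩
    have h2 := Y.add_mem (hY k _ hg) hk
    rw [smul_sub, sub_add_sub_cancel, ← mul_smul] at h2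
    exact h2

end basics

/-- the gaps between the jumps -/
theorem f_gap {f : ℕ → ℕ} {J : ℕ} (hf : ∀ j < J, f (j + 1) + 2 ≤ f j) :
    ∀ d l : ℕ, l + d ≤ J → f (l + d) + 2 * d ≤ f l := by
  intro d
  induction d with
  | zero => intro l _; simp
  | succ d ih =>
    intro l h
    have h1 := ih l (by omega)
    have h2 := hf (l + d) (by omega)
    rw [← add_assoc]
    omega

/-- the elements `x` -/
noncomputable def xel {A : Type*} [AddCommGroup A] (p J : ℕ) (z : ℕ → A) (S : Finset ℕ) (a : A) :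
    A := p ^ J • a + ∑ l ∈ S, p ^ (J - l) • z l

theorem pow_xel {A : Type*} [AddCommGroup A] (p J j : ℕ) (z : ℕ → A) (S : Finset ℕ) (a : A) :
    p ^ j • xel p J z S a = p ^ (J + j) • a + ∑ l ∈ S, p ^ (J - l + j) • z l := by
  unfold xel
  rw [smul_add, ← mul_smul, ← pow_add, add_comm j J, Finset.smul_sum]
  congr 1
  refine Finset.sum_congr rfl fun l _ => ?_
  rw [← mul_smul, ← pow_add, add_comm j]

theorem zero_of_le {A : Type*} [AddCommGroup A] {p e e' : ℕ} {z : A} (h : p ^ e • z = 0)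
    (he : e ≤ e') : p ^ e' • z = 0 := by
  have : p ^ e' = p ^ (e' - e) * p ^ e := by
    rw [← pow_add]
    congr 1
    omega
  rw [this, mul_smul, h, smul_zero]

section levels

variable {A : Type*} [AddCommGroup A] {p J : ℕ} {f : ℕ → ℕ} {z : ℕ → A}

theorem top_xel (hf : ∀ j < J, f (j + 1) + 2 ≤ f j) (hJ : 1 ≤ f J)
    (hz : ∀ j, 1 ≤ j → j ≤ J → p ^ (f j) • z j = 0 ∧ p ^ (f j - 1) • z j ∉ pw A p (f j))
    {S : Finset ℕ} (hS : S ⊆ Finset.Icc 1 J) (a : A) :
    p ^ (f 0 - 1 - J) • xel p J z S a = p ^ (f 0 - 1) • a := by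
  have h0 := f_gap hf J 0 (by omega)
  rw [zero_add] at h0
  rw [pow_xel]
  have h1 : ∑ l ∈ S, p ^ (J - l + (f 0 - 1 - J)) • z l = 0 := by
    refine Finset.sum_eq_zero fun l hl => ?_
    obtain ⟨l1, l2⟩ := Finset.mem_Icc.mp (hS hl)
    have h2 := f_gap hf l 0 (by omega)
    rw [zero_add] at h2
    exact zero_of_le (hz l l1 l2).1 (by omega)
  rw [h1, add_zero]
  congr 2
  omega

theorem mem_iff_xel (hf : ∀ j < J, f (j + 1) + 2 ≤ f j) (hJ : 1 ≤ f J)
    (hz : ∀ j, 1 ≤ j → j ≤ J → p ^ (f j) • z j = 0 ∧ p ^ (f j - 1) • z j ∉ pw A p (f j))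
    {S : Finset ℕ} (hS : S ⊆ Finset.Icc 1 J) (a : A) {l : ℕ} (l1 : 1 ≤ l) (l2 : l ≤ J) :
    l ∈ S ↔ p ^ (f l + l - J - 1) • xel p J z S a ∉ pw A p (f l) := by
  have g1 := f_gap hf (J - l) l (by omega)
  rw [show l + (J - l) = J by omega] at g1
  rw [pow_xel]
  have key : ∀ S' : Finset ℕ, S' ⊆ S → l ∉ S' →
      ∑ l' ∈ S', p ^ (J - l' + (f l + l - J - 1)) • z l' ∈ pw A p (f l) := by
    intro S' hS' hl
    refine AddSubgroup.sum_mem _ fun l' hl' => ?_
    obtain ⟨k1, k2⟩ := Finset.mem_Icc.mp (hS (hS' hl'))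
    have hne : l' ≠ l := fun e => hl (e ▸ hl')
    rcases lt_or_gt_of_ne hne with hlt | hgt
    · exact pw_mk_le p (by omega) _
    · have h2 := f_gap hf (l' - l) l (by omega)
      rw [show l + (l' - l) = l' by omega] at h2
      rw [zero_of_le (hz l' k1 k2).1 (by omega)]
      exact AddSubgroup.zero_mem _
  have ha : p ^ (J + (f l + l - J - 1)) • a ∈ pw A p (f l) := pw_mk_le p (by omega) _
  constructor
  · intro hl hmem
    have h3 := AddSubgroup.sub_mem _ hmem ha
    rw [add_sub_cancel_left] at h3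
    rw [← Finset.add_sum_erase S _ hl] at h3
    have h4 := AddSubgroup.sub_mem _ h3 (key (S.erase l) (Finset.erase_subset _ _)
      (Finset.notMem_erase l S))
    rw [add_sub_cancel_right] at h4
    refine (hz l l1 l2).2 ?_
    rw [show J - l + (f l + l - J - 1) = f l - 1 by omega] at h4
    exact h4
  · intro h
    by_contra hl
    exact h (AddSubgroup.add_mem _ ha (key S (Finset.Subset.refl _) hl))

end levels

theorem e2 : SE2.{u} := by
  intro p J G A _ _ _ _ f z hf hJ hz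
  classical
  -- choice of representatives
  have hch : ∀ c : Quot (fun a b : {a : A // a ∈ pw A p (f 0 - 1) ∧ a ∉ pw A p (f 0)} =>
      ∃ g : G, g • a.1 - b.1 ∈ pw A p (f 0)), ∃ a : A, ∃ h : p ^ (f 0 - 1) • a ∈
        pw A p (f 0 - 1) ∧ p ^ (f 0 - 1) • a ∉ pw A p (f 0),
      Quot.mk _ ⟨p ^ (f 0 - 1) • a, h⟩ = c := by
    intro c
    induction c using Quot.inductionOn with
    | _ b =>
      obtain ⟨b, hb1, hb2⟩ := b
      obtain ⟨a, rfl⟩ := mem_pw.mp hb1
      exact ⟨a, ⟨hb1, hb2⟩, rfl⟩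
  choose rep hrep hrep2 using hch
  let Φ : (Finset.powerset (Finset.Icc 1 J)) × Quot (fun a b : {a : A //
      a ∈ pw A p (f 0 - 1) ∧ a ∉ pw A p (f 0)} => ∃ g : G, g • a.1 - b.1 ∈ pw A p (f 0)) →
      MulAction.orbitRel.Quotient G A := fun q =>
    Quotient.mk'' (xel p J z q.1.1 (rep q.2))
  have hinj : Function.Injective Φ := by
    rintro ⟨⟨S, hS⟩, c⟩ ⟨⟨S', hS'⟩, c'⟩ h
    rw [Finset.mem_powerset] at hS hS'
    obtain ⟨g, hg⟩ : xel p J z S (rep c) ∈ MulAction.orbit G (xel p J z S' (rep c')) :=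
      (MulAction.orbitRel_apply).mp (Quotient.exact h)
    have hg' : g • xel p J z S' (rep c') = xel p J z S (rep c) := hg
    have e1 : S = S' := by
      ext l
      by_cases hl : l ∈ Finset.Icc 1 J
      · obtain ⟨l1, l2⟩ := Finset.mem_Icc.mp hl
        rw [mem_iff_xel hf hJ hz hS (rep c) l1 l2, mem_iff_xel hf hJ hz hS' (rep c') l1 l2,
          not_iff_not, ← hg', ← gsn]
        constructor
        · intro h1
          have h2 := pw_smul p _ g⁻¹ h1
          rwa [inv_smul_smul] at h2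
        · intro h1
          exact pw_smul p _ g h1
      · exact ⟨fun h => absurd (hS h) hl, fun h => absurd (hS' h) hl⟩
    subst e1
    have e2 : c = c' := by
      rw [← hrep2 c, ← hrep2 c']
      refine (Quot.sound ⟨g, ?_⟩).symm
      show g • (p ^ (f 0 - 1) • rep c') - p ^ (f 0 - 1) • rep c ∈ pw A p (f 0)
      rw [← top_xel hf hJ hz hS (rep c), ← top_xel hf hJ hz hS (rep c'), gsn, hg',
        sub_self]
      exact AddSubgroup.zero_mem _
    subst e2
    rfl
  have : Finite (MulAction.orbitRel.Quotient G A) := Quotient.finite _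
  have hc := Nat.card_le_card_of_injective Φ hinj
  rw [Nat.card_prod] at hc
  have h2 : Nat.card (Finset.powerset (Finset.Icc 1 J)) = 2 ^ J := by
    rw [Nat.card_eq_fintype_card, Fintype.card_coe, Finset.card_powerset, Nat.card_Icc]
    simp
  rw [h2] at hc
  exact hc

theorem e3 : SE3.{u} := by
  intro p K G A _ _ _ _ _
  refine ⟨?_, ?_, ?_⟩
  · intro i
    classical
    have hch : ∀ c : Quot (fun a b : {a : A // a ∈ pw A p (i + 1) ∧ a ∉ pw A p (i + 2)} =>
        ∃ g : G, g • a.1 - b.1 ∈ pw A p (i + 2)), ∃ a : A, ∃ h : p ^ (i + 1) • a ∈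
          pw A p (i + 1) ∧ p ^ (i + 1) • a ∉ pw A p (i + 2),
        Quot.mk _ ⟨p ^ (i + 1) • a, h⟩ = c := by
      intro c
      induction c using Quot.inductionOn with
      | _ b =>
        obtain ⟨b, hb1, hb2⟩ := b
        obtain ⟨a, rfl⟩ := mem_pw.mp hb1
        exact ⟨a, ⟨hb1, hb2⟩, rfl⟩
    choose rep hrep hrep2 using hch
    have hr : ∀ c, p ^ i • rep c ∈ pw A p i ∧ p ^ i • rep c ∉ pw A p (i + 1) := by
      intro c
      refine ⟨pw_mk p i _, fun h => (hrep c).2 ?_⟩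
      have h1 := pw_nsmul p (i + 1) 1 h
      rw [← mul_smul, ← pow_add, add_comm 1 i] at h1
      exact h1
    let Φ : Quot (fun a b : {a : A // a ∈ pw A p (i + 1) ∧ a ∉ pw A p (i + 2)} =>
        ∃ g : G, g • a.1 - b.1 ∈ pw A p (i + 2)) →
        Quot (fun a b : {a : A // a ∈ pw A p i ∧ a ∉ pw A p (i + 1)} =>
        ∃ g : G, g • a.1 - b.1 ∈ pw A p (i + 1)) := fun c => Quot.mk _ ⟨p ^ i • rep c, hr c⟩
    have hinj : Function.Injective Φ := by
      intro c c' h
      obtain ⟨g, hg⟩ := quot_eq (fun g v hv => pw_smul p _ g hv) h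
      rw [← hrep2 c, ← hrep2 c']
      refine Quot.sound ⟨g, ?_⟩
      have h1 := pw_nsmul p (i + 1) 1 hg
      show g • (p ^ (i + 1) • rep c) - p ^ (i + 1) • rep c' ∈ pw A p (i + 2)
      have e : g • (p ^ (i + 1) • rep c) - p ^ (i + 1) • rep c' =
          p ^ 1 • (g • (p ^ i • rep c) - p ^ i • rep c') := by
        rw [smul_sub, ← gsn, ← mul_smul, ← mul_smul, ← pow_add, add_comm 1 i]
      rw [e]
      exact h1
    exact Nat.card_le_card_of_injective Φ hinj
  · intro h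
    classical
    have := Fintype.ofFinite G
    have := Fintype.ofFinite A
    unfold KI at h
    rw [finsum_eq_sum_of_fintype] at h
    have hb := MulAction.sum_card_fixedBy_eq_card_orbits_mul_card_group G A
    have h1 : ∑ g : G, Fintype.card (MulAction.fixedBy A g) ≤
        ∑ g : G, Nat.card {a : A // g • a = a} * ordA A g := by
      refine Finset.sum_le_sum fun g _ => ?_
      have h2 : Fintype.card (MulAction.fixedBy A g) = Nat.card {a : A // g • a = a} := by
        rw [← Nat.card_eq_fintype_card]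
        rfl
      have h3 : 1 ≤ ordA A g := by
        unfold ordA
        exact orderOf_pos _
      rw [h2]
      exact Nat.le_mul_of_pos_right _ h3
    rw [hb] at h1
    have h4 := h1.trans h
    rw [Nat.card_eq_fintype_card (α := G)] at h4
    have h5 := Nat.le_of_mul_le_mul_right h4 Fintype.card_pos
    unfold orb
    rw [Nat.card_eq_fintype_card]
    exact h5
  · intro X Y hXY
    obtain ⟨x, hx, hy⟩ := SetLike.exists_of_lt hXY
    unfold rorb
    have : Nonempty (Quot (fun a b : {a : A // a ∈ X ∧ a ∉ Y} => ∃ g : G, g • a.1 - b.1 ∈ Y)) :=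
      ⟨Quot.mk _ ⟨x, hx, hy⟩⟩
    exact Nat.card_pos

end H48.CN
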