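import Pool.Agent.H48.CN.Stm

/-!
Class numbers of finite solvable groups, row E4: abelian sections from elementary abelian
sections.
-/

namespace H48.CN

open H60.KG MulAction

universe u

section

variable {A : Type u} [AddCommGroup A]

theorem e4_mem_pw (p i : ℕ) (a : A) : a ∈ pw A p i ↔ ∃ z : A, p ^ i • z = a := by
  unfold pw
  rw [AddMonoidHom.mem_range]
  rfl

theorem e4_pw_smul (p i : ℕ) {a : A} (ha : a ∈ pw A p i) : p • a ∈ pw A p (i + 1) := by
  obtain ⟨z, rfl⟩ := (e4_mem_pw p i a).1 ha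
  exact (e4_mem_pw p (i + 1) _).2 ⟨z, by rw [← mul_smul, pow_succ, mul_comm]⟩

theorem e4_pw_succ (p i : ℕ) : pw A p (i + 1) ≤ pw A p i := by
  intro a ha
  obtain ⟨z, rfl⟩ := (e4_mem_pw p (i + 1) a).1 ha
  exact (e4_mem_pw p i _).2 ⟨p • z, by rw [← mul_smul, pow_succ]⟩

theorem e4_pw_anti (p : ℕ) : Antitone (pw A p) := antitone_nat_of_succ_le (e4_pw_succ p)

/-- the jump of an element -/
theorem e4_jump (p i j : ℕ) (a : A) (ha : p • a = 0) (hi : a ∈ pw A p i) (hj : a ∉ pw A p j) :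
    ∃ (f : ℕ) (z : A), i < f ∧ f ≤ j ∧ p ^ f • z = 0 ∧ p ^ (f - 1) • z ∉ pw A p f := by
  classical
  have hex : ∃ f, a ∉ pw A p f := ⟨j, hj⟩
  have h1 := Nat.find_spec hex
  have h2 : Nat.find hex ≤ j := Nat.find_le hj
  have h3 : i < Nat.find hex := by
    by_contra hc
    push Not at hc
    exact h1 (e4_pw_anti p hc hi)
  have h4 : a ∈ pw A p (Nat.find hex - 1) := by
    by_contra hc
    have h5 := Nat.find_min' hex hc
    omega
  obtain ⟨z, hz⟩ := (e4_mem_pw p _ a).1 h4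
  refine ⟨Nat.find hex, z, h3, h2, ?_, ?_⟩
  · have h5 : Nat.find hex = Nat.find hex - 1 + 1 := by omega
    have h6 : p ^ (Nat.find hex) • z = p • (p ^ (Nat.find hex - 1) • z) := by
      rw [← mul_smul]
      congr 1
      conv_lhs => rw [h5]
      rw [pow_succ, mul_comm]
    rw [h6, hz, ha]
  · rw [hz]
    exact h1

end

/-- the number of layers with many orbits -/
theorem e4_claim (hE1 : SE1.{u}) (hE2 : SE2.{u}) (hE3 : SE3.{u}) (p K n : ℕ) [Fact p.Prime]
    (G A : Type u) [Group G] [Finite G] [AddCommGroup A] [Finite A] [DistribMulAction G A]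
    (hn : ∀ a : A, p ^ n • a = 0) (hK : KI G A K) (th F : ℕ) (h1 : 1 ≤ th)
    (ho : K < 2 ^ th * rorb G (pw A p (F - 1)) (pw A p F)) : F < 3 * th ^ 2 := by
  by_contra hc
  push Not at hc
  obtain ⟨hS1, hS2, -⟩ := hE3 p K G A
  have hS2 := hS2 hK
  have hmono : Antitone fun i => rorb G (pw A p i) (pw A p (i + 1)) :=
    antitone_nat_of_succ_le fun i => hS1 i
  have hth : 1 ≤ th ^ 2 := Nat.one_le_pow _ _ h1
  have hex : ∀ k : ℕ, ∃ (f : ℕ) (z : A), k < th → F + 1 ≤ f + 3 * th + 3 * th * k ∧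
      f + 2 + 3 * th * k ≤ F ∧ 1 ≤ f ∧ p ^ f • z = 0 ∧ p ^ (f - 1) • z ∉ pw A p f := by
    intro k
    by_cases hk : k < th
    · have h2 : 3 * th * k + 3 * th ≤ 3 * th ^ 2 := by nlinarith
      obtain ⟨i, hi⟩ : ∃ i, i + th + 3 * th * k = F := ⟨F - th - 3 * th * k, by omega⟩
      have h3 : 2 * th ≤ i := by omega
      have h4 : ∃ a : A, p • a = 0 ∧ a ∈ pw A p (i - 2 * th) ∧ a ∉ pw A p (i + th - 2) := by
        by_contra hcon
        push Not at hcon
        have h5 := hE1 p K th i n G A hn hK h1 h3 hcon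
        have h6 : rorb G (pw A p (F - 1)) (pw A p F) ≤ rorb G (pw A p (i - 1)) (pw A p i) := by
          have h7 := hmono (show i - 1 ≤ F - 1 by omega)
          simp only at h7
          rwa [show F - 1 + 1 = F by omega, show i - 1 + 1 = i by omega] at h7
        have h8 := Nat.mul_le_mul_left (2 ^ th) h6
        omega
      obtain ⟨a, ha1, ha2, ha3⟩ := h4
      obtain ⟨f, z, h5, h6, h7, h8⟩ := e4_jump p _ _ a ha1 ha2 ha3
      refine ⟨f, z, fun _ => ⟨by omega, by omega, by omega, h7, h8⟩⟩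
    · exact ⟨0, 0, fun h => absurd h hk⟩
  choose f z hf using hex
  have hE := hE2 p th G A (fun j => if j = 0 then F else f (j - 1)) (fun j => z (j - 1))
    (by
      intro j hj
      rcases Nat.eq_zero_or_pos j with rfl | hj0
      · have h2 := (hf 0 hj).2.1
        simp only [zero_add, one_ne_zero, if_false, if_true, Nat.sub_self]
        omega
      · obtain ⟨k, rfl⟩ : ∃ k, j = k + 1 := ⟨j - 1, by omega⟩
        have h2 := (hf (k + 1) hj).2.1
        have h3 := (hf k (by omega)).1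
        have h4 : 3 * th * (k + 1) = 3 * th * k + 3 * th := by ring
        simp only [Nat.add_sub_cancel, Nat.add_eq_zero_iff, one_ne_zero, and_false, if_false]
        omega)
    (by
      have h2 := (hf (th - 1) (by omega)).2.2.1
      simp only [show th ≠ 0 by omega, if_false]
      exact h2)
    (by
      intro j hj1 hj2
      have h2 := (hf (j - 1) (by omega)).2.2.2
      simp only [show j ≠ 0 by omega, if_false]
      exact h2)
  simp only [if_true] at hE
  omega

section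

variable {G A : Type u} [Group G] [AddCommGroup A] [DistribMulAction G A] {M L : Subgroup G}
  {φ : G → A}

theorem e4_pre_le (h : IsFac (MonoidHom.id G) M L φ) (B : AddSubgroup A) : h.pre B ≤ L :=
  fun _ hx => hx.1

theorem e4_le_pre (h : IsFac (MonoidHom.id G) M L φ) (B : AddSubgroup A) : M ≤ h.pre B := by
  intro x hx
  refine ⟨h.le hx, ?_⟩
  rw [(h.ker x (h.le hx)).2 hx]
  exact B.zero_mem

theorem e4_pre_mono (h : IsFac (MonoidHom.id G) M L φ) {B C : AddSubgroup A} (hBC : B ≤ C) :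
    h.pre B ≤ h.pre C := fun _ hx => ⟨hx.1, hBC hx.2⟩

theorem e4_pre_normal (h : IsFac (MonoidHom.id G) M L φ) (B : AddSubgroup A)
    (hB : ∀ (g : G) (v : A), v ∈ B → g • v ∈ B) : (h.pre B).Normal := by
  constructor
  rintro x ⟨hx1, hx2⟩ g
  refine ⟨h.nM.conj_mem x hx1 g, ?_⟩
  rw [h.equi g x hx1]
  exact hB _ _ hx2

theorem e4_pw_stab (p i : ℕ) (g : G) (v : A) (hv : v ∈ pw A p i) : g • v ∈ pw A p i := by
  obtain ⟨z, rfl⟩ := (e4_mem_pw p i v).1 hv
  exact (e4_mem_pw p i _).2 ⟨g • z, by rw [smul_comm]⟩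

theorem e4_im_pre (h : IsFac (MonoidHom.id G) M L φ) (B : AddSubgroup A) :
    h.im (h.pre B) = B := by
  ext v
  constructor
  · rintro ⟨x, _, hx2, rfl⟩
    exact hx2.2
  · intro hv
    obtain ⟨x, hx, rfl⟩ := h.surj v
    exact ⟨x, hx, ⟨hx, hv⟩, rfl⟩

theorem e4_elsec (h : IsFac (MonoidHom.id G) M L φ) (hab : AbSec M L) (p i : ℕ) :
    ElSec p (h.pre (pw A p (i + 1))) (h.pre (pw A p i)) where
  nM := e4_pre_normal h _ fun g v hv => e4_pw_stab p _ g v hv
  nL := e4_pre_normal h _ fun g v hv => e4_pw_stab p _ g v hv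
  le := e4_pre_mono h (e4_pw_succ p i)
  ab := fun x hx y hy => e4_le_pre h _ (hab.ab x hx.1 y hy.1)
  el := fun x hx => ⟨L.pow_mem hx.1 p, by
    rw [h.map_pow hx.1]
    exact e4_pw_smul p i hx.2⟩

end

theorem e4_sum {G : Type u} [Group G] {p : ℕ} (b : Base G p) (T : Finset ℕ)
    (L : ℕ → Subgroup G) (n : ℕ) :
    b.rho T (L n) (L 0) ≤ ∑ i ∈ Finset.range n, b.rho T (L (i + 1)) (L i) := by
  induction n with
  | zero =>
    unfold Base.rho
    simp
  | succ n ih =>
    rw [Finset.sum_range_succ]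
    refine le_trans ?_ (Nat.add_le_add_right ih _)
    unfold Base.rho
    refine le_trans (Finset.card_le_card ?_) (Finset.card_union_le _ _)
    intro x hx
    simp only [Finset.mem_union, Finset.mem_inter, Finset.mem_sdiff] at hx ⊢
    by_cases hxn : x ∈ b.I (L n)
    · exact Or.inr ⟨hx.1, hxn, hx.2.2⟩
    · exact Or.inl ⟨hx.1, hx.2.1, hxn⟩

theorem e4 (hA3 : SA3.{u}) (hA4 : SA4.{u}) (hA6d : SA6d.{u}) (hA6e : SA6e.{u})
    (hE1 : SE1.{u}) (hE2 : SE2.{u}) (hE3 : SE3.{u}) : SE4.{u} := by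
  intro p θ l X _ G _ _ b T hl hθ1 hl1 hel M L hab hLQ
  obtain ⟨A, iA, iF, iD, φ, h⟩ := hA4 G G (MonoidHom.id G) M L (fun x => ⟨x, rfl⟩) hab (by
    intro g hg x _
    have hg1 : g = 1 := hg
    rw [hg1]
    simp)
  have hKI : KI G A (kc G) := hA3 G A M L φ h
  have hpn : ∃ n : ℕ, ∀ a : A, p ^ n • a = 0 := by
    have h1 : ∀ a : A, ∃ k : ℕ, p ^ k • a = 0 := by
      intro a
      obtain ⟨x, hx, rfl⟩ := h.surj a
      obtain ⟨k, hk⟩ := b.pg ⟨x, hLQ hx⟩
      refine ⟨k, ?_⟩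
      rw [← h.map_pow hx]
      have h2 : x ^ p ^ k = 1 := congrArg Subtype.val hk
      rw [h2, h.map_one]
    choose k hk using h1
    have := Fintype.ofFinite A
    refine ⟨Finset.univ.sup k, fun a => ?_⟩
    have h2 : k a ≤ Finset.univ.sup k := Finset.le_sup (Finset.mem_univ a)
    obtain ⟨c, hc⟩ := Nat.exists_eq_add_of_le h2
    rw [hc, pow_add, mul_comm, mul_smul, hk a, smul_zero]
  obtain ⟨n, hn⟩ := hpn
  set S : ℕ → Subgroup G := fun i => h.pre (pw A p i) with hS
  have hS0 : S 0 = L := by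
    refine le_antisymm (e4_pre_le h _) fun x hx => ⟨hx, ?_⟩
    exact (e4_mem_pw p 0 _).2 ⟨φ x, by rw [pow_zero, one_smul]⟩
  have hSn : S n = M := by
    refine le_antisymm (fun x hx => ?_) (e4_le_pre h _)
    obtain ⟨z, hz⟩ := (e4_mem_pw p n _).1 hx.2
    rw [hn z] at hz
    exact (h.ker x hx.1).1 hz.symm
  have hnor : ∀ i, (S i).Normal := fun i =>
    e4_pre_normal h _ fun g v hv => e4_pw_stab p _ g v hv
  have hsum := e4_sum b T S n
  rw [hS0, hSn] at hsum
  have hX : ∀ i, b.rho T (S (i + 1)) (S i) ≤ X := fun i =>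
    hel _ _ (e4_elsec h hab p i) ((e4_pre_le h _).trans hLQ)
  have ho : ∀ i, b.rho T (S (i + 1)) (S i) ≤ rorb G (pw A p i) (pw A p (i + 1)) := by
    intro i
    have h1 := hA6d p G A b M L (S i) (S (i + 1)) φ h hLQ (hnor i) (hnor (i + 1))
      (e4_le_pre h _) (e4_pre_mono h (e4_pw_succ p i)) (e4_pre_le h _)
    rw [hS] at h1
    simp only [e4_im_pre h] at h1
    refine le_trans ?_ h1
    unfold Base.rho
    exact Finset.card_le_card Finset.inter_subset_right
  have hcl : ∀ th : ℕ, 1 ≤ th → ∀ i, 3 * th ^ 2 ≤ i →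
      2 ^ th * rorb G (pw A p i) (pw A p (i + 1)) ≤ kc G := by
    intro th hth i hi
    by_contra hc
    push Not at hc
    have h1 := e4_claim hE1 hE2 hE3 p (kc G) n G A hn hKI th (i + 1) hth hc
    omega
  have hterm : ∀ i, b.rho T (S (i + 1)) (S i) * 2 ^ θ ≤
      (if i < 3 * θ ^ 2 then X * 2 ^ θ else 0) + (if i < 3 * l ^ 2 then kc G else 0) := by
    intro i
    by_cases h1 : i < 3 * θ ^ 2
    · rw [if_pos h1]
      have h2 := Nat.mul_le_mul_right (2 ^ θ) (hX i)
      omega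
    · rw [if_neg h1, zero_add]
      have h2 := hcl θ hθ1 i (by omega)
      have h3 := Nat.mul_le_mul_right (2 ^ θ) (ho i)
      by_cases h4 : i < 3 * l ^ 2
      · rw [if_pos h4]
        rw [mul_comm (rorb G _ _)] at h3
        omega
      · rw [if_neg h4]
        have h5 := hcl l hl1 i (by omega)
        have h6 : rorb G (pw A p i) (pw A p (i + 1)) = 0 := by
          by_contra hc
          have h7 : 1 ≤ rorb G (pw A p i) (pw A p (i + 1)) := Nat.one_le_iff_ne_zero.2 hc
          have h8 := Nat.mul_le_mul_left (2 ^ l) h7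
          omega
        have h9 := ho i
        rw [h6] at h9
        rw [Nat.le_zero.1 h9, zero_mul]
  have hcard : ∀ a c : ℕ, ∑ i ∈ Finset.range n, (if i < a then c else 0) ≤ a * c := by
    intro a c
    rw [← Finset.sum_filter, Finset.sum_const, smul_eq_mul]
    refine Nat.mul_le_mul_right c ?_
    calc _ ≤ (Finset.range a).card := Finset.card_le_card fun i hi => by
          rw [Finset.mem_filter] at hi
          exact Finset.mem_range.2 hi.2
      _ = a := Finset.card_range a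
  calc b.rho T M L * 2 ^ θ ≤ (∑ i ∈ Finset.range n, b.rho T (S (i + 1)) (S i)) * 2 ^ θ :=
        Nat.mul_le_mul_right _ hsum
    _ = ∑ i ∈ Finset.range n, b.rho T (S (i + 1)) (S i) * 2 ^ θ := Finset.sum_mul _ _ _
    _ ≤ ∑ i ∈ Finset.range n, ((if i < 3 * θ ^ 2 then X * 2 ^ θ else 0) +
          (if i < 3 * l ^ 2 then kc G else 0)) := Finset.sum_le_sum fun i _ => hterm i
    _ = ∑ i ∈ Finset.range n, (if i < 3 * θ ^ 2 then X * 2 ^ θ else 0) +
          ∑ i ∈ Finset.range n, (if i < 3 * l ^ 2 then kc G else 0) := Finset.sum_add_distrib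
    _ ≤ 3 * θ ^ 2 * (X * 2 ^ θ) + 3 * l ^ 2 * kc G := Nat.add_le_add (hcard _ _) (hcard _ _)
    _ = 3 * θ ^ 2 * X * 2 ^ θ + 3 * l ^ 2 * kc G := by ring

end H48.CN
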