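import Pool.Agent.H48.CN.Stm

/-!
Class numbers of finite solvable groups: a normal nilpotent subgroup as the intersection of the
centralisers of the factors of a chief series.
-/

namespace H48.CN

universe u

/-- existence of a chief series below a normal subgroup -/
private theorem f1a_series {G : Type u} [Group G] [Finite G] (n : ℕ) :
    ∀ M : Subgroup G, M.Normal → Nat.card M = n →
      ∃ (k : ℕ) (s : ℕ → Subgroup G), s 0 = M ∧ s k = ⊥ ∧ ∀ i < k, Chief (s (i + 1)) (s i) := by
  classical
  induction n using Nat.strong_induction_on with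
  | _ n ih =>
    intro M hM hn
    by_cases hbot : M = ⊥
    · exact ⟨0, fun _ => M, rfl, hbot, fun i hi => absurd hi (Nat.not_lt_zero i)⟩
    · obtain ⟨N, ⟨hNn, hNM⟩, hmax⟩ := (Set.toFinite {N : Subgroup G | N.Normal ∧
        N < M}).exists_maximal ⟨⊥, inferInstance, bot_lt_iff_ne_bot.mpr hbot⟩
      have hlt : Nat.card N < n := by
        rw [← hn]
        exact Set.ncard_lt_ncard (s := (N : Set G)) (t := (M : Set G)) hNM (Set.toFinite _)
      obtain ⟨k, s, h0, hk, hs⟩ := ih _ hlt N hNn rfl
      refine ⟨k + 1, fun i => if i = 0 then M else s (i - 1), by simp, by simpa using hk, ?_⟩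
      intro i hi
      rcases Nat.eq_zero_or_pos i with rfl | hi0
      · simp only [if_true, Nat.zero_add, one_ne_zero, if_false, Nat.sub_self]
        rw [h0]
        refine ⟨hNn, hM, hNM, ?_⟩
        intro X hX hNX hXM
        rcases hXM.lt_or_eq with h | h
        · left
          exact le_antisymm (hmax ⟨hX, h⟩ hNX) hNX
        · exact Or.inr h
      · have e1 : (if i + 1 = 0 then M else s (i + 1 - 1)) = s (i - 1 + 1) := by
          rw [if_neg (by omega)]
          congr 1
          omega
        have e2 : (if i = 0 then M else s (i - 1)) = s (i - 1) := if_neg (by omega)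
        change Chief (if i + 1 = 0 then M else s (i + 1 - 1)) (if i = 0 then M else s (i - 1))
        rw [e1, e2]
        exact hs (i - 1) (by omega)

/-- chief factors of a solvable group are abelian -/
private theorem f1a_ab {G : Type u} [Group G] (hG : Group.IsSolvable G) {N M : Subgroup G}
    (h : Chief N M) : AbSec N M := by
  have := h.nN
  have := h.nM
  have := hG
  refine ⟨h.nN, h.nM, h.lt.le, ?_⟩
  have : (⁅M, M⁆ ⊔ N).Normal := inferInstance
  have h1 : ⁅M, M⁆ ≤ M := Subgroup.commutator_le_left M M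
  rcases h.min (⁅M, M⁆ ⊔ N) inferInstance le_sup_right (sup_le h1 h.lt.le) with h2 | h2
  · intro x hx y hy
    rw [← h2]
    exact Subgroup.mem_sup_left (Subgroup.commutator_mem_commutator hx hy)
  · exfalso
    have h3 : M.map (QuotientGroup.mk' N) ≠ ⊥ := by
      intro h4
      rw [Subgroup.map_eq_bot_iff, QuotientGroup.ker_mk'] at h4
      exact absurd h4 (not_le_of_gt h.lt)
    have h5 := Group.IsSolvable.commutator_lt_of_ne_bot h3
    rw [← Subgroup.map_commutator] at h5
    apply h5.ne
    have h6 := congrArg (Subgroup.map (QuotientGroup.mk' N)) h2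
    rw [Subgroup.map_sup] at h6
    have h7 : N.map (QuotientGroup.mk' N) = ⊥ := by
      rw [Subgroup.map_eq_bot_iff, QuotientGroup.ker_mk']
    rw [h7, sup_bot_eq] at h6
    exact h6

theorem f1a : SF1a.{u} := by
  intro G _ _ hG
  obtain ⟨n, s, h0, hn, hs⟩ := f1a_series (G := G) _ ⊤ inferInstance rfl
  let F : Subgroup G :=
    { carrier := {g | ∀ i < n, ∀ x ∈ s i, g * x * g⁻¹ * x⁻¹ ∈ s (i + 1)}
      mul_mem' := by
        intro a b ha hb i hi x hx
        have := (hs i hi).nM
        have h1 : b * x * b⁻¹ ∈ s i := (hs i hi).nM.conj_mem x hx b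
        have h2 := (s (i + 1)).mul_mem (ha i hi _ h1) (hb i hi x hx)
        have h3 : a * (b * x * b⁻¹) * a⁻¹ * (b * x * b⁻¹)⁻¹ * (b * x * b⁻¹ * x⁻¹) =
          a * b * x * (a * b)⁻¹ * x⁻¹ := by group
        rwa [h3] at h2
      one_mem' := by
        intro i hi x hx
        have h3 : (1 : G) * x * 1⁻¹ * x⁻¹ = 1 := by group
        rw [h3]
        exact (s (i + 1)).one_mem
      inv_mem' := by
        intro a ha i hi x hx
        have h1 := ha i hi x hx
        have h2 := (s (i + 1)).inv_mem ((hs i hi).nN.conj_mem _ h1 a⁻¹)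
        have h3 : (a⁻¹ * (a * x * a⁻¹ * x⁻¹) * a⁻¹⁻¹)⁻¹ = a⁻¹ * x * a⁻¹⁻¹ * x⁻¹ := by group
        rwa [h3] at h2 }
  have hF : ∀ g : G, g ∈ F ↔ ∀ i < n, ∀ x ∈ s i, g * x * g⁻¹ * x⁻¹ ∈ s (i + 1) := fun g => Iff.rfl
  refine ⟨F, n, fun i => s (i + 1), fun i => s i, ?_, ?_, ?_, ?_⟩
  · constructor
    intro g hg c i hi x hx
    have h1 : c⁻¹ * x * c⁻¹⁻¹ ∈ s i := (hs i hi).nM.conj_mem x hx c⁻¹
    have h2 := (hs i hi).nN.conj_mem _ (hg i hi _ h1) c
    have h3 : c * (g * (c⁻¹ * x * c⁻¹⁻¹) * g⁻¹ * (c⁻¹ * x * c⁻¹⁻¹)⁻¹) * c⁻¹ =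
      c * g * c⁻¹ * x * (c * g * c⁻¹)⁻¹ * x⁻¹ := by group
    rwa [h3] at h2
  · apply Subgroup.isNilpotent_of_lowerCentralSeries_eq_bot (n := n)
    have key : ∀ k ≤ n, F.lowerCentralSeries k ≤ s k := by
      intro k
      induction k with
      | zero =>
        intro _
        rw [h0]
        exact le_top
      | succ k ih =>
        intro hk
        rw [Subgroup.lowerCentralSeries_succ, Subgroup.commutator_le]
        intro x hx g hg
        have h1 := (hF g).1 hg k (by omega) x (ih (by omega) hx)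
        have h2 := (s (k + 1)).inv_mem h1
        have h3 : (g * x * g⁻¹ * x⁻¹)⁻¹ = x * g * x⁻¹ * g⁻¹ := by group
        rw [h3] at h2
        exact h2
    rw [eq_bot_iff, ← hn]
    exact key n le_rfl
  · intro i
    exact ⟨hs i i.2, f1a_ab hG (hs i i.2)⟩
  · intro g
    rw [hF]
    constructor
    · intro h i x hx
      exact h i i.2 x hx
    · intro h i hi x hx
      exact h ⟨i, hi⟩ x hx

end H48.CN
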