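import Pool.Agent.H48.CN.Stm
import Pool.Agent.H60.KG.Cnt

/-!
Class numbers of finite solvable groups, part F1b: an irredundant intersection of kernels has small
index.
-/

namespace H48.CN

open H60.KG MulAction

universe u

namespace F1bAux

theorem aker_normal (G V : Type u) [Group G] [AddCommGroup V] [DistribMulAction G V] :
    (aker G V).Normal := by
  refine ⟨fun n hn g v => ?_⟩
  rw [mul_smul, mul_smul, hn (g⁻¹ • v), smul_inv_smul]

theorem aker_index (G V : Type u) [Group G] [AddCommGroup V] [Finite V]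
    [DistribMulAction G V] (Y : ℕ) (h : Nat.card V ≤ 2 ^ Y) : (aker G V).index ≤ 2 ^ (Y ^ 2) := by
  have h1 : (DistribMulAction.toAddAut G V).ker = aker G V := by
    ext g
    rw [MonoidHom.mem_ker]
    constructor
    · intro hg v
      exact congrArg (fun f : Multiplicative (AddAut V) => (Multiplicative.toAdd f) v) hg
    · intro hg
      apply Multiplicative.toAdd.injective
      exact AddEquiv.ext fun v => hg v
  rw [← h1, Subgroup.index_ker]
  have h2 : Nat.card (Multiplicative (AddAut V)) = Nat.card (MulAut (Multiplicative V)) :=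
    Nat.card_congr (MulAutMultiplicative V).symm.toEquiv
  have h3 := card_mulAut_le (N := Multiplicative V)
  have h4 : Nat.card (Multiplicative V) = Nat.card V := rfl
  have h5 : Nat.card (DistribMulAction.toAddAut G V).range ≤
      Nat.card (Multiplicative (AddAut V)) := by
    have hfin : Finite (AddAut V) := DFunLike.finite _
    have hfin2 : Finite (Multiplicative (AddAut V)) := hfin
    exact Nat.card_le_card_of_injective _ Subtype.val_injective
  have h6 : Nat.log 2 (Nat.card V) ≤ Y := by
    calc Nat.log 2 (Nat.card V) ≤ Nat.log 2 (2 ^ Y) := Nat.log_mono_right h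
      _ = Y := Nat.log_pow (by norm_num) Y
  calc Nat.card (DistribMulAction.toAddAut G V).range
      ≤ Nat.card (Multiplicative (AddAut V)) := h5
    _ = Nat.card (MulAut (Multiplicative V)) := h2
    _ ≤ Nat.card V ^ Nat.log 2 (Nat.card V) := h3
    _ ≤ (2 ^ Y) ^ Nat.log 2 (Nat.card V) := Nat.pow_le_pow_left h _
    _ ≤ (2 ^ Y) ^ Y := Nat.pow_le_pow_right (by positivity) h6
    _ = 2 ^ (Y ^ 2) := by rw [← pow_mul, pow_two]

/-- an irredundant family of normal subgroups gives many classes -/
theorem irred_card {G : Type u} [Group G] [Finite G] {ι : Type*} [DecidableEq ι]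
    (C : ι → Subgroup G) (hC : ∀ i, (C i).Normal) (J : Finset ι)
    (hJ : ∀ i ∈ J, ∃ d : G, d ∉ C i ∧ ∀ j ∈ J, j ≠ i → d ∈ C j) : 2 ^ J.card ≤ kc G := by
  have h1 : ∀ S : Finset ι, S ⊆ J → ∃ g : G, ∀ j ∈ J, g ∉ C j ↔ j ∈ S := by
    intro S
    induction S using Finset.induction_on with
    | empty =>
      intro _
      refine ⟨1, fun j _ => ?_⟩
      simp [(C j).one_mem]
    | insert i S hi ih =>
      intro hS
      obtain ⟨g, hg⟩ := ih (fun x hx => hS (Finset.mem_insert_of_mem hx))
      have hiJ : i ∈ J := hS (Finset.mem_insert_self i S)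
      obtain ⟨d, hd1, hd2⟩ := hJ i hiJ
      refine ⟨g * d, fun j hj => ?_⟩
      by_cases hji : j = i
      · subst hji
        have h2 : g ∈ C j := by
          by_contra h3
          exact hi ((hg j hj).1 h3)
        constructor
        · intro _
          exact Finset.mem_insert_self j S
        · intro _ h3
          exact hd1 (((C j).mul_mem_cancel_left h2).1 h3)
      · have h2 : d ∈ C j := hd2 j hj hji
        rw [(C j).mul_mem_cancel_right h2, hg j hj, Finset.mem_insert]
        constructor
        · intro h3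
          exact Or.inr h3
        · rintro (h3 | h3)
          · exact absurd h3 hji
          · exact h3
  choose! g hg using h1
  have hfin : Finite (ConjClasses G) := Quotient.finite _
  have hinj : Function.Injective
      (fun S : {S : Finset ι // S ∈ J.powerset} => ConjClasses.mk (g S.1)) := by
    intro S T hST
    have hS := Finset.mem_powerset.1 S.2
    have hT := Finset.mem_powerset.1 T.2
    have h2 : IsConj (g S.1) (g T.1) := ConjClasses.mk_eq_mk_iff_isConj.1 hST
    rw [isConj_iff] at h2
    obtain ⟨x, hx⟩ := h2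
    apply Subtype.ext
    ext j
    have h3 : ∀ j ∈ J, j ∈ S.1 ↔ j ∈ T.1 := by
      intro j hj
      rw [← hg S.1 hS j hj, ← hg T.1 hT j hj, ← hx]
      have := hC j
      have h4 : x * g S.1 * x⁻¹ ∈ C j ↔ g S.1 ∈ C j := by
        constructor
        · intro h5
          have h6 := this.conj_mem _ h5 x⁻¹
          have h7 : x⁻¹ * (x * g S.1 * x⁻¹) * x⁻¹⁻¹ = g S.1 := by group
          rwa [h7] at h6
        · intro h5
          exact this.conj_mem _ h5 x
      rw [h4]
    constructor
    · intro h4
      exact (h3 j (hS h4)).1 h4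
    · intro h4
      exact (h3 j (hT h4)).2 h4
  have h2 := Nat.card_le_card_of_injective _ hinj
  rw [Nat.card_eq_fintype_card, Fintype.card_coe, Finset.card_powerset] at h2
  exact h2

end F1bAux

open F1bAux

theorem f1b : SF1b.{u} := by
  classical
  intro l Y n G _ _ V _ _ hk hV
  obtain ⟨C, hC⟩ : ∃ C : Fin n → Subgroup G, C = fun i => aker G (V i) := ⟨_, rfl⟩
  have hCi : ∀ i, C i = aker G (V i) := fun i => by rw [hC]
  have hnorm : ∀ i, (C i).Normal := fun i => by rw [hCi]; exact aker_normal G (V i)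
  have hidx : ∀ i, (C i).index ≤ 2 ^ (Y ^ 2) := fun i => by
    have := (hV i).1
    rw [hCi]
    exact aker_index G (V i) Y (hV i).2
  have hinf : (⨅ i, aker G (V i)) = ⨅ i, C i := by rw [hC]
  rw [hinf]
  -- a minimal subset with the same intersection
  have hex : ∃ m : ℕ, ∃ J : Finset (Fin n), J.card = m ∧ (⨅ i ∈ J, C i) = ⨅ i, C i :=
    ⟨_, Finset.univ, rfl, by simp⟩
  obtain ⟨J, hJc, hJ⟩ := Nat.find_spec hex
  have hmin : ∀ J' : Finset (Fin n), (⨅ i ∈ J', C i) = ⨅ i, C i → J.card ≤ J'.card := by
    intro J' hJ'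
    rw [hJc]
    exact Nat.find_min' hex ⟨J', rfl, hJ'⟩
  have hirr : ∀ i ∈ J, ∃ d : G, d ∉ C i ∧ ∀ j ∈ J, j ≠ i → d ∈ C j := by
    intro i hi
    by_contra hcon
    push Not at hcon
    have h1 : (⨅ j ∈ J.erase i, C j) = ⨅ j, C j := by
      apply le_antisymm
      · rw [← hJ]
        refine le_iInf₂ (fun j hj => ?_)
        by_cases hji : j = i
        · subst hji
          intro d hd
          by_contra hdj
          obtain ⟨k, hk, hkj, hdk⟩ := hcon d hdj
          apply hdk
          have h4 : (⨅ j' ∈ J.erase j, C j') ≤ C k := iInf₂_le k (Finset.mem_erase.2 ⟨hkj, hk⟩)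
          exact h4 hd
        · exact iInf₂_le j (Finset.mem_erase.2 ⟨hji, hj⟩)
      · exact le_iInf₂ (fun j _ => iInf_le C j)
    have h2 := hmin _ h1
    rw [Finset.card_erase_of_mem hi] at h2
    have h3 : 0 < J.card := Finset.card_pos.2 ⟨i, hi⟩
    omega
  have hcard := irred_card C hnorm J hirr
  have hJl : J.card ≤ l := by
    have h1 : 2 ^ J.card < 2 ^ l := hcard.trans_lt hk
    exact ((Nat.pow_lt_pow_iff_right (by norm_num : 1 < 2)).1 h1).le
  rw [← hJ]
  have h1 : (⨅ i ∈ J, C i) = ⨅ i : J, C i := by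
    rw [iInf_subtype']
  rw [h1]
  calc (⨅ i : J, C i).index ≤ ∏ i : J, (C i).index := Subgroup.index_iInf_le _
    _ ≤ ∏ _i : J, 2 ^ (Y ^ 2) := Finset.prod_le_prod' (fun i _ => hidx i)
    _ = (2 ^ (Y ^ 2)) ^ J.card := by
        rw [Finset.prod_const, Finset.card_univ, Fintype.card_coe]
    _ ≤ (2 ^ (Y ^ 2)) ^ l := Nat.pow_le_pow_right (by positivity) hJl
    _ = 2 ^ (l * Y ^ 2) := by rw [← pow_mul, mul_comm]

end H48.CN
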