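import Pool.Agent.H48.CN.Stm

/-!
Project CN (MP_a15a7c_al), row F2: splitting off one prime from a nilpotent normal subgroup.
-/

set_option autoImplicit false

open scoped BigOperators

namespace H48.CN

open H60.KG MulAction

universe u

/-- the order of the first term of a base series -/
theorem f2_card {G : Type u} [Group G] [Finite G] {p Y : ℕ} (b : Base G p) (hY : ChiefLe G Y) :
    Nat.card (b.Q 0) ≤ 2 ^ (Y * b.len) := by
  have h : ∀ k : ℕ, k ≤ b.len → Nat.card (b.Q (b.len - k)) ≤ 2 ^ (Y * k) := by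
    intro k
    induction k with
    | zero =>
      intro _
      rw [Nat.sub_zero, b.bot]
      simp
    | succ k ih =>
      intro hk
      have h1 := ih (by omega)
      have h2 : b.len - k = (b.len - (k + 1)) + 1 := by omega
      rw [h2] at h1
      have h3 : b.len - (k + 1) < b.len := by omega
      have h4 : Chief (b.Q (b.len - (k + 1) + 1)) (b.Q (b.len - (k + 1))) :=
        ⟨b.normal _, b.normal _, b.lt _ h3, b.chief _ h3⟩
      have h5 := hY _ _ h4
      have h6 : Nat.card (b.Q (b.len - (k + 1))) = Nat.card (b.Q (b.len - (k + 1) + 1)) *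
          (b.Q (b.len - (k + 1) + 1)).relIndex (b.Q (b.len - (k + 1))) := by
        have h7 := Subgroup.relIndex_mul_relIndex ⊥ (b.Q (b.len - (k + 1) + 1))
          (b.Q (b.len - (k + 1))) bot_le (b.anti (Nat.le_succ _))
        rw [Subgroup.relIndex_bot_left, Subgroup.relIndex_bot_left] at h7
        exact h7.symm
      rw [h6]
      calc _ ≤ 2 ^ (Y * k) * 2 ^ Y := Nat.mul_le_mul h1 h5
        _ = 2 ^ (Y * (k + 1)) := by rw [← pow_add]; ring_nf
  have h7 := h b.len le_rfl
  rwa [Nat.sub_self] at h7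

/-- the trivial series -/
def f2_triv (G : Type u) [Group G] (p : ℕ) : Base G p where
  Q := fun _ => ⊥
  len := 0
  normal := fun _ => inferInstance
  anti := antitone_const
  lt := fun i hi => absurd hi (Nat.not_lt_zero i)
  bot := rfl
  pg := IsPGroup.of_bot
  chief := fun i hi => absurd hi (Nat.not_lt_zero i)

theorem f2 (ha : SF2a.{u}) (hb : SF2b.{u}) (hc : SF2c) (h6 : SA6a.{u}) : SF2.{u} := by
  intro Y G _ _ F hF hN hY
  obtain ⟨P, hPn, hPp, hPK⟩ := ha G F hF hN
  have hbase : ∀ r : ℕ, ∃ b : Base G r, r.Prime → b.Q 0 = P r := by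
    intro r
    by_cases hr : r.Prime
    · have := Fact.mk hr
      have := (hPn r).1
      obtain ⟨b, hb'⟩ := h6 r G (P r) (hPp r hr)
      exact ⟨b, fun _ => hb'⟩
    · exact ⟨f2_triv G r, fun h => absurd h hr⟩
  choose b hbP using hbase
  by_cases hR : (Nat.card F).primeFactors.Nonempty
  · obtain ⟨p, hpR, hp⟩ := hc (kc G) Y (Nat.card F).primeFactors (fun r => (b r).len) hR
      (hb G (Nat.card F).primeFactors b fun r hr => Nat.prime_of_mem_primeFactors hr)
    have hpp := Nat.prime_of_mem_primeFactors hpR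
    obtain ⟨K, hK1, hK2, hK3, hK4⟩ := hPK p hpp
    refine ⟨p, hpp, K, hK1, hK2, hK3, ?_⟩
    rw [hK4]
    calc ∏ r ∈ (Nat.card F).primeFactors.erase p, Nat.card (P r)
        ≤ ∏ r ∈ (Nat.card F).primeFactors.erase p, 2 ^ (Y * (b r).len) := by
          refine Finset.prod_le_prod' fun r hr => ?_
          rw [← hbP r (Nat.prime_of_mem_primeFactors (Finset.mem_of_mem_erase hr))]
          exact f2_card (b r) hY
      _ = 2 ^ (Y * ∑ r ∈ (Nat.card F).primeFactors.erase p, (b r).len) := by
          rw [Finset.prod_pow_eq_pow_sum, Finset.mul_sum]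
      _ ≤ _ := Nat.pow_le_pow_right (by norm_num) hp
  · rw [Finset.not_nonempty_iff_eq_empty] at hR
    obtain ⟨K, hK1, hK2, hK3, hK4⟩ := hPK 2 Nat.prime_two
    refine ⟨2, Nat.prime_two, K, hK1, hK2, hK3, ?_⟩
    rw [hK4, hR]
    simpa using Nat.one_le_two_pow

end H48.CN
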