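import Pool.Agent.H48.CN.Stm

/-!
Class numbers of finite solvable groups: the Sylow subgroups of a nilpotent normal subgroup.
-/

namespace H48.CN

universe u

/-- the product of finitely many normal subgroups of coprime prime power orders -/
private theorem f2a_prod {G : Type u} [Group G] [Finite G] {F : Subgroup G} {P : ℕ → Subgroup G}
    (h1 : ∀ r, (P r).Normal ∧ P r ≤ F) (h2 : ∀ r, r.Prime → ∃ n, Nat.card (P r) = r ^ n)
    (R : Finset ℕ) : (∀ r ∈ R, r.Prime) → ∃ K : Subgroup G, K.Normal ∧ K ≤ F ∧
      Nat.card K = ∏ r ∈ R, Nat.card (P r) := by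
  classical
  induction R using Finset.induction_on with
  | empty =>
    intro _
    exact ⟨⊥, inferInstance, bot_le, by simp⟩
  | insert r R hr ih =>
    intro hR
    obtain ⟨K, hKn, hKF, hK⟩ := ih fun r' hr' => hR r' (Finset.mem_insert_of_mem hr')
    have hPn := (h1 r).1
    refine ⟨K ⊔ P r, inferInstance, sup_le hKF (h1 r).2, ?_⟩
    rw [Finset.prod_insert hr]
    have hco : (Nat.card K).Coprime (Nat.card (P r)) := by
      rw [hK]
      apply Nat.Coprime.prod_left
      intro r' hr'
      obtain ⟨n, hn⟩ := h2 r (hR r (Finset.mem_insert_self r R))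
      obtain ⟨n', hn'⟩ := h2 r' (hR r' (Finset.mem_insert_of_mem hr'))
      rw [hn, hn']
      apply Nat.Coprime.pow
      rw [Nat.coprime_primes (hR r' (Finset.mem_insert_of_mem hr'))
        (hR r (Finset.mem_insert_self r R))]
      rintro rfl
      exact hr hr'
    have hinf : K ⊓ P r = ⊥ := by
      apply Subgroup.eq_bot_of_card_eq
      have e1 : Nat.card (K ⊓ P r : Subgroup G) ∣ Nat.card K := Subgroup.card_dvd_of_le inf_le_left
      have e2 : Nat.card (K ⊓ P r : Subgroup G) ∣ Nat.card (P r) :=
        Subgroup.card_dvd_of_le inf_le_right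
      exact Nat.eq_one_of_dvd_coprimes hco e1 e2
    have e3 := Subgroup.relIndex_mul_relIndex (⊥ : Subgroup G) K (K ⊔ P r) bot_le le_sup_left
    rw [Subgroup.relIndex_bot_left, Subgroup.relIndex_bot_left, Subgroup.relIndex_sup_left,
      ← Subgroup.inf_relIndex_right, hinf, Subgroup.relIndex_bot_left, hK] at e3
    rw [← e3, mul_comm]

theorem f2a : SF2a.{u} := by
  classical
  intro G _ _ F hF hN
  have hS : ∀ r : ℕ, ∃ P : Subgroup G, (P.Normal ∧ P ≤ F) ∧
      (r.Prime → IsPGroup r P ∧ Nat.card P = r ^ (Nat.card F).factorization r) := by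
    intro r
    by_cases hr : r.Prime
    · have : Fact r.Prime := ⟨hr⟩
      obtain ⟨S⟩ := (inferInstance : Nonempty (Sylow r F))
      have : (S : Subgroup F).Normal := inferInstance
      have : (S : Subgroup F).Characteristic := S.characteristic_of_normal inferInstance
      refine ⟨(S : Subgroup F).map F.subtype, ⟨inferInstance, ?_⟩, fun _ => ⟨?_, ?_⟩⟩
      · rintro _ ⟨x, _, rfl⟩
        exact x.2
      · exact S.isPGroup'.map F.subtype
      · rw [Subgroup.card_map_of_injective F.subtype_injective]
        exact S.card_eq_multiplicity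
    · exact ⟨⊥, ⟨inferInstance, bot_le⟩, fun h => absurd h hr⟩
  choose P hP1 hP2 using hS
  refine ⟨P, hP1, fun r hr => (hP2 r hr).1, ?_⟩
  intro p hp
  obtain ⟨K, hKn, hKF, hK⟩ := f2a_prod hP1 (fun r hr => ⟨_, (hP2 r hr).2⟩)
    ((Nat.card F).primeFactors.erase p)
    (fun r hr => Nat.prime_of_mem_primeFactors (Finset.mem_of_mem_erase hr))
  have hcard : Nat.card F = p ^ (Nat.card F).factorization p * Nat.card K := by
    have h0 : Nat.card F ≠ 0 := Nat.card_pos.ne'
    conv_lhs => rw [← Nat.prod_factorization_pow_eq_self h0]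
    rw [Finsupp.prod, Nat.support_factorization, hK]
    by_cases hpF : p ∈ (Nat.card F).primeFactors
    · rw [← Finset.mul_prod_erase _ _ hpF]
      congr 1
      refine Finset.prod_congr rfl fun r hr => ?_
      exact (hP2 r (Nat.prime_of_mem_primeFactors (Finset.mem_of_mem_erase hr))).2.symm
    · rw [Finset.erase_eq_of_notMem hpF]
      have h1 : (Nat.card F).factorization p = 0 := by
        rw [← Nat.support_factorization, Finsupp.notMem_support_iff] at hpF
        exact hpF
      rw [h1, pow_zero, one_mul]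
      refine Finset.prod_congr rfl fun r hr => ?_
      exact (hP2 r (Nat.prime_of_mem_primeFactors hr)).2.symm
  refine ⟨K, hKn, hKF, ?_, hK⟩
  intro x hx
  refine ⟨(Nat.card F).factorization p, ?_⟩
  have e1 := Subgroup.relIndex_mul_relIndex (⊥ : Subgroup G) K F bot_le hKF
  rw [Subgroup.relIndex_bot_left, Subgroup.relIndex_bot_left] at e1
  have e2 : K.relIndex F = p ^ (Nat.card F).factorization p := by
    have h2 : Nat.card K * K.relIndex F = Nat.card K * p ^ (Nat.card F).factorization p := by
      rw [e1, mul_comm (Nat.card K)]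
      exact hcard
    exact Nat.eq_of_mul_eq_mul_left Nat.card_pos h2
  have : (K.subgroupOf F).Normal := inferInstance
  have e3 := Subgroup.pow_index_mem (K.subgroupOf F) (⟨x, hx⟩ : F)
  rw [Subgroup.mem_subgroupOf] at e3
  have e4 : (K.subgroupOf F).index = p ^ (Nat.card F).factorization p := e2
  rw [e4] at e3
  exact e3

end H48.CN
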