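import Pool.Agent.H48.CN.Stm

/-!
Project CN, row F2b: products of elements of coprime prime power order lie in different
conjugacy classes (helper91).
-/

namespace H48.CN

open H60.KG MulAction

universe u

/-- exponents that isolate the part of prime power order -/
theorem f2b_exp (G : Type u) [Group G] [Finite G] (s : ℕ) (hs : s.Prime) :
    ∃ e : ℕ, (∀ (w : G) (k : ℕ), w ^ s ^ k = 1 → w ^ e = w) ∧
      ∀ r : ℕ, r.Prime → r ≠ s → ∀ (w : G) (k : ℕ), w ^ r ^ k = 1 → w ^ e = 1 := by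
  have hN : Nat.card G ≠ 0 := Nat.card_pos.ne'
  set v := (Nat.card G).factorization s with hv
  have hcop : (s ^ v).Coprime (Nat.card G / s ^ v) :=
    (Nat.coprime_ordCompl hs hN).pow_left v
  obtain ⟨e, he1, he2⟩ := Nat.chineseRemainder hcop 1 0
  refine ⟨e, fun w k hw => ?_, fun r hr hrs w k hw => ?_⟩
  · have h1 : orderOf w ∣ s ^ k := orderOf_dvd_of_pow_eq_one hw
    have h2 : orderOf w ∣ Nat.card G := orderOf_dvd_natCard w
    have h3 : orderOf w ∣ s ^ v := by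
      obtain ⟨m, -, hm⟩ := (Nat.dvd_prime_pow hs).1 h1
      rw [hm] at h2 ⊢
      exact pow_dvd_pow s ((hs.pow_dvd_iff_le_factorization hN).1 h2)
    have h4 : e ≡ 1 [MOD orderOf w] := he1.of_dvd h3
    have h5 : w ^ e = w ^ 1 := pow_eq_pow_iff_modEq.2 h4
    rwa [pow_one] at h5
  · have h1 : orderOf w ∣ r ^ k := orderOf_dvd_of_pow_eq_one hw
    have h2 : orderOf w ∣ Nat.card G := orderOf_dvd_natCard w
    have h3 : (orderOf w).Coprime (s ^ v) :=
      Nat.Coprime.coprime_dvd_left h1 (((Nat.coprime_primes hr hs).2 hrs).pow k v)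
    have h4 : orderOf w ∣ Nat.card G / s ^ v := by
      have h5 : s ^ v * (Nat.card G / s ^ v) = Nat.card G :=
        Nat.ordProj_mul_ordCompl_eq_self (Nat.card G) s
      rw [← h5] at h2
      exact h3.dvd_of_dvd_mul_left h2
    have h5 : e ≡ 0 [MOD orderOf w] := he2.of_dvd h4
    have h6 : w ^ e = w ^ 0 := pow_eq_pow_iff_modEq.2 h5
    rwa [pow_zero] at h6

theorem f2b_pow {G : Type u} [Group G] {r : ℕ} (b : Base G r) (i : ℕ) {x : G} (hx : x ∈ b.Q i) :
    ∃ k : ℕ, x ^ r ^ k = 1 := by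
  have h0 : x ∈ b.Q 0 := b.anti (Nat.zero_le i) hx
  obtain ⟨k, hk⟩ := b.pg ⟨x, h0⟩
  refine ⟨k, ?_⟩
  have h1 := congrArg Subtype.val hk
  simpa using h1

theorem f2b_comm {G : Type u} [Group G] {r s : ℕ} (hr : r.Prime) (hs : s.Prime) (hrs : r ≠ s)
    (b : Base G r) (c : Base G s) (i j : ℕ) {x y : G} (hx : x ∈ b.Q i) (hy : y ∈ c.Q j) :
    Commute x y := by
  haveI : Fact r.Prime := ⟨hr⟩
  haveI : Fact s.Prime := ⟨hs⟩
  exact Subgroup.commute_of_normal_of_disjoint (b.Q 0) (c.Q 0) (b.normal 0) (c.normal 0)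
    (IsPGroup.disjoint_of_ne r s hrs _ _ b.pg c.pg) x y (b.anti (Nat.zero_le i) hx)
    (c.anti (Nat.zero_le j) hy)

/-- levels of conjugate elements -/
theorem f2b_lev {G : Type u} [Group G] {r : ℕ} (b : Base G r) {i j : ℕ} {x y g : G}
    (hx' : x ∉ b.Q (i + 1)) (hy : y ∈ b.Q j) (h : g * x * g⁻¹ = y) : j ≤ i := by
  by_contra hlt
  push Not at hlt
  have h1 : y ∈ b.Q (i + 1) := b.anti hlt hy
  have h2 := (b.normal (i + 1)).conj_mem y h1 g⁻¹
  rw [← h] at h2
  apply hx'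
  have h3 : g⁻¹ * (g * x * g⁻¹) * g⁻¹⁻¹ = x := by group
  rwa [h3] at h2

theorem f2b : SF2b.{u} := by
  intro G _ _ R b hR
  classical
  have hX : ∀ r i : ℕ, ∃ x : G, i < (b r).len → x ∈ (b r).Q i ∧ x ∉ (b r).Q (i + 1) := by
    intro r i
    by_cases h : i < (b r).len
    · obtain ⟨x, hx, hx'⟩ := SetLike.exists_of_lt ((b r).lt i h)
      exact ⟨x, fun _ => ⟨hx, hx'⟩⟩
    · exact ⟨1, fun h' => absurd h' h⟩
  choose X hX using hX
  have hE : ∀ s : ℕ, ∃ e : ℕ, s.Prime → (∀ (w : G) (k : ℕ), w ^ s ^ k = 1 → w ^ e = w) ∧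
      ∀ r : ℕ, r.Prime → r ≠ s → ∀ (w : G) (k : ℕ), w ^ r ^ k = 1 → w ^ e = 1 := by
    intro s
    by_cases hs : s.Prime
    · obtain ⟨e, he⟩ := f2b_exp G s hs
      exact ⟨e, fun _ => he⟩
    · exact ⟨0, fun h => absurd h hs⟩
  choose E hE using hE
  -- powers of the products
  have hself : ∀ r i, r ∈ R → i < (b r).len → X r i ^ E r = X r i := by
    intro r i hr hi
    obtain ⟨k, hk⟩ := f2b_pow (b r) i (hX r i hi).1
    exact (hE r (hR r hr)).1 _ k hk
  have hoth : ∀ r i s, r ∈ R → i < (b r).len → s ∈ R → r ≠ s → X r i ^ E s = 1 := by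
    intro r i s hr hi hs hrs
    obtain ⟨k, hk⟩ := f2b_pow (b r) i (hX r i hi).1
    exact (hE s (hR s hs)).2 r (hR r hr) hrs _ k hk
  have hne : ∀ r i, i < (b r).len → X r i ≠ 1 := by
    intro r i hi h
    apply (hX r i hi).2
    rw [h]
    exact Subgroup.one_mem _
  have hpow : ∀ r i s j t, r ∈ R → i < (b r).len → s ∈ R → j < (b s).len → r ≠ s →
      (X r i * X s j) ^ E t = X r i ^ E t * X s j ^ E t := by
    intro r i s j t hr hi hs hj hrs
    exact (f2b_comm (hR r hr) (hR s hs) hrs (b r) (b s) i j (hX r i hi).1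
      (hX s j hj).1).mul_pow _
  let S := ((R ×ˢ R).filter (fun x => x.1 < x.2)).sigma
    (fun x => Finset.range (b x.1).len ×ˢ Finset.range (b x.2).len)
  have hcard : ∑ x ∈ (R ×ˢ R).filter (fun x => x.1 < x.2), (b x.1).len * (b x.2).len =
      S.card := by
    rw [Finset.card_sigma]
    refine Finset.sum_congr rfl fun x _ => ?_
    rw [Finset.card_product, Finset.card_range, Finset.card_range]
  haveI : Fintype (ConjClasses G) := Fintype.ofFinite _
  have hk : kc G = (Finset.univ : Finset (ConjClasses G)).card := by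
    rw [Finset.card_univ]
    exact Nat.card_eq_fintype_card
  rw [hcard, hk]
  refine Finset.card_le_card_of_injOn
    (fun a => ConjClasses.mk (X a.1.1 a.2.1 * X a.1.2 a.2.2)) (fun _ _ => Finset.mem_univ _) ?_
  rintro ⟨⟨r, r'⟩, ⟨i, j⟩⟩ ha ⟨⟨s, s'⟩, ⟨i', j'⟩⟩ ha' heq
  have ha1 := Finset.mem_sigma.1 (Finset.mem_coe.1 ha)
  have ha2 := Finset.mem_sigma.1 (Finset.mem_coe.1 ha')
  obtain ⟨h1, h2⟩ := ha1
  obtain ⟨h3, h4⟩ := ha2
  simp only [Finset.mem_filter, Finset.mem_product, Finset.mem_range] at h1 h2 h3 h4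
  obtain ⟨⟨hr, hr'⟩, hlt⟩ := h1
  obtain ⟨hi, hj⟩ := h2
  obtain ⟨⟨hs, hs'⟩, hlt'⟩ := h3
  obtain ⟨hi', hj'⟩ := h4
  have hconj : IsConj (X r i * X r' j) (X s i' * X s' j') :=
    ConjClasses.mk_eq_mk_iff_isConj.1 heq
  obtain ⟨g, hg⟩ := isConj_iff.1 hconj
  have hgp : ∀ t, g * (X r i ^ E t * X r' j ^ E t) * g⁻¹ = X s i' ^ E t * X s' j' ^ E t := by
    intro t
    rw [← hpow r i r' j t hr hi hr' hj hlt.ne, ← hpow s i' s' j' t hs hi' hs' hj' hlt'.ne, ← hg,
      conj_pow]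
  -- the primes agree
  have hmem : ∀ t, t ∈ R → ((t = r ∨ t = r') ↔ (t = s ∨ t = s')) := by
    intro t ht
    have key : ∀ r i r' j, r ∈ R → i < (b r).len → r' ∈ R → j < (b r').len → r < r' →
        ((t = r ∨ t = r') ↔ X r i ^ E t * X r' j ^ E t ≠ 1) := by
      intro r i r' j hr hi hr' hj hlt
      constructor
      · rintro (rfl | rfl)
        · rw [hself t i hr hi, hoth r' j t hr' hj hr hlt.ne', mul_one]
          exact hne t i hi
        · rw [hself t j hr' hj, hoth r i t hr hi hr' hlt.ne, one_mul]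
          exact hne t j hj
      · intro h
        by_contra hcon
        push Not at hcon
        apply h
        rw [hoth r i t hr hi ht (Ne.symm hcon.1), hoth r' j t hr' hj ht (Ne.symm hcon.2),
          mul_one]
    rw [key r i r' j hr hi hr' hj hlt, key s i' s' j' hs hi' hs' hj' hlt', ← hgp t]
    exact not_congr (conj_eq_one_iff).symm
  have e1 := (hmem r hr).1 (Or.inl rfl)
  have e2 := (hmem r' hr').1 (Or.inr rfl)
  have e3 := (hmem s hs).2 (Or.inl rfl)
  have e4 := (hmem s' hs').2 (Or.inr rfl)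
  have hrs : r = s ∧ r' = s' := by omega
  obtain ⟨rfl, rfl⟩ := hrs
  have hx := hgp r
  rw [hself r i hr hi, hoth r' j r hr' hj hr hlt.ne', mul_one, hself r i' hr hi',
    hoth r' j' r hr' hj' hr hlt.ne', mul_one] at hx
  have hy := hgp r'
  rw [hoth r i r' hr hi hr' hlt.ne, hself r' j hr' hj, one_mul, hoth r i' r' hr hi' hr' hlt.ne,
    hself r' j' hr' hj', one_mul] at hy
  have hx2 : g⁻¹ * X r i' * g⁻¹⁻¹ = X r i := by rw [← hx]; group
  have hy2 : g⁻¹ * X r' j' * g⁻¹⁻¹ = X r' j := by rw [← hy]; group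
  have f1 : i' ≤ i := f2b_lev (b r) (hX r i hi).2 (hX r i' hi').1 hx
  have f2 : i ≤ i' := f2b_lev (b r) (hX r i' hi').2 (hX r i hi).1 hx2
  have f3 : j' ≤ j := f2b_lev (b r') (hX r' j hj).2 (hX r' j' hj').1 hy
  have f4 : j ≤ j' := f2b_lev (b r') (hX r' j' hj').2 (hX r' j hj).1 hy2
  have f5 : i = i' := le_antisymm f2 f1
  have f6 : j = j' := le_antisymm f4 f3
  rw [f5, f6]

end H48.CN
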