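import Pool.Agent.H48.CN.Stm

/-!
Project CN, row F2c: numbers for the choice of the prime (helper91).
-/

namespace H48.CN

/-- the square of a sum -/
theorem f2c_sq (R : Finset ℕ) (μ : ℕ → ℕ) :
    (∑ r ∈ R, μ r) ^ 2 = 2 * ∑ x ∈ (R ×ˢ R).filter (fun x => x.1 < x.2), μ x.1 * μ x.2 +
      ∑ r ∈ R, μ r ^ 2 := by
  have h1 : (∑ r ∈ R, μ r) ^ 2 = ∑ x ∈ R ×ˢ R, μ x.1 * μ x.2 := by
    rw [sq, Finset.sum_mul_sum, Finset.sum_product]
  have h2 : ∑ x ∈ R ×ˢ R, μ x.1 * μ x.2 =
      ∑ x ∈ (R ×ˢ R).filter (fun x => x.1 < x.2), μ x.1 * μ x.2 +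
      ∑ x ∈ (R ×ˢ R).filter (fun x => ¬ x.1 < x.2), μ x.1 * μ x.2 :=
    (Finset.sum_filter_add_sum_filter_not _ _ _).symm
  have h3 : ∑ x ∈ (R ×ˢ R).filter (fun x => ¬ x.1 < x.2), μ x.1 * μ x.2 =
      ∑ x ∈ ((R ×ˢ R).filter (fun x => ¬ x.1 < x.2)).filter (fun x => x.2 < x.1),
        μ x.1 * μ x.2 +
      ∑ x ∈ ((R ×ˢ R).filter (fun x => ¬ x.1 < x.2)).filter (fun x => ¬ x.2 < x.1),
        μ x.1 * μ x.2 := (Finset.sum_filter_add_sum_filter_not _ _ _).symm
  have h4 : ∑ x ∈ ((R ×ˢ R).filter (fun x => ¬ x.1 < x.2)).filter (fun x => x.2 < x.1),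
      μ x.1 * μ x.2 = ∑ x ∈ (R ×ˢ R).filter (fun x => x.1 < x.2), μ x.1 * μ x.2 := by
    refine Finset.sum_bij' (fun x _ => (x.2, x.1)) (fun x _ => (x.2, x.1)) ?_ ?_ ?_ ?_ ?_
    · intro x hx
      simp only [Finset.mem_filter, Finset.mem_product] at hx ⊢
      exact ⟨⟨hx.1.1.2, hx.1.1.1⟩, hx.2⟩
    · intro x hx
      simp only [Finset.mem_filter, Finset.mem_product] at hx ⊢
      exact ⟨⟨⟨hx.1.2, hx.1.1⟩, by omega⟩, hx.2⟩
    · intro x _
      rfl
    · intro x _
      rfl
    · intro x _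
      exact mul_comm _ _
  have h5 : ∑ x ∈ ((R ×ˢ R).filter (fun x => ¬ x.1 < x.2)).filter (fun x => ¬ x.2 < x.1),
      μ x.1 * μ x.2 = ∑ r ∈ R, μ r ^ 2 := by
    refine Finset.sum_bij' (fun x _ => x.1) (fun r _ => (r, r)) ?_ ?_ ?_ ?_ ?_
    · intro x hx
      simp only [Finset.mem_filter, Finset.mem_product] at hx
      exact hx.1.1.1
    · intro r hr
      simp only [Finset.mem_filter, Finset.mem_product]
      exact ⟨⟨⟨hr, hr⟩, lt_irrefl _⟩, lt_irrefl _⟩
    · intro x hx
      simp only [Finset.mem_filter, Finset.mem_product] at hx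
      have : x.1 = x.2 := by omega
      exact Prod.ext rfl this
    · intro r _
      rfl
    · intro x hx
      simp only [Finset.mem_filter, Finset.mem_product] at hx
      have : x.1 = x.2 := by omega
      rw [← this, sq]
  rw [h1, h2, h3, h4, h5]
  ring

theorem f2c : SF2c := by
  intro k Y R μ hR hk
  obtain ⟨p, hp, hmax⟩ := Finset.exists_max_image R μ hR
  refine ⟨p, hp, ?_⟩
  have hsplit : μ p + ∑ r ∈ R.erase p, μ r = ∑ r ∈ R, μ r := Finset.add_sum_erase R μ hp
  have hsq := f2c_sq R μ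
  have hle : ∑ r ∈ R, μ r ^ 2 ≤ μ p * ∑ r ∈ R, μ r := by
    rw [Finset.mul_sum]
    refine Finset.sum_le_sum fun r hr => ?_
    rw [sq]
    exact Nat.mul_le_mul_right _ (hmax r hr)
  set s := ∑ r ∈ R.erase p, μ r with hs
  set T := ∑ r ∈ R, μ r with hT
  set q := Nat.sqrt k with hq
  have hkq : k < (q + 1) * (q + 1) := Nat.lt_succ_sqrt k
  have h1 : T ^ 2 ≤ 2 * k + μ p * T := by
    have := Nat.mul_le_mul_left 2 hk
    omega
  have hks : μ p * s ≤ 2 * k := by
    rw [← hsplit] at h1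
    have e : (μ p + s) ^ 2 = (μ p + s) * s + μ p * (μ p + s) := by ring
    rw [e] at h1
    have h2 : (μ p + s) * s ≤ 2 * k := by omega
    have h3 : μ p * s ≤ (μ p + s) * s := Nat.mul_le_mul_right _ (by omega)
    omega
  rcases le_or_gt Y (μ p) with hY | hY
  · -- all pairs with `p`
    have h4 : μ p * s ≤ k := by
      refine le_trans ?_ hk
      rw [hs, Finset.mul_sum]
      have h5 : ∑ r ∈ R.erase p, μ p * μ r = ∑ x ∈ (R.erase p).image
          (fun r => if r < p then (r, p) else (p, r)), μ x.1 * μ x.2 := by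
        rw [Finset.sum_image]
        · refine Finset.sum_congr rfl fun r _ => ?_
          by_cases h : r < p
          · rw [if_pos h]
            exact mul_comm _ _
          · rw [if_neg h]
        · intro a ha b hb hab
          have ha' := Finset.ne_of_mem_erase (Finset.mem_coe.1 ha)
          have hb' := Finset.ne_of_mem_erase (Finset.mem_coe.1 hb)
          simp only at hab
          split_ifs at hab with h6 h7 h7
          · exact (Prod.mk.inj hab).1
          · exact absurd (Prod.mk.inj hab).1 ha'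
          · exact absurd (Prod.mk.inj hab).1.symm hb'
          · exact (Prod.mk.inj hab).2
      rw [h5]
      refine Finset.sum_le_sum_of_subset ?_
      intro x hx
      obtain ⟨r, hr, rfl⟩ := Finset.mem_image.1 hx
      have hr1 := Finset.ne_of_mem_erase hr
      have hr2 := Finset.mem_of_mem_erase hr
      rw [Finset.mem_filter, Finset.mem_product]
      split_ifs with h
      · exact ⟨⟨hr2, hp⟩, h⟩
      · refine ⟨⟨hp, hr2⟩, ?_⟩
        show p < r
        omega
    have h5 : Y * s ≤ μ p * s := Nat.mul_le_mul_right _ hY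
    omega
  · have h2 : s ≤ Y + 2 * (q + 1) := by
      by_contra hcon
      push Not at hcon
      have hTY : Y + 2 * (q + 1) < T := by omega
      obtain ⟨d, hd⟩ := Nat.exists_eq_add_of_lt hTY
      have h3 : μ p * T ≤ Y * T := Nat.mul_le_mul_right _ hY.le
      have h4 : T ^ 2 ≤ 2 * k + Y * T := by omega
      have h5 : T ^ 2 = (2 * (q + 1) + d + 1) * T + Y * T := by
        have : T = Y + (2 * (q + 1) + d + 1) := by omega
        calc T ^ 2 = T * T := sq T
          _ = (Y + (2 * (q + 1) + d + 1)) * T := by rw [← this]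
          _ = _ := by ring
      have h6 : (2 * (q + 1) + d + 1) * T ≤ 2 * k := by omega
      have h7 : (2 * (q + 1)) * (2 * (q + 1)) ≤ (2 * (q + 1) + d + 1) * T :=
        Nat.mul_le_mul (by omega) (by omega)
      have h8 : (2 * (q + 1)) * (2 * (q + 1)) = 4 * ((q + 1) * (q + 1)) := by ring
      omega
    have h3 : Y * s ≤ Y * (Y + 2 * (q + 1)) := Nat.mul_le_mul_left _ h2
    have h4 : Y * (Y + 2 * (q + 1)) = Y ^ 2 + 2 * Y * (q + 1) := by ring
    omega

end H48.CN
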