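import Pool.Agent.H48.CN.Stm

/-!
Class numbers of finite solvable groups: the reduction to a normal `p`-subgroup of small index.
-/

namespace H48.CN

open H60.KG MulAction

universe u

/-- the kernel of a factor -/
theorem aker_fac {G V : Type u} [Group G] [AddCommGroup V] [DistribMulAction G V]
    {N M : Subgroup G} {φ : G → V} (h : IsFac (MonoidHom.id G) N M φ) (g : G) :
    g ∈ aker G V ↔ ∀ x ∈ M, g * x * g⁻¹ * x⁻¹ ∈ N := by
  constructor
  · intro hg x hx
    have hx' : g * x * g⁻¹ ∈ M := h.nM.conj_mem x hx g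
    rw [← h.eq_iff hx' hx, h.equi g x hx]
    exact hg (φ x)
  · intro hg v
    obtain ⟨x, hx, rfl⟩ := h.surj v
    have hx' : g * x * g⁻¹ ∈ M := h.nM.conj_mem x hx g
    have h1 := (h.eq_iff hx' hx).mpr (hg x hx)
    rw [h.equi g x hx] at h1
    exact h1

theorem f1 (h1a : SF1a.{u}) (h1b : SF1b.{u}) (h4 : SA4.{u}) (h4b : SA4b.{u}) : SF1.{u} := by
  intro l Y G _ _ hsol hk hch
  obtain ⟨F, n, N, M, hFn, hFnil, hNM, hF⟩ := h1a G hsol
  have hmod : ∀ i : Fin n, ∃ (V : Type u) (_ : AddCommGroup V) (_ : Finite V)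
      (_ : DistribMulAction G V) (φ : G → V), IsFac (MonoidHom.id G) (N i) (M i) φ := by
    intro i
    refine h4 G G (MonoidHom.id G) (N i) (M i) Function.surjective_id (hNM i).2 ?_
    intro g hg x _
    have hg' : g = 1 := hg
    subst hg'
    simp
  choose V iA iF iD φ hφ using hmod
  refine ⟨F, hFn, hFnil, ?_⟩
  have hFeq : F = ⨅ i, aker G (V i) := by
    ext g
    rw [hF, Subgroup.mem_iInf]
    exact forall_congr' fun i => (aker_fac (hφ i) g).symm
  rw [hFeq]
  refine h1b l Y n G V hk fun i => ⟨iF i, ?_⟩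
  rw [(h4b G G (V i) (MonoidHom.id G) (N i) (M i) (φ i) Function.surjective_id (hφ i)).1]
  exact hch _ _ (hNM i).1

theorem f3 (h1 : SF1.{u}) (h2 : SF2.{u}) : SF3.{u} := by
  intro l Y G _ _ hsol hk hch
  obtain ⟨F, hFn, hFnil, hFi⟩ := h1 l Y G hsol hk hch
  obtain ⟨p, hp, K, hKn, hKF, hpow, hKc⟩ := h2 Y G F hFn hFnil hch
  have hidx : (F.map (QuotientGroup.mk' K)).index = F.index :=
    Subgroup.index_map_eq F (QuotientGroup.mk'_surjective K)
      (by rw [QuotientGroup.ker_mk']; exact hKF)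
  refine ⟨p, hp, K, hKn, F.map (QuotientGroup.mk' K),
    Subgroup.Normal.map hFn _ (QuotientGroup.mk'_surjective K), ?_, ?_, ?_⟩
  · rintro ⟨y, hy⟩
    obtain ⟨x, hx, rfl⟩ := hy
    obtain ⟨n, hn⟩ := hpow x hx
    refine ⟨n, Subtype.ext ?_⟩
    have h3 : (QuotientGroup.mk' K x) ^ p ^ n = 1 := by
      rw [← map_pow]
      exact (QuotientGroup.eq_one_iff _).mpr hn
    simpa using h3
  · rw [hidx]
    exact hFi
  · set Q : Subgroup (G ⧸ K) := F.map (QuotientGroup.mk' K) with hQ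
    have h3 : Nat.card G = Nat.card (G ⧸ K) * Nat.card K := Subgroup.card_eq_card_quotient_mul_card_subgroup K
    have h4 : Nat.card Q * Q.index = Nat.card (G ⧸ K) := Q.card_mul_index
    rw [h3, ← h4, mul_assoc, pow_add, hidx]
    exact Nat.mul_le_mul le_rfl (Nat.mul_le_mul hFi hKc)

end H48.CN
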