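import Pool.Agent.H48.CN.Stm

/-!
Class numbers of finite solvable groups, G1: the typical bad levels (helper33).
-/

namespace H48.CN

open H60.KG MulAction

universe u

/-- fixed points of an element on a factor -/
theorem g1_fixLev {G H V : Type u} [Group G] [Group H] [AddCommGroup V] [DistribMulAction H V]
    {π : G →* H} {N M : Subgroup G} {φ : G → V} (h : IsFac π N M φ) (g : G) :
    fixLev N M g ↔ ∃ v : V, v ≠ 0 ∧ π g • v = v := by
  have hnM : ∀ x ∈ M, g * x * g⁻¹ ∈ M := fun x hx => h.nM.conj_mem x hx g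
  constructor
  · rintro ⟨x, hx, hxN, h1⟩
    refine ⟨φ x, fun h0 => hxN ((h.ker x hx).1 h0), ?_⟩
    rw [← h.equi g x hx, h.eq_iff (hnM x hx) hx]
    exact h1
  · rintro ⟨v, hv, h1⟩
    obtain ⟨x, hx, rfl⟩ := h.surj v
    refine ⟨x, hx, fun h0 => hv ((h.ker x hx).2 h0), ?_⟩
    rw [← h.equi g x hx, h.eq_iff (hnM x hx) hx] at h1
    exact h1

/-- numbers -/
theorem g1_num {a u l C0 : ℕ} (hu : 1 ≤ u) (hl : l < 2 ^ u) :
    (2 ^ ((a + 1) * u ^ 2) * l + 2) ^ 20 ≤ 2 ^ ((20 * (a + 2) + C0) * u ^ 2) := by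
  have hY : 2 ≤ 2 ^ ((a + 1) * u ^ 2) := by
    calc 2 = 2 ^ 1 := (pow_one 2).symm
      _ ≤ 2 ^ ((a + 1) * u ^ 2) := Nat.pow_le_pow_right two_pos
          (Nat.mul_pos (Nat.succ_pos a) (pow_pos hu 2))
  have h1 : 2 ^ ((a + 1) * u ^ 2) * l + 2 ≤ 2 ^ ((a + 1) * u ^ 2) * 2 ^ u := by
    have h2 : l + 1 ≤ 2 ^ u := hl
    calc 2 ^ ((a + 1) * u ^ 2) * l + 2 ≤ 2 ^ ((a + 1) * u ^ 2) * l + 2 ^ ((a + 1) * u ^ 2) := by
          omega
      _ = 2 ^ ((a + 1) * u ^ 2) * (l + 1) := by ring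
      _ ≤ _ := Nat.mul_le_mul_left _ h2
  have h3 : 2 ^ ((a + 1) * u ^ 2) * 2 ^ u ≤ 2 ^ ((a + 2) * u ^ 2) := by
    rw [← pow_add]
    refine Nat.pow_le_pow_right two_pos ?_
    have : u ≤ u ^ 2 := by
      rw [pow_two]
      exact Nat.le_mul_of_pos_left u hu
    calc (a + 1) * u ^ 2 + u ≤ (a + 1) * u ^ 2 + u ^ 2 := by omega
      _ = (a + 2) * u ^ 2 := by ring
  calc (2 ^ ((a + 1) * u ^ 2) * l + 2) ^ 20 ≤ (2 ^ ((a + 2) * u ^ 2)) ^ 20 :=
        Nat.pow_le_pow_left (h1.trans h3) 20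
    _ = 2 ^ (20 * (a + 2) * u ^ 2) := by
        rw [← pow_mul]
        congr 1
        ring
    _ ≤ _ := Nat.pow_le_pow_right two_pos (Nat.mul_le_mul_right _ (Nat.le_add_right _ _))

/-- numbers -/
theorem g1_num3 (c : ℕ) (hc : 8 ≤ c) {K l : ℕ} (hK : 1 ≤ K) (hl : K < 2 ^ l) :
    2 ^ c + K ^ 8 ≤ 2 ^ ((c + 1) * l) := by
  have hl1 : 1 ≤ l := by
    rcases Nat.eq_zero_or_pos l with h | h
    · rw [h, pow_zero] at hl
      omega
    · exact h
  have h2 : K ^ 8 ≤ 2 ^ (8 * l) := by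
    calc K ^ 8 ≤ (2 ^ l) ^ 8 := Nat.pow_le_pow_left hl.le 8
      _ = 2 ^ (8 * l) := by
          rw [← pow_mul, mul_comm]
  have h3 : 2 ^ c ≤ 2 ^ (c * l) :=
    Nat.pow_le_pow_right two_pos (Nat.le_mul_of_pos_right _ hl1)
  have h4 : 2 ^ (8 * l) ≤ 2 ^ (c * l) :=
    Nat.pow_le_pow_right two_pos (Nat.mul_le_mul_right _ hc)
  have h5 : 2 ^ (c * l) * 2 ≤ 2 ^ ((c + 1) * l) := by
    rw [← pow_succ]
    refine Nat.pow_le_pow_right two_pos ?_
    rw [Nat.succ_mul]
    omega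
  calc 2 ^ c + K ^ 8 ≤ 2 ^ (c * l) + 2 ^ (c * l) :=
        Nat.add_le_add h3 (h2.trans h4)
    _ = 2 ^ (c * l) * 2 := by rw [mul_two]
    _ ≤ _ := h5

/-- numbers -/
theorem g1_lam : 16384 * lam 0 + 1 = 16385 := by
  have h : lam 0 = 1 := by
    unfold lam
    simp
  rw [h]

/-- numbers -/
theorem g1_num2 {K l : ℕ} (hK : 1 ≤ K) (hl : K < 2 ^ l) : cst 0 + K ^ 8 ≤ 2 ^ (16386 * l) := by
  have h0 := g1_num3 (16384 * lam 0 + 1) (by rw [g1_lam]; norm_num) hK hl
  have h1 : (16384 * lam 0 + 1 + 1) * l = 16386 * l := by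
    rw [g1_lam]
  rw [h1] at h0
  exact h0

theorem g1 (hA2 : SA2.{u}) (hA2b : SA2b.{u}) (hA4 : SA4.{u}) (hA4b : SA4b.{u}) (hA6b : SA6b.{u})
    (hB8 : SB8.{u}) (hC : SC.{u}) : SG1.{u} := by
  classical
  obtain ⟨C0, hB8⟩ := hB8
  obtain ⟨cC, hC⟩ := hC
  intro a
  refine ⟨20 * (a + 2) + C0 + 16386 + 9 * cC, ?_⟩
  intro p K l u _ G _ _ b hsol hK hP hchief
  haveI := hsol
  haveI := b.normal 0
  have hKpos : 1 ≤ K := (one_le_class G).trans hK
  have hl1 : 1 ≤ l := by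
    rcases Nat.eq_zero_or_pos l with h | h
    · have := hP.lt
      rw [h, pow_zero] at this
      omega
    · exact h
  -- the factors
  obtain ⟨hlen, hfac⟩ := hA6b p G b
  let H := G ⧸ b.Q 0
  let π : G →* H := QuotientGroup.mk' (b.Q 0)
  have hπ : Function.Surjective π := QuotientGroup.mk'_surjective _
  have hker : π.ker = b.Q 0 := QuotientGroup.ker_mk' _
  have hex : ∀ i : ℕ, ∃ (V : Type u) (_ : AddCommGroup V) (_ : Finite V)
      (_ : DistribMulAction H V) (φ : G → V),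
      i < b.len → IsFac π (b.Q (i + 1)) (b.Q i) φ := by
    intro i
    by_cases hi : i < b.len
    · obtain ⟨h1, h2, h3⟩ := hfac i hi
      obtain ⟨V, i1, i2, i3, φ, hφ⟩ := hA4 G H π (b.Q (i + 1)) (b.Q i) hπ h1.toAbSec
        (fun g hg x hx => h3 g (by
          rw [← hker]
          exact hg) x hx)
      exact ⟨V, i1, i2, i3, φ, fun _ => hφ⟩
    · exact ⟨PUnit, inferInstance, inferInstance, inferInstance, fun _ => 0,
        fun h => absurd h hi⟩
  choose V i1 i2 i3 φ hφ using hex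
  letI : ∀ i, AddCommGroup (V i) := i1
  haveI : ∀ i, Finite (V i) := i2
  letI : ∀ i, DistribMulAction H (V i) := i3
  haveI : Finite H := inferInstance
  have hsum := hA2 p b.len G H π b.Q V φ hπ hker b.pg b.anti (fun i hi => hφ i hi)
  have hκ : ∑ i ∈ Finset.range b.len, kappa p H (V i) ≤ K := by omega
  have hn : ∀ i, orb H (V i) - 1 ≤ kappa p H (V i) := fun i => (hA2b p H (V i)).1
  have hcard : ∀ i < b.len, Nat.card (V i) = (b.Q (i + 1)).relIndex (b.Q i) := fun i hi =>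
    (hA4b G H (V i) π _ _ (φ i) hπ (hφ i hi)).1
  have hirr : ∀ i < b.len, Irred H (V i) := fun i hi =>
    (hA4b G H (V i) π _ _ (φ i) hπ (hφ i hi)).2.2 (hfac i hi).2.1
  have hkcH : kc H ≤ K := (card_conj_le_of_surjective π hπ).trans hK
  haveI hsolH : Group.IsSolvable H := inferInstance
  have hp0 : ∀ i < b.len, ∀ v : V i, p • v = 0 := by
    intro i hi v
    obtain ⟨x, hx, rfl⟩ := (hφ i hi).surj v
    rw [← (hφ i hi).map_pow hx, (hφ i hi).ker _ ((b.Q i).pow_mem hx p)]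
    exact (hfac i hi).1.el x hx
  set Y : ℕ := 2 ^ ((a + 1) * u ^ 2) with hY
  set D : ℕ := (20 * (a + 2) + C0) * u ^ 2 with hD
  have hu1 := hP.one
  have hu2 : 1 ≤ u ^ 2 := Nat.one_le_pow 2 u hu1
  have hVY : ∀ i < b.len, Nat.card (V i) ≤ 2 ^ Y := by
    intro i hi
    rw [hcard i hi]
    refine (hchief _ _ (hfac i hi).2.1).trans (Nat.pow_le_pow_right two_pos ?_)
    exact Nat.pow_le_pow_right two_pos (Nat.mul_le_mul_right _ (Nat.le_succ a))
  have hnum : (Y * l + 2) ^ 20 ≤ 2 ^ D := g1_num hu1 hP.lu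
  have hC0D : C0 ≤ D := by
    rw [hD]
    calc C0 ≤ 20 * (a + 2) + C0 := Nat.le_add_left _ _
      _ ≤ _ := Nat.le_mul_of_pos_right _ hu2
  let T : Finset ℕ := (Finset.range b.len).filter (fun i =>
    2 ^ (D * (orb H (V i) - 1)) < Nat.card (V i) ∧ kappa p H (V i) ≤ l * (orb H (V i) - 1))
  have hTmem : ∀ i, i ∈ T ↔ i < b.len ∧ (2 ^ (D * (orb H (V i) - 1)) < Nat.card (V i) ∧
      kappa p H (V i) ≤ l * (orb H (V i) - 1)) := by
    intro i
    simp only [T, Finset.mem_filter, Finset.mem_range]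
  have hT8 : ∀ i, i ∈ T → Nat.card (V i) ≤ 2 ^ (2 * l) ∧ ∃ Z : Subgroup H,
      LevData p (2 * l) ((Y * l + 2) ^ 4) (2 * l ^ 2) (aker H (V i)) Z (stabs H (V i)) := by
    intro i hi
    obtain ⟨h1, h2, h3⟩ := (hTmem i).1 hi
    exact hB8 p l Y D H (V i) hsolH (hirr i h1) (hp0 i h1) (lt_of_le_of_lt hkcH hP.lt)
      (hVY i h1) hnum hC0D h2 h3
  refine ⟨T, Finset.filter_subset _ _, ?_, ?_, ?_⟩
  · intro i hi
    rw [← hcard i ((hTmem i).1 hi).1]
    exact (hT8 i hi).1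
  · -- the other levels
    have hle : ∀ i ∈ Finset.range b.len \ T, (b.Q (i + 1)).relIndex (b.Q i) ≤
        2 ^ ((D + 16386) * kappa p H (V i)) := by
      intro i hi
      rw [Finset.mem_sdiff, Finset.mem_range] at hi
      obtain ⟨hi1, hi2⟩ := hi
      rw [← hcard i hi1]
      by_cases h1 : 2 ^ (D * (orb H (V i) - 1)) < Nat.card (V i)
      · have h2 : l * (orb H (V i) - 1) < kappa p H (V i) := by
          by_contra h2
          exact hi2 ((hTmem i).2 ⟨hi1, h1, not_lt.1 h2⟩)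
        have h3 : Adm 0 (K ^ 8) H (V i) := by
          right
          have h4 : kappa p H (V i) ≤ K :=
            (Finset.single_le_sum (f := fun i => kappa p H (V i)) (fun _ _ => Nat.zero_le _)
              (Finset.mem_range.2 hi1)).trans hκ
          calc (Nat.card (ConjClasses H) * (orb H (V i) - 1)) ^ 4 ≤ (K * K) ^ 4 :=
                Nat.pow_le_pow_left (Nat.mul_le_mul hkcH ((hn i).trans h4)) 4
            _ = K ^ 8 := by ring
        have h5 := orbit_bound 0 (K ^ 8) 0 _ (V i) H rfl (hirr i hi1) SecAut.of_isSolvable h3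
        refine h5.trans ?_
        calc (cst 0 + K ^ 8) ^ (orb H (V i) - 1)
            ≤ (2 ^ (16386 * l)) ^ (orb H (V i) - 1) :=
              Nat.pow_le_pow_left (g1_num2 hKpos hP.lt) _
          _ = 2 ^ (16386 * (l * (orb H (V i) - 1))) := by
              rw [← pow_mul]
              congr 1
              ring
          _ ≤ _ := by
              refine Nat.pow_le_pow_right two_pos ?_
              calc 16386 * (l * (orb H (V i) - 1)) ≤ 16386 * kappa p H (V i) :=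
                    Nat.mul_le_mul_left _ h2.le
                _ ≤ _ := Nat.mul_le_mul_right _ (Nat.le_add_left _ _)
      · rw [not_lt] at h1
        refine h1.trans (Nat.pow_le_pow_right two_pos ?_)
        exact Nat.mul_le_mul (Nat.le_add_right _ _) (hn i)
    calc ∏ i ∈ Finset.range b.len \ T, (b.Q (i + 1)).relIndex (b.Q i)
        ≤ ∏ i ∈ Finset.range b.len \ T, 2 ^ ((D + 16386) * kappa p H (V i)) :=
          Finset.prod_le_prod' hle
      _ = 2 ^ (∑ i ∈ Finset.range b.len \ T, (D + 16386) * kappa p H (V i)) := by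
          rw [Finset.prod_pow_eq_pow_sum]
      _ ≤ 2 ^ ((20 * (a + 2) + C0 + 16386 + 9 * cC) * u ^ 2 * K) := by
          refine Nat.pow_le_pow_right two_pos ?_
          rw [← Finset.mul_sum]
          have h1 : ∑ i ∈ Finset.range b.len \ T, kappa p H (V i) ≤ K :=
            (Finset.sum_le_sum_of_subset Finset.sdiff_subset).trans hκ
          refine Nat.mul_le_mul ?_ h1
          calc D + 16386 ≤ D + 16386 * u ^ 2 :=
                Nat.add_le_add_left (Nat.le_mul_of_pos_right _ hu2) _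
            _ = (20 * (a + 2) + C0 + 16386) * u ^ 2 := by
                rw [hD]
                ring
            _ ≤ _ := Nat.mul_le_mul_right _ (Nat.le_add_right _ _)
  · -- the sets of levels
    have hZ : ∀ t : {i // i ∈ T}, ∃ Z : Subgroup H,
        LevData p (2 * l) ((Y * l + 2) ^ 4) (2 * l ^ 2) (aker H (V t)) Z (stabs H (V t)) :=
      fun t => (hT8 t t.2).2
    choose Z hZ using hZ
    have hY2 : 2 ≤ Y := by
      rw [hY]
      calc 2 = 2 ^ 1 := (pow_one 2).symm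
        _ ≤ 2 ^ ((a + 1) * u ^ 2) := Nat.pow_le_pow_right two_pos
            (Nat.mul_pos (Nat.succ_pos a) hu2)
    have hM : 2 * l * (2 * l * (2 * l ^ 2)) < (Y * l + 2) ^ 4 := by
      calc 2 * l * (2 * l * (2 * l ^ 2)) = 8 * l ^ 4 := by ring
        _ < (2 * l + 2) ^ 4 := by
            have h1 : (2 * l) ^ 4 < (2 * l + 2) ^ 4 :=
              Nat.pow_lt_pow_left (by omega) (by norm_num)
            have h2 : (2 * l) ^ 4 = 16 * l ^ 4 := by ring
            have h3 : 8 * l ^ 4 ≤ 16 * l ^ 4 := Nat.mul_le_mul_right _ (by norm_num)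
            omega
        _ ≤ (Y * l + 2) ^ 4 := Nat.pow_le_pow_left
            (Nat.add_le_add_right (Nat.mul_le_mul_right _ hY2) _) 4
    have hL : 2 * l < 2 ^ (2 * u + 1) := by
      have h1 : 2 ^ (u + 1) ≤ 2 ^ (2 * u + 1) := Nat.pow_le_pow_right two_pos (by omega)
      have h2 := hP.lu
      rw [pow_succ] at h1
      omega
    have hB : 2 * l ^ 2 < 2 ^ (2 * u + 1) := by
      have h1 : l ^ 2 < (2 ^ u) ^ 2 := Nat.pow_lt_pow_left hP.lu (by norm_num)
      rw [← pow_mul, mul_comm u 2] at h1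
      calc 2 * l ^ 2 < 2 * 2 ^ (2 * u) := Nat.mul_lt_mul_of_pos_left h1 two_pos
        _ = 2 ^ (2 * u + 1) := by rw [pow_succ, mul_comm]
    have hCC := hC p (2 * l) ((Y * l + 2) ^ 4) (2 * l ^ 2) (2 * u + 1) H {i // i ∈ T}
      (fun t => aker H (V t)) Z (fun t => stabs H (V t)) hZ hM hL hB
    set Cl : Type u := {d : ConjClasses H // ∃ h : H, ConjClasses.mk h = d ∧
      (orderOf h).Coprime p ∧ ∃ t : {i // i ∈ T}, ∃ X ∈ stabs H (V t), h ∈ X} with hCl
    haveI : Finite (ConjClasses H) := Quotient.finite _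
    haveI : Finite Cl := Subtype.finite
    let f : Cl → Set ℕ := fun d => {i | i ∈ T ∧ ∃ h : H, ConjClasses.mk h = d.1 ∧
      ∃ v : V i, v ≠ 0 ∧ h • v = v}
    have hsub : {S : Set ℕ | S.Nonempty ∧ ∃ h : G, (orderOf h).Coprime p ∧
        S = {i | i ∈ T ∧ fixLev (b.Q (i + 1)) (b.Q i) h}} ⊆ Set.range f := by
      rintro S ⟨⟨t, ht⟩, h, hh, rfl⟩
      have ht' : t ∈ T ∧ fixLev (b.Q (t + 1)) (b.Q t) h := ht
      obtain ⟨v, hv, hhv⟩ := (g1_fixLev (hφ t ((hTmem t).1 ht'.1).1) h).1 ht'.2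
      refine ⟨⟨ConjClasses.mk (π h), π h, rfl, ?_, ⟨t, ht'.1⟩, MulAction.stabilizer H v,
        ⟨v, hv, rfl⟩, hhv⟩, ?_⟩
      · exact Nat.Coprime.coprime_dvd_left (orderOf_map_dvd π h) hh
      · ext i
        constructor
        · rintro ⟨hi, h', hh', w, hw, hhw⟩
          refine ⟨hi, (g1_fixLev (hφ i ((hTmem i).1 hi).1) h).2 ?_⟩
          have h2 : IsConj h' (π h) := ConjClasses.mk_eq_mk_iff_isConj.1 hh'
          obtain ⟨g, hg⟩ := isConj_iff.1 h2
          refine ⟨g • w, fun h0 => hw ((smul_eq_zero_iff_eq g).1 h0), ?_⟩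
          rw [← hg, mul_smul, mul_smul, inv_smul_smul, hhw]
        · rintro ⟨hi, hfix⟩
          exact ⟨hi, π h, rfl, (g1_fixLev (hφ i ((hTmem i).1 hi).1) h).1 hfix⟩
    have h1 : b.nset T ≤ Nat.card Cl := by
      unfold Base.nset
      refine (Set.ncard_le_ncard hsub (Set.finite_range f)).trans ?_
      rw [← Set.image_univ]
      refine (Set.ncard_image_le (Set.toFinite _)).trans ?_
      rw [Set.ncard_univ]
    refine h1.trans (hCC.trans (Nat.pow_le_pow_right two_pos ?_))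
    calc cC * (2 * u + 1) ^ 2 ≤ cC * (3 * u) ^ 2 :=
          Nat.mul_le_mul_left _ (Nat.pow_le_pow_left (by omega) 2)
      _ = (9 * cC) * u ^ 2 := by ring
      _ ≤ _ := Nat.mul_le_mul_right _ (by omega)

end H48.CN
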