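import Pool.Agent.H48.CN.Stm

/-!
Class numbers of finite solvable groups: elementary abelian sections.
-/

namespace H48.CN

open H60.KG MulAction

universe u

theorem g2_pow (l : ℕ) (hl : 8 ≤ l) : l ^ 2 ≤ 2 ^ (l - 2) := by
  induction l, hl using Nat.le_induction with
  | base => norm_num
  | succ n hn ih =>
    have h1 : 2 ^ (n + 1 - 2) = 2 * 2 ^ (n - 2) := by
      rw [← pow_succ']
      congr 1
      omega
    rw [h1]
    nlinarith

/-- the numbers for `g2` -/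
theorem g2_num (R l u K m a : ℕ) (C : ℝ) (hC : 0 < C) (hpar : Par K l u) (hRm : R ≤ m)
    (hR : K < R * l) (hl8 : 8 ≤ l)
    (h : (R : ℝ) * Real.logb 2 m ≤
      C * (1 + Real.logb 2 (((2 ^ (a * u ^ 2) : ℕ) : ℝ) * l * ((2 ^ (a * u ^ 2) : ℕ) : ℝ))) * K) :
    ((R * l : ℕ) : ℝ) ≤ 4 * C * (a + 1) * (u : ℝ) ^ 2 * K := by
  have hu1 : (1 : ℝ) ≤ u := by exact_mod_cast hpar.one
  have hl0 : (0 : ℝ) < l := by
    have : 0 < l := by omega
    exact_mod_cast this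
  -- lower bound of the logarithm
  have h1 : 2 ^ (l - 1) ≤ K := by
    have h2 := hpar.le
    have h3 : 2 ^ l = 2 * 2 ^ (l - 1) := by
      rw [← pow_succ']
      congr 1
      omega
    omega
  have h2 : 2 ^ (l - 1) < m * l := by
    have : R * l ≤ m * l := Nat.mul_le_mul_right _ hRm
    omega
  have h3 : 2 ^ l < m ^ 2 := by
    have h4 : (2 ^ (l - 1)) ^ 2 < (m * l) ^ 2 := Nat.pow_lt_pow_left h2 two_ne_zero
    have h5 : (2 ^ (l - 1)) ^ 2 = 2 ^ l * 2 ^ (l - 2) := by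
      rw [← pow_mul, ← pow_add]
      congr 1
      omega
    have h6 := g2_pow l hl8
    rw [h5, mul_pow] at h4
    have h7 : 2 ^ l * l ^ 2 < m ^ 2 * l ^ 2 :=
      lt_of_le_of_lt (Nat.mul_le_mul_left _ h6) h4
    exact Nat.lt_of_mul_lt_mul_right h7
  have h8 : (l : ℝ) ≤ 2 * Real.logb 2 m := by
    have h9 : ((2 : ℝ) ^ l) ≤ (m : ℝ) ^ 2 := by exact_mod_cast h3.le
    have h10 := Real.logb_le_logb_of_le (b := 2) (by norm_num) (by positivity) h9
    rw [Real.logb_pow, Real.logb_pow, Real.logb_self_eq_one (by norm_num)] at h10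
    push_cast at h10
    linarith
  -- upper bound of the logarithm
  have h11 : Real.logb 2 (((2 ^ (a * u ^ 2) : ℕ) : ℝ) * l * ((2 ^ (a * u ^ 2) : ℕ) : ℝ)) ≤
      2 * a * (u : ℝ) ^ 2 + u := by
    have h12 : ((2 ^ (a * u ^ 2) : ℕ) : ℝ) * l * ((2 ^ (a * u ^ 2) : ℕ) : ℝ) ≤
        (2 : ℝ) ^ (2 * a * u ^ 2 + u) := by
      have h13 : (l : ℝ) ≤ 2 ^ u := by exact_mod_cast hpar.lu.le
      push_cast
      calc (2 : ℝ) ^ (a * u ^ 2) * l * 2 ^ (a * u ^ 2)
          ≤ 2 ^ (a * u ^ 2) * 2 ^ u * 2 ^ (a * u ^ 2) := by gcongr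
        _ = 2 ^ (2 * a * u ^ 2 + u) := by
          rw [← pow_add, ← pow_add]
          congr 1
          ring
    have h14 := Real.logb_le_logb_of_le (b := 2) (by norm_num) (by positivity) h12
    rw [Real.logb_pow, Real.logb_self_eq_one (by norm_num)] at h14
    push_cast at h14 ⊢
    linarith
  have hu2 : (u : ℝ) ≤ (u : ℝ) ^ 2 := by nlinarith
  have hu3 : (1 : ℝ) ≤ (u : ℝ) ^ 2 := by nlinarith
  have hR0 : (0 : ℝ) ≤ R := Nat.cast_nonneg _
  have hK0 : (0 : ℝ) ≤ K := Nat.cast_nonneg _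
  push_cast
  calc (R : ℝ) * l ≤ R * (2 * Real.logb 2 m) := mul_le_mul_of_nonneg_left h8 hR0
    _ = 2 * (R * Real.logb 2 m) := by ring
    _ ≤ 2 * (C * (1 + Real.logb 2 (((2 ^ (a * u ^ 2) : ℕ) : ℝ) * l *
        ((2 ^ (a * u ^ 2) : ℕ) : ℝ))) * K) := by linarith
    _ ≤ 2 * (C * (1 + (2 * a * (u : ℝ) ^ 2 + u)) * K) := by gcongr
    _ ≤ 2 * (C * (2 * (a + 1) * (u : ℝ) ^ 2) * K) := by
      gcongr
      linarith
    _ = 4 * C * (a + 1) * (u : ℝ) ^ 2 * K := by ring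

theorem g2 (hA3 : SA3.{u}) (hA4 : SA4.{u}) (hA6b : SA6b.{u}) (hA6c : SA6c.{u}) (hD : SD.{u}) :
    SG2.{u} := by
  classical
  intro a
  obtain ⟨C, hC, hD⟩ := hD
  refine ⟨8 + ⌈4 * C * (a + 1)⌉₊, ?_⟩
  intro p K l v hp G _ _ b T hk hpar hch hT hn M L hML hL
  have hv := hpar.one
  have hv2 : 1 ≤ v ^ 2 := Nat.one_le_pow _ _ hv
  -- the module
  obtain ⟨A, hAg, hAf, hAd, φ, hφ⟩ := hA4 G G (MonoidHom.id G) M L Function.surjective_id
    hML.toAbSec (by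
      intro g hg x _
      have hg' : g = 1 := hg
      rw [hg', one_mul, inv_one, mul_one, mul_inv_cancel]
      exact M.one_mem)
  obtain ⟨hI, hchain, hrel, hlev⟩ := hA6c p G A b M L φ hφ hL
  obtain ⟨hlen, hfac⟩ := hA6b p G b
  have hKI : KI G A K := (hA3 G A M L φ hφ).trans (Nat.mul_le_mul_right _ hk)
  have hpA : ∀ x : A, p • x = 0 := by
    intro x
    obtain ⟨y, hy, rfl⟩ := hφ.surj x
    rw [← hφ.map_pow hy, hφ.ker _ (L.pow_mem hy p)]
    exact hML.el y hy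
  obtain ⟨TA, hTA⟩ : ∃ TA, TA = T ∩ (b.I L \ b.I M) := ⟨_, rfl⟩
  have hrho : b.rho T M L = TA.card := by
    rw [hTA]
    rfl
  have hTAT : TA ⊆ T := hTA ▸ Finset.inter_subset_left
  have hTAI : TA ⊆ b.I L \ b.I M := hTA ▸ Finset.inter_subset_right
  have hTm : TA ⊆ Finset.range b.len := hTAT.trans hT
  have hcard : TA.card ≤ b.len := by
    have := Finset.card_le_card hTm
    rwa [Finset.card_range] at this
  rw [hrho]
  have hmK : b.len ≤ K := by omega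
  by_cases h1 : TA.card * l ≤ K
  · refine h1.trans ?_
    calc K = 1 * 1 * K := by ring
      _ ≤ (8 + ⌈4 * C * (a + 1)⌉₊) * v ^ 2 * K := by
        gcongr
        omega
  push Not at h1
  by_cases h8 : l < 8
  · calc TA.card * l ≤ K * 8 := Nat.mul_le_mul (hcard.trans hmK) h8.le
      _ = 8 * 1 * K := by ring
      _ ≤ (8 + ⌈4 * C * (a + 1)⌉₊) * v ^ 2 * K := by
        gcongr
        omega
  push Not at h8
  have hne : TA.Nonempty := by
    rw [Finset.nonempty_iff_ne_empty]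
    rintro h0
    rw [h0, Finset.card_empty, zero_mul] at h1
    omega
  -- the number of sets of levels
  have hN : Set.ncard {S : Set ℕ | S.Nonempty ∧ ∃ h : G, (orderOf h).Coprime p ∧
      S = {i | i ∈ TA ∧ fixA h (hφ.im (b.Q i)) (hφ.im (b.Q (i + 1)))}} ≤ 2 ^ (a * v ^ 2) := by
    refine le_trans ?_ hn
    unfold Base.nset
    obtain ⟨S0, hS0⟩ : ∃ S0, S0 = {S : Set ℕ | S.Nonempty ∧ ∃ h : G, (orderOf h).Coprime p ∧
      S = {i | i ∈ T ∧ fixLev (b.Q (i + 1)) (b.Q i) h}} := ⟨_, rfl⟩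
    rw [← hS0]
    have hfin : S0.Finite := by
      refine (T.finite_toSet.finite_subsets).subset ?_
      intro S hS
      rw [hS0] at hS
      obtain ⟨_, h, _, rfl⟩ := hS
      intro i hi
      exact hi.1
    have hsub : {S : Set ℕ | S.Nonempty ∧ ∃ h : G, (orderOf h).Coprime p ∧
      S = {i | i ∈ TA ∧ fixA h (hφ.im (b.Q i)) (hφ.im (b.Q (i + 1)))}} ⊆
        (fun S : Set ℕ => (TA : Set ℕ) ∩ S) '' S0 := by
      rintro S ⟨hSne, h, hh, hS⟩
      refine ⟨{i | i ∈ T ∧ fixLev (b.Q (i + 1)) (b.Q i) h}, ?_, ?_⟩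
      · rw [hS0]
        refine ⟨?_, h, hh, rfl⟩
        obtain ⟨i, hi⟩ := hSne
        rw [hS] at hi
        exact ⟨i, hTAT hi.1, ((hlev i (hTAI hi.1)).2 h).1 hi.2⟩
      · rw [hS]
        ext i
        constructor
        · rintro ⟨hi, _, hi2⟩
          exact ⟨hi, ((hlev i (hTAI hi)).2 h).2 hi2⟩
        · rintro ⟨hi, hi2⟩
          exact ⟨hi, hTAT hi, ((hlev i (hTAI hi)).2 h).1 hi2⟩
    exact (Set.ncard_le_ncard hsub (hfin.image _)).trans (Set.ncard_image_le hfin)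
  have hmain := hD p b.len K (2 ^ (a * v ^ 2)) (2 ^ (a * v ^ 2)) l G A
    (fun i => hφ.im (b.Q i)) TA hpA hKI hchain (Nat.one_le_two_pow) (Nat.one_le_two_pow)
    (by omega) (fun i hi => (hrel i).trans (hch _ _ (hfac i hi).2.1)) hTm hne
    (fun i hi => (hlev i (hTAI hi)).1) (by rw [mul_comm l]; omega) hN
  have hfin := g2_num TA.card l v K b.len a C hC hpar hcard h1 h8 hmain
  have hc : (4 * C * (a + 1)) ≤ ((8 + ⌈4 * C * (a + 1)⌉₊ : ℕ) : ℝ) := by
    have := Nat.le_ceil (4 * C * (a + 1))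
    push_cast
    linarith
  have hres : ((TA.card * l : ℕ) : ℝ) ≤ (((8 + ⌈4 * C * (a + 1)⌉₊) * v ^ 2 * K : ℕ) : ℝ) := by
    refine hfin.trans ?_
    push_cast at hc ⊢
    gcongr
  exact_mod_cast hres

end H48.CN
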