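import Pool.Agent.H48.CN.Stm

/-!
Class numbers of finite solvable groups: abelian sections, the numbers.
-/

namespace H48.CN

open H60.KG MulAction

universe u

/-- the numbers for `g3` -/
theorem g3_num (r l u K k X c2 : ℕ) (hu : 1 ≤ u) (hl : l < 2 ^ u) (hk : k ≤ K)
    (hX : X * l ≤ c2 * u ^ 2 * K)
    (h : r * 2 ^ (3 * u) ≤ 3 * (3 * u) ^ 2 * X * 2 ^ (3 * u) + 3 * l ^ 2 * k) :
    r * l ≤ (27 * c2 + 3) * u ^ 4 * K := by
  have hpos : 0 < 2 ^ (3 * u) := by positivity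
  have h3 : l ^ 3 ≤ 2 ^ (3 * u) := by
    calc l ^ 3 ≤ (2 ^ u) ^ 3 := Nat.pow_le_pow_left hl.le 3
      _ = 2 ^ (3 * u) := by rw [← pow_mul, mul_comm]
  have h4 : r * l * 2 ^ (3 * u) ≤ (27 * u ^ 2 * (c2 * u ^ 2 * K) + 3 * K) * 2 ^ (3 * u) := by
    calc r * l * 2 ^ (3 * u) = r * 2 ^ (3 * u) * l := by ring
      _ ≤ (3 * (3 * u) ^ 2 * X * 2 ^ (3 * u) + 3 * l ^ 2 * k) * l := Nat.mul_le_mul_right _ h
      _ = 27 * u ^ 2 * (X * l) * 2 ^ (3 * u) + 3 * k * l ^ 3 := by ring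
      _ ≤ 27 * u ^ 2 * (c2 * u ^ 2 * K) * 2 ^ (3 * u) + 3 * K * 2 ^ (3 * u) := by
          apply Nat.add_le_add
          · exact Nat.mul_le_mul_right _ (Nat.mul_le_mul_left _ hX)
          · exact Nat.mul_le_mul (Nat.mul_le_mul_left _ hk) h3
      _ = (27 * u ^ 2 * (c2 * u ^ 2 * K) + 3 * K) * 2 ^ (3 * u) := by ring
  have h5 : r * l ≤ 27 * u ^ 2 * (c2 * u ^ 2 * K) + 3 * K := Nat.le_of_mul_le_mul_right h4 hpos
  refine h5.trans ?_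
  have h6 : 1 ≤ u ^ 4 := Nat.one_le_pow _ _ hu
  calc 27 * u ^ 2 * (c2 * u ^ 2 * K) + 3 * K = 27 * c2 * u ^ 4 * K + 3 * 1 * K := by ring
    _ ≤ 27 * c2 * u ^ 4 * K + 3 * u ^ 4 * K :=
        Nat.add_le_add_left (Nat.mul_le_mul_right _ (Nat.mul_le_mul_left _ h6)) _
    _ = (27 * c2 + 3) * u ^ 4 * K := by ring

/-- abelian sections -/
theorem g3 (h2 : SG2.{u}) (hE4 : SE4.{u}) : SG3.{u} := by
  intro a
  obtain ⟨c2, hc2⟩ := h2 a
  refine ⟨27 * c2 + 3, ?_⟩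
  intro p K l v _ G _ _ b T hk hpar hch hT hn M L hML hL
  have hl : 1 ≤ l := by
    have h1 := hpar.ul
    have h2 : 0 < 2 ^ v := by positivity
    omega
  have hX : c2 * v ^ 2 * K / l * l ≤ c2 * v ^ 2 * K := Nat.div_mul_le_self _ _
  refine g3_num (b.rho T M L) l v K (kc G) (c2 * v ^ 2 * K / l) c2 hpar.one hpar.lu hk hX ?_
  have hv := hpar.one
  refine hE4 p (3 * v) l (c2 * v ^ 2 * K / l) G b T (lt_of_le_of_lt hk hpar.lt) (by omega) hl ?_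
    M L hML hL
  intro M' L' hML' hL'
  rw [Nat.le_div_iff_mul_le (by omega)]
  exact hc2 p K l v G b T hk hpar hch hT hn M' L' hML' hL'

end H48.CN
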