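import Pool.Agent.H48.CN.Stm

/-!
Class numbers of finite solvable groups, part G4: all typical levels by the lower central series.
-/

namespace H48.CN

universe u

namespace G4Aux

/-- the number of levels in `T` of a section -/
theorem rho_add {G : Type u} [Group G] {p : ℕ} (b : Base G p) (T : Finset ℕ)
    {M L : Subgroup G} (h : b.I M ⊆ b.I L) :
    b.rho T M L + (T ∩ b.I M).card = (T ∩ b.I L).card := by
  classical
  unfold Base.rho
  rw [← Finset.card_union_of_disjoint]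
  · congr 1
    ext i
    simp only [Finset.mem_union, Finset.mem_inter, Finset.mem_sdiff]
    constructor
    · rintro (⟨h1, h2, _⟩ | ⟨h1, h2⟩)
      · exact ⟨h1, h2⟩
      · exact ⟨h1, h h2⟩
    · rintro ⟨h1, h2⟩
      by_cases h3 : i ∈ b.I M
      · exact Or.inr ⟨h1, h3⟩
      · exact Or.inl ⟨h1, h2, h3⟩
  · rw [Finset.disjoint_left]
    intro i hi hi'
    simp only [Finset.mem_inter, Finset.mem_sdiff] at hi hi'
    exact hi.2.2 hi'.2

theorem rho_le {G : Type u} [Group G] {p : ℕ} (b : Base G p) (T : Finset ℕ)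
    (M L : Subgroup G) : b.rho T M L ≤ (b.I L \ b.I M).card := by
  classical
  unfold Base.rho
  exact Finset.card_le_card Finset.inter_subset_right

/-- telescoping over dyadic scales -/
theorem dyadic (r : ℕ → ℕ) (A l : ℕ)
    (h : ∀ i, (r (2 ^ i - 1) - r (2 ^ (i + 1) - 1)) * l ≤ A) (j0 n : ℕ) :
    r (2 ^ j0 - 1) * l ≤ n * A + r (2 ^ (j0 + n) - 1) * l := by
  induction n with
  | zero => simp
  | succ n ih =>
    have h1 := h (j0 + n)
    have h2 : r (2 ^ (j0 + n) - 1) * l ≤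
        (r (2 ^ (j0 + n) - 1) - r (2 ^ (j0 + n + 1) - 1)) * l +
          r (2 ^ (j0 + n + 1) - 1) * l := by
      rw [← add_mul]
      exact Nat.mul_le_mul_right l (by omega)
    have h3 : j0 + (n + 1) = j0 + n + 1 := by ring
    rw [h3]
    calc r (2 ^ j0 - 1) * l ≤ n * A + r (2 ^ (j0 + n) - 1) * l := ih
      _ ≤ n * A + (A + r (2 ^ (j0 + n + 1) - 1) * l) := by
          refine Nat.add_le_add_left (h2.trans ?_) _
          exact Nat.add_le_add_right h1 _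
      _ = (n + 1) * A + r (2 ^ (j0 + n + 1) - 1) * l := by ring

/-- the combinatorial core -/
theorem core (r : ℕ → ℕ) (c K l W A s : ℕ) (hW : 1 ≤ W)
    (hanti : Antitone r) (hc : r c = 0) (hcK : c ≤ K)
    (h1 : ∀ n, r n ≤ r (n + 1) + W)
    (h3 : ∀ i, (r (2 ^ i - 1) - r (2 ^ (i + 1) - 1)) * l ≤ A)
    (hs : 8 * W * l ≤ 2 ^ s) (hK : K < r 0 * l) :
    r 0 * l ≤ 2 * (s * A) := by
  have hR : 0 < r 0 := by
    rcases Nat.eq_zero_or_pos (r 0) with h | h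
    · rw [h] at hK
      omega
    · exact h
  have hc1 : 1 ≤ c := by
    rcases Nat.eq_zero_or_pos c with h | h
    · rw [h] at hc
      omega
    · exact h
  have hstep : ∀ n, r 0 ≤ r n + n * W := by
    intro n
    induction n with
    | zero => simp
    | succ n ih =>
      have := h1 n
      have h2 : (n + 1) * W = n * W + W := by ring
      omega
  obtain ⟨j0, hj0⟩ : ∃ j0, j0 = Nat.log 2 (r 0 / (2 * W)) := ⟨_, rfl⟩
  obtain ⟨j1, hj1⟩ : ∃ j1, j1 = Nat.log 2 c + 1 := ⟨_, rfl⟩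
  have hhalf : r 0 ≤ 2 * r (2 ^ j0 - 1) := by
    rcases Nat.eq_zero_or_pos (r 0 / (2 * W)) with h | h
    · rw [h, Nat.log_zero_right] at hj0
      rw [hj0]
      simp only [pow_zero, Nat.sub_self]
      omega
    · have h4 : 2 ^ j0 ≤ r 0 / (2 * W) := by
        rw [hj0]
        exact Nat.pow_log_le_self 2 (by omega)
      have h5 : 2 ^ j0 * (2 * W) ≤ r 0 := by
        calc 2 ^ j0 * (2 * W) ≤ r 0 / (2 * W) * (2 * W) := Nat.mul_le_mul_right _ h4
          _ ≤ r 0 := Nat.div_mul_le_self _ _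
      have h6 := hstep (2 ^ j0 - 1)
      have h7 : (2 ^ j0 - 1) * W ≤ 2 ^ j0 * W := Nat.mul_le_mul_right _ (Nat.sub_le _ _)
      have h8 : 2 ^ j0 * (2 * W) = 2 * (2 ^ j0 * W) := by ring
      omega
  have hup : r 0 < 2 ^ (j0 + 1) * (2 * W) := by
    have h4 : r 0 / (2 * W) < 2 ^ (j0 + 1) := by
      rw [hj0]
      exact Nat.lt_pow_succ_log_self (by norm_num) _
    exact (Nat.div_lt_iff_lt_mul (by omega)).1 h4
  have hc2 : 2 ^ j1 ≤ 2 * c := by
    have h4 : 2 ^ Nat.log 2 c ≤ c := Nat.pow_log_le_self 2 (by omega)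
    rw [hj1, pow_succ]
    omega
  have hc3 : c ≤ 2 ^ j1 - 1 := by
    have h4 : c < 2 ^ (Nat.log 2 c + 1) := Nat.lt_pow_succ_log_self (by norm_num) _
    rw [← hj1] at h4
    omega
  have hz : r (2 ^ j1 - 1) = 0 := by
    have := hanti hc3
    omega
  have hj : j0 < j1 := by
    by_contra h
    have h4 : 2 ^ j1 - 1 ≤ 2 ^ j0 - 1 :=
      Nat.sub_le_sub_right (Nat.pow_le_pow_right (by norm_num) (not_lt.1 h)) 1
    have h5 := hanti h4
    omega
  obtain ⟨n, hn⟩ : ∃ n, j1 = j0 + n := ⟨j1 - j0, by omega⟩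
  have h4 := dyadic r A l h3 j0 n
  rw [← hn, hz, zero_mul, add_zero] at h4
  have hns : n ≤ s := by
    have h5 : 2 ^ j1 < 2 ^ j0 * 2 ^ s := by
      calc 2 ^ j1 ≤ 2 * c := hc2
        _ ≤ 2 * K := by omega
        _ < 2 * (r 0 * l) := by omega
        _ ≤ 2 * (2 ^ (j0 + 1) * (2 * W) * l) := by
            exact Nat.mul_le_mul_left 2 (Nat.mul_le_mul_right l hup.le)
        _ = 2 ^ j0 * (8 * W * l) := by rw [pow_succ]; ring
        _ ≤ 2 ^ j0 * 2 ^ s := Nat.mul_le_mul_left _ hs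
    rw [← pow_add, hn] at h5
    have h6 := (Nat.pow_lt_pow_iff_right (by norm_num : 1 < 2)).1 h5
    omega
  calc r 0 * l ≤ 2 * r (2 ^ j0 - 1) * l := Nat.mul_le_mul_right l hhalf
    _ = 2 * (r (2 ^ j0 - 1) * l) := by ring
    _ ≤ 2 * (n * A) := Nat.mul_le_mul_left 2 h4
    _ ≤ 2 * (s * A) := Nat.mul_le_mul_left 2 (Nat.mul_le_mul_right A hns)

end G4Aux

open G4Aux

theorem g4 (h3 : SG3.{u}) (h5 : SA5.{u}) (h6b : SA6b.{u}) (h6e : SA6e.{u}) : SG4.{u} := by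
  classical
  intro a
  obtain ⟨c3, hc3⟩ := h3 a
  refine ⟨2 * ((a + 6) * c3) + 1, ?_⟩
  intro p K l w _ G _ _ b T hK hpar hchief hT hN hidx
  have hG3 := hc3 p K l w G b T hK hpar hchief hT hN
  have hw := hpar.one
  by_cases hRK : T.card * l ≤ K
  · calc T.card * l ≤ K := hRK
      _ = 1 * 1 * K := by ring
      _ ≤ (2 * ((a + 6) * c3) + 1) * w ^ 6 * K := by
          refine Nat.mul_le_mul_right K (Nat.mul_le_mul (by omega) (Nat.one_le_pow _ _ hw))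
  rw [not_le] at hRK
  have hQn : (b.Q 0).Normal := b.normal 0
  obtain ⟨hn, hanti, ⟨c0, hc0⟩, hlt, hcomm, hrel⟩ := h5 p G (b.Q 0) b.pg
  have hle : ∀ n, lcs (b.Q 0) n ≤ b.Q 0 := fun n => hanti (Nat.zero_le n)
  have hsec : ∀ m n, m ≤ n → b.I (lcs (b.Q 0) n) ⊆ b.I (lcs (b.Q 0) m) ∧
      2 ^ (b.I (lcs (b.Q 0) m) \ b.I (lcs (b.Q 0) n)).card ≤
        (lcs (b.Q 0) n).relIndex (lcs (b.Q 0) m) ∧
      (lcs (b.Q 0) n < lcs (b.Q 0) m →
        (b.I (lcs (b.Q 0) m) \ b.I (lcs (b.Q 0) n)).Nonempty) := by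
    intro m n hmn
    obtain ⟨k1, k2, k3, _, _⟩ := h6e p G b (lcs (b.Q 0) m) (lcs (b.Q 0) n) (hn m) (hn n)
      (hanti hmn) (hle m)
    exact ⟨k1, k2, k3⟩
  obtain ⟨_, _, _, hIQ, hIbot⟩ := h6e p G b (b.Q 0) (b.Q 0) (b.normal 0) (b.normal 0) le_rfl le_rfl
  obtain ⟨hlen, _⟩ := h6b p G b
  -- the least index
  obtain ⟨c, hc, hcmin⟩ : ∃ c, lcs (b.Q 0) c = ⊥ ∧ ∀ n < c, lcs (b.Q 0) n ≠ ⊥ := by
    have hex : ∃ c, lcs (b.Q 0) c = ⊥ := ⟨c0, hc0⟩
    exact ⟨Nat.find hex, Nat.find_spec hex, fun n hn' => Nat.find_min hex hn'⟩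
  have hcle : ∀ n ≤ c, (b.I (lcs (b.Q 0) n)).card + n ≤ b.len := by
    intro n
    induction n with
    | zero =>
      intro _
      have h0 : lcs (b.Q 0) 0 = b.Q 0 := rfl
      rw [h0, hIQ, Finset.card_range, add_zero]
    | succ n ih =>
      intro hnc
      have h7 := ih (by omega)
      obtain ⟨k1, _, k3⟩ := hsec n (n + 1) (Nat.le_succ n)
      have k4 := (k3 (hlt n (hcmin n (by omega)))).card_pos
      have k5 := Finset.card_sdiff_add_card_eq_card k1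
      omega
  have hcK : c ≤ K := by
    have := hcle c le_rfl
    omega
  -- the counting function
  obtain ⟨r, hr⟩ : ∃ r : ℕ → ℕ, r = fun n => (T ∩ b.I (lcs (b.Q 0) n)).card := ⟨_, rfl⟩
  have hrapp : ∀ n, r n = (T ∩ b.I (lcs (b.Q 0) n)).card := fun n => by rw [hr]
  have hr0 : r 0 = T.card := by
    rw [hrapp]
    have h0 : lcs (b.Q 0) 0 = b.Q 0 := rfl
    rw [h0, hIQ, Finset.inter_eq_left.2 hT]
  have hranti : Antitone r := by
    intro m n hmn
    rw [hrapp, hrapp]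
    exact Finset.card_le_card (Finset.inter_subset_inter_left (hsec m n hmn).1)
  have hrc : r c = 0 := by
    rw [hrapp, hc, hIbot, Finset.inter_empty, Finset.card_empty]
  have hstep : ∀ n, r n ≤ r (n + 1) + (l + 2 ^ (a * w ^ 2)) := by
    intro n
    obtain ⟨k1, k2, _⟩ := hsec n (n + 1) (Nat.le_succ n)
    have k3 := rho_add b T k1
    have k4 := rho_le b T (lcs (b.Q 0) (n + 1)) (lcs (b.Q 0) n)
    have k5 : 2 ^ (b.I (lcs (b.Q 0) n) \ b.I (lcs (b.Q 0) (n + 1))).card ≤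
        2 ^ (l + 2 ^ (a * w ^ 2)) := by
      calc 2 ^ (b.I (lcs (b.Q 0) n) \ b.I (lcs (b.Q 0) (n + 1))).card
          ≤ (lcs (b.Q 0) (n + 1)).relIndex (lcs (b.Q 0) n) := k2
        _ ≤ kc G * (b.Q 0).index := hrel n
        _ ≤ 2 ^ l * 2 ^ (2 ^ (a * w ^ 2)) := Nat.mul_le_mul (hK.trans hpar.lt.le) hidx
        _ = 2 ^ (l + 2 ^ (a * w ^ 2)) := by rw [pow_add]
    have k6 := (Nat.pow_le_pow_iff_right (by norm_num : 1 < 2)).1 k5
    rw [hrapp, hrapp]
    omega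
  have hscale : ∀ i, (r (2 ^ i - 1) - r (2 ^ (i + 1) - 1)) * l ≤ c3 * w ^ 4 * K := by
    intro i
    have hi : 2 ^ i - 1 ≤ 2 ^ (i + 1) - 1 :=
      Nat.sub_le_sub_right (Nat.pow_le_pow_right (by norm_num) (Nat.le_succ i)) 1
    have hi2 : 2 ^ (i + 1) - 1 = (2 ^ i - 1) + (2 ^ i - 1) + 1 := by
      have : 0 < 2 ^ i := by positivity
      rw [pow_succ]
      omega
    obtain ⟨k1, _, _⟩ := hsec (2 ^ i - 1) (2 ^ (i + 1) - 1) hi
    have hab : AbSec (lcs (b.Q 0) (2 ^ (i + 1) - 1)) (lcs (b.Q 0) (2 ^ i - 1)) := by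
      refine ⟨hn _, hn _, hanti hi, ?_⟩
      intro x hx y hy
      have k7 := hcomm (2 ^ i - 1) (2 ^ i - 1)
      rw [← hi2] at k7
      apply k7
      exact Subgroup.commutator_mem_commutator hx hy
    have k8 := hG3 _ _ hab (hle _)
    have k9 := rho_add b T k1
    rw [← hrapp, ← hrapp] at k9
    have k10 : r (2 ^ i - 1) - r (2 ^ (i + 1) - 1) =
        b.rho T (lcs (b.Q 0) (2 ^ (i + 1) - 1)) (lcs (b.Q 0) (2 ^ i - 1)) := by omega
    rw [k10]
    exact k8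
  have hl : 1 ≤ l := by
    rcases Nat.eq_zero_or_pos l with h | h
    · rw [h] at hRK
      omega
    · exact h
  have hnum : 8 * (l + 2 ^ (a * w ^ 2)) * l ≤ 2 ^ ((a + 6) * w ^ 2) := by
    have hww : w ≤ w ^ 2 := by nlinarith
    have q1 : l ≤ 2 ^ (w ^ 2) := hpar.lu.le.trans (Nat.pow_le_pow_right (by norm_num) hww)
    have q2 : l ≤ 2 ^ (a * w ^ 2 + w ^ 2) :=
      q1.trans (Nat.pow_le_pow_right (by norm_num) (Nat.le_add_left _ _))
    have q3 : 2 ^ (a * w ^ 2) ≤ 2 ^ (a * w ^ 2 + w ^ 2) :=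
      Nat.pow_le_pow_right (by norm_num) (Nat.le_add_right _ _)
    calc 8 * (l + 2 ^ (a * w ^ 2)) * l
        ≤ 8 * (2 ^ (a * w ^ 2 + w ^ 2) + 2 ^ (a * w ^ 2 + w ^ 2)) * 2 ^ (w ^ 2) :=
          Nat.mul_le_mul (Nat.mul_le_mul_left 8 (Nat.add_le_add q2 q3)) q1
      _ = 2 ^ (4 + (a * w ^ 2 + w ^ 2) + w ^ 2) := by rw [pow_add, pow_add]; ring
      _ ≤ 2 ^ ((a + 6) * w ^ 2) := by
          refine Nat.pow_le_pow_right (by norm_num) ?_
          have : 1 ≤ w ^ 2 := Nat.one_le_pow _ _ hw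
          nlinarith
  rw [← hr0] at hRK ⊢
  have hfin := core r c K l (l + 2 ^ (a * w ^ 2)) (c3 * w ^ 4 * K) ((a + 6) * w ^ 2)
    (by omega) hranti hrc hcK hstep hscale hnum hRK
  calc r 0 * l ≤ 2 * ((a + 6) * w ^ 2 * (c3 * w ^ 4 * K)) := hfin
    _ = (2 * ((a + 6) * c3)) * w ^ 6 * K := by ring
    _ ≤ (2 * ((a + 6) * c3) + 1) * w ^ 6 * K :=
        Nat.mul_le_mul_right K (Nat.mul_le_mul_right _ (Nat.le_succ _))

end H48.CN
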