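import Pool.Agent.H48.CN.Stm

/-!
# Project CN, part G: Theorem Q and the natural number form
-/

set_option autoImplicit false

namespace H48.CN

open H60.KG MulAction

universe u

/-! ### Theorem Q -/

theorem g5_prod {G : Type u} [Group G] (Q : ℕ → Subgroup G) (hQ : Antitone Q) (n : ℕ) :
    ∏ i ∈ Finset.range n, (Q (i + 1)).relIndex (Q i) = (Q n).relIndex (Q 0) := by
  induction n with
  | zero => rw [Finset.prod_range_zero, Subgroup.relIndex_self]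
  | succ n ih =>
    rw [Finset.prod_range_succ, ih, mul_comm]
    exact Subgroup.relIndex_mul_relIndex _ _ _ (hQ (Nat.le_succ n)) (hQ (Nat.zero_le n))

theorem g5_mono {G : Type u} [Group G] {Y Y' : ℕ} (h : ChiefLe G Y) (hY : Y ≤ Y') :
    ChiefLe G Y' := fun N M hc => (h N M hc).trans (Nat.pow_le_pow_right two_pos hY)

theorem g5 (h6a : SA6a.{u}) (h1 : SG1.{u}) (h4 : SG4.{u}) : SG5.{u} := by
  intro a
  obtain ⟨c1, h1⟩ := h1 a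
  obtain ⟨c4, h4⟩ := h4 (max a c1)
  refine ⟨2 * c4 + c1, ?_⟩
  intro p K l u _ G _ _ Q hQ hpQ hsol hkc hpar hch hidx
  have := hQ
  obtain ⟨b, hb⟩ := h6a p G Q hpQ
  obtain ⟨T, hT, hT1, hT2, hT3⟩ := h1 p K l u G b hsol hkc hpar hch
  have hu := hpar.one
  have hmax1 : a * u ^ 2 ≤ max a c1 * u ^ 2 := Nat.mul_le_mul_right _ (le_max_left _ _)
  have hmax2 : c1 * u ^ 2 ≤ max a c1 * u ^ 2 := Nat.mul_le_mul_right _ (le_max_right _ _)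
  have h5 := h4 p K l u G b T hkc hpar
    (g5_mono hch (Nat.pow_le_pow_right two_pos hmax1)) hT
    (hT3.trans (Nat.pow_le_pow_right two_pos hmax2))
    (by rw [hb]; exact hidx.trans (Nat.pow_le_pow_right two_pos
      (Nat.pow_le_pow_right two_pos hmax1)))
  have h6 : Nat.card Q = ∏ i ∈ Finset.range b.len, (b.Q (i + 1)).relIndex (b.Q i) := by
    rw [g5_prod b.Q b.anti, b.bot, hb, Subgroup.relIndex_bot_left]
  rw [h6, ← Finset.prod_sdiff hT]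
  have h7 : ∏ i ∈ T, (b.Q (i + 1)).relIndex (b.Q i) ≤ (2 ^ (2 * l)) ^ T.card := by
    rw [← Finset.prod_const]
    exact Finset.prod_le_prod' fun i hi => hT1 i hi
  refine (Nat.mul_le_mul hT2 h7).trans ?_
  rw [← pow_mul, ← pow_add]
  refine Nat.pow_le_pow_right two_pos ?_
  have h8 : u ^ 2 ≤ u ^ 6 := Nat.pow_le_pow_right hu (by norm_num)
  have h9 : c1 * u ^ 2 * K ≤ c1 * u ^ 6 * K :=
    Nat.mul_le_mul_right _ (Nat.mul_le_mul_left _ h8)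
  calc c1 * u ^ 2 * K + 2 * l * T.card = c1 * u ^ 2 * K + 2 * (T.card * l) := by ring
    _ ≤ c1 * u ^ 6 * K + 2 * (c4 * u ^ 6 * K) := Nat.add_le_add h9 (Nat.mul_le_mul_left _ h5)
    _ = (2 * c4 + c1) * u ^ 6 * K := by ring

/-! ### numbers -/

/-- exponentials dominate squares -/
theorem g5_num (a : ℕ) : ∃ e : ℕ, ∀ u : ℕ, 1 ≤ u → 2 * (a * u ^ 2) + 1 ≤ 2 ^ (u - 1) + 2 * e := by
  have ht := tendsto_pow_const_div_const_pow_of_one_lt 2 (r := (2 : ℝ)) (by norm_num)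
  have h1 : ∀ᶠ u : ℕ in Filter.atTop, ((u : ℝ) ^ 2 / 2 ^ u) < 1 / (4 * a + 2) :=
    ht.eventually (gt_mem_nhds (by positivity))
  obtain ⟨u0, hu0⟩ := Filter.eventually_atTop.1 h1
  refine ⟨a * u0 ^ 2 + 1, fun u hu => ?_⟩
  rcases le_total u0 u with h | h
  · have h2 := hu0 u h
    rw [div_lt_div_iff₀ (by positivity) (by positivity)] at h2
    have h3 : u ^ 2 * (4 * a + 2) < 1 * 2 ^ u := by exact_mod_cast h2
    have h4 : 2 ^ u = 2 * 2 ^ (u - 1) := by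
      rw [← pow_succ']
      congr 1
      omega
    have h5 : 1 ≤ u ^ 2 := Nat.one_le_pow _ _ hu
    have h6 : u ^ 2 * (4 * a + 2) = 4 * (a * u ^ 2) + 2 * u ^ 2 := by ring
    omega
  · have h2 : a * u ^ 2 ≤ a * u0 ^ 2 := Nat.mul_le_mul_left _ (Nat.pow_le_pow_left h 2)
    have h3 : 1 ≤ 2 ^ (u - 1) := Nat.one_le_two_pow
    omega

theorem g5_K {K l u : ℕ} (h : Par K l u) (a e : ℕ)
    (he : 2 * (a * u ^ 2) + 1 ≤ 2 ^ (u - 1) + 2 * e) :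
    2 ^ (a * u ^ 2) * Nat.sqrt K ≤ 2 ^ e * K ∧ 2 ^ (a * u ^ 2) ≤ 2 ^ e * K ∧ 1 ≤ K := by
  have hu := h.one
  have h1 : 2 ^ u = 2 * 2 ^ (u - 1) := by
    rw [← pow_succ']
    congr 1
    omega
  have h2 : 2 ^ (u - 1) ≤ l := by
    have := h.ul
    omega
  have hl : 1 ≤ l := le_trans Nat.one_le_two_pow h2
  have h3 : 2 ^ l = 2 * 2 ^ (l - 1) := by
    rw [← pow_succ']
    congr 1
    omega
  have h4 : 2 ^ (l - 1) ≤ K := by
    have := h.le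
    omega
  have hK : 1 ≤ K := le_trans Nat.one_le_two_pow h4
  have h5 : (2 ^ (a * u ^ 2)) ^ 2 ≤ (2 ^ e) ^ 2 * K := by
    calc (2 ^ (a * u ^ 2)) ^ 2 = 2 ^ (2 * (a * u ^ 2)) := by rw [← pow_mul, mul_comm]
      _ ≤ 2 ^ (e * 2 + (l - 1)) := Nat.pow_le_pow_right two_pos (by omega)
      _ = (2 ^ e) ^ 2 * 2 ^ (l - 1) := by rw [pow_add, pow_mul]
      _ ≤ _ := Nat.mul_le_mul_left _ h4
  refine ⟨?_, ?_, hK⟩
  · refine (Nat.pow_le_pow_iff_left (n := 2) (by norm_num)).1 ?_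
    calc (2 ^ (a * u ^ 2) * Nat.sqrt K) ^ 2 = (2 ^ (a * u ^ 2)) ^ 2 * (Nat.sqrt K) ^ 2 := by ring
      _ ≤ ((2 ^ e) ^ 2 * K) * K := Nat.mul_le_mul h5 (Nat.sqrt_le' K)
      _ = (2 ^ e * K) ^ 2 := by ring
  · refine (Nat.pow_le_pow_iff_left (n := 2) (by norm_num)).1 ?_
    calc (2 ^ (a * u ^ 2)) ^ 2 ≤ (2 ^ e) ^ 2 * K * 1 := by rw [mul_one]; exact h5
      _ ≤ (2 ^ e) ^ 2 * K * K := Nat.mul_le_mul_left _ hK
      _ = (2 ^ e * K) ^ 2 := by ring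

theorem finN (h5b : SB5b.{u}) (hF3 : SF3.{u}) (h5 : SG5.{u}) : SFinN.{u} := by
  obtain ⟨c0, h5b⟩ := h5b
  obtain ⟨c5, h5⟩ := h5 (8 * c0 + 1)
  obtain ⟨e, he⟩ := g5_num (8 * c0 + 1)
  refine ⟨c5 + 1 + 6 * 2 ^ e, ?_⟩
  intro K l u G _ _ hsol hK hpar
  have hu := hpar.one
  have hkG : kc G < 2 ^ l := by rw [hK]; exact hpar.lt
  obtain ⟨hk1, hk2, hk3⟩ := g5_K hpar (8 * c0 + 1) e (he u hu)
  have hu2 : (u + 1) ^ 2 ≤ 4 * u ^ 2 := by nlinarith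
  have hY : c0 * (u + 1) ^ 2 ≤ 4 * (c0 * u ^ 2) := by
    calc c0 * (u + 1) ^ 2 ≤ c0 * (4 * u ^ 2) := Nat.mul_le_mul_left _ hu2
      _ = _ := by ring
  have hZe : (8 * c0 + 1) * u ^ 2 = 8 * (c0 * u ^ 2) + u ^ 2 := by ring
  have huu : u ≤ u ^ 2 := by nlinarith
  set Y : ℕ := 2 ^ (c0 * (u + 1) ^ 2) with hYd
  set Z : ℕ := 2 ^ ((8 * c0 + 1) * u ^ 2) with hZd
  have hYZ : Y ≤ Z := Nat.pow_le_pow_right two_pos (by omega)
  have hYY : Y ^ 2 ≤ Z := by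
    rw [hYd, ← pow_mul]
    exact Nat.pow_le_pow_right two_pos (by omega)
  have hlY : l * Y ^ 2 ≤ Z := by
    calc l * Y ^ 2 ≤ 2 ^ u * Y ^ 2 := Nat.mul_le_mul_right _ hpar.lu.le
      _ = 2 ^ (u + c0 * (u + 1) ^ 2 * 2) := by rw [hYd, ← pow_mul, ← pow_add]
      _ ≤ Z := Nat.pow_le_pow_right two_pos (by omega)
  obtain ⟨p, hp, N, hN, Q, hQn, hQp, hQi, hcard⟩ := hF3 l Y G hsol hkG (h5b l u G hsol hkG hpar.lu)
  have : Fact p.Prime := ⟨hp⟩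
  have hsurj := QuotientGroup.mk'_surjective N
  have hkq : kc (G ⧸ N) ≤ kc G := card_conj_le_of_surjective (QuotientGroup.mk' N) hsurj
  have hsq : Group.IsSolvable (G ⧸ N) := Group.isSolvable_of_surjective hsurj
  have hchq := h5b l u (G ⧸ N) hsq (hkq.trans_lt hkG) hpar.lu
  have hQ := h5 p K l u (G ⧸ N) Q hQn hQp hsq (hkq.trans hK.le) hpar (g5_mono hchq hYZ)
    (hQi.trans (Nat.pow_le_pow_right two_pos hlY))
  refine hcard.trans ((Nat.mul_le_mul_right _ hQ).trans ?_)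
  rw [← pow_add]
  refine Nat.pow_le_pow_right two_pos ?_
  rw [hK]
  have h6 : 1 ≤ u ^ 6 := Nat.one_le_pow _ _ hu
  have h7 : 2 * Y * (Nat.sqrt K + 1) ≤ 2 * (Z * Nat.sqrt K) + 2 * Z := by
    calc 2 * Y * (Nat.sqrt K + 1) ≤ 2 * Z * (Nat.sqrt K + 1) :=
          Nat.mul_le_mul_right _ (Nat.mul_le_mul_left _ hYZ)
      _ = _ := by ring
  have h8 : l * Y ^ 2 + (K + Y ^ 2 + 2 * Y * (Nat.sqrt K + 1)) ≤ (1 + 6 * 2 ^ e) * K := by
    have h9 : (1 + 6 * 2 ^ e) * K = K + 6 * (2 ^ e * K) := by ring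
    omega
  calc c5 * u ^ 6 * K + (l * Y ^ 2 + (K + Y ^ 2 + 2 * Y * (Nat.sqrt K + 1)))
      ≤ c5 * u ^ 6 * K + (1 + 6 * 2 ^ e) * K * u ^ 6 :=
        Nat.add_le_add_left (h8.trans (Nat.le_mul_of_pos_right _ h6)) _
    _ = (c5 + 1 + 6 * 2 ^ e) * u ^ 6 * K := by ring

end H48.CN
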