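import Pool.Agent.H48.CN.Stm

/-!
Class numbers of finite solvable groups: the final theorem in real logarithms.
-/

namespace H48.CN

open H60.KG MulAction

universe u

/-- the number of classes of a finite group is positive -/
theorem g6_kc_pos (G : Type*) [Group G] [Finite G] : 1 ≤ kc G := by
  have : Nonempty (ConjClasses G) := ⟨ConjClasses.mk 1⟩
  have : Finite (ConjClasses G) := Finite.of_surjective ConjClasses.mk ConjClasses.mk_surjective
  exact Nat.card_pos

theorem g6_log_le (n : ℕ) (hn : 1 ≤ n) : ((Nat.log 2 n : ℕ) : ℝ) ≤ Real.logb 2 n := by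
  rw [Real.le_logb_iff_rpow_le (by norm_num) (by exact_mod_cast hn), Real.rpow_natCast]
  exact_mod_cast Nat.pow_log_le_self 2 (by omega)

theorem g6_par (K : ℕ) (hK : 1 ≤ K) :
    Par K (Nat.log 2 K + 1) (Nat.log 2 (Nat.log 2 K + 1) + 1) where
  lt := Nat.lt_pow_succ_log_self (by norm_num) K
  le := by
    rw [pow_succ, mul_comm]
    exact Nat.mul_le_mul_left 2 (Nat.pow_log_le_self 2 (by omega))
  lu := Nat.lt_pow_succ_log_self (by norm_num) _
  ul := by
    rw [pow_succ, mul_comm]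
    exact Nat.mul_le_mul_left 2 (Nat.pow_log_le_self 2 (by omega))
  one := by omega

theorem g6_u_le (K : ℕ) (hK : 1 ≤ K) : ((Nat.log 2 (Nat.log 2 K + 1) + 1 : ℕ) : ℝ) ≤
    1 + Real.logb 2 (1 + Real.logb 2 K) := by
  have h1 := g6_log_le K hK
  have h2 := g6_log_le (Nat.log 2 K + 1) (by omega)
  have h3 : Real.logb 2 ((Nat.log 2 K + 1 : ℕ) : ℝ) ≤ Real.logb 2 (1 + Real.logb 2 K) := by
    apply Real.logb_le_logb_of_le (by norm_num) (by positivity)
    push_cast
    linarith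
  push_cast at h2 h3 ⊢
  linarith

/-- the final theorem -/
theorem fin (h : SFinN.{u}) : SFin.{u} := by
  obtain ⟨c, hc⟩ := h
  refine ⟨c + 1, by positivity, ?_⟩
  intro G _ _ hG
  have hK := g6_kc_pos G
  have h1 := hc (kc G) _ _ G hG rfl (g6_par (kc G) hK)
  have h2 := g6_u_le (kc G) hK
  have hcard : 0 < Nat.card G := Nat.card_pos
  set u : ℕ := Nat.log 2 (Nat.log 2 (kc G) + 1) + 1 with hu
  have h3 : Real.logb 2 (Nat.card G) ≤ ((c * u ^ 6 * kc G : ℕ) : ℝ) := by
    rw [Real.logb_le_iff_le_rpow (by norm_num) (by exact_mod_cast hcard), Real.rpow_natCast]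
    exact_mod_cast h1
  refine h3.trans ?_
  have h4 : (u : ℝ) ^ 6 ≤ (1 + Real.logb 2 (1 + Real.logb 2 (kc G))) ^ 6 :=
    pow_le_pow_left₀ (Nat.cast_nonneg _) h2 6
  have h5 : (0 : ℝ) ≤ (kc G : ℝ) := Nat.cast_nonneg _
  have h6 : (0 : ℝ) ≤ (c : ℝ) := Nat.cast_nonneg _
  have h7 : (0 : ℝ) ≤ (u : ℝ) ^ 6 := by positivity
  push_cast
  calc (c : ℝ) * (u : ℝ) ^ 6 * (kc G : ℝ) = (c : ℝ) * (kc G : ℝ) * (u : ℝ) ^ 6 := by ring
    _ ≤ ((c : ℝ) + 1) * (kc G : ℝ) * (u : ℝ) ^ 6 := by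
        apply mul_le_mul_of_nonneg_right _ h7
        apply mul_le_mul_of_nonneg_right _ h5
        linarith
    _ ≤ ((c : ℝ) + 1) * (kc G : ℝ) * (1 + Real.logb 2 (1 + Real.logb 2 (kc G))) ^ 6 := by
        apply mul_le_mul_of_nonneg_left h4
        positivity

/-- the numbers `log log log` -/
theorem g6_logs {x : ℝ} (hx : 16 < x) : 4 < Real.logb 2 x ∧ 2 < Real.logb 2 (Real.logb 2 x) ∧
    1 < Real.logb 2 (Real.logb 2 (Real.logb 2 x)) := by
  have h1 : 4 < Real.logb 2 x := by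
    rw [Real.lt_logb_iff_rpow_lt (by norm_num) (by linarith)]
    have : (2 : ℝ) ^ (4 : ℝ) = 16 := by
      rw [show (4 : ℝ) = ((4 : ℕ) : ℝ) by norm_num, Real.rpow_natCast]
      norm_num
    rw [this]
    exact hx
  have h2 : 2 < Real.logb 2 (Real.logb 2 x) := by
    rw [Real.lt_logb_iff_rpow_lt (by norm_num) (by linarith)]
    have : (2 : ℝ) ^ (2 : ℝ) = 4 := by
      rw [show ((2 : ℝ) ^ (2 : ℝ)) = (2 : ℝ) ^ ((2 : ℕ) : ℝ) by norm_num, Real.rpow_natCast]
      norm_num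
    rw [this]
    exact h1
  refine ⟨h1, h2, ?_⟩
  rw [Real.lt_logb_iff_rpow_lt (by norm_num) (by linarith), Real.rpow_one]
  exact h2

/-- the final theorem with iterated logarithms of the order -/
theorem fin' (h : SFin.{u}) : ∃ c : ℝ, 0 < c ∧ ∀ (G : Type u) [Group G] [Finite G],
    Group.IsSolvable G → 16 < Nat.card G →
    c * Real.logb 2 (Nat.card G) /
      (Real.logb 2 (Real.logb 2 (Real.logb 2 (Nat.card G)))) ^ 6 ≤ kc G := by
  obtain ⟨C, hC, hmain⟩ := h
  refine ⟨min 1 (1 / (729 * C)), lt_min one_pos (by positivity), ?_⟩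
  intro G _ _ hG hcard
  have hcard' : (16 : ℝ) < (Nat.card G : ℝ) := by exact_mod_cast hcard
  obtain ⟨h1, h2, h3⟩ := g6_logs hcard'
  have hk : (1 : ℝ) ≤ (kc G : ℝ) := by exact_mod_cast g6_kc_pos G
  have hm := hmain G hG
  set k : ℝ := (kc G : ℝ) with hkdef
  set L1 : ℝ := Real.logb 2 (Nat.card G) with hL1
  set L2 : ℝ := Real.logb 2 L1 with hL2
  set L3 : ℝ := Real.logb 2 L2 with hL3
  have hL36 : (1 : ℝ) ≤ L3 ^ 6 := one_le_pow₀ h3.le
  have hL36' : (0 : ℝ) < L3 ^ 6 := lt_of_lt_of_le one_pos hL36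
  rw [div_le_iff₀ hL36']
  rcases le_or_gt L1 k with hk1 | hk1
  · calc min 1 (1 / (729 * C)) * L1 ≤ 1 * L1 :=
          mul_le_mul_of_nonneg_right (min_le_left _ _) (by linarith)
      _ = L1 := one_mul _
      _ ≤ k := hk1
      _ = k * 1 := (mul_one _).symm
      _ ≤ k * L3 ^ 6 := mul_le_mul_of_nonneg_left hL36 (by linarith)
  · have h4 : Real.logb 2 k ≤ L2 := Real.logb_le_logb_of_le (by norm_num) (by linarith) hk1.le
    have h40 : 0 ≤ Real.logb 2 k := Real.logb_nonneg (by norm_num) hk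
    have h5 : Real.logb 2 (1 + Real.logb 2 k) ≤ 1 + L3 := by
      calc Real.logb 2 (1 + Real.logb 2 k) ≤ Real.logb 2 (2 * L2) :=
            Real.logb_le_logb_of_le (by norm_num) (by linarith) (by linarith)
        _ = 1 + L3 := by
            rw [Real.logb_mul (by norm_num) (by linarith), Real.logb_self_eq_one (by norm_num)]
    have h50 : 0 ≤ Real.logb 2 (1 + Real.logb 2 k) := Real.logb_nonneg (by norm_num) (by linarith)
    have h6 : (1 + Real.logb 2 (1 + Real.logb 2 k)) ^ 6 ≤ 729 * L3 ^ 6 := by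
      calc (1 + Real.logb 2 (1 + Real.logb 2 k)) ^ 6 ≤ (3 * L3) ^ 6 :=
            pow_le_pow_left₀ (by linarith) (by linarith) 6
        _ = 729 * L3 ^ 6 := by ring
    have h7 : L1 ≤ C * k * (729 * L3 ^ 6) :=
      hm.trans (mul_le_mul_of_nonneg_left h6 (by positivity))
    calc min 1 (1 / (729 * C)) * L1 ≤ 1 / (729 * C) * L1 :=
          mul_le_mul_of_nonneg_right (min_le_right _ _) (by linarith)
      _ ≤ 1 / (729 * C) * (C * k * (729 * L3 ^ 6)) :=
          mul_le_mul_of_nonneg_left h7 (by positivity)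
      _ = k * L3 ^ 6 := by
          field_simp

end H48.CN
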