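import Pool.Agent.H48.CN.A1
import Pool.Agent.H48.CN.A2
import Pool.Agent.H48.CN.A2b
import Pool.Agent.H48.CN.A3
import Pool.Agent.H48.CN.A4
import Pool.Agent.H48.CN.A5
import Pool.Agent.H48.CN.A6a
import Pool.Agent.H48.CN.A6c
import Pool.Agent.H48.CN.A6d
import Pool.Agent.H48.CN.B1
import Pool.Agent.H48.CN.B2
import Pool.Agent.H48.CN.B3
import Pool.Agent.H48.CN.B4a
import Pool.Agent.H48.CN.B4b
import Pool.Agent.H48.CN.B5
import Pool.Agent.H48.CN.B5b
import Pool.Agent.H48.CN.B6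
import Pool.Agent.H48.CN.B7
import Pool.Agent.H48.CN.B8
import Pool.Agent.H48.CN.C1
import Pool.Agent.H48.CN.C2
import Pool.Agent.H48.CN.C2a
import Pool.Agent.H48.CN.C3
import Pool.Agent.H48.CN.C4
import Pool.Agent.H48.CN.D1
import Pool.Agent.H48.CN.D2
import Pool.Agent.H48.CN.D3
import Pool.Agent.H48.CN.E1
import Pool.Agent.H48.CN.E2
import Pool.Agent.H48.CN.E4
import Pool.Agent.H48.CN.F1a
import Pool.Agent.H48.CN.F1b
import Pool.Agent.H48.CN.F2
import Pool.Agent.H48.CN.F2a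
import Pool.Agent.H48.CN.F2b
import Pool.Agent.H48.CN.F2c
import Pool.Agent.H48.CN.F3
import Pool.Agent.H48.CN.G1
import Pool.Agent.H48.CN.G2
import Pool.Agent.H48.CN.G3
import Pool.Agent.H48.CN.G4
import Pool.Agent.H48.CN.G5
import Pool.Agent.H48.CN.G6

/-!
Class numbers of finite solvable groups: the final assembly.
-/

namespace H48.CN

universe u

theorem final_a1c : SA1c.{u} := a1c a1b
theorem final_b5 : SB5.{u} := b5 b1 b2 b3 b4a b4b
theorem final_b5b : SB5b.{u} := b5b final_b5 a4 a4b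
theorem final_b7 : SB7.{u} := b7 a1a final_a1c b2
theorem final_b8 : SB8.{u} := b8 b1 b2 b6 final_b7 a2b
theorem final_c1 : SC1.{u} := c1 a1a final_a1c a1b
theorem final_c2 : SC2.{u} := c2 final_c1 c2a a1b
theorem final_c3 : SC3.{u} := c3 a1a
theorem final_c : SC.{u} := c4 final_c1 final_c2 final_c3
theorem final_d : SD.{u} := d3 d1 d2
theorem final_e4 : SE4.{u} := e4 a3 a4 a6d a6e e1 e2 e3
theorem final_f1 : SF1.{u} := f1 f1a f1b a4 a4b
theorem final_f2 : SF2.{u} := f2 f2a f2b f2c a6a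
theorem final_f3 : SF3.{u} := f3 final_f1 final_f2
theorem final_g1 : SG1.{u} := g1 a2 a2b a4 a4b a6b final_b8 final_c
theorem final_g2 : SG2.{u} := g2 a3 a4 a6b a6c final_d
theorem final_g3 : SG3.{u} := g3 final_g2 final_e4
theorem final_g4 : SG4.{u} := g4 final_g3 a5 a6b a6e
theorem final_g5 : SG5.{u} := g5 a6a final_g1 final_g4
theorem final_n : SFinN.{u} := finN final_b5b final_f3 final_g5
theorem final : SFin.{u} := fin final_n

end H48.CN
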