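import Pool.Agent.H48.CN.Defs

/-!
Class numbers of finite solvable groups: statements.
-/

namespace H48.CN

open H60.KG MulAction
open scoped Pointwise

universe u

/-! ### Part A -/

/-- A1a -/
def SA1a : Prop := ∀ (p : ℕ) (G' G : Type u) [Group G'] [Group G] [Finite G] (f : G' →* G),
  Function.Injective f → kp p G' * Nat.card G' ≤ kp p G * Nat.card G

/-- A1b -/
def SA1b : Prop := ∀ (p : ℕ) [Fact p.Prime] (G G' : Type u) [Group G] [Group G'] [Finite G]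
  (f : G →* G'), Function.Surjective f → kp p G' ≤ kp p G ∧ kp p G ≤ kc G

/-- A1c: an abelian section of order prime to `p` with small classes -/
def SA1c : Prop := ∀ (p L : ℕ) [Fact p.Prime] (G : Type u) [Group G] [Finite G]
  (N A Z : Subgroup G) [N.Normal], N ≤ A → (N.relIndex A).Coprime p → Z.index ≤ L →
  (∀ z ∈ Z, ∀ a ∈ A, z * a * z⁻¹ * a⁻¹ ∈ N) → N.relIndex A ≤ L * kp p G

/-- A2 -/
def SA2 : Prop := ∀ (p m : ℕ) [Fact p.Prime] (G H : Type u) [Group G] [Finite G] [Group H]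
  (π : G →* H) (Q : ℕ → Subgroup G) (V : ℕ → Type u) [∀ i, AddCommGroup (V i)]
  [∀ i, DistribMulAction H (V i)] (φ : ∀ i, G → V i),
  Function.Surjective π → π.ker = Q 0 → IsPGroup p (Q 0) → Antitone Q →
  (∀ i < m, IsFac π (Q (i + 1)) (Q i) (φ i)) →
  ∑ i ∈ Finset.range m, kappa p H (V i) + 1 ≤ kc G

/-- A2b -/
def SA2b : Prop := ∀ (p : ℕ) (H V : Type u) [Group H] [Finite H] [AddCommGroup V] [Finite V]
  [DistribMulAction H V], orb H V - 1 ≤ kappa p H V ∧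
    ∀ v : V, v ≠ 0 → kp p (MulAction.stabilizer H v) ≤ kappa p H V

/-- A3 -/
def SA3 : Prop := ∀ (G A : Type u) [Group G] [Finite G] [AddCommGroup A]
  [DistribMulAction G A] (M L : Subgroup G) (φ : G → A),
  IsFac (MonoidHom.id G) M L φ → KI G A (kc G)

/-- A4 -/
def SA4 : Prop := ∀ (G H : Type u) [Group G] [Finite G] [Group H] (π : G →* H)
  (N M : Subgroup G), Function.Surjective π → AbSec N M →
  (∀ g : G, π g = 1 → ∀ x ∈ M, g * x * g⁻¹ * x⁻¹ ∈ N) →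
  ∃ (V : Type u) (_ : AddCommGroup V) (_ : Finite V) (_ : DistribMulAction H V) (φ : G → V),
    IsFac π N M φ

/-- A4b: chief factors are irreducible, sizes, orbits -/
def SA4b : Prop := ∀ (G H V : Type u) [Group G] [Finite G] [Group H] [AddCommGroup V] [Finite V]
  [DistribMulAction H V] (π : G →* H) (N M : Subgroup G) (φ : G → V),
  Function.Surjective π → IsFac π N M φ → Nat.card V = N.relIndex M ∧ orb H V ≤ kc G ∧
  (Chief N M → Irred H V)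

/-- A5 -/
def SA5 : Prop := ∀ (p : ℕ) [Fact p.Prime] (G : Type u) [Group G] [Finite G] (Q : Subgroup G)
  [Q.Normal], IsPGroup p Q →
  (∀ n, (lcs Q n).Normal) ∧ Antitone (lcs Q) ∧ (∃ c, lcs Q c = ⊥) ∧
  (∀ n, lcs Q n ≠ ⊥ → lcs Q (n + 1) < lcs Q n) ∧
  (∀ s t, ⁅lcs Q s, lcs Q t⁆ ≤ lcs Q (s + t + 1)) ∧
  (∀ n, (lcs Q (n + 1)).relIndex (lcs Q n) ≤ kc G * Q.index)

/-- A6a: existence of a base series -/
def SA6a : Prop := ∀ (p : ℕ) [Fact p.Prime] (G : Type u) [Group G] [Finite G] (Q : Subgroup G)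
  [Q.Normal], IsPGroup p Q → ∃ b : Base G p, b.Q 0 = Q

/-- A6b: factors of a base series are elementary abelian, `Q 0` acts trivially -/
def SA6b : Prop := ∀ (p : ℕ) [Fact p.Prime] (G : Type u) [Group G] [Finite G] (b : Base G p),
  b.len + 1 ≤ kc G ∧ ∀ i < b.len, ElSec p (b.Q (i + 1)) (b.Q i) ∧ Chief (b.Q (i + 1)) (b.Q i) ∧
    ∀ g ∈ b.Q 0, ∀ x ∈ b.Q i, g * x * g⁻¹ * x⁻¹ ∈ b.Q (i + 1)

/-- A6c: the levels of a section -/
def SA6c : Prop := ∀ (p : ℕ) [Fact p.Prime] (G A : Type u) [Group G] [Finite G] [AddCommGroup A]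
  [DistribMulAction G A] (b : Base G p) (M L : Subgroup G) (φ : G → A)
  (h : IsFac (MonoidHom.id G) M L φ), L ≤ b.Q 0 →
  b.I M ⊆ b.I L ∧ Chain G (fun i => h.im (b.Q i)) b.len ∧
  (∀ i, (h.im (b.Q (i + 1))).relIndex (h.im (b.Q i)) ≤ (b.Q (i + 1)).relIndex (b.Q i)) ∧
  (∀ i ∈ b.I L \ b.I M, h.im (b.Q (i + 1)) < h.im (b.Q i) ∧
    ∀ g : G, fixA g (h.im (b.Q i)) (h.im (b.Q (i + 1))) ↔ fixLev (b.Q (i + 1)) (b.Q i) g)

/-- A6d: counting levels by orbits -/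
def SA6d : Prop := ∀ (p : ℕ) [Fact p.Prime] (G A : Type u) [Group G] [Finite G] [AddCommGroup A]
  [DistribMulAction G A] (b : Base G p) (M L X Y : Subgroup G) (φ : G → A)
  (h : IsFac (MonoidHom.id G) M L φ), L ≤ b.Q 0 → X.Normal → Y.Normal → M ≤ Y → Y ≤ X → X ≤ L →
  (b.I X \ b.I Y).card ≤ rorb G (h.im X) (h.im Y)

/-- A6e: counting levels by order -/
def SA6e : Prop := ∀ (p : ℕ) [Fact p.Prime] (G : Type u) [Group G] [Finite G]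
  (b : Base G p) (X Y : Subgroup G), X.Normal → Y.Normal → Y ≤ X → X ≤ b.Q 0 →
  b.I Y ⊆ b.I X ∧ 2 ^ (b.I X \ b.I Y).card ≤ Y.relIndex X ∧
    (Y < X → (b.I X \ b.I Y).Nonempty) ∧ b.I (b.Q 0) = Finset.range b.len ∧ b.I ⊥ = ∅

/-! ### Part B -/

/-- B1 -/
def SB1 : Prop := ∃ C0 : ℕ, ∀ (H V : Type u) [Group H] [Finite H] [AddCommGroup V] [Finite V]
  [DistribMulAction H V] [Nontrivial V], Group.IsSolvable H → Prim H V → C0 ≤ Nat.card V →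
  Nat.card V ≤ (orb H V) ^ 4 ∨ ∃ Z : Subgroup H, OneDim H V Z

/-- B2 -/
def SB2 : Prop := ∀ (H V : Type u) [Group H] [Finite H] [AddCommGroup V] [Finite V]
  [DistribMulAction H V] [Nontrivial V] (Z : Subgroup H), OneDim H V Z →
  Nat.card V - 1 ≤ (orb H V - 1) * (Nat.log 2 (Nat.card V) * (aker H V).relIndex Z) ∧
  (aker H V).relIndex Z ≤ kc H * Nat.log 2 (Nat.card V) ∧
  (aker H V).relIndex Z ∣ Nat.card V - 1 ∧
  ∀ v : V, v ≠ 0 → MulAction.stabilizer H v ⊓ Z = aker H V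

/-- B3 -/
def SB3 : Prop := ∀ (S ι : Type u) [Group S] [Finite S] [Finite ι] [Nonempty ι] [MulAction S ι],
  Group.IsSolvable S → MulAction.IsPreprimitive S ι →
  Nat.card (MulAction.toPermHom S ι).range ≤ (Nat.card ι) ^ (1 + Nat.log 2 (Nat.card ι))

/-- B4a: a maximal block -/
def SB4a : Prop := ∀ (H V : Type u) [Group H] [Finite H] [AddCommGroup V] [Finite V]
  [DistribMulAction H V], Irred H V → ¬ Prim H V →
  ∃ U : AddSubgroup V, U ≠ ⊥ ∧ U ≠ ⊤ ∧ IndepOrbit H U ∧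
    MulAction.IsPreprimitive H (MulAction.orbit H U)

/-- B4b: orbits on functions -/
def SB4b : Prop := ∀ (H V ι : Type u) [Group H] [Finite H] [AddCommGroup V] [Finite V]
  [DistribMulAction H V] [MulAction H ι] [Fintype ι] (U : ι → AddSubgroup V)
  (B : BlockSys H V ι U) (i0 : ι), 
  letI := blockAct B i0
  (orb (MulAction.stabilizer H i0) (U i0)) ^ (Fintype.card ι) ≤
    orb H V * Nat.card (MulAction.toPermHom H ι).range ∧
  (2 ≤ Fintype.card ι → orb (MulAction.stabilizer H i0) (U i0) *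
    (orb (MulAction.stabilizer H i0) (U i0) + 1) ≤ 2 * orb H V)

/-- B5 -/
def SB5 : Prop := ∃ c : ℕ, ∀ (l u : ℕ) (H V : Type u) [Group H] [Finite H] [AddCommGroup V]
  [Finite V] [DistribMulAction H V], Group.IsSolvable H → Irred H V →
  kc H * (orb H V - 1) < 2 ^ l → l < 2 ^ u → Nat.card V ≤ 2 ^ (2 ^ (c * (u + 1) ^ 2))

/-- B5b -/
def SB5b : Prop := ∃ c : ℕ, ∀ (l u : ℕ) (G : Type u) [Group G] [Finite G],
  Group.IsSolvable G → kc G < 2 ^ l → l < 2 ^ u → ChiefLe G (2 ^ (c * (u + 1) ^ 2))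

/-- B6: a minimal block -/
def SB6 : Prop := ∀ (H V : Type u) [Group H] [Finite H] [AddCommGroup V] [Finite V]
  [DistribMulAction H V], Irred H V →
  ∃ (W : AddSubgroup V) (_ : Fintype (MulAction.orbit H W))
    (B : BlockSys H V (MulAction.orbit H W) (fun i => (i : AddSubgroup V))),
    letI := blockAct B ⟨W, MulAction.mem_orbit_self W⟩
    W ≠ ⊥ ∧ Prim (MulAction.stabilizer H (⟨W, MulAction.mem_orbit_self W⟩ :
      MulAction.orbit H W)) (((⟨W, MulAction.mem_orbit_self W⟩ :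
      MulAction.orbit H W) : AddSubgroup V))

/-- B7: at least two one-dimensional blocks give many classes in a vector stabiliser -/
def SB7 : Prop := ∀ (p : ℕ) [Fact p.Prime] (H V ι : Type u) [Group H] [Finite H]
  [AddCommGroup V] [Finite V] [DistribMulAction H V] [MulAction H ι] [Fintype ι]
  (U : ι → AddSubgroup V) (B : BlockSys H V ι U) (i0 : ι) (Z : Subgroup (MulAction.stabilizer H i0)),
  letI := blockAct B i0
  (∀ v : V, p • v = 0) → 2 ≤ Fintype.card ι →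
  OneDim (MulAction.stabilizer H i0) (U i0) Z → 2 ≤ Nat.card (U i0) →
  ∃ v : V, v ≠ 0 ∧ Nat.card (U i0) - 1 ≤ 2 * (orb H V - 1) *
    ((Nat.log 2 (Nat.card (U i0))) ^ 2 * (Fintype.card ι * kp p (MulAction.stabilizer H v)))

/-- B8: typical levels -/
def SB8 : Prop := ∃ C0 : ℕ, ∀ (p l Y D : ℕ) [Fact p.Prime] (H V : Type u) [Group H] [Finite H]
  [AddCommGroup V] [Finite V] [DistribMulAction H V], Group.IsSolvable H → Irred H V →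
  (∀ v : V, p • v = 0) → kc H < 2 ^ l → Nat.card V ≤ 2 ^ Y → (Y * l + 2) ^ 20 ≤ 2 ^ D →
  C0 ≤ D → 2 ^ (D * (orb H V - 1)) < Nat.card V → kappa p H V ≤ l * (orb H V - 1) →
  Nat.card V ≤ 2 ^ (2 * l) ∧
  ∃ Z : Subgroup H, LevData p (2 * l) ((Y * l + 2) ^ 4) (2 * l ^ 2) (aker H V) Z (stabs H V)

/-! ### Part C -/

/-- C -/
def SC : Prop := ∃ c : ℕ, ∀ (p L M B w : ℕ) [Fact p.Prime] (H : Type u) [Group H] [Finite H]
  (κ : Type) (N Z : κ → Subgroup H) (S : κ → Set (Subgroup H)),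
  (∀ t, LevData p L M B (N t) (Z t) (S t)) → L * (L * B) < M → L < 2 ^ w → B < 2 ^ w →
  Nat.card {d : ConjClasses H // ∃ h : H, ConjClasses.mk h = d ∧ (orderOf h).Coprime p ∧
    ∃ t, ∃ X ∈ S t, h ∈ X} ≤ 2 ^ (c * w ^ 2)

/-- C1: two triples -/
def SC1 : Prop := ∀ (p L M B : ℕ) [Fact p.Prime] (H : Type u) [Group H] [Finite H]
  (N Z N' Z' : Subgroup H) (S S' : Set (Subgroup H)), LevData p L M B N Z S →
  LevData p L M B N' Z' S' → L * (L * B) < M →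
  kp p N ≤ L * B ∧ N ≤ Z' ∧ (N ⊓ N').relIndex N ≤ L * B ∧ (N = N' → Z = Z')

/-- C2a: the number of subgroups -/
def SC2a : Prop := ∀ (H : Type u) [Group H] [Finite H] (D E : Subgroup H) [D.Normal],
  D ≤ E → Set.ncard {X : Subgroup H | D ≤ X ∧ X ≤ E} ≤
    (D.relIndex E) ^ (Nat.log 2 (D.relIndex E) + 1)

/-- C2: the number of kernels -/
def SC2 : Prop := ∀ (p L M B : ℕ) [Fact p.Prime] (H : Type u) [Group H] [Finite H]
  (κ : Type) (N Z : κ → Subgroup H) (S : κ → Set (Subgroup H)),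
  (∀ t, LevData p L M B (N t) (Z t) (S t)) → L * (L * B) < M →
  Set.ncard (Set.range N) ≤ (L * B) ^ (Nat.log 2 (L * B) + 1) * ((L * B) *
    ((L * B) ^ 2) ^ (Nat.log 2 ((L * B) ^ 2) + 1))

/-- C3: the classes for one kernel -/
def SC3 : Prop := ∀ (p L M B : ℕ) [Fact p.Prime] (H : Type u) [Group H] [Finite H]
  (N Z : Subgroup H) (S : Set (Subgroup H)), LevData p L M B N Z S →
  Nat.card {d : ConjClasses H // ∃ h : H, ConjClasses.mk h = d ∧ (orderOf h).Coprime p ∧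
    ∃ X ∈ S, h ∈ X} ≤ L * B + L * (L * B)

/-! ### Part D -/

/-- D1: a single element; `h` is its part of order prime to `p` -/
def SD1 : Prop := ∀ (p m : ℕ) [Fact p.Prime] (G A : Type u) [Group G] [Finite G]
  [AddCommGroup A] [Finite A] [DistribMulAction G A] (F : ℕ → AddSubgroup A) (g : G),
  (∀ a : A, p • a = 0) → Chain G F m →
  ∃ h : G, (orderOf h).Coprime p ∧
    (∀ i, fixA g (F i) (F (i + 1)) → fixA h (F i) (F (i + 1))) ∧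
    ∃ Lh : ℝ, 0 ≤ Lh ∧
      (∀ T : Finset ℕ, (∀ i ∈ T, fixA h (F i) (F (i + 1))) → (T.card : ℝ) ≤ Lh) ∧
      (0 < Lh → 1 ≤ Real.logb 2 (Nat.card {a : A // g • a = a})) ∧
      Lh ≤ Real.logb 2 (Nat.card {a : A // g • a = a}) * ordA A g ∧
      (∀ i j, i ≤ j → 0 ≤ lf g (F i) (F j) ∧
        lf g (F i) (F j) ≤ Real.logb 2 (Nat.card {a : A // g • a = a})) ∧
      ∀ s n : ℕ, ∑ k ∈ Finset.range n, lf g (F (k * s)) (F ((k + 1) * s)) ≤ Lh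

/-- D2: numbers -/
def SD2 : Prop := ∃ C : ℝ, 0 < C ∧ ∀ (m : ℕ) (a L Λ X : ℝ) (α : ℕ → ℕ → ℝ), 1 ≤ m → 1 ≤ a →
  1 ≤ Λ → 1 ≤ X → 0 < L → (m : ℝ) ≤ X * L →
  (∀ j k, 0 ≤ α j k ∧ α j k ≤ a ∧ α j k ≤ Λ * 2 ^ j) →
  (∀ j, ∑ k ∈ Finset.range (m / 2 ^ j + 1), α j k ≤ L) →
  ∑ j ∈ Finset.range (Nat.log 2 m + 1), ∑ k ∈ Finset.range (m / 2 ^ j + 1),
    ((2 : ℝ) ^ (α j k) - 1) ≤ C * (1 + Real.logb 2 (X * Λ)) * ((2 : ℝ) ^ a * L / a)

/-- D3: Theorem H -/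
def SD : Prop := ∃ C : ℝ, 0 < C ∧ ∀ (p m K Λ N b : ℕ) [Fact p.Prime] (G A : Type u) [Group G]
  [Finite G] [AddCommGroup A] [Finite A] [DistribMulAction G A] (F : ℕ → AddSubgroup A)
  (T : Finset ℕ), (∀ a : A, p • a = 0) → KI G A K → Chain G F m → 1 ≤ Λ → 1 ≤ N → 1 ≤ b →
  (∀ i < m, (F (i + 1)).relIndex (F i) ≤ 2 ^ Λ) → T ⊆ Finset.range m → T.Nonempty →
  (∀ i ∈ T, F (i + 1) < F i) → m ≤ b * T.card →
  Set.ncard {S : Set ℕ | S.Nonempty ∧ ∃ h : G, (orderOf h).Coprime p ∧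
    S = {i | i ∈ T ∧ fixA h (F i) (F (i + 1))}} ≤ N →
  (T.card : ℝ) * Real.logb 2 m ≤ C * (1 + Real.logb 2 ((N : ℝ) * b * Λ)) * K

/-! ### Part E -/

/-- E1 -/
def SE1 : Prop := ∀ (p K θ i n : ℕ) [Fact p.Prime] (G A : Type u) [Group G] [Finite G]
  [AddCommGroup A] [Finite A] [DistribMulAction G A], (∀ a : A, p ^ n • a = 0) → KI G A K →
  1 ≤ θ → 2 * θ ≤ i → (∀ a : A, p • a = 0 → a ∈ pw A p (i - 2 * θ) → a ∈ pw A p (i + θ - 2)) →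
  2 ^ θ * rorb G (pw A p (i - 1)) (pw A p i) ≤ K

/-- E2 -/
def SE2 : Prop := ∀ (p J : ℕ) (G A : Type u) [Group G] [AddCommGroup A] [Finite A]
  [DistribMulAction G A] (f : ℕ → ℕ) (z : ℕ → A), (∀ j < J, f (j + 1) + 2 ≤ f j) → 1 ≤ f J →
  (∀ j, 1 ≤ j → j ≤ J → p ^ (f j) • z j = 0 ∧ p ^ (f j - 1) • z j ∉ pw A p (f j)) →
  2 ^ J * rorb G (pw A p (f 0 - 1)) (pw A p (f 0)) ≤ orb G A

/-- E3 -/
def SE3 : Prop := ∀ (p K : ℕ) (G A : Type u) [Group G] [Finite G]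
  [AddCommGroup A] [Finite A] [DistribMulAction G A],
  (∀ i, rorb G (pw A p (i + 1)) (pw A p (i + 2)) ≤ rorb G (pw A p i) (pw A p (i + 1))) ∧
  (KI G A K → orb G A ≤ K) ∧ (∀ X Y : AddSubgroup A, Y < X → 1 ≤ rorb G X Y)

/-- E4 -/
def SE4 : Prop := ∀ (p θ l X : ℕ) [Fact p.Prime] (G : Type u) [Group G] [Finite G]
  (b : Base G p) (T : Finset ℕ), kc G < 2 ^ l → 1 ≤ θ → 1 ≤ l →
  (∀ M L : Subgroup G, ElSec p M L → L ≤ b.Q 0 → b.rho T M L ≤ X) →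
  ∀ M L : Subgroup G, AbSec M L → L ≤ b.Q 0 →
    b.rho T M L * 2 ^ θ ≤ 3 * θ ^ 2 * X * 2 ^ θ + 3 * l ^ 2 * kc G

/-! ### Part F -/

/-- F1 -/
def SF1 : Prop := ∀ (l Y : ℕ) (G : Type u) [Group G] [Finite G], Group.IsSolvable G →
  kc G < 2 ^ l → ChiefLe G Y → ∃ F : Subgroup G, F.Normal ∧ Group.IsNilpotent F ∧
    F.index ≤ 2 ^ (l * Y ^ 2)

/-- F1a -/
def SF1a : Prop := ∀ (G : Type u) [Group G] [Finite G], Group.IsSolvable G →
  ∃ (F : Subgroup G) (n : ℕ) (N M : Fin n → Subgroup G), F.Normal ∧ Group.IsNilpotent F ∧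
    (∀ i, Chief (N i) (M i) ∧ AbSec (N i) (M i)) ∧
    ∀ g : G, g ∈ F ↔ ∀ i, ∀ x ∈ M i, g * x * g⁻¹ * x⁻¹ ∈ N i

/-- F1b -/
def SF1b : Prop := ∀ (l Y n : ℕ) (G : Type u) [Group G] [Finite G] (V : Fin n → Type u)
  [∀ i, AddCommGroup (V i)] [∀ i, DistribMulAction G (V i)], kc G < 2 ^ l →
  (∀ i, Finite (V i) ∧ Nat.card (V i) ≤ 2 ^ Y) → (⨅ i, aker G (V i)).index ≤ 2 ^ (l * Y ^ 2)

/-- F2a: the Sylow subgroups of a nilpotent normal subgroup -/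
def SF2a : Prop := ∀ (G : Type u) [Group G] [Finite G] (F : Subgroup G), F.Normal →
  Group.IsNilpotent F → ∃ P : ℕ → Subgroup G, (∀ r, (P r).Normal ∧ P r ≤ F) ∧
    (∀ r, r.Prime → IsPGroup r (P r)) ∧
    ∀ p : ℕ, p.Prime → ∃ K : Subgroup G, K.Normal ∧ K ≤ F ∧ (∀ x ∈ F, ∃ n : ℕ, x ^ p ^ n ∈ K) ∧
      Nat.card K = ∏ r ∈ (Nat.card F).primeFactors.erase p, Nat.card (P r)

/-- F2b: products of elements of coprime prime power order -/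
def SF2b : Prop := ∀ (G : Type u) [Group G] [Finite G] (R : Finset ℕ) (b : ∀ r : ℕ, Base G r),
  (∀ r ∈ R, r.Prime) →
  ∑ x ∈ (R ×ˢ R).filter (fun x => x.1 < x.2), (b x.1).len * (b x.2).len ≤ kc G

/-- F2c: numbers -/
def SF2c : Prop := ∀ (k Y : ℕ) (R : Finset ℕ) (μ : ℕ → ℕ), R.Nonempty →
  ∑ x ∈ (R ×ˢ R).filter (fun x => x.1 < x.2), μ x.1 * μ x.2 ≤ k →
  ∃ p ∈ R, Y * ∑ r ∈ R.erase p, μ r ≤ k + Y ^ 2 + 2 * Y * (Nat.sqrt k + 1)

/-- F2 -/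
def SF2 : Prop := ∀ (Y : ℕ) (G : Type u) [Group G] [Finite G] (F : Subgroup G), F.Normal →
  Group.IsNilpotent F → ChiefLe G Y → ∃ p : ℕ, p.Prime ∧ ∃ K : Subgroup G, K.Normal ∧ K ≤ F ∧
    (∀ x ∈ F, ∃ n : ℕ, x ^ p ^ n ∈ K) ∧
    Nat.card K ≤ 2 ^ (kc G + Y ^ 2 + 2 * Y * (Nat.sqrt (kc G) + 1))

/-- F3 -/
def SF3 : Prop := ∀ (l Y : ℕ) (G : Type u) [Group G] [Finite G], Group.IsSolvable G →
  kc G < 2 ^ l → ChiefLe G Y → ∃ p : ℕ, p.Prime ∧ ∃ (K : Subgroup G) (_ : K.Normal)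
    (Q : Subgroup (G ⧸ K)), Q.Normal ∧ IsPGroup p Q ∧ Q.index ≤ 2 ^ (l * Y ^ 2) ∧
    Nat.card G ≤ Nat.card Q *
      2 ^ (l * Y ^ 2 + (kc G + Y ^ 2 + 2 * Y * (Nat.sqrt (kc G) + 1)))

/-! ### Part G; here `kc G ≤ K`, `K < 2 ^ l ≤ 2 K`, `l < 2 ^ u` and `1 ≤ u` -/

/-- the numerical parameters -/
structure Par (K l u : ℕ) : Prop where
  lt : K < 2 ^ l
  le : 2 ^ l ≤ 2 * K
  lu : l < 2 ^ u
  ul : 2 ^ u ≤ 2 * l
  one : 1 ≤ u

/-- G1: the typical bad levels -/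
def SG1 : Prop := ∀ a : ℕ, ∃ c : ℕ, ∀ (p K l u : ℕ) [Fact p.Prime] (G : Type u) [Group G]
  [Finite G] (b : Base G p), Group.IsSolvable G → kc G ≤ K → Par K l u →
  ChiefLe G (2 ^ (a * u ^ 2)) → ∃ T : Finset ℕ, T ⊆ Finset.range b.len ∧
    (∀ i ∈ T, (b.Q (i + 1)).relIndex (b.Q i) ≤ 2 ^ (2 * l)) ∧
    ∏ i ∈ Finset.range b.len \ T, (b.Q (i + 1)).relIndex (b.Q i) ≤ 2 ^ (c * u ^ 2 * K) ∧
    b.nset T ≤ 2 ^ (c * u ^ 2)

/-- G2: elementary abelian sections -/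
def SG2 : Prop := ∀ a : ℕ, ∃ c : ℕ, ∀ (p K l u : ℕ) [Fact p.Prime] (G : Type u) [Group G]
  [Finite G] (b : Base G p) (T : Finset ℕ), kc G ≤ K → Par K l u →
  ChiefLe G (2 ^ (a * u ^ 2)) → T ⊆ Finset.range b.len → b.nset T ≤ 2 ^ (a * u ^ 2) →
  ∀ M L : Subgroup G, ElSec p M L → L ≤ b.Q 0 → b.rho T M L * l ≤ c * u ^ 2 * K

/-- G3: abelian sections -/
def SG3 : Prop := ∀ a : ℕ, ∃ c : ℕ, ∀ (p K l u : ℕ) [Fact p.Prime] (G : Type u) [Group G]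
  [Finite G] (b : Base G p) (T : Finset ℕ), kc G ≤ K → Par K l u →
  ChiefLe G (2 ^ (a * u ^ 2)) → T ⊆ Finset.range b.len → b.nset T ≤ 2 ^ (a * u ^ 2) →
  ∀ M L : Subgroup G, AbSec M L → L ≤ b.Q 0 → b.rho T M L * l ≤ c * u ^ 4 * K

/-- G4: all levels -/
def SG4 : Prop := ∀ a : ℕ, ∃ c : ℕ, ∀ (p K l u : ℕ) [Fact p.Prime] (G : Type u) [Group G]
  [Finite G] (b : Base G p) (T : Finset ℕ), kc G ≤ K → Par K l u →
  ChiefLe G (2 ^ (a * u ^ 2)) → T ⊆ Finset.range b.len → b.nset T ≤ 2 ^ (a * u ^ 2) →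
  (b.Q 0).index ≤ 2 ^ (2 ^ (a * u ^ 2)) → T.card * l ≤ c * u ^ 6 * K

/-- G5: Theorem Q -/
def SG5 : Prop := ∀ a : ℕ, ∃ c : ℕ, ∀ (p K l u : ℕ) [Fact p.Prime] (G : Type u) [Group G]
  [Finite G] (Q : Subgroup G), Q.Normal → IsPGroup p Q → Group.IsSolvable G → kc G ≤ K →
  Par K l u → ChiefLe G (2 ^ (a * u ^ 2)) → Q.index ≤ 2 ^ (2 ^ (a * u ^ 2)) →
  Nat.card Q ≤ 2 ^ (c * u ^ 6 * K)

/-- final: natural number form -/
def SFinN : Prop := ∃ c : ℕ, ∀ (K l u : ℕ) (G : Type u) [Group G] [Finite G],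
  Group.IsSolvable G → kc G = K → Par K l u → Nat.card G ≤ 2 ^ (c * u ^ 6 * K)

/-- final -/
def SFin : Prop := ∃ C : ℝ, 0 < C ∧ ∀ (G : Type u) [Group G] [Finite G], Group.IsSolvable G →
  Real.logb 2 (Nat.card G) ≤
    C * kc G * (1 + Real.logb 2 (1 + Real.logb 2 (kc G))) ^ 6

end H48.CN
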